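import Pool.Agent.T9h1.Chord1

/-! # Points on a hypersurface over a countable field -/

set_option autoImplicit false

namespace Pool.Agent.T9h1

open MvPolynomial Pool.Agent.TH314.PD Module Pool.Agent.Y201.C3 IntermediateField
open Pool.Agent.R845.T2 Pool.Agent.R845.E3 Pool.Agent.N122 Pool.Agent.R845.VG

noncomputable section

/-- the relative algebraic closure of a countable field is countable -/
theorem exists_closure (k : Subfield ℂ) [Countable k] :
    ∃ K : Subfield ℂ, k ≤ K ∧ Countable K ∧ ∀ a : ℂ, IsAlgebraic K a → a ∈ K := by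
  refine ⟨(algebraicClosure k ℂ).toSubfield, ?_, ?_, ?_⟩
  · intro x hx
    exact (algebraicClosure k ℂ).algebraMap_mem ⟨x, hx⟩
  · have h1 := Algebra.IsAlgebraic.cardinalMk_le_max k (algebraicClosure k ℂ)
    have h2 : Cardinal.mk k ≤ Cardinal.aleph0 := Cardinal.mk_le_aleph0_iff.2 inferInstance
    rw [max_eq_right h2] at h1
    exact Cardinal.mk_le_aleph0_iff.1 h1
  · intro a ha
    have h1 : IsAlgebraic (algebraicClosure k ℂ) a := ha
    have h2 : IsAlgebraic k a := h1.restrictScalars k
    exact mem_algebraicClosure_iff.2 h2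

theorem finite_mon (r d : ℕ) : Finite (Mon r d) := by
  have h1 : {m : Fin r →₀ ℕ | m.degree = d}.Finite := by
    refine (Finsupp.finite_of_degree_le d).subset ?_
    intro m hm
    exact le_of_eq hm
  exact h1

/-- the values of a form with independent coefficients -/
theorem value_ne {r : ℕ} (K : Subfield ℂ) (F : MvPolynomial (Fin r) ℂ) (d : ℕ)
    (hF : F.IsHomogeneous d) (hli : LinearIndependent K (cf d F)) (w : Fin r → ℂ)
    (hw : ∀ i, w i ∈ K) (hw0 : w ≠ 0) : eval w F ≠ 0 := by
  classical
  have hfin := finite_mon r d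
  let _ := Fintype.ofFinite (Mon r d)
  intro h0
  have hFs : F = ∑ β : Mon r d, monomial β.1 (cf d F β) := by
    ext m
    rw [coeff_sum]
    by_cases hm : m.degree = d
    · rw [Finset.sum_eq_single ⟨m, hm⟩]
      · rw [coeff_monomial, if_pos rfl]
        rfl
      · intro γ _ hγ
        rw [coeff_monomial, if_neg]
        intro h
        exact hγ (Subtype.ext h)
      · intro h
        exact absurd (Finset.mem_univ _) h
    · rw [Finset.sum_eq_zero]
      · by_contra hcon
        apply hm
        have h1 := hF hcon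
        rw [Finsupp.degree_eq_weight_one]
        exact h1
      · intro γ _
        rw [coeff_monomial, if_neg]
        intro h
        exact hm (h ▸ γ.2)
  let g : Mon r d → K := fun β => ⟨β.1.prod fun i e => w i ^ e, by
    exact Subfield.prod_mem _ fun i _ => pow_mem (hw i) _⟩
  have h1 : ∑ β : Mon r d, g β • cf d F β = 0 := by
    rw [hFs, map_sum] at h0
    rw [← h0]
    refine Finset.sum_congr rfl fun β _ => ?_
    rw [eval_monomial, mul_comm]
    rfl
  have h2 := Fintype.linearIndependent_iff.1 hli g h1
  obtain ⟨i, hi⟩ := Function.ne_iff.1 hw0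
  have h3 := h2 ⟨Finsupp.single i d, by rw [Finsupp.degree_single]⟩
  have h4 := congrArg (fun a : K => (a : ℂ)) h3
  simp only [g] at h4
  have h5 : (Finsupp.single i d).prod (fun i e => w i ^ e) = w i ^ d := by
    rw [Finsupp.prod_single_index (by rw [pow_zero])]
  rw [h5] at h4
  exact hi (eq_zero_of_pow_eq_zero h4)

/-- a cubic with independent coefficients does not divide a form over the base field -/
theorem not_dvd {m : ℕ} (K : Subfield ℂ) (hK : ∀ a : ℂ, IsAlgebraic K a → a ∈ K)
    (F : MvPolynomial (Fin (m + 2)) ℂ) (hF : F.IsHomogeneous 3)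
    (hli : LinearIndependent K (cf 3 F)) (H : MvPolynomial (Fin (m + 2)) K) (hH0 : H ≠ 0) :
    ¬ F ∣ map K.subtype H := by
  classical
  intro hdvd
  -- a point outside the hypersurface
  have h1 : X 0 * H ≠ 0 := mul_ne_zero (X_ne_zero _) hH0
  obtain ⟨v, hv⟩ : ∃ v : Fin (m + 2) → K, eval v (X 0 * H) ≠ 0 := by
    by_contra hcon
    push Not at hcon
    exact h1 (MvPolynomial.funext fun x => by rw [hcon x, map_zero])
  rw [map_mul, eval_X] at hv
  have hv0 : v 0 ≠ 0 := left_ne_zero_of_mul hv
  have hvH : eval v H ≠ 0 := right_ne_zero_of_mul hv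
  let w : Fin (m + 2) → K := Pi.single 1 1
  obtain ⟨T, hT, hFT⟩ := exists_tri F hF
  have hev : ∀ u : Fin (m + 2) → ℂ, eval u F = Bg T u u u := by
    intro u
    conv_lhs => rw [hFT]
    have h2 := aeval_frmG (R := ℂ) T u
    rw [aeval_def, Algebra.algebraMap_self, eval₂_id] at h2
    exact h2
  let vC : Fin (m + 2) → ℂ := fun i => (v i : ℂ)
  let wC : Fin (m + 2) → ℂ := fun i => (w i : ℂ)
  have hwC : Bg T wC wC wC ≠ 0 := by
    rw [← hev]
    refine value_ne K F 3 hF hli wC (fun i => (w i).2) ?_
    intro h
    have h2 := congrFun h 1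
    simp [wC, w] at h2
  obtain ⟨S, hS⟩ := IsAlgClosed.exists_root (Polynomial.C (Bg T wC wC wC) * Polynomial.X ^ 3 +
    Polynomial.C (3 * Bg T vC wC wC) * Polynomial.X ^ 2 + Polynomial.C (3 * Bg T vC vC wC) *
      Polynomial.X + Polynomial.C (Bg T vC vC vC)) (by
    rw [Polynomial.degree_cubic hwC]
    decide)
  have hFS : eval (fun i => vC i + S * wC i) F = 0 := by
    rw [hev]
    have h2 := Bg_span3 hT vC wC wC 1 S 0
    have h3 : (fun i => 1 * vC i + S * wC i + 0 * wC i) = fun i => vC i + S * wC i := by
      funext i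
      ring
    rw [h3] at h2
    rw [h2]
    rw [Polynomial.IsRoot.def] at hS
    simp only [Polynomial.eval_add, Polynomial.eval_mul, Polynomial.eval_C, Polynomial.eval_X,
      Polynomial.eval_pow] at hS
    linear_combination hS
  have hHS : eval (fun i => vC i + S * wC i) (map K.subtype H) = 0 := by
    obtain ⟨Q, hQ⟩ := hdvd
    rw [hQ, map_mul, hFS, zero_mul]
  -- the parameter is algebraic
  let h : Polynomial K := aeval (fun i => Polynomial.C (v i) + Polynomial.X * Polynomial.C (w i)) H
  have hh0 : h ≠ 0 := by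
    intro h0
    apply hvH
    have h2 := congrArg (Polynomial.eval 0) h0
    rw [Polynomial.eval_zero] at h2
    rw [← h2]
    have h3 := comp_aeval_apply (f := fun i => Polynomial.C (v i) + Polynomial.X *
      Polynomial.C (w i)) (Polynomial.aeval (R := K) (0 : K)) H
    rw [Polynomial.coe_aeval_eq_eval] at h3
    have h4 : Polynomial.eval 0 h = aeval (fun i => Polynomial.eval 0 (Polynomial.C (v i) +
      Polynomial.X * Polynomial.C (w i))) H := h3
    rw [h4, aeval_def, Algebra.algebraMap_self, eval₂_id]
    congr 2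
    funext i
    simp
  have hSalg : IsAlgebraic K S := by
    refine ⟨h, hh0, ?_⟩
    have h3 := comp_aeval_apply (f := fun i => Polynomial.C (v i) + Polynomial.X *
      Polynomial.C (w i)) (Polynomial.aeval (R := K) (S : ℂ)) H
    have h4 : Polynomial.aeval S h = aeval (fun i => Polynomial.aeval S (Polynomial.C (v i) +
      Polynomial.X * Polynomial.C (w i))) H := h3
    rw [h4]
    rw [eval_map] at hHS
    rw [aeval_def]
    have h5 : (fun i => Polynomial.aeval S (Polynomial.C (v i) + Polynomial.X *
      Polynomial.C (w i))) = fun i => vC i + S * wC i := by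
      funext i
      rw [map_add, map_mul, Polynomial.aeval_C, Polynomial.aeval_X, Polynomial.aeval_C]
      rfl
    rw [h5]
    exact hHS
  have hSK := hK S hSalg
  refine value_ne K F 3 hF hli (fun i => vC i + S * wC i) (fun i =>
    add_mem (v i).2 (mul_mem hSK (w i).2)) ?_ hFS
  intro h2
  have h3 := congrFun h2 0
  have h4 : wC 0 = 0 := by
    change ((Pi.single 1 1 : Fin (m + 2) → K) 0 : ℂ) = 0
    rw [Pi.single_eq_of_ne (by simp)]
    rfl
  simp only [Pi.zero_apply] at h3
  rw [h4, mul_zero, add_zero] at h3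
  exact hv0 (Subtype.ext h3)

/-- a form with coefficients in a subfield -/
theorem exists_lift {r : ℕ} (k K : Subfield ℂ) (hkK : k ≤ K) (H : MvPolynomial (Fin r) ℂ)
    (hH : ∀ m, coeff m H ∈ k) : ∃ H' : MvPolynomial (Fin r) K, map K.subtype H' = H := by
  have h1 : H ∈ Set.range (MvPolynomial.map (σ := Fin r) K.subtype) := by
    rw [mem_range_map_iff_coeffs_subset]
    intro a ha
    rw [Finset.mem_coe, mem_coeffs_iff] at ha
    obtain ⟨m, -, rfl⟩ := ha
    exact ⟨⟨coeff m H, hkK (hH m)⟩, rfl⟩
  exact h1

/-- **chords through the points of a hypersurface over the base field** -/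
theorem chord_k {n : ℕ} (K : Subfield ℂ) [Countable K] (hK : ∀ a : ℂ, IsAlgebraic K a → a ∈ K)
    {F : MvPolynomial (Fin (n + 2)) ℂ} (hF : F.IsHomogeneous 3) (hsm : Sm F)
    (hind : AlgebraicIndependent K (cf 3 F)) {M : Type} [Field M] [Algebra ℂ M]
    (x c : Fin (n + 2) → M) (hG : Gp F x) (hodd : Odd (finrank (ratioField x) M)) (hc : c ≠ 0)
    (hcF : aeval c F = 0) (H : MvPolynomial (Fin (n + 2)) K) (d : ℕ) (hH : H.IsHomogeneous d)
    (hH0 : H ≠ 0) (hcH : aeval c (map K.subtype H) = 0) (s t : M) (hs : s ≠ 0)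
    (hst : aeval (fun j => s * x j + t * c j) F = 0) :
    Gp F (fun j => s * x j + t * c j) ∧
      Odd (finrank (ratioField fun j => s * x j + t * c j) M) := by
  have hnd := not_dvd K hK F hF hind.linearIndependent H hH0
  have hHhom : (map K.subtype H).IsHomogeneous d := hH.map _
  have hxc : LinearIndependent M ![x, c] := by
    rw [LinearIndependent.pair_iff]
    intro u v huv
    have hu : u = 0 := by
      by_contra hu
      apply hnd
      refine hG.2 d _ hHhom ?_
      have h1 : x = fun i => -(v / u) * c i := by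
        funext i
        have h2 := congrFun huv i
        simp only [Pi.add_apply, Pi.smul_apply, smul_eq_mul, Pi.zero_apply] at h2
        field_simp
        linear_combination h2
      rw [h1, aeval_smul_form hHhom, hcH, mul_zero]
    refine ⟨hu, ?_⟩
    rw [hu, zero_smul, zero_add] at huv
    exact (smul_eq_zero.1 huv).resolve_right hc
  refine chord_gen hF hsm x c hG hodd hxc (fun h => hnd (h.2 d _ hHhom hcH)) hcF ?_ s t hs hst
  intro hz hodd'
  let f : M →ₐ[ℂ] FractionRing (Polynomial M) := (IsScalarTower.toAlgHom ℂ (Polynomial M)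
      (FractionRing (Polynomial M))).comp (Polynomial.CAlgHom : M →ₐ[ℂ] Polynomial M)
  have hf : ∀ v, f v = algebraMap (Polynomial M) (FractionRing (Polynomial M))
    (Polynomial.C v) := fun _ => rfl
  refine no_special K F hF hind H d hH hH0 _ hz hodd' (fun i => f (c i)) ?_ ?_ ?_
    (-(algebraMap (Polynomial M) (FractionRing (Polynomial M)) Polynomial.X)) ?_
  · intro h
    apply hc
    funext i
    have h2 := congrFun h i
    exact f.toRingHom.injective (by
      rw [Pi.zero_apply, map_zero]
      exact h2)
  · have h4 := comp_aeval_apply (f := c) f F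
    rw [hcF, map_zero] at h4
    exact h4.symm
  · have h4 := comp_aeval_apply (f := c) f (map K.subtype H)
    rw [hcH, map_zero] at h4
    exact h4.symm
  · have h4 := comp_aeval_apply (f := x) f F
    rw [hG.1, map_zero] at h4
    rw [h4]
    congr 2
    funext i
    rw [hf, hf, map_add, map_mul]
    ring

/-- **the points of an odd family of conics are generic over the base field** -/
theorem no_conics_k {n : ℕ} (K : Subfield ℂ) [Countable K]
    (hK : ∀ a : ℂ, IsAlgebraic K a → a ∈ K)
    {F : MvPolynomial (Fin (n + 2)) ℂ} (hF : F.IsHomogeneous 3) (hsm : Sm F)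
    (hind : AlgebraicIndependent K (cf 3 F)) {M : Type} [Field M] [Algebra ℂ M]
    (L : IntermediateField ℂ M) (t : M)
    (ht : Transcendental L t) (α β γ : Fin (n + 2) → M) (hα : ∀ i, α i ∈ L)
    (hβ : ∀ i, β i ∈ L) (hγ : ∀ i, γ i ∈ L)
    (hG : Gp F (fun i => t ^ 2 * α i + t * β i + γ i)) (H : MvPolynomial (Fin (n + 2)) K) (d : ℕ)
    (hH : H.IsHomogeneous d) (hH0 : H ≠ 0) (hcH : aeval α (map K.subtype H) = 0) :
    Even (finrank (ratioField fun i => t ^ 2 * α i + t * β i + γ i) M) := by
  have hnd := not_dvd K hK F hF hind.linearIndependent H hH0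
  have hHhom : (map K.subtype H).IsHomogeneous d := hH.map _
  refine no_conics_gen hF hsm L t ht α β γ hα hβ hγ hG ?_ ?_
  · intro hα0
    rw [LinearIndependent.pair_iff]
    intro u v huv
    have hu : u = 0 := by
      by_contra hu
      apply hnd
      refine hG.2 d _ hHhom ?_
      have h1 : (fun i => t ^ 2 * α i + t * β i + γ i) = fun i => -(v / u) * α i := by
        funext i
        have h2 := congrFun huv i
        simp only [Pi.add_apply, Pi.smul_apply, smul_eq_mul, Pi.zero_apply] at h2
        field_simp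
        linear_combination h2
      rw [h1, aeval_smul_form hHhom, hcH, mul_zero]
    refine ⟨hu, ?_⟩
    rw [hu, zero_smul, zero_add] at huv
    exact (smul_eq_zero.1 huv).resolve_right hα0
  · intro hα0 hαF s τ hs hodd hst
    exact chord_k K hK hF hsm hind _ α hG hodd hα0 hαF H d hH hH0 hcH s τ hs hst

end

end Pool.Agent.T9h1
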