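import Pool.Agent.T9h1.C21

/-! # Chords and conics through points of transcendence degree at most one: the theorems -/

set_option autoImplicit false

namespace Pool.Agent.T9h1

open MvPolynomial Pool.Agent.TH314.PD Module Pool.Agent.Y201.C3 IntermediateField
open Pool.Agent.R845.T2 Pool.Agent.R845.E3 Pool.Agent.N122 Pool.Agent.R845.VG

noncomputable section

/-- the relations of a point of transcendence degree at most one -/
theorem exists_rel {k : ℕ} (K : Subfield ℂ) {F : MvPolynomial (Fin (k + 3 + 2)) ℂ}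
    (hind : AlgebraicIndependent K (cf 3 F)) {M : Type} [Field M] [Algebra ℂ M]
    (c : Fin (k + 3 + 2) → M) (htr : Algebra.trdeg ℂ (ratioField c) ≤ 1) :
    ∃ (d : Tr (k + 4) → ℕ) (Ψ : Tr (k + 4) → MvPolynomial (Fin (k + 3 + 2)) ℂ) (t0 : Tr (k + 4)),
      (∀ t, (Ψ t).IsHomogeneous (d t)) ∧ (∀ t, Ψ t ≠ 0) ∧
      (∀ t : Tr (k + 4), ∀ β ∈ (Ψ t).support, ∀ a, a ≠ 0 → a ≠ t.1.1 → a ≠ t.1.2 → β a = 0) ∧
      (∀ t, aeval c (Ψ t) = 0) ∧ ¬ F ∣ Ψ t0 := by
  choose d Ψ h1 h2 h3 h4 using fun t : Tr (k + 4) =>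
    tern c htr 0 t.1.1 t.1.2 t.2.1 t.2.2.1 t.2.2.2
  refine ⟨d, Ψ, ⟨(i1 k, i2 k), (n10 k).symm, (n20 k).symm, (n21 k).symm⟩, h1, h2, h3, h4, ?_⟩
  refine not_dvd3 F _ (i3 k) ?_ (h2 _) fun β hβ => h3 _ β hβ (i3 k) (n30 k) (n31 k) (n32 k)
  exact hind.ne_zero ⟨Finsupp.single (i3 k) 3, Finsupp.degree_single _ _⟩

/-- **chords through points of transcendence degree at most one** -/
theorem chord_curve {k : ℕ} (K : Subfield ℂ) [Countable K] {F : MvPolynomial (Fin (k + 3 + 2)) ℂ}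
    (hF : F.IsHomogeneous 3) (hsm : Sm F) (hind : AlgebraicIndependent K (cf 3 F))
    {M : Type} [Field M] [Algebra ℂ M] (x c : Fin (k + 3 + 2) → M) (hG : Gp F x)
    (hodd : Odd (finrank (ratioField x) M)) (hc : c ≠ 0)
    (hcF : aeval c F = 0) (htr : Algebra.trdeg ℂ (ratioField c) ≤ 1)
    (s t : M) (hs : s ≠ 0) (hst : aeval (fun j => s * x j + t * c j) F = 0) :
    Gp F (fun j => s * x j + t * c j) ∧
      Odd (finrank (ratioField fun j => s * x j + t * c j) M) := by
  obtain ⟨d, Ψ, t0, h1, h2, h3, h4, h5⟩ := exists_rel K hind c htr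
  exact chord_fam hF hsm x c hG hodd hc hcF Ψ d h1 t0 h5 h4
    (fun _ _ _ z hz hodd' c' hc' hcF' hc'Ψ τ hτ =>
      no_curve K F hF hind Ψ d h1 h2 h3 z hz hodd' c' hc' hcF' hc'Ψ τ hτ) s t hs hst

/-- **odd families of conics and points of transcendence degree at most one** -/
theorem no_conics_curve {k : ℕ} (K : Subfield ℂ) [Countable K]
    {F : MvPolynomial (Fin (k + 3 + 2)) ℂ}
    (hF : F.IsHomogeneous 3) (hsm : Sm F) (hind : AlgebraicIndependent K (cf 3 F))
    {M : Type} [Field M] [Algebra ℂ M] (L : IntermediateField ℂ M) (t : M)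
    (ht : Transcendental L t) (α β γ : Fin (k + 3 + 2) → M) (hα : ∀ i, α i ∈ L)
    (hβ : ∀ i, β i ∈ L) (hγ : ∀ i, γ i ∈ L)
    (hG : Gp F (fun i => t ^ 2 * α i + t * β i + γ i))
    (htr : Algebra.trdeg ℂ (ratioField α) ≤ 1) :
    Even (finrank (ratioField fun i => t ^ 2 * α i + t * β i + γ i) M) := by
  obtain ⟨d, Ψ, t0, h1, h2, h3, h4, h5⟩ := exists_rel K hind α htr
  refine no_conics_gen hF hsm L t ht α β γ hα hβ hγ hG ?_ ?_
  · intro hα0
    rw [LinearIndependent.pair_iff]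
    intro u v huv
    have hu : u = 0 := by
      by_contra hu
      apply h5
      refine hG.2 _ _ (h1 t0) ?_
      have e1 : (fun i => t ^ 2 * α i + t * β i + γ i) = fun i => -(v / u) * α i := by
        funext i
        have e2 := congrFun huv i
        simp only [Pi.add_apply, Pi.smul_apply, smul_eq_mul, Pi.zero_apply] at e2
        field_simp
        linear_combination e2
      rw [e1, aeval_smul_form (h1 t0), h4, mul_zero]
    refine ⟨hu, ?_⟩
    rw [hu, zero_smul, zero_add] at huv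
    exact (smul_eq_zero.1 huv).resolve_right hα0
  · intro hα0 hαF s τ hs hodd hst
    exact chord_curve K hF hsm hind _ α hG hodd hα0 hαF htr s τ hs hst

end

end Pool.Agent.T9h1
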