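import Pool.Agent.T9h1.Cov3

/-! # Forms in the gradient and in the Hessian matrix -/

set_option autoImplicit false

namespace Pool.Agent.T9h1

open MvPolynomial Pool.Agent.TH314.PD Module Pool.Agent.Y201.C3 IntermediateField
open Pool.Agent.R845.T2 Pool.Agent.R845.E3 Pool.Agent.N122 Pool.Agent.R845.VG

noncomputable section

theorem exists_lift' {σ : Type} (K : Subfield ℂ) (H : MvPolynomial σ ℂ)
    (hH : ∀ m, coeff m H ∈ K) : ∃ H' : MvPolynomial σ K, map K.subtype H' = H := by
  have h1 : H ∈ Set.range (MvPolynomial.map (σ := σ) K.subtype) := by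
    rw [mem_range_map_iff_coeffs_subset]
    intro a ha
    rw [Finset.mem_coe, mem_coeffs_iff] at ha
    obtain ⟨m, -, rfl⟩ := ha
    exact ⟨⟨coeff m H, hH m⟩, rfl⟩
  exact h1

/-- a countable field which contains the coefficients of countably many polynomials -/
theorem exists_coef_field {σ τ : Type} (D : Set (MvPolynomial σ ℂ)) (hD : D.Countable)
    (D' : Set (MvPolynomial τ ℂ)) (hD' : D'.Countable) :
    ∃ K : Subfield ℂ, Countable K ∧ (∀ H ∈ D, ∀ m, coeff m H ∈ K) ∧
      ∀ H ∈ D', ∀ m, coeff m H ∈ K := by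
  have hco : ∀ {ρ : Type} (H : MvPolynomial ρ ℂ), (Set.range fun m => coeff m H).Countable := by
    intro ρ H
    refine (((H.support.finite_toSet).image fun m => coeff m H).union
      (Set.finite_singleton (0 : ℂ))).countable.mono ?_
    rintro _ ⟨m, rfl⟩
    by_cases hm : coeff m H = 0
    · exact Or.inr hm
    · exact Or.inl ⟨m, mem_support_iff.2 hm, rfl⟩
  let S : Set ℂ := (⋃ H ∈ D, Set.range fun m => coeff m H) ∪
    ⋃ H ∈ D', Set.range fun m => coeff m H
  have hS : S.Countable := (hD.biUnion fun H _ => hco H).union (hD'.biUnion fun H _ => hco H)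
  refine ⟨Subfield.closure S, ?_, fun H hH m => Subfield.subset_closure ?_,
    fun H hH m => Subfield.subset_closure ?_⟩
  · have h1 := Subfield.cardinalMk_closure_le_max S
    have h2 : Cardinal.mk S ≤ Cardinal.aleph0 := Cardinal.mk_le_aleph0_iff.2 hS.to_subtype
    rw [max_eq_right h2] at h1
    exact Cardinal.mk_le_aleph0_iff.1 h1
  · exact Or.inl (Set.mem_biUnion hH ⟨m, rfl⟩)
  · exact Or.inr (Set.mem_biUnion hH ⟨m, rfl⟩)

/-- the value of a form in covariants -/
theorem aeval_cov {σ ι R : Type} [CommRing R] [Algebra ℂ R] (K : Subfield ℂ)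
    (G : ι → MvPolynomial σ ℂ) (P : MvPolynomial ι K) (c : σ → R) :
    aeval c (eval₂ (C.comp K.subtype) G P) =
      aeval (fun j => aeval c (G j)) (map K.subtype P) := by
  have h1 : ((aeval c : MvPolynomial σ ℂ →ₐ[ℂ] R).toRingHom).comp
      (eval₂Hom (C.comp K.subtype) G) =
      ((aeval (fun j => aeval c (G j)) : MvPolynomial ι ℂ →ₐ[ℂ] R).toRingHom).comp
        (map K.subtype) := by
    apply MvPolynomial.ringHom_ext
    · intro x
      simp
    · intro j
      simp
  exact RingHom.congr_fun h1 P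

theorem ne_grad {m : ℕ} (K : Subfield ℂ) (P : MvPolynomial (Fin (m + 2)) K) (hP0 : P ≠ 0) :
    eval₂ C (fun j => C ((3 : ℕ) : K) * X j) P ≠ (0 : MvPolynomial (Fin (m + 2)) K) := by
  intro h
  apply hP0
  have h1 : (eval₂Hom C (fun j => C ((3 : K)⁻¹) * X j)).comp
      (eval₂Hom C (fun j => C ((3 : ℕ) : K) * X j)) =
      RingHom.id (MvPolynomial (Fin (m + 2)) K) := by
    apply MvPolynomial.ringHom_ext
    · intro x
      simp
    · intro j
      simp only [RingHom.comp_apply, coe_eval₂Hom, eval₂_X, eval₂_mul, eval₂_C, RingHom.id_apply]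
      rw [← mul_assoc, ← C_mul]
      have h3 : ((3 : ℕ) : K) * (3 : K)⁻¹ = 1 := by
        push_cast
        exact mul_inv_cancel₀ (by norm_num)
      rw [h3, C_1, one_mul]
  have h2 := RingHom.congr_fun h1 P
  rw [RingHom.comp_apply, RingHom.id_apply] at h2
  rw [← h2]
  have h3 : (eval₂Hom C (fun j => C ((3 : ℕ) : K) * X j)) P = 0 := h
  rw [h3, map_zero]

theorem ne_hess {m : ℕ} (K : Subfield ℂ) (P : MvPolynomial (Fin (m + 2) × Fin (m + 2)) K)
    (t : Fin (m + 2) → ℂ)
    (ht : eval (fun p : Fin (m + 2) × Fin (m + 2) => if p.1 = p.2 then t p.1 else 0)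
      (map K.subtype P) ≠ 0) :
    eval₂ C (fun j : Fin (m + 2) × Fin (m + 2) =>
      C (((if j.1 = j.2 then 6 else 0 : ℕ)) : K) * X j.2) P ≠
        (0 : MvPolynomial (Fin (m + 2)) K) := by
  intro h
  apply ht
  have h1 : (eval₂Hom K.subtype (fun i : Fin (m + 2) => t i / 6)).comp
      (eval₂Hom C (fun j : Fin (m + 2) × Fin (m + 2) =>
        C (((if j.1 = j.2 then 6 else 0 : ℕ)) : K) * X j.2)) =
      (eval (fun p : Fin (m + 2) × Fin (m + 2) => if p.1 = p.2 then t p.1 else 0)).comp
        (map K.subtype) := by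
    apply MvPolynomial.ringHom_ext
    · intro x
      simp
    · rintro ⟨i, j⟩
      simp only [RingHom.comp_apply, coe_eval₂Hom, eval₂_X, eval₂_mul, eval₂_C, map_X, eval_X]
      by_cases hij : i = j
      · rw [if_pos hij, if_pos hij, map_natCast, hij]
        push_cast
        field_simp
      · rw [if_neg hij, if_neg hij, map_natCast, Nat.cast_zero, zero_mul]
  have h2 := RingHom.congr_fun h1 P
  rw [RingHom.comp_apply, RingHom.comp_apply] at h2
  rw [← h2]
  have h3 : (eval₂Hom C (fun j : Fin (m + 2) × Fin (m + 2) =>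
        C (((if j.1 = j.2 then 6 else 0 : ℕ)) : K) * X j.2)) P = 0 := h
  rw [h3, map_zero]

/-- the determinant as a form in the entries -/
def detForm (N : ℕ) : MvPolynomial (Fin N × Fin N) ℂ :=
  (Matrix.of fun i j => X (i, j)).det

theorem detForm_hom (N : ℕ) : (detForm N).IsHomogeneous N := by
  unfold detForm
  rw [Matrix.det_apply]
  refine IsHomogeneous.sum _ _ _ fun σ _ => ?_
  have h1 : (∏ i : Fin N, (Matrix.of fun i j => X (i, j)) (σ i) i :
      MvPolynomial (Fin N × Fin N) ℂ).IsHomogeneous N := by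
    have h2 := IsHomogeneous.prod (Finset.univ : Finset (Fin N))
      (fun i => (X (σ i, i) : MvPolynomial (Fin N × Fin N) ℂ)) (fun _ => 1)
      (fun i _ => isHomogeneous_X _ _)
    rw [Finset.sum_const, Finset.card_univ, Fintype.card_fin, smul_eq_mul, mul_one] at h2
    exact h2
  rcases Int.units_eq_one_or (Equiv.Perm.sign σ) with h | h
  · rw [h, one_smul]
    exact h1
  · rw [h]
    have h3 : ((-1 : ℤˣ) • (∏ i : Fin N, (Matrix.of fun i j => X (i, j)) (σ i) i :
        MvPolynomial (Fin N × Fin N) ℂ)) = -(∏ i : Fin N, (Matrix.of fun i j => X (i, j)) (σ i) i :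
        MvPolynomial (Fin N × Fin N) ℂ) := by
      rw [Units.neg_smul, one_smul]
    rw [h3]
    exact h1.neg

theorem aeval_detForm {R : Type} [CommRing R] [Algebra ℂ R] (N : ℕ) (f : Fin N × Fin N → R) :
    aeval f (detForm N) = (Matrix.of fun i j => f (i, j)).det := by
  unfold detForm
  rw [AlgHom.map_det]
  congr 1
  ext i j
  simp

end

end Pool.Agent.T9h1
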