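import Pool.Agent.T9h1.Quad1
import Pool.Agent.T9h1.Chord2

/-! # Chords through the points of hyperplanes and quadrics over the field of definition -/

set_option autoImplicit false

namespace Pool.Agent.T9h1

open MvPolynomial Pool.Agent.TH314.PD Module Pool.Agent.Y201.C3 IntermediateField
open Pool.Agent.R845.T2 Pool.Agent.R845.E3 Pool.Agent.N122 Pool.Agent.R845.VG

noncomputable section

theorem not_dvd2 {r : ℕ} {F : MvPolynomial (Fin r) ℂ} (hF : F.IsHomogeneous 3) (hF0 : F ≠ 0)
    {H : MvPolynomial (Fin r) ℂ} (hH0 : H ≠ 0) {e : ℕ} (he : e ≤ 2) (hH : H.IsHomogeneous e) :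
    ¬ F ∣ H := by
  rintro ⟨Q, rfl⟩
  have hQ : Q ≠ 0 := right_ne_zero_of_mul hH0
  have h1 := totalDegree_mul_of_isDomain hF0 hQ
  rw [hF.totalDegree hF0, hH.totalDegree hH0] at h1
  omega

/-- clearing denominators -/
theorem exists_Phi {m : ℕ} (K : Subfield ℂ) (F : MvPolynomial (Fin (m + 2)) ℂ)
    (H : MvPolynomial (Fin (m + 2)) ℂ) (hH0 : H ≠ 0) (e : ℕ) (hH : H.IsHomogeneous e)
    (hcoef : ∀ β, coeff β H ∈ adjoin K (Set.range (cf 3 F))) :
    ∃ (Φ : MvPolynomial (Fin (m + 2)) (MvPolynomial (Mon (m + 2) 3) K)) (a : ℂ), a ≠ 0 ∧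
      Φ.IsHomogeneous e ∧ Φ ≠ 0 ∧ map (eval₂Hom K.subtype (cf 3 F)) Φ = C a * H := by
  classical
  have hrs : ∀ β, ∃ r s : MvPolynomial (Mon (m + 2) 3) K,
      coeff β H = aeval (cf 3 F) r / aeval (cf 3 F) s := fun β =>
    (mem_adjoin_range_iff K (cf 3 F) _).1 (hcoef β)
  choose r s hrs using hrs
  have hs0 : ∀ β ∈ H.support, aeval (cf 3 F) (s β) ≠ 0 := by
    intro β hβ h0
    have h1 := hrs β
    rw [h0, div_zero] at h1
    exact (MvPolynomial.mem_support_iff.1 hβ) h1
  let Φ : MvPolynomial (Fin (m + 2)) (MvPolynomial (Mon (m + 2) 3) K) :=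
    ∑ β ∈ H.support, monomial β (r β * ∏ γ ∈ H.support.erase β, s γ)
  let a : ℂ := ∏ γ ∈ H.support, aeval (cf 3 F) (s γ)
  have ha : a ≠ 0 := Finset.prod_ne_zero_iff.2 hs0
  have hco : ∀ β, coeff β Φ = if β ∈ H.support then r β * ∏ γ ∈ H.support.erase β, s γ else 0 := by
    intro β
    change coeff β (∑ β ∈ H.support, monomial β (r β * ∏ γ ∈ H.support.erase β, s γ)) = _
    rw [coeff_sum]
    simp only [coeff_monomial]
    rw [Finset.sum_ite_eq']
  have hev : ∀ p : MvPolynomial (Mon (m + 2) 3) K, eval₂Hom K.subtype (cf 3 F) p =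
      aeval (cf 3 F) p := fun _ => rfl
  have hmap : map (eval₂Hom K.subtype (cf 3 F)) Φ = C a * H := by
    ext β
    rw [coeff_map, hco, coeff_C_mul]
    by_cases hβ : β ∈ H.support
    · rw [if_pos hβ, hev, map_mul, map_prod, hrs β]
      change _ = (∏ γ ∈ H.support, aeval (cf 3 F) (s γ)) * _
      rw [← Finset.mul_prod_erase _ _ hβ]
      field_simp [hs0 β hβ]
    · rw [if_neg hβ, map_zero, MvPolynomial.notMem_support_iff.1 hβ, mul_zero]
  refine ⟨Φ, a, ha, ?_, ?_, hmap⟩
  · intro β hβ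
    rw [hco] at hβ
    by_cases h : β ∈ H.support
    · exact hH (MvPolynomial.mem_support_iff.1 h)
    · rw [if_neg h] at hβ
      exact absurd rfl hβ
  · intro h
    rw [h, map_zero] at hmap
    exact mul_ne_zero ((map_ne_zero_iff C (C_injective _ _)).2 ha) hH0 hmap.symm

/-- **chords through the points of a hyperplane or quadric over the field of definition** -/
theorem chord_q {n : ℕ} (K : Subfield ℂ) [Countable K]
    {F : MvPolynomial (Fin (n + 2)) ℂ} (hF : F.IsHomogeneous 3) (hsm : Sm F)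
    (hind : AlgebraicIndependent K (cf 3 F)) {M : Type} [Field M] [Algebra ℂ M]
    (x c : Fin (n + 2) → M) (hG : Gp F x) (hodd : Odd (finrank (ratioField x) M)) (hc : c ≠ 0)
    (hcF : aeval c F = 0) (H : MvPolynomial (Fin (n + 2)) ℂ) (d : ℕ) (hd : d ≤ 2)
    (hH : H.IsHomogeneous d) (hH0 : H ≠ 0)
    (hcoef : ∀ β, coeff β H ∈ adjoin K (Set.range (cf 3 F))) (hcH : aeval c H = 0)
    (s t : M) (hs : s ≠ 0)
    (hst : aeval (fun j => s * x j + t * c j) F = 0) :
    Gp F (fun j => s * x j + t * c j) ∧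
      Odd (finrank (ratioField fun j => s * x j + t * c j) M) := by
  have hF0 : F ≠ 0 := ne_zero_of_smooth (m := n + 1) hsm
  have hnd := not_dvd2 hF hF0 hH0 hd hH
  obtain ⟨Φ, a, ha, hΦh, hΦ0, hΦ⟩ := exists_Phi K F H hH0 d hH hcoef
  have hxc : LinearIndependent M ![x, c] := by
    rw [LinearIndependent.pair_iff]
    intro u v huv
    have hu : u = 0 := by
      by_contra hu
      apply hnd
      refine hG.2 d _ hH ?_
      have h1 : x = fun i => -(v / u) * c i := by
        funext i
        have h2 := congrFun huv i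
        simp only [Pi.add_apply, Pi.smul_apply, smul_eq_mul, Pi.zero_apply] at h2
        field_simp
        linear_combination h2
      rw [h1, aeval_smul_form hH, hcH, mul_zero]
    refine ⟨hu, ?_⟩
    rw [hu, zero_smul, zero_add] at huv
    exact (smul_eq_zero.1 huv).resolve_right hc
  refine chord_gen hF hsm x c hG hodd hxc (fun h => hnd (h.2 d _ hH hcH)) hcF ?_ s t hs hst
  intro hz hodd'
  let f : M →ₐ[ℂ] FractionRing (Polynomial M) := (IsScalarTower.toAlgHom ℂ (Polynomial M)
      (FractionRing (Polynomial M))).comp (Polynomial.CAlgHom : M →ₐ[ℂ] Polynomial M)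
  have hf : ∀ v, f v = algebraMap (Polynomial M) (FractionRing (Polynomial M))
    (Polynomial.C v) := fun _ => rfl
  refine no_quadric K F hF hind Φ d hd hΦh hΦ0 _ hz hodd' (fun i => f (c i)) ?_ ?_ ?_
    (-(algebraMap (Polynomial M) (FractionRing (Polynomial M)) Polynomial.X)) ?_
  · intro h
    apply hc
    funext i
    have h2 := congrFun h i
    exact f.toRingHom.injective (by
      rw [Pi.zero_apply, map_zero]
      exact h2)
  · have h4 := comp_aeval_apply (f := c) f F
    rw [hcF, map_zero] at h4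
    exact h4.symm
  · rw [hΦ, map_mul]
    have h4 := comp_aeval_apply (f := c) f H
    rw [hcH, map_zero] at h4
    rw [← h4, mul_zero]
  · have h4 := comp_aeval_apply (f := x) f F
    rw [hG.1, map_zero] at h4
    rw [h4]
    congr 2
    funext i
    rw [hf, hf, map_add, map_mul]
    ring

/-- **the points of an odd family of conics do not lie on a hyperplane or quadric over the field of
definition** -/
theorem no_conics_q {n : ℕ} (K : Subfield ℂ) [Countable K]
    {F : MvPolynomial (Fin (n + 2)) ℂ} (hF : F.IsHomogeneous 3) (hsm : Sm F)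
    (hind : AlgebraicIndependent K (cf 3 F)) {M : Type} [Field M] [Algebra ℂ M]
    (L : IntermediateField ℂ M) (t : M)
    (ht : Transcendental L t) (α β γ : Fin (n + 2) → M) (hα : ∀ i, α i ∈ L)
    (hβ : ∀ i, β i ∈ L) (hγ : ∀ i, γ i ∈ L)
    (hG : Gp F (fun i => t ^ 2 * α i + t * β i + γ i)) (H : MvPolynomial (Fin (n + 2)) ℂ) (d : ℕ)
    (hd : d ≤ 2) (hH : H.IsHomogeneous d) (hH0 : H ≠ 0)
    (hcoef : ∀ β, coeff β H ∈ adjoin K (Set.range (cf 3 F))) (hcH : aeval α H = 0) :
    Even (finrank (ratioField fun i => t ^ 2 * α i + t * β i + γ i) M) := by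
  have hF0 : F ≠ 0 := ne_zero_of_smooth (m := n + 1) hsm
  have hnd := not_dvd2 hF hF0 hH0 hd hH
  refine no_conics_gen hF hsm L t ht α β γ hα hβ hγ hG ?_ ?_
  · intro hα0
    rw [LinearIndependent.pair_iff]
    intro u v huv
    have hu : u = 0 := by
      by_contra hu
      apply hnd
      refine hG.2 d _ hH ?_
      have h1 : (fun i => t ^ 2 * α i + t * β i + γ i) = fun i => -(v / u) * α i := by
        funext i
        have h2 := congrFun huv i
        simp only [Pi.add_apply, Pi.smul_apply, smul_eq_mul, Pi.zero_apply] at h2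
        field_simp
        linear_combination h2
      rw [h1, aeval_smul_form hH, hcH, mul_zero]
    refine ⟨hu, ?_⟩
    rw [hu, zero_smul, zero_add] at huv
    exact (smul_eq_zero.1 huv).resolve_right hα0
  · intro hα0 hαF s τ hs hodd hst
    exact chord_q K hF hsm hind _ α hG hodd hα0 hαF H d hd hH hH0 hcoef hcH s τ hs hst

end

end Pool.Agent.T9h1
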