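import Mathlib

/-! # Two anisotropic quadratic forms over a field of rational functions -/

set_option autoImplicit false

namespace Pool.Agent.T9h1

open MvPolynomial

noncomputable section

variable {A : Type} [Field A]

/-- the point `(1, Y_0, ..., Y_{m-1})` -/
def uv (A : Type) [Field A] (m : ℕ) : Fin (m + 1) → MvPolynomial (Fin m) A := Fin.cons 1 X

/-- the exponents of `uv` -/
def du (m : ℕ) : Fin (m + 1) → (Fin m →₀ ℕ) := Fin.cons 0 fun j => Finsupp.single j 1

theorem uv_ne (m : ℕ) (i : Fin (m + 1)) : uv A m i ≠ 0 := by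
  refine Fin.cases ?_ (fun j => ?_) i
  · exact one_ne_zero
  · exact X_ne_zero j

theorem deg_uv (m : ℕ) (mo : MonomialOrder (Fin m)) (i : Fin (m + 1)) :
    mo.degree (uv A m i) = du m i := by
  refine Fin.cases ?_ (fun j => ?_) i
  · exact mo.degree_one
  · exact mo.degree_X

/-- a sum of polynomials with different leading exponents -/
theorem sum_lead {σ ι : Type} (mo : MonomialOrder σ) (I : Finset ι) (t : ι → MvPolynomial σ A)
    (hd : ∀ i ∈ I, ∀ j ∈ I, t i ≠ 0 → t j ≠ 0 → i ≠ j → mo.degree (t i) ≠ mo.degree (t j))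
    (hne : ∃ i ∈ I, t i ≠ 0) :
    ∃ i0 ∈ I, t i0 ≠ 0 ∧ ∑ i ∈ I, t i ≠ 0 ∧ mo.degree (∑ i ∈ I, t i) = mo.degree (t i0) ∧
      ∀ i ∈ I, t i ≠ 0 → mo.toSyn (mo.degree (t i)) ≤ mo.toSyn (mo.degree (t i0)) := by
  classical
  obtain ⟨i1, hi1, hi1'⟩ := hne
  have hJ : (I.filter fun i => t i ≠ 0).Nonempty := ⟨i1, Finset.mem_filter.2 ⟨hi1, hi1'⟩⟩
  obtain ⟨i0, hi0, hmax⟩ := Finset.exists_max_image _ (fun i => mo.toSyn (mo.degree (t i))) hJ
  obtain ⟨hi0I, hi0n⟩ := Finset.mem_filter.1 hi0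
  have hle : ∀ i ∈ I, t i ≠ 0 → mo.toSyn (mo.degree (t i)) ≤ mo.toSyn (mo.degree (t i0)) :=
    fun i hi hin => hmax i (Finset.mem_filter.2 ⟨hi, hin⟩)
  have hcoeff : coeff (mo.degree (t i0)) (∑ i ∈ I, t i) = coeff (mo.degree (t i0)) (t i0) := by
    rw [coeff_sum, Finset.sum_eq_single i0]
    · intro i hi hii
      by_cases h0 : t i = 0
      · rw [h0, coeff_zero]
      · apply mo.coeff_eq_zero_of_lt
        refine lt_of_le_of_ne (hle i hi h0) ?_
        intro h
        exact hd i hi i0 hi0I h0 hi0n hii (mo.toSyn.injective h)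
    · intro h
      exact absurd hi0I h
  have hc0 : coeff (mo.degree (t i0)) (∑ i ∈ I, t i) ≠ 0 := by
    rw [hcoeff]
    exact mo.leadingCoeff_ne_zero_iff.2 hi0n
  have hs0 : ∑ i ∈ I, t i ≠ 0 := by
    intro h
    rw [h, coeff_zero] at hc0
    exact hc0 rfl
  refine ⟨i0, hi0I, hi0n, hs0, ?_, hle⟩
  apply mo.toSyn.injective
  apply le_antisymm
  · rw [mo.degree_le_iff]
    intro c hc
    rw [mem_support_iff, coeff_sum] at hc
    obtain ⟨i, hi, hci⟩ := Finset.exists_ne_zero_of_sum_ne_zero hc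
    have h1 : t i ≠ 0 := by
      intro h
      rw [h, coeff_zero] at hci
      exact hci rfl
    exact (mo.le_degree (mem_support_iff.2 hci)).trans (hle i hi h1)
  · exact mo.le_degree (mem_support_iff.2 hc0)

/-- the sum of the forms `u_i c_i ^ 2` -/
theorem sq_sum {m : ℕ} (mo : MonomialOrder (Fin m)) (I : Finset (Fin (m + 1)))
    (c : Fin (m + 1) → MvPolynomial (Fin m) A) (hne : ∃ i ∈ I, c i ≠ 0) :
    ∃ i0 ∈ I, c i0 ≠ 0 ∧ ∑ i ∈ I, uv A m i * c i ^ 2 ≠ 0 ∧
      mo.degree (∑ i ∈ I, uv A m i * c i ^ 2) = du m i0 + 2 • mo.degree (c i0) ∧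
      ∀ i ∈ I, c i ≠ 0 → mo.toSyn (du m i + 2 • mo.degree (c i)) ≤
        mo.toSyn (du m i0 + 2 • mo.degree (c i0)) := by
  classical
  have hdeg : ∀ i, c i ≠ 0 → mo.degree (uv A m i * c i ^ 2) = du m i + 2 • mo.degree (c i) := by
    intro i hi
    rw [mo.degree_mul (uv_ne m i) (pow_ne_zero 2 hi), deg_uv, mo.degree_pow]
  have hne' : ∀ i, uv A m i * c i ^ 2 ≠ 0 ↔ c i ≠ 0 := by
    intro i
    constructor
    · intro h h0
      apply h
      rw [h0]
      ring
    · intro h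
      exact mul_ne_zero (uv_ne m i) (pow_ne_zero 2 h)
  have hdu : ∀ i j : Fin (m + 1), i ≠ j → ∃ a, du m i a % 2 ≠ du m j a % 2 := by
    intro i j
    refine Fin.cases ?_ (fun i => ?_) i
    · refine Fin.cases ?_ (fun j => ?_) j
      · intro h
        exact absurd rfl h
      · intro _
        refine ⟨j, ?_⟩
        simp [du]
    · refine Fin.cases ?_ (fun j => ?_) j
      · intro _
        refine ⟨i, ?_⟩
        simp [du]
      · intro h
        refine ⟨i, ?_⟩
        have h1 : i ≠ j := fun h2 => h (by rw [h2])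
        simp [du, Ne.symm h1]
  obtain ⟨i0, hi0, hn, hs, hd, hle⟩ := sum_lead mo I (fun i => uv A m i * c i ^ 2) (by
    intro i _ j _ hin hjn hij h
    rw [hdeg i ((hne' i).1 hin), hdeg j ((hne' j).1 hjn)] at h
    obtain ⟨a, ha⟩ := hdu i j hij
    apply ha
    have h1 := DFunLike.congr_fun h a
    simp only [Finsupp.add_apply, Finsupp.smul_apply, smul_eq_mul] at h1
    omega) (by
    obtain ⟨i, hi, hin⟩ := hne
    exact ⟨i, hi, (hne' i).2 hin⟩)
  have hi0n := (hne' i0).1 hn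
  refine ⟨i0, hi0, hi0n, hs, ?_, ?_⟩
  · rw [hd, hdeg i0 hi0n]
  · intro i hi hin
    have h1 := hle i hi ((hne' i).2 hin)
    rwa [hdeg i hin, hdeg i0 hi0n] at h1

/-- the diagonal form with the entries `1, Y_0, ..., Y_{m-1}` is anisotropic -/
theorem diag {m : ℕ} (c : Fin (m + 1) → MvPolynomial (Fin m) A)
    (h : ∑ i, uv A m i * c i ^ 2 = 0) : c = 0 := by
  by_contra hne
  have h1 : ∃ i ∈ (Finset.univ : Finset (Fin (m + 1))), c i ≠ 0 := by
    by_contra h2
    push Not at h2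
    exact hne (funext fun i => h2 i (Finset.mem_univ i))
  obtain ⟨i0, -, -, hs, -, -⟩ := sq_sum MonomialOrder.lex Finset.univ c h1
  exact hs h

/-- the second form: `e ^ 2 = 9 a(c) ^ 2 - 12 S b(c)` where `c` has no coordinate with index `1` -/
theorem second' [CharZero A] {m : ℕ} (mo : MonomialOrder (Fin (m + 1)))
    (key : ∀ f : Fin (m + 1) →₀ ℕ, f 0 = 0 → mo.toSyn f < mo.toSyn (Finsupp.single 0 1))
    (c : Fin (m + 2) → MvPolynomial (Fin (m + 1)) A)
    (e : MvPolynomial (Fin (m + 1)) A)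
    (h : e ^ 2 = 9 * (∑ i ∈ Finset.univ.erase 1, uv A (m + 1) i ^ 2 * c i) ^ 2 -
      12 * (∑ i, uv A (m + 1) i ^ 3) * ∑ i ∈ Finset.univ.erase 1, uv A (m + 1) i * c i ^ 2) :
    ∀ i, i ≠ 1 → c i = 0 := by
  classical
  by_contra hcon
  push Not at hcon
  obtain ⟨i1, hi1, hi1'⟩ := hcon
  obtain ⟨i0, hi0, hi0n, hs, hd, hle⟩ := sq_sum mo (Finset.univ.erase 1) c
    ⟨i1, Finset.mem_erase.2 ⟨hi1, Finset.mem_univ _⟩, hi1'⟩
  set b := ∑ i ∈ Finset.univ.erase 1, uv A (m + 1) i * c i ^ 2 with hb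
  set a := ∑ i ∈ Finset.univ.erase 1, uv A (m + 1) i ^ 2 * c i with ha
  set S := ∑ i, uv A (m + 1) i ^ 3 with hS
  have hdu0 : ∀ i : Fin (m + 2), i ≠ 1 → du (m + 1) i 0 = 0 := by
    intro i hi
    revert hi
    refine Fin.cases ?_ (fun j => ?_) i
    · intro _
      rfl
    · intro hj
      change (Finsupp.single j 1 : Fin (m + 1) →₀ ℕ) 0 = 0
      rw [Finsupp.single_apply, if_neg]
      intro hj0
      apply hj
      rw [hj0]
      rfl
  have hlt0 : ∀ i : Fin (m + 2), i ≠ 1 → ∀ k : ℕ, mo.toSyn (k • du (m + 1) i) <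
      mo.toSyn (Finsupp.single 0 1) := by
    intro i hi k
    apply key
    rw [Finsupp.smul_apply, smul_eq_mul, hdu0 i hi, mul_zero]
  have h13 : mo.toSyn (Finsupp.single 0 1) ≤ mo.toSyn (3 • Finsupp.single 0 1) := by
    have h1 : (3 • Finsupp.single 0 1 : Fin (m + 1) →₀ ℕ) =
        Finsupp.single 0 1 + 2 • Finsupp.single 0 1 := by
      ext x
      simp only [Finsupp.smul_apply, Finsupp.add_apply, smul_eq_mul]
      ring
    rw [h1, map_add]
    have h2 := mo.zero_le (mo.toSyn (2 • Finsupp.single (0 : Fin (m + 1)) 1))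
    exact le_add_of_nonneg_right h2
  have hSd : S ≠ 0 ∧ mo.degree S = 3 • Finsupp.single 0 1 := by
    have h3 : ∀ i, mo.degree (uv A (m + 1) i ^ 3) = 3 • du (m + 1) i := by
      intro i
      rw [mo.degree_pow, deg_uv]
    have hu1 : du (m + 1) 1 = Finsupp.single 0 1 := rfl
    obtain ⟨j0, -, -, hs', hd', hle'⟩ := sum_lead mo Finset.univ (fun i => uv A (m + 1) i ^ 3) (by
      intro i _ j _ _ _ hij hdd
      rw [h3, h3] at hdd
      revert hij hdd
      refine Fin.cases ?_ (fun i => ?_) i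
      · refine Fin.cases ?_ (fun j => ?_) j
        · intro h _
          exact absurd rfl h
        · intro _ hdd
          have := DFunLike.congr_fun hdd j
          simp [du] at this
      · refine Fin.cases ?_ (fun j => ?_) j
        · intro _ hdd
          have := DFunLike.congr_fun hdd i
          simp [du] at this
        · intro hij hdd
          have h1 : i ≠ j := fun h2 => hij (by rw [h2])
          have := DFunLike.congr_fun hdd i
          simp [du, Ne.symm h1] at this)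
      ⟨1, Finset.mem_univ _, pow_ne_zero 3 (uv_ne _ _)⟩
    refine ⟨hs', ?_⟩
    have hj0 : j0 = 1 := by
      by_contra hj
      have h4 := hle' 1 (Finset.mem_univ _) (pow_ne_zero 3 (uv_ne _ _))
      rw [h3, h3, hu1] at h4
      exact absurd (h13.trans h4) (not_le.2 (hlt0 j0 hj 3))
    rw [hS, hd', hj0, h3, hu1]
  have h12 : (12 : MvPolynomial (Fin (m + 1)) A) = C 12 := by
    rw [map_ofNat]
  have h9 : (9 : MvPolynomial (Fin (m + 1)) A) = C 9 := by
    rw [map_ofNat]
  have hSbd : mo.degree (12 * S * b) = 3 • Finsupp.single 0 1 +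
      (du (m + 1) i0 + 2 • mo.degree (c i0)) := by
    rw [mo.degree_mul (mul_ne_zero (OfNat.ofNat_ne_zero 12) hSd.1) hs,
      mo.degree_mul (OfNat.ofNat_ne_zero 12) hSd.1, hSd.2, hd, h12, mo.degree_C, zero_add]
  -- the degree of a
  have haa : mo.toSyn (mo.degree (9 * a ^ 2)) < mo.toSyn (mo.degree (12 * S * b)) := by
    rw [hSbd]
    have hpos : (0 : mo.syn) < mo.toSyn (3 • Finsupp.single 0 1 +
        (du (m + 1) i0 + 2 • mo.degree (c i0))) := by
      refine lt_of_le_of_ne (mo.zero_le _) ?_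
      intro h3
      rw [← map_zero mo.toSyn] at h3
      have := DFunLike.congr_fun (mo.toSyn.injective h3) 0
      simp at this
      omega
    by_cases ha0 : a = 0
    · rw [ha0]
      have h2 : (9 : MvPolynomial (Fin (m + 1)) A) * 0 ^ 2 = 0 := by ring
      rw [h2, mo.degree_zero, map_zero]
      exact hpos
    have h1 : mo.toSyn (mo.degree (9 * a ^ 2)) ≤ mo.toSyn (mo.degree a) + mo.toSyn (mo.degree a) := by
      rw [h9]
      refine (mo.degree_mul_le).trans ?_
      rw [mo.degree_C, zero_add, mo.degree_pow, two_nsmul, map_add]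
    refine lt_of_le_of_lt h1 ?_
    -- some term of `a`
    have h2 := mo.degree_mem_support ha0
    rw [ha, mem_support_iff, coeff_sum] at h2
    obtain ⟨i, hi, hci⟩ := Finset.exists_ne_zero_of_sum_ne_zero h2
    have hin : c i ≠ 0 := by
      intro h3
      rw [h3, mul_zero, coeff_zero] at hci
      exact hci rfl
    have h3 : mo.toSyn (mo.degree a) ≤ mo.toSyn (2 • du (m + 1) i + mo.degree (c i)) := by
      have h4 := mo.le_degree (mem_support_iff.2 hci)
      rw [mo.degree_mul (pow_ne_zero 2 (uv_ne _ i)) hin, mo.degree_pow, deg_uv] at h4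
      exact h4
    have h6 := hle i hi hin
    have hi1 : i ≠ 1 := (Finset.mem_erase.1 hi).1
    have h7 := hlt0 i hi1 3
    have e1 : mo.toSyn (2 • du (m + 1) i + mo.degree (c i)) +
        mo.toSyn (2 • du (m + 1) i + mo.degree (c i)) =
        mo.toSyn (3 • du (m + 1) i) + mo.toSyn (du (m + 1) i + 2 • mo.degree (c i)) := by
      rw [← map_add, ← map_add]
      congr 1
      ext x
      simp only [Finsupp.smul_apply, Finsupp.add_apply, smul_eq_mul]
      ring
    refine lt_of_le_of_lt ((add_le_add h3 h3).trans e1.le) ?_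
    rw [map_add mo.toSyn (3 • Finsupp.single 0 1)]
    exact add_lt_add_of_lt_of_le (lt_of_lt_of_le h7 h13) h6
  have hdeg : mo.degree (e ^ 2) = mo.degree (12 * S * b) := by
    rw [h, sub_eq_add_neg, mo.degree_add_eq_right_of_lt, mo.degree_neg]
    rwa [mo.degree_neg]
  rw [mo.degree_pow, hSbd] at hdeg
  have h1 := DFunLike.congr_fun hdeg 0
  have h2 := hdu0 i0 (Finset.mem_erase.1 hi0).1
  simp only [Finsupp.add_apply, Finsupp.smul_apply, smul_eq_mul, Finsupp.single_eq_same, h2] at h1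
  omega

theorem lex_key {m : ℕ} (f : Fin (m + 1) →₀ ℕ) (hf : f 0 = 0) :
    (MonomialOrder.lex (σ := Fin (m + 1))).toSyn f <
      (MonomialOrder.lex (σ := Fin (m + 1))).toSyn (Finsupp.single 0 1) := by
  rw [MonomialOrder.lex_lt_iff, Finsupp.Lex.lt_iff]
  refine ⟨0, ?_, ?_⟩
  · intro j hj
    exact absurd hj (Fin.not_lt_zero j)
  · simp [hf]

theorem second [CharZero A] {m : ℕ} (c : Fin (m + 2) → MvPolynomial (Fin (m + 1)) A)
    (e : MvPolynomial (Fin (m + 1)) A)
    (h : e ^ 2 = 9 * (∑ i ∈ Finset.univ.erase 1, uv A (m + 1) i ^ 2 * c i) ^ 2 -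
      12 * (∑ i, uv A (m + 1) i ^ 3) * ∑ i ∈ Finset.univ.erase 1, uv A (m + 1) i * c i ^ 2) :
    (∀ i, i ≠ 1 → c i = 0) ∧ e = 0 := by
  have hc := second' MonomialOrder.lex lex_key c e h
  refine ⟨hc, ?_⟩
  have h1 : ∑ i ∈ Finset.univ.erase 1, uv A (m + 1) i * c i ^ 2 = 0 :=
    Finset.sum_eq_zero fun i hi => by
      rw [hc i (Finset.mem_erase.1 hi).1]
      ring
  have h2 : ∑ i ∈ Finset.univ.erase 1, uv A (m + 1) i ^ 2 * c i = 0 :=
    Finset.sum_eq_zero fun i hi => by
      rw [hc i (Finset.mem_erase.1 hi).1]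
      ring
  rw [h1, h2] at h
  have h3 : e ^ 2 = 0 := by
    rw [h]
    ring
  exact pow_eq_zero_iff (two_ne_zero) |>.1 h3

end

end Pool.Agent.T9h1
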