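import Pool.Agent.R845.E3.Spr
import Pool.Agent.T9h1.Aniso

/-! # The two anisotropic quadratic forms over extensions of odd degree -/

set_option autoImplicit false

namespace Pool.Agent.T9h1

open MvPolynomial Module IntermediateField Pool.Agent.R845.E3

noncomputable section

variable {A E : Type} [Field A] [CharZero A] [Field E] [Algebra A E]

omit [CharZero A] in
theorem adj_aeval {m : ℕ} (y : Fin m → E) :
    adjoin A (Set.range (aeval y : MvPolynomial (Fin m) A →ₐ[A] E)) = adjoin A (Set.range y) := by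
  apply le_antisymm
  · rw [adjoin_le_iff]
    rintro _ ⟨p, rfl⟩
    have h1 : (aeval y p : E) ∈ Algebra.adjoin A (Set.range y) := by
      rw [Algebra.adjoin_range_eq_range_aeval]
      exact ⟨p, rfl⟩
    exact algebra_adjoin_le_adjoin A _ h1
  · rw [adjoin_le_iff]
    rintro _ ⟨j, rfl⟩
    exact subset_adjoin A _ ⟨X j, by simp⟩

omit [CharZero A] in
theorem aeval_uv {m : ℕ} (y : Fin m → E) (i : Fin (m + 1)) :
    aeval y (uv A m i) = (Fin.cons 1 y : Fin (m + 1) → E) i := by
  refine Fin.cases ?_ (fun j => ?_) i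
  · exact map_one _
  · exact aeval_X y j

theorem diagE {m : ℕ} (y : Fin m → E) (hy : AlgebraicIndependent A y)
    (hodd : Odd (finrank (adjoin A (Set.range y)) E)) (c : Fin (m + 1) → E)
    (h : ∑ i, (Fin.cons 1 y : Fin (m + 1) → E) i * c i ^ 2 = 0) : c = 0 := by
  classical
  by_contra hne
  have hne' : ∃ i, c i ≠ 0 := by
    by_contra h2
    push Not at h2
    exact hne (funext h2)
  rw [← adj_aeval y] at hodd
  obtain ⟨r, ⟨i0, hi0⟩, hr⟩ := odd_descentK (aeval y : MvPolynomial (Fin m) A →ₐ[A] E) hodd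
    (fun i j => if i = j then uv A m i else 0) c hne' (by
      rw [← h]
      refine Finset.sum_congr rfl fun i _ => ?_
      rw [Finset.sum_eq_single i]
      · rw [if_pos rfl, aeval_uv]
        ring
      · intro j _ hj
        rw [if_neg (Ne.symm hj), map_zero]
        ring
      · intro h2
        exact absurd (Finset.mem_univ i) h2)
  have h1 : ∑ i, ∑ j, (if i = j then uv A m i else 0) * r i * r j = 0 := by
    apply hy
    rw [map_zero]
    exact hr
  have h2 : ∑ i, uv A m i * r i ^ 2 = 0 := by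
    rw [← h1]
    refine Finset.sum_congr rfl fun i _ => ?_
    rw [Finset.sum_eq_single i]
    · rw [if_pos rfl]
      ring
    · intro j _ hj
      rw [if_neg (Ne.symm hj)]
      ring
    · intro h2
      exact absurd (Finset.mem_univ i) h2
  have h3 := diag r h2
  rw [h3] at hi0
  apply hi0
  rw [Pi.zero_apply, map_zero]

theorem sum_erase_one {R : Type} [CommRing R] {m : ℕ} (f : Fin (m + 2) → R) (h : f 1 = 0) :
    ∑ i, f i = ∑ i ∈ Finset.univ.erase 1, f i := by
  classical
  rw [← Finset.add_sum_erase Finset.univ f (Finset.mem_univ 1), h, zero_add]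

theorem quad_expand {R : Type} [CommRing R] {m : ℕ} (u w : Fin (m + 2) → R) (S : R) :
    ∑ i, ∑ j, (if i = 1 then (if j = 1 then 1 else 0) else
      (if j = 1 then 0 else -(9 * u i ^ 2 * u j ^ 2) + (if i = j then 12 * S * u i else 0))) *
        w i * w j = w 1 ^ 2 - 9 * (∑ i ∈ Finset.univ.erase 1, u i ^ 2 * w i) ^ 2 +
      12 * S * ∑ i ∈ Finset.univ.erase 1, u i * w i ^ 2 := by
  classical
  rw [← Finset.add_sum_erase Finset.univ _ (Finset.mem_univ (1 : Fin (m + 2)))]
  have h1 : ∑ j, (if (1 : Fin (m + 2)) = 1 then (if j = 1 then (1 : R) else 0) else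
      (if j = 1 then 0 else -(9 * u 1 ^ 2 * u j ^ 2) + (if 1 = j then 12 * S * u 1 else 0))) *
        w 1 * w j = w 1 ^ 2 := by
    rw [Finset.sum_eq_single 1]
    · simp
      ring
    · intro j _ hj
      rw [if_pos rfl, if_neg hj]
      ring
    · intro h2
      exact absurd (Finset.mem_univ _) h2
  have h2 : ∀ i ∈ Finset.univ.erase (1 : Fin (m + 2)), ∑ j, (if i = 1 then (if j = 1 then (1 : R)
      else 0) else
      (if j = 1 then 0 else -(9 * u i ^ 2 * u j ^ 2) + (if i = j then 12 * S * u i else 0))) *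
        w i * w j = -(9 * (u i ^ 2 * w i) * ∑ j ∈ Finset.univ.erase 1, u j ^ 2 * w j) +
        12 * S * (u i * w i ^ 2) := by
    intro i hi
    have hi1 : i ≠ 1 := (Finset.mem_erase.1 hi).1
    rw [← Finset.add_sum_erase Finset.univ _ (Finset.mem_univ (1 : Fin (m + 2)))]
    rw [if_neg hi1, if_pos rfl, zero_mul, zero_mul, zero_add]
    have h3 : ∀ j ∈ Finset.univ.erase (1 : Fin (m + 2)), (if i = 1 then (if j = 1 then (1 : R)
        else 0) else (if j = 1 then 0 else -(9 * u i ^ 2 * u j ^ 2) +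
          (if i = j then 12 * S * u i else 0))) * w i * w j =
        -(9 * (u i ^ 2 * w i) * (u j ^ 2 * w j)) + (if i = j then 12 * S * (u i * w i ^ 2) else 0) := by
      intro j hj
      have hj1 : j ≠ 1 := (Finset.mem_erase.1 hj).1
      rw [if_neg hi1, if_neg hj1]
      split_ifs with hij
      · rw [hij]
        ring
      · ring
    rw [Finset.sum_congr rfl h3, Finset.sum_add_distrib, Finset.sum_neg_distrib, Finset.mul_sum,
      Finset.sum_ite_eq, if_pos hi]
  rw [h1, Finset.sum_congr rfl h2, Finset.sum_add_distrib, Finset.sum_neg_distrib,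
    ← Finset.sum_mul, ← Finset.mul_sum, ← Finset.mul_sum]
  ring

theorem secondE {m : ℕ} (y : Fin (m + 1) → E) (hy : AlgebraicIndependent A y)
    (hodd : Odd (finrank (adjoin A (Set.range y)) E)) (c : Fin (m + 2) → E) (e : E) (hc1 : c 1 = 0)
    (h : e ^ 2 = 9 * (∑ i, (Fin.cons 1 y : Fin (m + 2) → E) i ^ 2 * c i) ^ 2 -
      12 * (∑ i, (Fin.cons 1 y : Fin (m + 2) → E) i ^ 3) *
        ∑ i, (Fin.cons 1 y : Fin (m + 2) → E) i * c i ^ 2) : c = 0 := by
  classical
  by_contra hne
  have hne' : ∃ i, i ≠ 1 ∧ c i ≠ 0 := by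
    by_contra h2
    push Not at h2
    refine hne (funext fun i => ?_)
    by_cases hi : i = 1
    · rw [hi, hc1]
      rfl
    · exact h2 i hi
  obtain ⟨i1, hi1, hci1⟩ := hne'
  rw [sum_erase_one _ (by rw [hc1, mul_zero]), sum_erase_one (fun i =>
    (Fin.cons 1 y : Fin (m + 2) → E) i * c i ^ 2) (by rw [hc1]; ring)] at h
  rw [← adj_aeval y] at hodd
  let ψ : MvPolynomial (Fin (m + 1)) A →ₐ[A] E := aeval y
  let w : Fin (m + 2) → E := fun i => if i = 1 then e else c i
  have hw1 : w 1 = e := if_pos rfl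
  have hwi : ∀ i ∈ Finset.univ.erase (1 : Fin (m + 2)), w i = c i := fun i hi =>
    if_neg (Finset.mem_erase.1 hi).1
  obtain ⟨r, ⟨i0, hi0⟩, hr⟩ := odd_descentK ψ hodd
    (fun i j => if i = 1 then (if j = 1 then 1 else 0) else
      (if j = 1 then 0 else -(9 * uv A (m + 1) i ^ 2 * uv A (m + 1) j ^ 2) +
        (if i = j then 12 * (∑ i, uv A (m + 1) i ^ 3) * uv A (m + 1) i else 0))) w
    ⟨i1, by rw [hwi i1 (Finset.mem_erase.2 ⟨hi1, Finset.mem_univ _⟩)]; exact hci1⟩ (by
      have h1 := quad_expand (fun i => ψ (uv A (m + 1) i)) w (ψ (∑ i, uv A (m + 1) i ^ 3))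
      have h2 : ∀ i j : Fin (m + 2), ψ (if i = 1 then (if j = 1 then 1 else 0) else
        (if j = 1 then 0 else -(9 * uv A (m + 1) i ^ 2 * uv A (m + 1) j ^ 2) +
        (if i = j then 12 * (∑ i, uv A (m + 1) i ^ 3) * uv A (m + 1) i else 0))) =
        (if i = 1 then (if j = 1 then 1 else 0) else
        (if j = 1 then 0 else -(9 * ψ (uv A (m + 1) i) ^ 2 * ψ (uv A (m + 1) j) ^ 2) +
        (if i = j then 12 * ψ (∑ i, uv A (m + 1) i ^ 3) * ψ (uv A (m + 1) i) else 0))) := by
        intro i j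
        have e9 : ψ 9 = 9 := map_ofNat ψ 9
        have e12 : ψ 12 = 12 := map_ofNat ψ 12
        split_ifs <;> simp [e9, e12]
      rw [Finset.sum_congr rfl fun i _ => Finset.sum_congr rfl fun j _ => by rw [h2 i j], h1, hw1]
      have h3 : ∑ i ∈ Finset.univ.erase (1 : Fin (m + 2)), ψ (uv A (m + 1) i) ^ 2 * w i =
          ∑ i ∈ Finset.univ.erase (1 : Fin (m + 2)),
            (Fin.cons 1 y : Fin (m + 2) → E) i ^ 2 * c i :=
        Finset.sum_congr rfl fun i hi => by
          rw [hwi i hi]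
          change aeval y (uv A (m + 1) i) ^ 2 * c i = _
          rw [aeval_uv]
      have h4 : ∑ i ∈ Finset.univ.erase (1 : Fin (m + 2)), ψ (uv A (m + 1) i) * w i ^ 2 =
          ∑ i ∈ Finset.univ.erase (1 : Fin (m + 2)),
            (Fin.cons 1 y : Fin (m + 2) → E) i * c i ^ 2 :=
        Finset.sum_congr rfl fun i hi => by
          rw [hwi i hi]
          change aeval y (uv A (m + 1) i) * c i ^ 2 = _
          rw [aeval_uv]
      have h5 : ψ (∑ i, uv A (m + 1) i ^ 3) = ∑ i, (Fin.cons 1 y : Fin (m + 2) → E) i ^ 3 := by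
        rw [map_sum]
        refine Finset.sum_congr rfl fun i _ => ?_
        rw [map_pow]
        change aeval y (uv A (m + 1) i) ^ 3 = _
        rw [aeval_uv]
      rw [h3, h4, h5, h]
      ring)
  have h1 := quad_expand (fun i => uv A (m + 1) i) r (∑ i, uv A (m + 1) i ^ 3)
  have h0 := hy (hr.trans (map_zero _).symm)
  rw [h1] at h0
  obtain ⟨h2, h3⟩ := second r (r 1) (by linear_combination h0)
  apply hi0
  by_cases hi : i0 = 1
  · rw [hi, h3, map_zero]
  · rw [h2 i0 hi, map_zero]

end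

end Pool.Agent.T9h1
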