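import Mathlib
import Pool.Agent.Helper386.D5V.Helper386_FF_Div

/-! # Descent of a field extension of `ℂ(y)` to a function field of one variable -/

set_option autoImplicit false

namespace Pool.Agent.T9h1

open IntermediateField FF Module Polynomial

noncomputable section

theorem closure_finite {B E : Type} [Field B] [Field E] (f : B →+* E) (S : Set E) {x : E}
    (hx : x ∈ Subfield.closure (Set.range f ∪ S)) :
    ∃ C : Finset B, x ∈ Subfield.closure (f '' (C : Set B) ∪ S) := by
  classical
  have hmono : ∀ {C D : Finset B}, C ⊆ D → Subfield.closure (f '' (C : Set B) ∪ S) ≤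
      Subfield.closure (f '' (D : Set B) ∪ S) := fun h =>
    Subfield.closure_mono (Set.union_subset_union_left _ (Set.image_mono (Finset.coe_subset.2 h)))
  induction hx using Subfield.closure_induction with
  | mem x hx =>
    rcases hx with ⟨b, rfl⟩ | hx
    · exact ⟨{b}, Subfield.subset_closure (Or.inl ⟨b, by simp, rfl⟩)⟩
    · exact ⟨∅, Subfield.subset_closure (Or.inr hx)⟩
  | one => exact ⟨∅, one_mem _⟩
  | add x y _ _ hx hy =>
    obtain ⟨C, hC⟩ := hx
    obtain ⟨D, hD⟩ := hy
    exact ⟨C ∪ D, add_mem (hmono Finset.subset_union_left hC) (hmono Finset.subset_union_right hD)⟩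
  | neg x _ hx =>
    obtain ⟨C, hC⟩ := hx
    exact ⟨C, neg_mem hC⟩
  | inv x _ hx =>
    obtain ⟨C, hC⟩ := hx
    exact ⟨C, inv_mem hC⟩
  | mul x y _ _ hx hy =>
    obtain ⟨C, hC⟩ := hx
    obtain ⟨D, hD⟩ := hy
    exact ⟨C ∪ D, mul_mem (hmono Finset.subset_union_left hC) (hmono Finset.subset_union_right hD)⟩

/-- a primitive element whose minimal polynomial comes from a smaller field -/
theorem finrank_descent {F L F' E' : Type} [Field F] [Field L] [Algebra F L] [FiniteDimensional F L]
    [Field F'] [Field E'] [Algebra F' E'] (φ : F' →+* F) (ι : E' →+* L)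
    (hcomm : ∀ a, ι (algebraMap F' E' a) = algebraMap F L (φ a)) (θ : L) (hθ : F⟮θ⟯ = ⊤) (θ' : E')
    (hθ' : ι θ' = θ) (htop : F'⟮θ'⟯ = ⊤) (g' : F'[X]) (hg' : g'.map φ = minpoly F θ) :
    finrank F' E' = finrank F L := by
  have hint : IsIntegral F θ := IsIntegral.of_finite F θ
  have hmon : g'.Monic := by
    have h1 := minpoly.monic hint
    rw [← hg'] at h1
    exact Polynomial.monic_of_injective φ.injective h1
  have hirr : Irreducible g' := by
    refine Polynomial.Monic.irreducible_of_irreducible_map φ g' hmon ?_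
    rw [hg']
    exact minpoly.irreducible hint
  have hz : Polynomial.aeval θ' g' = 0 := by
    apply ι.injective
    rw [map_zero, Polynomial.aeval_def, Polynomial.hom_eval₂, hθ']
    have h1 : ι.comp (algebraMap F' E') = (algebraMap F L).comp φ := RingHom.ext hcomm
    rw [h1, ← Polynomial.eval₂_map, hg', ← Polynomial.aeval_def, minpoly.aeval]
  have hint' : IsIntegral F' θ' := ⟨g', hmon, hz⟩
  have hmin : g' = minpoly F' θ' := minpoly.eq_of_irreducible_of_monic hirr hz hmon
  have h1 : finrank F' E' = (minpoly F' θ').natDegree := by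
    rw [← adjoin.finrank hint', htop, finrank_top']
  have h2 : finrank F L = (minpoly F θ).natDegree := by
    rw [← adjoin.finrank hint, hθ, finrank_top']
  rw [h1, h2, ← hmin, ← hg', Polynomial.natDegree_map]

theorem descent {κ : Type} [Field κ] [CharZero κ] [Algebra κ ℂ] (s : ℂ)
    (hs : IsTranscendenceBasis κ (fun _ : Unit => s)) {E : Type} [Field E] [Algebra ℂ E] {m : ℕ}
    (y : Fin m → E) (hy : AlgebraicIndependent ℂ y) (hodd : Odd (finrank (adjoin ℂ (Set.range y)) E))
    {r : ℕ} (v : Fin r → E) :
    ∃ (K E' : Type) (_ : Field K) (_ : Field E') (_ : Algebra κ K) (_ : Algebra K E')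
      (_ : Algebra κ E') (_ : IsScalarTower κ K E') (_ : IsFF κ K) (σ : K) (y' : Fin m → E')
      (v' : Fin r → E') (ι : E' →+* E), Transcendental κ σ ∧ AlgebraicIndependent K y' ∧
      Odd (finrank (adjoin K (Set.range y')) E') ∧ (∀ j, ι (y' j) = y j) ∧ (∀ j, ι (v' j) = v j) ∧
      ι (algebraMap K E' σ) = algebraMap ℂ E s ∧
      ∀ c : κ, ι (algebraMap κ E' c) = algebraMap ℂ E (algebraMap κ ℂ c) := by
  classical
  let F : IntermediateField ℂ E := adjoin ℂ (Set.range y)
  have hfin : FiniteDimensional F E := FiniteDimensional.of_finrank_pos hodd.pos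
  have : CharZero F := charZero_of_injective_algebraMap (algebraMap ℂ F).injective
  obtain ⟨θ, hθ⟩ := Field.exists_primitive_element F E
  -- the finite sets of constants
  have hcoef : ∀ i, ∃ C : Finset ℂ, (((minpoly F θ).coeff i : F) : E) ∈
      Subfield.closure (algebraMap ℂ E '' (C : Set ℂ) ∪ Set.range y) := by
    intro i
    apply closure_finite
    rw [← adjoin_toSubfield ℂ (Set.range y)]
    exact ((minpoly F θ).coeff i).2
  choose C1 hC1 using hcoef
  have hall : adjoin ℂ (Set.range y ∪ {θ}) = ⊤ := by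
    rw [← adjoin_adjoin_left ℂ (Set.range y) {θ}, hθ]
    rfl
  have hv : ∀ j, ∃ C : Finset ℂ, v j ∈
      Subfield.closure (algebraMap ℂ E '' (C : Set ℂ) ∪ (Set.range y ∪ {θ})) := by
    intro j
    apply closure_finite
    have h1 : v j ∈ adjoin ℂ (Set.range y ∪ {θ}) := by
      rw [hall]
      exact mem_top
    exact h1
  choose C2 hC2 using hv
  let C : Finset ℂ := (Finset.range ((minpoly F θ).natDegree + 1)).biUnion C1 ∪
    Finset.univ.biUnion C2
  have hC1C : ∀ i, (((minpoly F θ).coeff i : F) : E) ∈
      Subfield.closure (algebraMap ℂ E '' (C : Set ℂ) ∪ Set.range y) := by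
    intro i
    by_cases hi : i < (minpoly F θ).natDegree + 1
    · refine Subfield.closure_mono (Set.union_subset_union_left _ (Set.image_mono ?_)) (hC1 i)
      refine Finset.coe_subset.2 (Finset.Subset.trans ?_ Finset.subset_union_left)
      exact Finset.subset_biUnion_of_mem C1 (Finset.mem_range.2 hi)
    · rw [Polynomial.coeff_eq_zero_of_natDegree_lt (by omega)]
      exact zero_mem _
  have hC2C : ∀ j, v j ∈
      Subfield.closure (algebraMap ℂ E '' (C : Set ℂ) ∪ (Set.range y ∪ {θ})) := by
    intro j
    refine Subfield.closure_mono (Set.union_subset_union_left _ (Set.image_mono ?_)) (hC2 j)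
    refine Finset.coe_subset.2 (Finset.Subset.trans ?_ Finset.subset_union_right)
    exact Finset.subset_biUnion_of_mem C2 (Finset.mem_univ j)
  -- the small field of constants
  let D : Finset ℂ := insert s C
  let K : IntermediateField κ ℂ := adjoin κ (D : Set ℂ)
  have hsK : s ∈ K := subset_adjoin _ _ (by simp [D])
  let σ : K := ⟨s, hsK⟩
  have hσ : Transcendental κ σ := by
    have h1 : Transcendental κ s := by
      have := hs.1
      rwa [algebraicIndependent_unique_type_iff] at this
    intro h
    exact h1 (h.algHom K.val)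
  have hFF : IsFF κ K := by
    constructor
    · exact IntermediateField.essFiniteType_iff.2 ⟨D, rfl⟩
    · apply le_antisymm
      · have h1 : Algebra.trdeg κ ℂ = 1 := by
          have := hs.lift_cardinalMk_eq_trdeg
          simpa using this.symm
        rw [← h1]
        exact trdeg_le_of_injective K.val K.val.injective
      · have h1 : AlgebraicIndependent κ (fun _ : Unit => σ) := by
          rw [algebraicIndependent_unique_type_iff]
          exact hσ
        have h2 := h1.lift_cardinalMk_le_trdeg
        simpa using h2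
  let E' : IntermediateField K E := adjoin K (Set.range y ∪ {θ})
  have hyE : ∀ j, y j ∈ E' := fun j => subset_adjoin _ _ (Or.inl ⟨j, rfl⟩)
  have hθE : θ ∈ E' := subset_adjoin _ _ (Or.inr rfl)
  have hCK : ∀ c ∈ C, c ∈ K := fun c hc => subset_adjoin _ _ (by simp [D, hc])
  have hvE : ∀ j, v j ∈ E' := by
    intro j
    have h1 : Subfield.closure (algebraMap ℂ E '' (C : Set ℂ) ∪ (Set.range y ∪ {θ})) ≤
        E'.toSubfield := by
      rw [Subfield.closure_le]
      rintro x (⟨c, hc, rfl⟩ | hx)
      · exact E'.algebraMap_mem (⟨c, hCK c hc⟩ : K)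
      · exact subset_adjoin _ _ hx
    exact h1 (hC2C j)
  let y' : Fin m → E' := fun j => ⟨y j, hyE j⟩
  let θ' : E' := ⟨θ, hθE⟩
  let ι : E' →+* E := E'.val.toRingHom
  have hind : AlgebraicIndependent K y' := by
    have h1 : AlgebraicIndependent K y := by
      refine hy.restrictScalars (R := K) ?_
      exact (algebraMap K ℂ).injective
    exact AlgebraicIndependent.of_comp E'.val h1
  let F' : IntermediateField K E' := adjoin K (Set.range y')
  -- the inclusion of `F'` into `F`
  have hFF' : ∀ a : E', a ∈ F' → (a : E) ∈ F := by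
    intro a ha
    induction ha using adjoin_induction with
    | mem x hx =>
      obtain ⟨j, rfl⟩ := hx
      exact subset_adjoin _ _ ⟨j, rfl⟩
    | algebraMap x => exact F.algebraMap_mem (x : ℂ)
    | add x y _ _ hx hy => exact add_mem hx hy
    | inv x _ hx => exact inv_mem hx
    | mul x y _ _ hx hy => exact mul_mem hx hy
  let φ : F' →+* F :=
    { toFun := fun a => ⟨((a : E') : E), hFF' a.1 a.2⟩
      map_one' := rfl
      map_mul' := fun _ _ => rfl
      map_zero' := rfl
      map_add' := fun _ _ => rfl }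
  have hlift : ∀ x ∈ Subfield.closure (algebraMap ℂ E '' (C : Set ℂ) ∪ Set.range y),
      ∃ a : F', ((a : E') : E) = x := by
    intro x hx
    have h1 : Subfield.closure (algebraMap ℂ E '' (C : Set ℂ) ∪ Set.range y) ≤
        (F'.toSubfield).map ι := by
      rw [Subfield.closure_le]
      rintro x (⟨c, hc, rfl⟩ | ⟨j, rfl⟩)
      · exact ⟨algebraMap K E' ⟨c, hCK c hc⟩, F'.algebraMap_mem _, rfl⟩
      · exact ⟨y' j, subset_adjoin _ _ ⟨j, rfl⟩, rfl⟩
    obtain ⟨a, ha, hax⟩ := h1 hx
    exact ⟨⟨a, ha⟩, hax⟩
  have hg' : ∃ g' : F'[X], g'.map φ = minpoly F θ := by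
    have h1 : minpoly F θ ∈ Polynomial.lifts φ := by
      rw [Polynomial.lifts_iff_coeff_lifts]
      intro i
      obtain ⟨a, ha⟩ := hlift _ (hC1C i)
      exact ⟨a, Subtype.ext ha⟩
    exact (Polynomial.mem_lifts _).1 h1
  obtain ⟨g', hg'⟩ := hg'
  have htop : (adjoin F' {θ'} : IntermediateField F' E') = ⊤ := by
    have h1 : adjoin K (Set.range y' ∪ {θ'}) = ⊤ := by
      apply IntermediateField.map_injective E'.val
      rw [adjoin_map, ← AlgHom.fieldRange_eq_map, fieldRange_val]
      have h2 : (E'.val '' (Set.range y' ∪ {θ'})) = Set.range y ∪ {θ} := by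
        rw [Set.image_union, Set.image_singleton, ← Set.range_comp]
        rfl
      rw [h2]
    rw [← adjoin_adjoin_left] at h1
    rw [eq_top_iff]
    intro x _
    have h2 : x ∈ (adjoin F' {θ'}).restrictScalars K := by
      rw [h1]
      exact mem_top
    exact h2
  have hdeg := finrank_descent φ ι (fun _ => rfl) θ hθ θ' rfl htop g' hg'
  let iκ : Algebra κ E' := ((algebraMap K E').comp (algebraMap κ K)).toAlgebra
  have itow : IsScalarTower κ K E' := IsScalarTower.of_algebraMap_eq fun _ => rfl
  refine ⟨K, E', inferInstance, inferInstance, inferInstance, inferInstance, iκ,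
    itow, hFF, σ, y', fun j => ⟨v j, hvE j⟩, ι, hσ, hind, ?_, fun _ => rfl, fun _ => rfl,
    rfl, fun _ => rfl⟩
  rw [hdeg]
  exact hodd

end

end Pool.Agent.T9h1
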