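import Pool.Agent.R845.E3.TransB
import Pool.Agent.R845.E3.Gfi
import Pool.Agent.Helper386.D5V.Helper386_FF_Div
import Pool.Agent.T9h1.AnisoE

/-! # Specialization to the sum of cubes: the main lemma -/

set_option autoImplicit false

namespace Pool.Agent.T9h1

open MvPolynomial Module IntermediateField FF Pool.Agent.R845.E3 Pool.Agent.R845.E3.Trans

noncomputable section

/-- the point with the coordinates `s c_i + η_i c_1` (`i ≠ 1`) and `η_1 c_1` -/
def bs {R : Type} [CommRing R] {m : ℕ} (s : R) (η c : Fin (m + 2) → R) : Fin (m + 2) → R :=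
  fun i => (if i = 1 then 0 else s * c i) + η i * c 1

theorem bs_map {R R' : Type} [CommRing R] [CommRing R'] (f : R →+* R') {m : ℕ} (s : R)
    (η c : Fin (m + 2) → R) :
    (fun i => f (bs s η c i)) = bs (f s) (fun i => f (η i)) (fun i => f (c i)) := by
  funext i
  unfold bs
  rw [map_add, map_mul]
  congr 1
  split_ifs
  · exact map_zero f
  · exact map_mul f _ _

theorem bs_smul {R : Type} [CommRing R] {m : ℕ} (s a : R) (η c : Fin (m + 2) → R) :
    bs s η (fun i => a * c i) = fun i => a * bs s η c i := by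
  funext i
  unfold bs
  split_ifs <;> ring

theorem bs_add {R : Type} [CommRing R] {m : ℕ} (s a : R) (η c d : Fin (m + 2) → R) :
    bs s η (fun i => c i + a * d i) = fun i => bs s η c i + a * bs s η d i := by
  funext i
  unfold bs
  split_ifs <;> ring

theorem bs_zero {R : Type} [CommRing R] {m : ℕ} (η c : Fin (m + 2) → R) :
    bs 0 η c = fun i => c 1 * η i := by
  funext i
  unfold bs
  split_ifs <;> ring

/-- the degree over the field generated by the residues -/
theorem finrank_closure {R : Type} [Field R] (S : Set R) {m : ℕ} (y : Fin m → R) :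
    finrank (Subfield.closure (S ∪ Set.range y)) R =
      finrank (adjoin (Subfield.closure S) (Set.range y)) R := by
  have h1 : (adjoin (Subfield.closure S) (Set.range y)).toSubfield =
      Subfield.closure (S ∪ Set.range y) := by
    apply le_antisymm
    · rw [adjoin_toSubfield, Subfield.closure_le]
      rintro x (⟨a, rfl⟩ | hx)
      · exact Subfield.closure_mono Set.subset_union_left a.2
      · exact Subfield.subset_closure (Or.inr hx)
    · rw [Subfield.closure_le]
      rintro x (hx | hx)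
      · exact (adjoin (Subfield.closure S) (Set.range y)).algebraMap_mem
          ⟨x, Subfield.subset_closure hx⟩
      · exact subset_adjoin _ _ hx
  rw [← h1]
  rfl

theorem exists_odd {ι : Type} (S : Finset ι) (f g : ι → ℕ) (h : Odd (∑ i ∈ S, f i * g i)) :
    ∃ i ∈ S, Odd (g i) := by
  by_contra hcon
  push Not at hcon
  rw [← Nat.not_even_iff_odd] at h
  apply h
  refine Finset.even_sum _ fun i hi => ?_
  have h1 := hcon i hi
  rw [Nat.not_odd_iff_even] at h1
  exact h1.mul_left _

section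

variable {κ K E : Type} [Field κ] [CharZero κ] [Field K] [Field E] [Algebra κ K] [Algebra K E]
  [Algebra κ E] [IsScalarTower κ K E]

/-- the constants in the valuation ring -/
def kO (w : Place κ E) : κ →+* w.O where
  toFun c := ⟨algebraMap κ E c, w.reg_const _⟩
  map_one' := Subtype.ext (by simp)
  map_mul' x y := Subtype.ext (by simp)
  map_zero' := Subtype.ext (by simp)
  map_add' x y := Subtype.ext (by simp)

omit [CharZero κ] in
theorem coe_kO (w : Place κ E) : w.O.subtype.comp (kO w) = algebraMap κ E := rfl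

omit [CharZero κ] in
theorem res_kO (w : Place κ E) : w.resHom.comp (kO w) = algebraMap κ w.RF := by
  ext c
  change w.resHom ⟨algebraMap κ E c, w.reg_const _⟩ = w.red (algebraMap κ E c)
  rw [w.red_of_reg (w.reg_const _)]

omit [CharZero κ] in
/-- the equation in the valuation ring -/
theorem eq_O {w : Place κ E} {m : ℕ} (s : w.O) (η : Fin (m + 2) → κ) (A : MvPolynomial (Fin (m + 2)) κ)
    (c : Fin (m + 2) → w.O) :
    ((eval₂ (kO w) (bs s (fun i => kO w (η i)) c) A : w.O) : E) =
      aeval (bs (s : E) (fun i => algebraMap κ E (η i)) (fun i => (c i : E))) A := by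
  change w.O.subtype (eval₂ (kO w) (bs s (fun i => kO w (η i)) c) A) = _
  rw [hom_eval₂, aeval_def]
  congr 1
  exact bs_map w.O.subtype s _ c

omit [CharZero κ] in
theorem red_O {w : Place κ E} {m : ℕ} (s : w.O) (hs : w.resHom s = 0) (η : Fin (m + 2) → κ)
    (A : MvPolynomial (Fin (m + 2)) κ) (c : Fin (m + 2) → w.O) :
    w.resHom (eval₂ (kO w) (bs s (fun i => kO w (η i)) c) A) =
      eval₂ (algebraMap κ w.RF) (fun i => w.resHom (c 1) * algebraMap κ w.RF (η i)) A := by
  rw [hom_eval₂, res_kO]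
  congr 1
  change (fun i => w.resHom (bs s (fun i => kO w (η i)) c i)) = _
  rw [bs_map w.resHom, hs, bs_zero]
  funext i
  congr 1
  exact RingHom.congr_fun (res_kO w) (η i)

theorem main_lemma [IsFF κ K] {m : ℕ} (σ : K) (hσ : Transcendental κ σ)
    (y : Fin (m + 1) → E) (hy : AlgebraicIndependent K y)
    (hodd : Odd (finrank (adjoin K (Set.range y)) E)) (η : Fin (m + 2) → κ)
    (A H : MvPolynomial (Fin (m + 2)) κ) (hA : A.IsHomogeneous 3) (d : ℕ) (hH : H.IsHomogeneous d)
    (hη : eval η H ≠ 0) (c : Fin (m + 2) → E) (hc : c ≠ 0) (τ : E)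
    (h1 : ∑ i, c i ^ 3 + algebraMap K E σ *
      aeval (bs (algebraMap K E σ) (fun i => algebraMap κ E (η i)) c) A = 0)
    (h2 : aeval (bs (algebraMap K E σ) (fun i => algebraMap κ E (η i)) c) H = 0)
    (h3 : ∑ i, ((Fin.cons 1 y : Fin (m + 2) → E) i + τ * c i) ^ 3 + algebraMap K E σ *
      aeval (bs (algebraMap K E σ) (fun i => algebraMap κ E (η i))
        (fun i => (Fin.cons 1 y : Fin (m + 2) → E) i + τ * c i)) A = 0) : False := by
  classical
  -- the place
  obtain ⟨S0, hS0, -, hsum0⟩ := zeros hσ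
  have hfin0 := IsFF.finite hσ
  have hpos0 : 0 < finrank κ⟮σ⟯ K := finrank_pos
  obtain ⟨P, hP⟩ : ∃ P : Place κ K, 0 < P.ord σ := by
    by_contra hcon
    push Not at hcon
    have : S0 = ∅ := by
      rw [Finset.eq_empty_iff_forall_notMem]
      intro w hw
      exact absurd ((hS0 w).1 hw) (not_lt.2 (hcon w))
    rw [this, Finset.sum_empty] at hsum0
    omega
  obtain ⟨ϖ, hϖ0, hϖ1⟩ := P.surj
  have hfin : FiniteDimensional (adjoin K (Set.range y)) E := FiniteDimensional.of_finrank_pos hodd.pos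
  obtain ⟨S, hS, hsum⟩ := gfi κ K E (m + 1) P ϖ y hϖ0 hϖ1 hy hfin
  rw [← hsum] at hodd
  obtain ⟨w, hwS, hwodd⟩ := exists_odd S _ _ hodd
  obtain ⟨hO, hϖ, hyr, hyp⟩ := (hS w).1 hwS
  have hO' : Ov P w := hO
  have hind := (prim_iff hO' hϖ0 hϖ1 hϖ hyr).1 hyp
  rw [finrank_closure] at hwodd
  change Odd (finrank (adjoin (Subfield.closure (As (K := K) P w))
    (Set.range fun j => w.red (y j))) w.RF) at hwodd
  have hcharR : CharZero w.RF := charZero_of_injective_algebraMap (algebraMap κ w.RF).injective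
  have hcharA : CharZero (Subfield.closure (As (K := K) P w)) := inferInstance
  -- the scalar
  obtain ⟨hsr, hs0⟩ := red_pos hO' hϖ0 hϖ1 hϖ (a := σ) (Or.inr hP)
  set s : E := algebraMap K E σ with hs
  set ηE : Fin (m + 2) → E := fun i => algebraMap κ E (η i) with hηE
  set z : Fin (m + 2) → E := Fin.cons 1 y with hz
  have hzr : ∀ i, w.Reg (z i) := by
    intro i
    refine Fin.cases ?_ (fun j => ?_) i
    · exact w.reg_one
    · exact hyr j
  have hzred : (fun i => w.red (z i)) =
      (Fin.cons 1 (fun j => w.red (y j)) : Fin (m + 2) → w.RF) := by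
    funext i
    refine Fin.cases ?_ (fun j => ?_) i
    · exact w.red_one
    · rfl
  -- scaling
  have hne : (Finset.univ.filter fun i => c i ≠ 0).Nonempty := by
    by_contra h0
    rw [Finset.not_nonempty_iff_eq_empty, Finset.filter_eq_empty_iff] at h0
    exact hc (funext fun i => not_not.1 (h0 (Finset.mem_univ i)))
  obtain ⟨i0, hi0, hmin⟩ := Finset.exists_min_image _ (fun i => w.ord (c i)) hne
  have hci0 : c i0 ≠ 0 := (Finset.mem_filter.1 hi0).2
  let v : Fin (m + 2) → E := fun i => (c i0)⁻¹ * c i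
  have hvr : ∀ i, w.Reg (v i) := by
    intro i
    by_cases h : c i = 0
    · left
      change (c i0)⁻¹ * c i = 0
      rw [h, mul_zero]
    · right
      change 0 ≤ w.ord ((c i0)⁻¹ * c i)
      rw [w.ord_mul (inv_ne_zero hci0) h, w.ord_inv]
      have := hmin i (Finset.mem_filter.2 ⟨Finset.mem_univ i, h⟩)
      omega
  have hv1 : v i0 = 1 := inv_mul_cancel₀ hci0
  have hvne : (fun i => w.red (v i)) ≠ 0 := by
    intro h
    have h4 := congrFun h i0
    simp only [hv1, w.red_one, Pi.zero_apply] at h4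
    exact one_ne_zero h4
  have hcv : c = fun i => c i0 * v i := by
    funext i
    change c i = c i0 * ((c i0)⁻¹ * c i)
    rw [mul_inv_cancel_left₀ hci0]
  have hAhom : ∀ (a : E) (u : Fin (m + 2) → E), aeval (fun i => a * u i) A =
      a ^ 3 * aeval u A := by
    intro a u
    rw [aeval_def, aeval_def, eval₂_smul _ _ _ hA]
  have hHhom : ∀ (a : E) (u : Fin (m + 2) → E), aeval (fun i => a * u i) H =
      a ^ d * aeval u H := by
    intro a u
    rw [aeval_def, aeval_def, eval₂_smul _ _ _ hH]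
  have h1' : ∑ i, v i ^ 3 + s * aeval (bs s ηE v) A = 0 := by
    have h4 : ∑ i, c i ^ 3 + s * aeval (bs s ηE c) A =
        c i0 ^ 3 * (∑ i, v i ^ 3 + s * aeval (bs s ηE v) A) := by
      have h5 : bs s ηE c = fun i => c i0 * bs s ηE v i := by
        conv_lhs => rw [hcv]
        exact bs_smul s (c i0) ηE v
      have h6 : ∑ i, c i ^ 3 = c i0 ^ 3 * ∑ i, v i ^ 3 := by
        rw [Finset.mul_sum]
        refine Finset.sum_congr rfl fun i _ => ?_
        conv_lhs => rw [hcv]
        ring
      rw [h5, hAhom, h6]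
      ring
    rw [h4] at h1
    exact (mul_eq_zero.1 h1).resolve_left (pow_ne_zero 3 hci0)
  have h2' : aeval (bs s ηE v) H = 0 := by
    have h5 : bs s ηE c = fun i => c i0 * bs s ηE v i := by
      conv_lhs => rw [hcv]
      exact bs_smul s (c i0) ηE v
    rw [h5, hHhom] at h2
    exact (mul_eq_zero.1 h2).resolve_left (pow_ne_zero d hci0)
  set τ' : E := τ * c i0 with hτ'
  have hzv : (fun i => z i + τ * c i) = fun i => z i + τ' * v i := by
    funext i
    have h4 : c i = c i0 * v i := congrFun hcv i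
    rw [h4, hτ']
    ring
  rw [hzv] at h3
  have h3' : ∑ i, (z i + τ' * v i) ^ 3 + s * aeval (bs s ηE (fun i => z i + τ' * v i)) A = 0 := by
    rw [← h3]
    congr 1
    refine Finset.sum_congr rfl fun i _ => ?_
    have h4 : z i + τ * c i = z i + τ' * v i := congrFun hzv i
    rw [h4]
  clear h3
  -- the valuation ring
  let sO : w.O := ⟨s, hsr⟩
  let vO : Fin (m + 2) → w.O := fun i => ⟨v i, hvr i⟩
  let zO : Fin (m + 2) → w.O := fun i => ⟨z i, hzr i⟩
  have hsO : w.resHom sO = 0 := by
    rw [← w.red_of_reg hsr]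
    exact hs0
  have hrv : ∀ i, w.resHom (vO i) = w.red (v i) := fun i => (w.red_of_reg (hvr i)).symm
  have hrz : ∀ i, w.resHom (zO i) = w.red (z i) := fun i => (w.red_of_reg (hzr i)).symm
  have hinj : Function.Injective (fun a : w.O => (a : E)) := Subtype.val_injective
  have hcoesum : ∀ u : Fin (m + 2) → w.O, ((∑ i, u i ^ 3 : w.O) : E) = ∑ i, (u i : E) ^ 3 := by
    intro u
    change w.O.subtype (∑ i, u i ^ 3) = _
    rw [map_sum]
    refine Finset.sum_congr rfl fun i _ => ?_
    rw [map_pow]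
    rfl
  have g1 : ∑ i, vO i ^ 3 + sO * eval₂ (kO w) (bs sO (fun i => kO w (η i)) vO) A = 0 := by
    apply hinj
    change ((∑ i, vO i ^ 3 : w.O) : E) +
      s * ((eval₂ (kO w) (bs sO (fun i => kO w (η i)) vO) A : w.O) : E) = 0
    rw [hcoesum, eq_O]
    exact h1'
  have g2 : eval₂ (kO w) (bs sO (fun i => kO w (η i)) vO) H = 0 := by
    apply hinj
    change ((eval₂ (kO w) (bs sO (fun i => kO w (η i)) vO) H : w.O) : E) = 0
    rw [eq_O]
    exact h2'
  -- the residue of the first coordinate
  have hv10 : w.red (v 1) = 0 := by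
    have h4 := congrArg w.resHom g2
    rw [red_O sO hsO, map_zero, eval₂_smul _ _ _ hH, hrv] at h4
    have h5 : eval₂ (algebraMap κ w.RF) (fun i => algebraMap κ w.RF (η i)) H =
        algebraMap κ w.RF (eval η H) := by
      rw [eval, coe_eval₂Hom]
      have h6 := hom_eval₂ H (RingHom.id κ) (algebraMap κ w.RF) η
      rw [h6, RingHom.comp_id]
    rw [h5] at h4
    rcases mul_eq_zero.1 h4 with h6 | h6
    · have h7 : d ≠ 0 := by
        intro h7
        rw [h7, pow_zero] at h6
        exact one_ne_zero h6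
      exact (pow_eq_zero_iff h7).1 h6
    · exact absurd ((map_eq_zero _).1 h6) hη
  have hrs : ∀ u : Fin (m + 2) → w.O, w.resHom (∑ i, u i ^ 3) = ∑ i, w.resHom (u i) ^ 3 := by
    intro u
    rw [map_sum]
    exact Finset.sum_congr rfl fun i _ => map_pow _ _ _
  have g1' : ∑ i, w.red (v i) ^ 3 = 0 := by
    have h4 := congrArg w.resHom g1
    rw [map_add, map_mul, hsO, zero_mul, add_zero, map_zero, hrs] at h4
    rw [← h4]
    exact Finset.sum_congr rfl fun i _ => by rw [hrv]
  by_cases hτr : w.Reg τ'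
  · -- the point specializes to a point of the chord
    let τO : w.O := ⟨τ', hτr⟩
    have g3 : ∑ i, (zO i + τO * vO i) ^ 3 + sO * eval₂ (kO w) (bs sO (fun i => kO w (η i))
        (fun i => zO i + τO * vO i)) A = 0 := by
      apply hinj
      change ((∑ i, (zO i + τO * vO i) ^ 3 : w.O) : E) +
        s * ((eval₂ (kO w) (bs sO (fun i => kO w (η i)) (fun i => zO i + τO * vO i)) A : w.O) : E) = 0
      rw [hcoesum, eq_O]
      exact h3'
    have g3' : ∑ i, (w.red (z i) + w.red τ' * w.red (v i)) ^ 3 = 0 := by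
      have h4 := congrArg w.resHom g3
      rw [map_add, map_mul, hsO, zero_mul, add_zero, map_zero, hrs] at h4
      rw [← h4]
      refine Finset.sum_congr rfl fun i _ => ?_
      rw [map_add, map_mul, hrv, hrz]
      have h5 : w.resHom τO = w.red τ' := (w.red_of_reg hτr).symm
      rw [h5]
    have h5 : ∑ i, (w.red (z i) + w.red τ' * w.red (v i)) ^ 3 =
        ∑ i, w.red (z i) ^ 3 + 3 * w.red τ' * ∑ i, w.red (z i) ^ 2 * w.red (v i) +
        3 * w.red τ' ^ 2 * ∑ i, w.red (z i) * w.red (v i) ^ 2 +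
        w.red τ' ^ 3 * ∑ i, w.red (v i) ^ 3 := by
      rw [Finset.mul_sum, Finset.mul_sum, Finset.mul_sum, ← Finset.sum_add_distrib,
        ← Finset.sum_add_distrib, ← Finset.sum_add_distrib]
      refine Finset.sum_congr rfl fun i _ => ?_
      ring
    rw [h5, g1', mul_zero, add_zero] at g3'
    apply hvne
    have hz2 : ∀ i, w.red (z i) = (Fin.cons 1 (fun j => w.red (y j)) : Fin (m + 2) → w.RF) i :=
      fun i => congrFun hzred i
    refine secondE (fun j => w.red (y j)) hind hwodd (fun i => w.red (v i))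
      (3 * (∑ i, w.red (z i) ^ 2 * w.red (v i)) +
        6 * w.red τ' * ∑ i, w.red (z i) * w.red (v i) ^ 2) hv10 ?_
    rw [← hzred]
    linear_combination (-12) * (∑ i, w.red (z i) * w.red (v i) ^ 2) * (-g3')
  · -- the chord specializes to a tangent
    have hτ0 : τ' ≠ 0 := fun h => hτr (Or.inl h)
    have hτneg : w.ord τ' < 0 := by
      by_contra h
      push Not at h
      exact hτr (Or.inr h)
    have hεpos : 0 < w.ord τ'⁻¹ := by
      rw [w.ord_inv]
      omega
    let ε : w.O := ⟨τ'⁻¹, Or.inr hεpos.le⟩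
    have hε0 : ε ≠ 0 := fun h => inv_ne_zero hτ0 (congrArg Subtype.val h)
    have hεr : w.resHom ε = 0 := by
      have h4 : w.red τ'⁻¹ = w.resHom ε := w.red_of_reg (Or.inr hεpos.le)
      rw [← h4]
      exact (w.red_eq_zero_iff (Or.inr hεpos.le)).2 (Or.inr hεpos)
    have h4 : ∑ i, (v i + τ'⁻¹ * z i) ^ 3 + s * aeval (bs s ηE (fun i => v i + τ'⁻¹ * z i)) A = 0 := by
      have h5 : (fun i => z i + τ' * v i) = fun i => τ' * (v i + τ'⁻¹ * z i) := by
        funext i
        field_simp
        ring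
      have h6 : ∑ i, (z i + τ' * v i) ^ 3 = τ' ^ 3 * ∑ i, (v i + τ'⁻¹ * z i) ^ 3 := by
        rw [Finset.mul_sum]
        refine Finset.sum_congr rfl fun i _ => ?_
        have h7 : z i + τ' * v i = τ' * (v i + τ'⁻¹ * z i) := congrFun h5 i
        rw [h7]
        ring
      rw [h5, bs_smul, hAhom, h6] at h3'
      have h8 : τ' ^ 3 * (∑ i, (v i + τ'⁻¹ * z i) ^ 3 + s * aeval (bs s ηE (fun i =>
          v i + τ'⁻¹ * z i)) A) = 0 := by
        rw [← h3']
        ring
      exact (mul_eq_zero.1 h8).resolve_left (pow_ne_zero 3 hτ0)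
    have g3 : ∑ i, (vO i + ε * zO i) ^ 3 + sO * eval₂ (kO w) (bs sO (fun i => kO w (η i))
        (fun i => vO i + ε * zO i)) A = 0 := by
      apply hinj
      change ((∑ i, (vO i + ε * zO i) ^ 3 : w.O) : E) +
        s * ((eval₂ (kO w) (bs sO (fun i => kO w (η i)) (fun i => vO i + ε * zO i)) A : w.O) : E) = 0
      rw [hcoesum, eq_O]
      exact h4
    obtain ⟨R, hR⟩ := Trans.taylor2 (kO w) (bs sO (fun i => kO w (η i)) vO)
      (bs sO (fun i => kO w (η i)) zO) ε A
    rw [bs_add, hR] at g3
    have h5 : ∑ i, (vO i + ε * zO i) ^ 3 = ∑ i, vO i ^ 3 +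
        ε * (3 * ∑ i, zO i * vO i ^ 2 + ε * (3 * ∑ i, zO i ^ 2 * vO i + ε * ∑ i, zO i ^ 3)) := by
      simp only [Finset.mul_sum, ← Finset.sum_add_distrib]
      refine Finset.sum_congr rfl fun i _ => ?_
      ring
    rw [h5] at g3
    set q1 := ∑ i, bs sO (fun i => kO w (η i)) zO i *
      eval₂ (kO w) (bs sO (fun i => kO w (η i)) vO) (pderiv i A) with hq1
    have h6 : ε * (3 * ∑ i, zO i * vO i ^ 2 + ε * (3 * ∑ i, zO i ^ 2 * vO i + ε * ∑ i, zO i ^ 3) +
        sO * (q1 + ε * R)) = 0 := by
      linear_combination g3 - g1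
    have h7 := (mul_eq_zero.1 h6).resolve_left hε0
    have h8 := congrArg w.resHom h7
    rw [map_add, map_add, map_mul, map_mul, map_mul, hεr, hsO, zero_mul, zero_mul, add_zero,
      add_zero, map_zero, map_ofNat] at h8
    have h9 : ∑ i, (Fin.cons 1 (fun j => w.red (y j)) : Fin (m + 2) → w.RF) i * w.red (v i) ^ 2 = 0 := by
      rw [← hzred]
      have h10 : w.resHom (∑ i, zO i * vO i ^ 2) = ∑ i, w.red (z i) * w.red (v i) ^ 2 := by
        rw [map_sum]
        refine Finset.sum_congr rfl fun i _ => ?_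
        rw [map_mul, map_pow, hrv, hrz]
      rw [h10] at h8
      exact (mul_eq_zero.1 h8).resolve_left (by norm_num)
    exact hvne (diagE (fun j => w.red (y j)) hind hwodd _ h9)

end

end

end Pool.Agent.T9h1
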