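import Pool.Agent.N122.Change
import Pool.Agent.R845.VG
import Pool.Agent.R845.T2.Fd
import Pool.Agent.T9h1.Main1
import Pool.Agent.T9h1.Kappa
import Pool.Agent.T9h1.Descent

/-! # No generic point of odd degree on a chord through a point of a fixed hypersurface -/

set_option autoImplicit false

namespace Pool.Agent.T9h1

open MvPolynomial Module IntermediateField FF Pool.Agent.R845.E3 Pool.Agent.R845.E3.Trans
open Pool.Agent.TH314.PD Pool.Agent.N122 Pool.Agent.R845.VG

noncomputable section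

/-- the change of coordinates -/
def tr {R : Type} [CommRing R] {m : ℕ} (s : R) (η x : Fin (m + 2) → R) : Fin (m + 2) → R :=
  fun i => if i = 1 then s * x 1 else x i - η i * x 1

theorem bs_tr {R : Type} [CommRing R] {m : ℕ} (s : R) (η x : Fin (m + 2) → R) (hη : η 1 = 1) :
    bs s η (tr s η x) = fun i => s * x i := by
  funext i
  unfold bs tr
  by_cases hi : i = 1
  · rw [if_pos hi, if_pos rfl, hi, hη]
    ring
  · rw [if_neg hi, if_neg hi, if_pos rfl]
    ring

theorem tr_lin {R : Type} [CommRing R] {m : ℕ} (s τ : R) (η x c : Fin (m + 2) → R) :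
    tr s η (fun i => x i + τ * c i) = fun i => tr s η x i + τ * tr s η c i := by
  funext i
  unfold tr
  split_ifs <;> ring

theorem tr_smul {R : Type} [CommRing R] {m : ℕ} (s τ : R) (η c : Fin (m + 2) → R) :
    tr s η (fun i => τ * c i) = fun i => τ * tr s η c i := by
  funext i
  unfold tr
  split_ifs <;> ring

theorem tr_ne {R : Type} [Field R] {m : ℕ} {s : R} (hs : s ≠ 0) (η : Fin (m + 2) → R)
    (hη : η 1 = 1) {x : Fin (m + 2) → R} (hx : x ≠ 0) : tr s η x ≠ 0 := by
  intro h
  apply hx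
  have h1 := bs_tr s η x hη
  rw [h] at h1
  funext i
  have h2 := congrFun h1 i
  simp only [bs, Pi.zero_apply, mul_zero, add_zero, ite_self] at h2
  exact (mul_eq_zero.1 h2.symm).resolve_left hs

/-- the matrix of `tr` -/
def Gm {m : ℕ} (s : ℂ) (η : Fin (m + 2) → ℂ) : Fin (m + 2) → Fin (m + 2) → ℂ :=
  fun a i => if a = 1 then (if i = 1 then s else 0) else
    (if i = a then 1 else 0) - (if i = 1 then η a else 0)

/-- the inverse matrix -/
def wm {m : ℕ} (s : ℂ) (η : Fin (m + 2) → ℂ) : Fin (m + 2) → Fin (m + 2) → ℂ :=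
  fun a i => if a = 1 then η i / s else (if i = a then 1 else 0)

theorem nc_eq {m : ℕ} (s : ℂ) (η : Fin (m + 2) → ℂ) {R : Type} [CommRing R] [Algebra ℂ R]
    (v : Fin (m + 2) → R) : nc (Gm s η) v = tr (algebraMap ℂ R s) (fun i => algebraMap ℂ R (η i)) v := by
  funext a
  unfold nc Gm tr
  by_cases ha : a = 1
  · simp only [ha, if_true]
    rw [Finset.sum_eq_single 1]
    · simp
    · intro i _ hi
      rw [if_neg hi, map_zero, zero_mul]
    · intro h
      exact absurd (Finset.mem_univ _) h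
  · simp only [ha, if_false, map_sub, sub_mul, Finset.sum_sub_distrib]
    congr 1
    · rw [Finset.sum_eq_single a]
      · simp
      · intro i _ hi
        rw [if_neg hi, map_zero, zero_mul]
      · intro h
        exact absurd (Finset.mem_univ _) h
    · rw [Finset.sum_eq_single 1]
      · simp
      · intro i _ hi
        rw [if_neg hi, map_zero, zero_mul]
      · intro h
        exact absurd (Finset.mem_univ _) h

theorem wG {m : ℕ} (s : ℂ) (hs : s ≠ 0) (η : Fin (m + 2) → ℂ) (hη : η 1 = 1) (i j : Fin (m + 2)) :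
    ∑ a, wm s η a i * Gm s η a j = if i = j then 1 else 0 := by
  rw [← Finset.add_sum_erase Finset.univ _ (Finset.mem_univ (1 : Fin (m + 2)))]
  unfold wm Gm
  rw [if_pos rfl, if_pos rfl]
  by_cases hi : i = 1
  · rw [Finset.sum_eq_zero]
    · rw [hi, hη, add_zero]
      by_cases hj : j = 1
      · rw [if_pos hj, if_pos hj.symm]
        field_simp
      · rw [if_neg hj, if_neg (Ne.symm hj)]
        ring
    · intro a ha
      have ha1 := (Finset.mem_erase.1 ha).1
      rw [if_neg ha1, if_neg (by rw [hi]; exact Ne.symm ha1), zero_mul]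
  · rw [Finset.sum_eq_single i]
    · rw [if_neg hi, if_pos rfl, if_neg hi]
      by_cases hj : j = 1
      · rw [if_pos hj, if_pos hj, if_neg (by rw [hj]; exact Ne.symm hi), if_neg (by rw [hj]; exact hi)]
        field_simp
        ring
      · rw [if_neg hj, if_neg hj]
        by_cases hij : i = j
        · rw [if_pos hij.symm, if_pos hij]
          ring
        · rw [if_neg (Ne.symm hij), if_neg hij]
          ring
    · intro a ha hai
      have ha1 := (Finset.mem_erase.1 ha).1
      rw [if_neg ha1, if_neg (Ne.symm hai), zero_mul]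
    · intro h
      exact absurd (Finset.mem_erase.2 ⟨hi, Finset.mem_univ _⟩) h

theorem Gw {m : ℕ} (s : ℂ) (hs : s ≠ 0) (η : Fin (m + 2) → ℂ) (hη : η 1 = 1) (a b : Fin (m + 2)) :
    ∑ i, Gm s η a i * wm s η b i = if a = b then 1 else 0 := by
  let W : Matrix (Fin (m + 2)) (Fin (m + 2)) ℂ := Matrix.of fun i a => wm s η a i
  let G : Matrix (Fin (m + 2)) (Fin (m + 2)) ℂ := Matrix.of fun a j => Gm s η a j
  have h1 : W * G = 1 := by
    ext i j
    rw [Matrix.mul_apply, Matrix.one_apply]
    exact wG s hs η hη i j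
  have h2 : G * W = 1 := mul_eq_one_comm.1 h1
  have h3 := congrFun (congrFun h2 a) b
  rw [Matrix.mul_apply, Matrix.one_apply] at h3
  exact h3

/-- the polynomial `∑_{i ≠ 1} (X_i - η_i X_1) ^ 3` -/
def P0 {m : ℕ} {k : Type} [Field k] (η : Fin (m + 2) → k) : MvPolynomial (Fin (m + 2)) k :=
  ∑ i ∈ Finset.univ.erase 1, (X i - C (η i) * X 1) ^ 3

theorem P0_hom {m : ℕ} {k : Type} [Field k] (η : Fin (m + 2) → k) : (P0 η).IsHomogeneous 3 := by
  refine IsHomogeneous.sum _ _ _ fun i _ => ?_
  have h1 := (isHomogeneous_C (Fin (m + 2)) (η i)).mul (isHomogeneous_X k (1 : Fin (m + 2)))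
  rw [zero_add] at h1
  have h2 := ((isHomogeneous_X k i).sub h1).pow 3
  rwa [one_mul] at h2

theorem eval_P0 {m : ℕ} {k R : Type} [Field k] [CommRing R] (φ : k →+* R) (η : Fin (m + 2) → k)
    (s : R) (x : Fin (m + 2) → R) :
    eval₂ φ x (P0 η) + s ^ 3 * x 1 ^ 3 = ∑ i, tr s (fun i => φ (η i)) x i ^ 3 := by
  rw [← Finset.add_sum_erase Finset.univ _ (Finset.mem_univ (1 : Fin (m + 2))), add_comm]
  congr 1
  · unfold tr
    rw [if_pos rfl]
    ring
  · unfold P0
    rw [← coe_eval₂Hom, map_sum]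
    refine Finset.sum_congr rfl fun i hi => ?_
    unfold tr
    rw [if_neg (Finset.mem_erase.1 hi).1]
    simp

/-- the decomposition of a form with independent coefficients -/
theorem decomp {m : ℕ} (k : Subfield ℂ) [Countable k] (F : MvPolynomial (Fin (m + 2)) ℂ)
    (hF : F.IsHomogeneous 3) (hind : AlgebraicIndependent k (cf 3 F)) (η : Fin (m + 2) → k) :
    ∃ (κ : Type) (_ : Field κ) (_ : Algebra κ ℂ) (s : ℂ) (A : MvPolynomial (Fin (m + 2)) κ)
      (θ : k →+* κ), (∀ x : k, algebraMap κ ℂ (θ x) = x) ∧ A.IsHomogeneous 3 ∧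
      IsTranscendenceBasis κ (fun _ : Unit => s) ∧
      ∀ (R : Type) [CommRing R] [Algebra ℂ R] (x : Fin (m + 2) → R),
        aeval x F = ∑ i, tr (algebraMap ℂ R s) (fun i => algebraMap ℂ R (η i : ℂ)) x i ^ 3 +
          algebraMap ℂ R s ^ 4 * eval₂ ((algebraMap ℂ R).comp (algebraMap κ ℂ)) x A := by
  classical
  have hfinM : Finite (Mon (m + 2) 3) := by
    have h1 : {β : Fin (m + 2) →₀ ℕ | β.degree = 3}.Finite := by
      refine (Finsupp.finite_of_degree_le 3).subset ?_
      intro β hβ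
      exact le_of_eq hβ
    exact h1
  let _ := Fintype.ofFinite (Mon (m + 2) 3)
  obtain ⟨κ, iF, iA, s, a, θ, h1, h2, h3⟩ := exists_kappa k (cf 3 F) hind
    (fun β => coeff β.1 (P0 η)) (fun β => coeff β.1 (X 1 ^ 3))
  let A : MvPolynomial (Fin (m + 2)) κ := ∑ β : Mon (m + 2) 3, monomial β.1 (a β)
  have hA : A.IsHomogeneous 3 := by
    refine IsHomogeneous.sum _ _ _ fun β _ => ?_
    exact isHomogeneous_monomial _ β.2
  have hAc : ∀ β : Mon (m + 2) 3, coeff β.1 A = a β := by
    intro β
    change coeff β.1 (∑ β : Mon (m + 2) 3, monomial β.1 (a β)) = _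
    rw [coeff_sum, Finset.sum_eq_single β]
    · rw [coeff_monomial, if_pos rfl]
    · intro γ _ hγ
      rw [coeff_monomial, if_neg]
      intro h
      exact hγ (Subtype.ext h)
    · intro h
      exact absurd (Finset.mem_univ _) h
  refine ⟨κ, iF, iA, s, A, θ, h1, hA, h3, ?_⟩
  have hX : (X 1 ^ 3 : MvPolynomial (Fin (m + 2)) k).IsHomogeneous 3 := by
    have := (isHomogeneous_X k (1 : Fin (m + 2))).pow 3
    rwa [one_mul] at this
  have key : F = map k.subtype (P0 η) + C (s ^ 3) * map k.subtype (X 1 ^ 3) +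
      C (s ^ 4) * map (algebraMap κ ℂ) A := by
    ext β
    rw [coeff_add, coeff_add, coeff_C_mul, coeff_C_mul, coeff_map, coeff_map, coeff_map]
    by_cases hβ : β.degree = 3
    · have h4 := h2 ⟨β, hβ⟩
      rw [hAc ⟨β, hβ⟩]
      change coeff β F = _ at h4
      rw [h4]
      simp only [Subfield.subtype_apply]
      ring
    · rw [hF.coeff_eq_zero hβ, (P0_hom η).coeff_eq_zero hβ, hX.coeff_eq_zero hβ,
        hA.coeff_eq_zero hβ]
      simp
  intro R _ _ x
  conv_lhs => rw [key]
  rw [map_add, map_add, map_mul, map_mul, aeval_C, aeval_C, map_pow (algebraMap ℂ R) s 3,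
    map_pow (algebraMap ℂ R) s 4]
  have e1 : aeval x (map k.subtype (P0 η)) = eval₂ ((algebraMap ℂ R).comp k.subtype) x (P0 η) := by
    rw [aeval_def, eval₂_map]
  have e2 : aeval x (map k.subtype (X 1 ^ 3 : MvPolynomial (Fin (m + 2)) k)) = x 1 ^ 3 := by
    simp
  have e3 : aeval x (map (algebraMap κ ℂ) A) =
      eval₂ ((algebraMap ℂ R).comp (algebraMap κ ℂ)) x A := by
    rw [aeval_def, eval₂_map]
  rw [e1, e2, e3, eval_P0 ((algebraMap ℂ R).comp k.subtype) η (algebraMap ℂ R s) x]
  rfl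

end

end Pool.Agent.T9h1
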