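import Pool.Agent.R845.E3.Spr

/-! # The conic bundle of the sum of cubes: squares modulo primes of the base -/

set_option autoImplicit false

namespace Pool.Agent.T9h1

open MvPolynomial Module Pool.Agent.R845.E3

noncomputable section

variable {K : Type} [Field K] {k : ℕ}

/-- `1 + w³ + 4 (x_4³ + x_5³ + ...)`; the variables are `X 0 = x_4`, `X 1 = w`, `X 2`, `X 3`
(which do not occur) and `X 4 = x_5`, ... -/
def gg (K : Type) [Field K] (k : ℕ) : MvPolynomial (Fin (k + 4)) K :=
  1 + X 1 ^ 3 + 4 * (X 0 ^ 3 + ∑ j : Fin k, X j.succ.succ.succ.succ ^ 3)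

theorem four_eq {σ : Type} : (4 : MvPolynomial σ K) = C 4 := (map_ofNat C 4).symm

theorem four_ne (j : Fin k) : (j.succ.succ.succ.succ : Fin (k + 4)) ≠ 1 := by
  intro h
  have := congrArg Fin.val h
  simp at this

/-- the substitution `w = 0` -/
def kill (K : Type) [Field K] (k : ℕ) : MvPolynomial (Fin (k + 4)) K →ₐ[K]
    MvPolynomial (Fin (k + 4)) K :=
  aeval fun i => if i = 1 then 0 else X i

theorem sub_kill (p : MvPolynomial (Fin (k + 4)) K) : X 1 ∣ p - kill K k p := by
  induction p using MvPolynomial.induction_on with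
  | C a => simp [kill]
  | add p q hp hq =>
    have h : p + q - kill K k (p + q) = (p - kill K k p) + (q - kill K k q) := by
      rw [map_add]; ring
    rw [h]
    exact dvd_add hp hq
  | mul_X p i hp =>
    have h : p * X i - kill K k (p * X i) = (p - kill K k p) * X i +
        kill K k p * (X i - kill K k (X i)) := by
      rw [map_mul]; ring
    rw [h]
    refine dvd_add (Dvd.dvd.mul_right hp _) (Dvd.dvd.mul_left ?_ _)
    by_cases hi : i = 1
    · subst hi
      simp [kill]
    · have : kill K k (X i) = X i := by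
        unfold kill
        rw [aeval_X, if_neg hi]
      rw [this, sub_self]
      exact dvd_zero _

theorem dvd_iff_kill (p : MvPolynomial (Fin (k + 4)) K) : X 1 ∣ p ↔ kill K k p = 0 := by
  constructor
  · rintro ⟨q, rfl⟩
    rw [map_mul]
    have : kill K k (X 1) = 0 := by
      unfold kill
      rw [aeval_X, if_pos rfl]
    rw [this, zero_mul]
  · intro h
    have := sub_kill p
    rwa [h, sub_zero] at this

/-- the polynomial `1 + 4 (x_4³ + x_5³ + ...)` -/
def gk (K : Type) [Field K] (k : ℕ) : MvPolynomial (Fin (k + 4)) K :=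
  1 + 4 * (X 0 ^ 3 + ∑ j : Fin k, X j.succ.succ.succ.succ ^ 3)

theorem kill_gg : kill K k (gg K k) = gk K k := by
  unfold gg kill gk
  rw [four_eq]
  simp only [map_add, map_mul, map_one, map_pow, map_sum, aeval_X, aeval_C, if_true,
    four_ne, if_false]
  rw [zero_pow (by norm_num), add_zero, if_neg (by
    intro h
    have := congrArg Fin.val h
    simp at this)]
  rfl

theorem totalDegree_gk [CharZero K] : (gk K k).totalDegree = 3 := by
  classical
  unfold gk
  apply le_antisymm
  · refine (totalDegree_add _ _).trans (max_le (by rw [totalDegree_one]; exact Nat.zero_le _) ?_)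
    refine (totalDegree_mul _ _).trans ?_
    rw [four_eq, totalDegree_C, zero_add]
    refine (totalDegree_add _ _).trans (max_le ?_ ?_)
    · exact (totalDegree_pow _ _).trans (by rw [totalDegree_X])
    · refine totalDegree_finsetSum_le fun j _ => ?_
      exact (totalDegree_pow _ _).trans (by rw [totalDegree_X])
  · have h : (Finsupp.single (0 : Fin (k + 4)) 3 : Fin (k + 4) →₀ ℕ) ∈
        (1 + 4 * (X 0 ^ 3 + ∑ j : Fin k, X j.succ.succ.succ.succ ^ 3) :
          MvPolynomial (Fin (k + 4)) K).support := by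
      rw [MvPolynomial.mem_support_iff, coeff_add]
      rw [four_eq, coeff_C_mul, coeff_add, coeff_sum, Finset.sum_eq_zero]
      · rw [X_pow_eq_monomial, coeff_monomial, if_pos rfl]
        have h1 : coeff (Finsupp.single (0 : Fin (k + 4)) 3)
            (1 : MvPolynomial (Fin (k + 4)) K) = 0 := by
          rw [coeff_one, if_neg]
          intro h
          have := DFunLike.congr_fun h (0 : Fin (k + 4))
          simp at this
        rw [h1]
        norm_num
      · intro j _
        rw [X_pow_eq_monomial, coeff_monomial, if_neg]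
        intro h
        have h2 := DFunLike.congr_fun h (0 : Fin (k + 4))
        rw [Finsupp.single_eq_same, Finsupp.single_eq_of_ne] at h2
        · omega
        · exact (Fin.succ_ne_zero _).symm
    have h2 := le_totalDegree h
    rw [Finsupp.sum_single_index rfl] at h2
    exact h2

/-- modulo `w` minus the constant term of the equation of the conic is not a square -/
theorem alpha [CharZero K] (a b : MvPolynomial (Fin (k + 4)) K)
    (h : X 1 ∣ a ^ 2 + C (1 / 12) * gg K k * b ^ 2) : X 1 ∣ a ∧ X 1 ∣ b := by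
  rw [dvd_iff_kill] at h ⊢
  rw [dvd_iff_kill b]
  rw [map_add, map_mul, map_mul, map_pow, map_pow, kill_gg] at h
  have hC : kill K k (C (1 / 12)) = C (1 / 12) := by
    unfold kill
    rw [aeval_C]
    rfl
  rw [hC] at h
  set a' := kill K k a
  set b' := kill K k b
  set G : MvPolynomial (Fin (k + 4)) K := gk K k with hG
  have hGd : G.totalDegree = 3 := totalDegree_gk
  have hG0 : G ≠ 0 := by
    intro h0
    rw [h0, totalDegree_zero] at hGd
    omega
  have hC0 : (C (1 / 12) : MvPolynomial (Fin (k + 4)) K) ≠ 0 := by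
    rw [Ne, C_eq_zero]
    norm_num
  have hb : b' = 0 := by
    by_contra hb
    have ha : a' ≠ 0 := by
      intro ha
      rw [ha] at h
      apply mul_ne_zero (mul_ne_zero hC0 hG0) (pow_ne_zero 2 hb)
      rw [← h]
      ring
    have h1 : a' ^ 2 = -(C (1 / 12) * G * b' ^ 2) := by linear_combination h
    have h2 := congrArg totalDegree h1
    rw [totalDegree_neg, totalDegree_mul_of_isDomain (mul_ne_zero hC0 hG0) (pow_ne_zero 2 hb),
      totalDegree_mul_of_isDomain hC0 hG0, totalDegree_C, hGd, pow_two, pow_two,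
      totalDegree_mul_of_isDomain ha ha, totalDegree_mul_of_isDomain hb hb] at h2
    omega
  refine ⟨?_, hb⟩
  rw [hb] at h
  have h3 : a' ^ 2 = 0 := by linear_combination h
  exact pow_eq_zero_iff (two_ne_zero) |>.1 h3

/-- the conic `P² + w Q² + (g / 12) R² = 0` has no rational point -/
theorem conic_aniso [CharZero K] (N : ℕ) : ∀ P Q R : MvPolynomial (Fin (k + 4)) K,
    P.totalDegree + Q.totalDegree + R.totalDegree ≤ N →
    P ^ 2 + X 1 * Q ^ 2 + C (1 / 12) * gg K k * R ^ 2 = 0 → P = 0 ∧ Q = 0 ∧ R = 0 := by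
  induction N with
  | zero =>
    intro P Q R hN h
    have hX : (X 1 : MvPolynomial (Fin (k + 4)) K) ≠ 0 := X_ne_zero _
    have hdX : (X 1 : MvPolynomial (Fin (k + 4)) K).totalDegree = 1 := totalDegree_X _
    have key : ∀ P : MvPolynomial (Fin (k + 4)) K, P.totalDegree = 0 → X 1 ∣ P → P = 0 := by
      rintro P hP ⟨P', rfl⟩
      by_contra h0
      rw [totalDegree_mul_of_isDomain hX (right_ne_zero_of_mul h0), hdX] at hP
      omega
    obtain ⟨h1, h2⟩ := alpha P R ⟨-Q ^ 2, by linear_combination h⟩
    have hP := key P (by omega) h1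
    have hR := key R (by omega) h2
    refine ⟨hP, ?_, hR⟩
    rw [hP, hR] at h
    have h3 : X 1 * Q ^ 2 = 0 := by linear_combination h
    exact pow_eq_zero_iff (two_ne_zero) |>.1 ((mul_eq_zero.1 h3).resolve_left hX)
  | succ N ih =>
    intro P Q R hN h
    have hX : (X 1 : MvPolynomial (Fin (k + 4)) K) ≠ 0 := X_ne_zero _
    have hdX : (X 1 : MvPolynomial (Fin (k + 4)) K).totalDegree = 1 := totalDegree_X _
    obtain ⟨⟨P', rfl⟩, ⟨R', rfl⟩⟩ := alpha P R ⟨-Q ^ 2, by linear_combination h⟩
    have h1 : X 1 * (X 1 * P' ^ 2 + Q ^ 2 + C (1 / 12) * gg K k * X 1 * R' ^ 2) = 0 := by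
      linear_combination h
    have h2 := (mul_eq_zero.1 h1).resolve_left hX
    have h3 : X 1 ∣ Q ^ 2 := ⟨-(P' ^ 2 + C (1 / 12) * gg K k * R' ^ 2), by linear_combination h2⟩
    obtain ⟨Q', rfl⟩ : X 1 ∣ Q := by
      rw [dvd_iff_kill] at h3 ⊢
      rw [map_pow] at h3
      exact pow_eq_zero_iff (two_ne_zero) |>.1 h3
    have h4 : X 1 * (P' ^ 2 + X 1 * Q' ^ 2 + C (1 / 12) * gg K k * R' ^ 2) = 0 := by
      linear_combination h2
    have h5 := (mul_eq_zero.1 h4).resolve_left hX
    have hd : ∀ P' : MvPolynomial (Fin (k + 4)) K,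
        (P' = 0 ∧ P'.totalDegree = 0 ∧ (X 1 * P').totalDegree = 0) ∨
        (X 1 * P').totalDegree = P'.totalDegree + 1 := by
      intro P'
      by_cases h0 : P' = 0
      · left
        rw [h0, mul_zero, totalDegree_zero]
        exact ⟨rfl, rfl, rfl⟩
      · right
        rw [totalDegree_mul_of_isDomain hX h0, hdX]
        omega
    by_cases hall : P' = 0 ∧ Q' = 0 ∧ R' = 0
    · obtain ⟨rfl, rfl, rfl⟩ := hall
      exact ⟨by simp, by simp, by simp⟩
    · exfalso
      apply hall
      refine ih P' Q' R' ?_ h5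
      rcases hd P' with e1 | e1 <;> rcases hd Q' with e2 | e2 <;> rcases hd R' with e3 | e3
      · exact absurd ⟨e1.1, e2.1, e3.1⟩ hall
      all_goals omega

end

end Pool.Agent.T9h1
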