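import Pool.Agent.T9h1.C6

/-! # The chart of the cubic cone -/

set_option autoImplicit false

namespace Pool.Agent.T9h1

open MvPolynomial

noncomputable section

/-- indices -/
abbrev i1 (k : ℕ) : Fin (k + 5) := Fin.succ 0
/-- indices -/
abbrev i2 (k : ℕ) : Fin (k + 5) := Fin.succ (Fin.succ 0)
/-- indices -/
abbrev i3 (k : ℕ) : Fin (k + 5) := Fin.succ (Fin.succ (Fin.succ 0))
/-- indices -/
abbrev i4 (k : ℕ) : Fin (k + 5) := Fin.succ (Fin.succ (Fin.succ (Fin.succ 0)))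
/-- indices -/
abbrev i5 {k : ℕ} (j : Fin k) : Fin (k + 5) := j.succ.succ.succ.succ.succ
/-- indices -/
abbrev s2 (k : ℕ) : Fin (k + 4) := Fin.succ (Fin.succ 0)
/-- indices -/
abbrev s3 (k : ℕ) : Fin (k + 4) := Fin.succ (Fin.succ (Fin.succ 0))

theorem sum5 {T : Type} [AddCommMonoid T] {k : ℕ} (f : Fin (k + 5) → T) :
    ∑ i, f i = f 0 + (f (i1 k) + (f (i2 k) + (f (i3 k) + (f (i4 k) + ∑ j, f (i5 j))))) := by
  rw [Fin.sum_univ_succ, Fin.sum_univ_succ, Fin.sum_univ_succ, Fin.sum_univ_succ,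
    Fin.sum_univ_succ]

theorem all5 {k : ℕ} {P : Fin (k + 5) → Prop} (h0 : P 0) (h1 : P (i1 k)) (h2 : P (i2 k))
    (h3 : P (i3 k)) (h4 : P (i4 k)) (h5 : ∀ j, P (i5 j)) (i : Fin (k + 5)) : P i := by
  refine Fin.cases h0 (fun i => ?_) i
  refine Fin.cases h1 (fun i => ?_) i
  refine Fin.cases h2 (fun i => ?_) i
  refine Fin.cases h3 (fun i => ?_) i
  refine Fin.cases h4 (fun i => ?_) i
  exact h5 i

theorem all4 {k : ℕ} {P : Fin (k + 4) → Prop} (h0 : P 0) (h1 : P 1) (h2 : P (s2 k))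
    (h3 : P (s3 k)) (h4 : ∀ j : Fin k, P j.succ.succ.succ.succ) (i : Fin (k + 4)) : P i := by
  refine Fin.cases h0 (fun i => ?_) i
  refine Fin.cases ?_ (fun i => ?_) i
  · exact h1
  refine Fin.cases h2 (fun i => ?_) i
  refine Fin.cases h3 (fun i => ?_) i
  exact h4 i

section chart

variable (K : Type) [Field K] {T : Type} [CommRing T] [Algebra K T] {k : ℕ}

/-- the coordinates of the base of the conic bundle -/
def ct {T : Type} [CommRing T] {k : ℕ} (x : Fin (k + 5) → T) (ρ ui : T) : Fin (k + 4) → T :=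
  Fin.cons (x (i4 k) * ui) (Fin.cons ((x (i2 k) + x (i3 k)) * ui) (Fin.cons (ρ * ui)
    (Fin.cons (x 0 + x (i1 k)) (fun j => x (i5 j) * ui))))

/-- the coordinate `q` -/
def cq (x : Fin (k + 5) → T) (ui : T) : T :=
  algebraMap K T (1 / 2) * ((x (i2 k) - x (i3 k)) * ui)

/-- the coordinate `p` -/
def cp (x : Fin (k + 5) → T) (ui : T) : T :=
  algebraMap K T (1 / 2) * ((x 0 - x (i1 k)) * ui)

section

variable {T : Type} [CommRing T] {k : ℕ} (x : Fin (k + 5) → T) (ρ ui : T)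

theorem ct_0 : ct x ρ ui 0 = x (i4 k) * ui := rfl
theorem ct_1 : ct x ρ ui 1 = (x (i2 k) + x (i3 k)) * ui := rfl
theorem ct_2 : ct x ρ ui (s2 k) = ρ * ui := rfl
theorem ct_3 : ct x ρ ui (s3 k) = x 0 + x (i1 k) := rfl
theorem ct_4 (j : Fin k) : ct x ρ ui j.succ.succ.succ.succ = x (i5 j) * ui := rfl

end

theorem hτ [CharZero K] : algebraMap K T (1 / 2) ^ 2 = 3 * algebraMap K T (1 / 12) := by
  rw [← map_pow, ← map_ofNat (algebraMap K T) 3, ← map_mul]
  congr 1
  norm_num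

theorem hh [CharZero K] : 2 * algebraMap K T (1 / 2) = 1 := by
  rw [← map_ofNat (algebraMap K T) 2, ← map_mul, ← map_one (algebraMap K T)]
  congr 1
  norm_num

theorem hτ' [CharZero K] : 24 * algebraMap K T (1 / 2) * algebraMap K T (1 / 12) = 1 := by
  rw [← map_ofNat (algebraMap K T) 24, ← map_mul, ← map_mul, ← map_one (algebraMap K T)]
  congr 1
  norm_num

theorem eval_DD {T : Type} [CommRing T] [Algebra K T] {k : ℕ} (t : Fin (k + 4) → T) (q : T) :
    Polynomial.eval₂RingHom (aeval t : MvPolynomial (Fin (k + 4)) K →ₐ[K] T).toRingHom q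
      (DD K k) = -(t 1 * q ^ 2 + algebraMap K T (1 / 12) *
        (1 + t 1 ^ 3 + 4 * (t 0 ^ 3 + ∑ j : Fin k, t j.succ.succ.succ.succ ^ 3))) := by
  have hC : ∀ s, Polynomial.eval₂RingHom (aeval t : MvPolynomial (Fin (k + 4)) K →ₐ[K] T).toRingHom q
      (Polynomial.C s) = aeval t s := fun s => Polynomial.eval₂_C _ _
  have hX : Polynomial.eval₂RingHom (aeval t : MvPolynomial (Fin (k + 4)) K →ₐ[K] T).toRingHom q
      Polynomial.X = q := Polynomial.eval₂_X _ _
  unfold DD gg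
  rw [map_neg, map_add, map_mul, map_pow, hX, hC, hC, map_mul, map_add, map_add, map_mul, map_add,
    map_sum, aeval_C, aeval_X, map_one, map_pow, map_pow, aeval_X, aeval_X, map_ofNat]
  congr 1
  congr 1
  congr 1
  congr 1
  congr 1
  congr 1
  refine Finset.sum_congr rfl fun j _ => ?_
  rw [map_pow, aeval_X]

variable [CharZero K]

theorem c_eq (x : Fin (k + 5) → T) (ρ ui : T) (hu : (x 0 + x (i1 k)) * ui = 1)
    (h3 : ∑ i, x i ^ 3 = 0) :
    cp K x ui ^ 2 = Polynomial.eval₂RingHom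
      (aeval (ct x ρ ui) : MvPolynomial (Fin (k + 4)) K →ₐ[K] T).toRingHom (cq K x ui)
      (DD K k) := by
  rw [eval_DD, ct_0, ct_1]
  simp only [ct_4]
  have hS : ∑ j : Fin k, (x (i5 j) * ui) ^ 3 = (∑ j, x (i5 j) ^ 3) * ui ^ 3 := by
    rw [Finset.sum_mul]
    exact Finset.sum_congr rfl fun j _ => by ring
  rw [hS]
  rw [sum5] at h3
  unfold cp cq
  have h1 := hτ K (T := T)
  set h := algebraMap K T (1 / 2)
  set τ := algebraMap K T (1 / 12)
  set S := ∑ j, x (i5 j) ^ 3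
  linear_combination ((x 0 - x (i1 k)) ^ 2 * ui ^ 2 + (x (i2 k) + x (i3 k)) *
    (x (i2 k) - x (i3 k)) ^ 2 * ui ^ 3) * h1 + τ * 4 * ui ^ 3 * h3 -
    τ * (3 * (x 0 - x (i1 k)) ^ 2 * ui ^ 2 + 1 + (x 0 + x (i1 k)) * ui +
      (x 0 + x (i1 k)) ^ 2 * ui ^ 2) * hu

/-- **the homomorphism of the chart ring given by a point** -/
def cj (x : Fin (k + 5) → T) (ρ ui : T) (hu : (x 0 + x (i1 k)) * ui = 1)
    (h3 : ∑ i, x i ^ 3 = 0) : QA (DD K k) →+* T :=
  qaHom (DD K k) (Polynomial.eval₂RingHom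
      (aeval (ct x ρ ui) : MvPolynomial (Fin (k + 4)) K →ₐ[K] T).toRingHom (cq K x ui))
    (cp K x ui) (c_eq K x ρ ui hu h3)

theorem cj_map {T' : Type} [CommRing T'] [Algebra K T'] (g : T →ₐ[K] T') (x : Fin (k + 5) → T)
    (ρ ui : T) (hu : (x 0 + x (i1 k)) * ui = 1) (h3 : ∑ i, x i ^ 3 = 0)
    (hu' : (g (x 0) + g (x (i1 k))) * g ui = 1) (h3' : ∑ i, g (x i) ^ 3 = 0) (z : QA (DD K k)) :
    g (cj K x ρ ui hu h3 z) = cj K (fun i => g (x i)) (g ρ) (g ui) hu' h3' z := by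
  unfold cj
  rw [qaHom_apply, qaHom_apply, map_add, map_mul]
  have hct : (fun i => g (ct x ρ ui i)) = ct (fun i => g (x i)) (g ρ) (g ui) := by
    funext i
    refine all4 (P := fun i => g (ct x ρ ui i) = ct (fun i => g (x i)) (g ρ) (g ui) i)
      ?_ ?_ ?_ ?_ (fun j => ?_) i
    · rw [ct_0, ct_0, map_mul]
    · rw [ct_1, ct_1, map_mul, map_add]
    · rw [ct_2, ct_2, map_mul]
    · rw [ct_3, ct_3, map_add]
    · rw [ct_4, ct_4, map_mul]
  have hq : g (cq K x ui) = cq K (fun i => g (x i)) (g ui) := by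
    unfold cq
    rw [map_mul, map_mul, map_sub, AlgHom.commutes]
  have hp : g (cp K x ui) = cp K (fun i => g (x i)) (g ui) := by
    unfold cp
    rw [map_mul, map_mul, map_sub, AlgHom.commutes]
  have hf : ∀ s, g (Polynomial.eval₂RingHom
      (aeval (ct x ρ ui) : MvPolynomial (Fin (k + 4)) K →ₐ[K] T).toRingHom (cq K x ui) s) =
      Polynomial.eval₂RingHom
      (aeval (ct (fun i => g (x i)) (g ρ) (g ui)) : MvPolynomial (Fin (k + 4)) K →ₐ[K] T').toRingHom
      (cq K (fun i => g (x i)) (g ui)) s := by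
    intro s
    change g.toRingHom (Polynomial.eval₂ _ _ s) = Polynomial.eval₂ _ _ s
    rw [Polynomial.hom_eval₂]
    congr 1
    rw [← hct]
    apply MvPolynomial.ringHom_ext
    · intro r
      change g (aeval _ (C r)) = aeval _ (C r)
      rw [aeval_C, aeval_C, AlgHom.commutes]
    · intro i
      change g (aeval _ (X i)) = aeval _ (X i)
      rw [aeval_X, aeval_X]
  rw [hf, hf, hp]

end chart

section generic

variable (K : Type) [Field K] (k : ℕ)

/-- the coordinates of the generic point, over the chart ring -/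
def xx : Fin (k + 5) → QA (DD K k) :=
  Fin.cons ⟨Polynomial.C (C (1 / 2) * X (s3 k)), Polynomial.C (X (s3 k))⟩
  (Fin.cons ⟨Polynomial.C (C (1 / 2) * X (s3 k)), Polynomial.C (-X (s3 k))⟩
  (Fin.cons ⟨Polynomial.C (C (1 / 2) * X (s3 k) * X 1) + Polynomial.C (X (s3 k)) * Polynomial.X, 0⟩
  (Fin.cons ⟨Polynomial.C (C (1 / 2) * X (s3 k) * X 1) - Polynomial.C (X (s3 k)) * Polynomial.X, 0⟩
  (Fin.cons ⟨Polynomial.C (X (s3 k) * X 0), 0⟩
    (fun j => ⟨Polynomial.C (X (s3 k) * X j.succ.succ.succ.succ), 0⟩)))))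

/-- the parameter of the generic point -/
def rr : QA (DD K k) := ⟨Polynomial.C (X (s3 k) * X (s2 k)), 0⟩

theorem xx_0 : xx K k 0 = ⟨Polynomial.C (C (1 / 2) * X (s3 k)), Polynomial.C (X (s3 k))⟩ := rfl
theorem xx_1 : xx K k (i1 k) = ⟨Polynomial.C (C (1 / 2) * X (s3 k)), Polynomial.C (-X (s3 k))⟩ := rfl
theorem xx_2 : xx K k (i2 k) = ⟨Polynomial.C (C (1 / 2) * X (s3 k) * X 1) +
  Polynomial.C (X (s3 k)) * Polynomial.X, 0⟩ := rfl
theorem xx_3 : xx K k (i3 k) = ⟨Polynomial.C (C (1 / 2) * X (s3 k) * X 1) -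
  Polynomial.C (X (s3 k)) * Polynomial.X, 0⟩ := rfl
theorem xx_4 : xx K k (i4 k) = ⟨Polynomial.C (X (s3 k) * X 0), 0⟩ := rfl
theorem xx_5 (j : Fin k) : xx K k (i5 j) =
  ⟨Polynomial.C (X (s3 k) * X j.succ.succ.succ.succ), 0⟩ := rfl

variable [CharZero K]

theorem cj_xx {T : Type} [CommRing T] [Algebra K T] (x : Fin (k + 5) → T) (ρ ui : T)
    (hu : (x 0 + x (i1 k)) * ui = 1) (h3 : ∑ i, x i ^ 3 = 0) (i : Fin (k + 5)) :
    cj K x ρ ui hu h3 (xx K k i) = x i := by
  have hC : ∀ s, Polynomial.eval₂RingHom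
      (aeval (ct x ρ ui) : MvPolynomial (Fin (k + 4)) K →ₐ[K] T).toRingHom (cq K x ui)
      (Polynomial.C s) = aeval (ct x ρ ui) s := fun s => Polynomial.eval₂_C _ _
  have hX : Polynomial.eval₂RingHom
      (aeval (ct x ρ ui) : MvPolynomial (Fin (k + 4)) K →ₐ[K] T).toRingHom (cq K x ui)
      Polynomial.X = cq K x ui := Polynomial.eval₂_X _ _
  have h2 := hh K (T := T)
  refine all5 (P := fun i => cj K x ρ ui hu h3 (xx K k i) = x i) ?_ ?_ ?_ ?_ ?_ (fun j => ?_) i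
  · rw [xx_0]
    unfold cj
    rw [qaHom_apply]
    simp only [hC, map_mul, aeval_C, aeval_X, ct_3]
    unfold cp
    linear_combination (algebraMap K T (1 / 2) * (x 0 - x (i1 k))) * hu + x 0 * h2
  · rw [xx_1]
    unfold cj
    rw [qaHom_apply]
    simp only [hC, map_mul, map_neg, aeval_C, aeval_X, ct_3]
    unfold cp
    linear_combination -(algebraMap K T (1 / 2) * (x 0 - x (i1 k))) * hu + x (i1 k) * h2
  · rw [xx_2]
    unfold cj
    rw [qaHom_apply]
    simp only [hC, hX, map_mul, map_add, map_zero, aeval_C, aeval_X, ct_3, ct_1]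
    unfold cq
    linear_combination (algebraMap K T (1 / 2) * (2 * x (i2 k))) * hu + x (i2 k) * h2
  · rw [xx_3]
    unfold cj
    rw [qaHom_apply]
    simp only [hC, hX, map_mul, map_sub, map_zero, aeval_C, aeval_X, ct_3, ct_1]
    unfold cq
    linear_combination (algebraMap K T (1 / 2) * (2 * x (i3 k))) * hu + x (i3 k) * h2
  · rw [xx_4]
    unfold cj
    rw [qaHom_apply]
    simp only [hC, map_mul, map_zero, aeval_X, ct_3, ct_0]
    linear_combination x (i4 k) * hu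
  · rw [xx_5]
    unfold cj
    rw [qaHom_apply]
    simp only [hC, map_mul, map_zero, aeval_X, ct_3, ct_4]
    linear_combination x (i5 j) * hu

theorem cj_rr {T : Type} [CommRing T] [Algebra K T] (x : Fin (k + 5) → T) (ρ ui : T)
    (hu : (x 0 + x (i1 k)) * ui = 1) (h3 : ∑ i, x i ^ 3 = 0) :
    cj K x ρ ui hu h3 (rr K k) = ρ := by
  have hC : ∀ s, Polynomial.eval₂RingHom
      (aeval (ct x ρ ui) : MvPolynomial (Fin (k + 4)) K →ₐ[K] T).toRingHom (cq K x ui)
      (Polynomial.C s) = aeval (ct x ρ ui) s := fun s => Polynomial.eval₂_C _ _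
  unfold rr cj
  rw [qaHom_apply]
  simp only [hC, map_mul, map_zero, aeval_X, ct_3, ct_2]
  linear_combination ρ * hu

theorem cube_xx : ∑ i, xx K k i ^ 3 = 0 := by
  rw [sum5, xx_0, xx_1, xx_2, xx_3, xx_4]
  simp only [xx_5]
  have hre : ∀ (f : Fin k → Polynomial (MvPolynomial (Fin (k + 4)) K)),
      ∑ j, (⟨f j, 0⟩ : QA (DD K k)) ^ 3 = ⟨∑ j, f j ^ 3, 0⟩ := by
    intro f
    have h1 : ∀ g, (⟨g, 0⟩ : QA (DD K k)) = algebraMap _ (QA (DD K k)) g := fun g => rfl
    simp only [h1]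
    rw [map_sum]
    exact Finset.sum_congr rfl fun j _ => (map_pow _ _ _).symm
  rw [hre]
  have h1 := hτ (T := Polynomial (MvPolynomial (Fin (k + 4)) K)) K
  have h2 := hτ' (T := Polynomial (MvPolynomial (Fin (k + 4)) K)) K
  have e1 : ∀ a : K, algebraMap K (Polynomial (MvPolynomial (Fin (k + 4)) K)) a =
      Polynomial.C (C a) := fun a => rfl
  rw [e1, e1] at h1 h2
  have hS : ∑ j : Fin k, Polynomial.C (X (s3 k) * X j.succ.succ.succ.succ :
      MvPolynomial (Fin (k + 4)) K) ^ 3 = Polynomial.C (X (s3 k)) ^ 3 *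
        ∑ j : Fin k, Polynomial.C (X j.succ.succ.succ.succ) ^ 3 := by
    rw [Finset.mul_sum]
    exact Finset.sum_congr rfl fun j _ => by rw [Polynomial.C_mul]; ring
  have hD : DD K k = -(Polynomial.C (X 1) * Polynomial.X ^ 2 + Polynomial.C (C (1 / 12)) *
      (1 + Polynomial.C (X 1) ^ 3 + 4 * (Polynomial.C (X 0) ^ 3 +
        ∑ j : Fin k, Polynomial.C (X j.succ.succ.succ.succ) ^ 3))) := by
    unfold DD gg
    simp only [Polynomial.C_mul, Polynomial.C_add, Polynomial.C_pow, Polynomial.C_1, map_sum,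
      map_ofNat]
  apply QuadraticAlgebra.ext
  · simp only [pow_succ, pow_zero, one_mul, QuadraticAlgebra.re_add, QuadraticAlgebra.re_mul,
      QuadraticAlgebra.im_mul, QuadraticAlgebra.re_zero]
    simp only [pow_succ, pow_zero, one_mul] at hS hD h1 h2
    rw [hS, hD]
    simp only [Polynomial.C_mul, Polynomial.C_neg]
    set h := (Polynomial.C (C (1 / 2)) : Polynomial (MvPolynomial (Fin (k + 4)) K))
    set τ := (Polynomial.C (C (1 / 12)) : Polynomial (MvPolynomial (Fin (k + 4)) K))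
    set u := (Polynomial.C (X (s3 k)) : Polynomial (MvPolynomial (Fin (k + 4)) K))
    set w := (Polynomial.C (X 1) : Polynomial (MvPolynomial (Fin (k + 4)) K))
    set t := (Polynomial.C (X 0) : Polynomial (MvPolynomial (Fin (k + 4)) K))
    set S := ∑ j : Fin k, (Polynomial.C (X j.succ.succ.succ.succ) *
      Polynomial.C (X j.succ.succ.succ.succ) * Polynomial.C (X j.succ.succ.succ.succ) :
        Polynomial (MvPolynomial (Fin (k + 4)) K))
    linear_combination (2 * h * u ^ 3 * (1 + w ^ 3)) * h1 - u ^ 3 * (t ^ 3 + S) * h2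
  · simp only [pow_succ, pow_zero, one_mul, QuadraticAlgebra.im_add, QuadraticAlgebra.re_mul,
      QuadraticAlgebra.im_mul, QuadraticAlgebra.im_zero, Polynomial.C_neg]
    ring

end generic

end

end Pool.Agent.T9h1
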