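import Pool.Agent.T9h1.C9
import Pool.Agent.T9h1.C10

/-! # The generic point of the chart -/

set_option autoImplicit false

namespace Pool.Agent.T9h1

open MvPolynomial IntermediateField

noncomputable section

variable {K : Type} [Field K] {k : ℕ}

/-- the polynomial ring in `q` -/
abbrev SX (K : Type) [Field K] (k : ℕ) : Type := Polynomial (MvPolynomial (Fin (k + 4)) K)

theorem ev_cons {κ : Type} [Field κ] [Algebra K κ] (t : Fin (k + 4) → κ) (q : κ)
    (s : Polynomial (MvPolynomial (Fin (k + 4)) K)) :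
    aeval (Fin.cons q t : Fin (k + 5) → κ) ((finSuccEquiv K (k + 4)).symm s) =
      Polynomial.eval₂RingHom
        (aeval t : MvPolynomial (Fin (k + 4)) K →ₐ[K] κ).toRingHom q s := by
  obtain ⟨p, rfl⟩ := (finSuccEquiv K (k + 4)).surjective s
  rw [AlgEquiv.symm_apply_apply]
  have e : (aeval (Fin.cons q t : Fin (k + 5) → κ) :
      MvPolynomial (Fin (k + 5)) K →ₐ[K] κ).toRingHom =
      (Polynomial.eval₂RingHom
      (aeval t : MvPolynomial (Fin (k + 4)) K →ₐ[K] κ).toRingHom q).comp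
      (finSuccEquiv K (k + 4) : MvPolynomial (Fin (k + 4 + 1)) K →+* _) := by
    apply MvPolynomial.ringHom_ext
    · intro x
      change aeval _ (C x) = Polynomial.eval₂ _ q (finSuccEquiv K (k + 4) (C x))
      rw [finSuccEquiv_apply, eval₂Hom_C, aeval_C]
      change _ = Polynomial.eval₂ _ q (Polynomial.C (C x))
      rw [Polynomial.eval₂_C]
      change _ = aeval _ (C x)
      rw [aeval_C]
    · intro i
      change aeval _ (X i) = Polynomial.eval₂ _ q (finSuccEquiv K (k + 4) (X i))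
      refine Fin.cases ?_ (fun j => ?_) i
      · rw [finSuccEquiv_X_zero, Polynomial.eval₂_X, aeval_X, Fin.cons_zero]
      · rw [finSuccEquiv_X_succ, Polynomial.eval₂_C, aeval_X, Fin.cons_succ]
        change _ = aeval _ (X j)
        rw [aeval_X]
  exact RingHom.congr_fun e p

theorem ev_mem {κ : Type} [Field κ] [Algebra K κ] (t : Fin (k + 4) → κ) (q : κ)
    (s : Polynomial (MvPolynomial (Fin (k + 4)) K)) :
    Polynomial.eval₂RingHom (aeval t : MvPolynomial (Fin (k + 4)) K →ₐ[K] κ).toRingHom q s ∈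
      Algebra.adjoin K (Set.range (Fin.cons q t : Fin (k + 5) → κ)) := by
  rw [← ev_cons, Algebra.adjoin_range_eq_range_aeval]
  exact ⟨_, rfl⟩

variable [CharZero K]

theorem nsS (a c : Polynomial (MvPolynomial (Fin (k + 4)) K)) (h : a ^ 2 = c ^ 2 * DD K k) :
    a = 0 ∧ c = 0 := by
  have hinj : Function.Injective (Polynomial.mapRingHom
      (algebraMap (MvPolynomial (Fin (k + 4)) K) (K0 K k))) :=
    Polynomial.map_injective _ (IsFractionRing.injective (MvPolynomial (Fin (k + 4)) K) (K0 K k))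
  have h1 := ns0 (Polynomial.mapRingHom (algebraMap (MvPolynomial (Fin (k + 4)) K) (K0 K k)) a)
    (Polynomial.mapRingHom (algebraMap (MvPolynomial (Fin (k + 4)) K) (K0 K k)) c) (by
      rw [D0_eq, ← map_pow, h, map_mul, map_pow]
      rfl)
  rw [map_eq_zero_iff _ hinj, map_eq_zero_iff _ hinj] at h1
  exact h1

instance : IsDomain (QA (DD K k)) := qa_domain _ nsS

instance : IsNoetherianRing (QA (DD K k)) := qa_noeth _

theorem cj_alg {κ : Type} [Field κ] [Algebra K κ] (x : Fin (k + 5) → κ) (ρ ui : κ)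
    (hu : (x 0 + x (i1 k)) * ui = 1) (h3 : ∑ i, x i ^ 3 = 0) (z : QA (DD K k)) :
    IsAlgebraic (Algebra.adjoin K (Set.range (Fin.cons (cq K x ui) (ct x ρ ui) :
      Fin (k + 5) → κ))) (cj K x ρ ui hu h3 z) := by
  have h1 : ∀ y ∈ Algebra.adjoin K (Set.range (Fin.cons (cq K x ui) (ct x ρ ui) :
      Fin (k + 5) → κ)), IsAlgebraic (Algebra.adjoin K (Set.range (Fin.cons (cq K x ui)
      (ct x ρ ui) : Fin (k + 5) → κ))) y := fun y hy =>
    isAlgebraic_algebraMap (⟨y, hy⟩ : Algebra.adjoin K (Set.range (Fin.cons (cq K x ui)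
      (ct x ρ ui) : Fin (k + 5) → κ)))
  have hp : IsAlgebraic (Algebra.adjoin K (Set.range (Fin.cons (cq K x ui)
      (ct x ρ ui) : Fin (k + 5) → κ))) (cp K x ui) := by
    refine alg_pow _ 2 two_ne_zero ?_
    rw [c_eq K x ρ ui hu h3]
    exact h1 _ (ev_mem _ _ _)
  unfold cj
  rw [qaHom_apply]
  exact (h1 _ (ev_mem _ _ _)).add ((h1 _ (ev_mem _ _ _)).mul hp)

theorem pt_alg {κ : Type} [Field κ] [Algebra K κ] (x : Fin (k + 5) → κ) (ρ ui : κ)
    (hu : (x 0 + x (i1 k)) * ui = 1) (h3 : ∑ i, x i ^ 3 = 0)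
    (h : Algebra.IsAlgebraic (Algebra.adjoin K (Set.range x ∪ {ρ})) κ) :
    Algebra.IsAlgebraic (Algebra.adjoin K (Set.range (Fin.cons (cq K x ui) (ct x ρ ui) :
      Fin (k + 5) → κ))) κ := by
  refine alg_change _ _ ?_ h
  rintro y (⟨i, rfl⟩ | hy)
  · rw [← cj_xx K k x ρ ui hu h3 i]
    have h1 := cj_alg x ρ ui hu h3 (xx K k i)
    exact h1
  · rw [Set.mem_singleton_iff] at hy
    rw [hy, ← cj_rr K k x ρ ui hu h3]
    have h1 := cj_alg x ρ ui hu h3 (rr K k)
    rw [cj_rr] at h1 ⊢
    exact h1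

theorem gen_inj {κ : Type} [Field κ] [Algebra K κ] (x : Fin (k + 5) → κ) (ρ ui : κ)
    (hu : (x 0 + x (i1 k)) * ui = 1) (h3 : ∑ i, x i ^ 3 = 0)
    (h : Algebra.IsAlgebraic (Algebra.adjoin K (Set.range x ∪ {ρ})) κ)
    (htr : Algebra.trdeg K κ = (k + 5 : ℕ)) : Function.Injective (cj K x ρ ui hu h3) := by
  have h1 := pt_alg x ρ ui hu h3 h
  have hb : IsTranscendenceBasis K (Fin.cons (cq K x ui) (ct x ρ ui) : Fin (k + 5) → κ) := by
    apply Algebra.IsAlgebraic.isTranscendenceBasis_of_le_trdeg_of_finite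
    rw [htr, Cardinal.mk_fin]
  have hE : ∀ s, Polynomial.eval₂RingHom
      (aeval (ct x ρ ui) : MvPolynomial (Fin (k + 4)) K →ₐ[K] κ).toRingHom (cq K x ui) s = 0 →
      s = 0 := by
    intro s hs
    rw [← ev_cons] at hs
    have h2 : (finSuccEquiv K (k + 4)).symm s = 0 := hb.1 (by rw [hs, map_zero])
    have h4 := congrArg (finSuccEquiv K (k + 4)) h2
    rwa [AlgEquiv.apply_symm_apply, map_zero] at h4
  rw [injective_iff_map_eq_zero]
  intro z hz
  have hc := c_eq K x ρ ui hu h3
  unfold cj at hz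
  rw [qaHom_apply] at hz
  have h2 : z.re ^ 2 - z.im ^ 2 * DD K k = 0 := by
    apply hE
    rw [map_sub, map_mul, map_pow, map_pow, ← hc]
    linear_combination (Polynomial.eval₂RingHom
      (aeval (ct x ρ ui) : MvPolynomial (Fin (k + 4)) K →ₐ[K] κ).toRingHom (cq K x ui) z.re -
      Polynomial.eval₂RingHom
      (aeval (ct x ρ ui) : MvPolynomial (Fin (k + 4)) K →ₐ[K] κ).toRingHom (cq K x ui) z.im *
      cp K x ui) * hz
  obtain ⟨h5, h6⟩ := nsS z.re z.im (sub_eq_zero.1 h2)
  exact QuadraticAlgebra.ext h5 h6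

theorem cj_const {T : Type} [CommRing T] [Algebra K T] (x : Fin (k + 5) → T) (ρ ui : T)
    (hu : (x 0 + x (i1 k)) * ui = 1) (h3 : ∑ i, x i ^ 3 = 0) (a : K) :
    cj K x ρ ui hu h3 (algebraMap (SX K k) (QA (DD K k)) (Polynomial.C (C a))) = algebraMap K T a := by
  unfold cj
  rw [qaHom_apply]
  change Polynomial.eval₂ _ _ (Polynomial.C (C a)) + Polynomial.eval₂ _ _ 0 * _ = _
  rw [Polynomial.eval₂_C, Polynomial.eval₂_zero, zero_mul, add_zero]
  change aeval _ (C a) = _
  rw [aeval_C]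

theorem gen_frac {κ : Type} [Field κ] [Algebra K κ] (x : Fin (k + 5) → κ) (ρ ui : κ)
    (hu : (x 0 + x (i1 k)) * ui = 1) (h3 : ∑ i, x i ^ 3 = 0)
    (htop : adjoin K (Set.range x ∪ {ρ}) = ⊤) (y : κ) :
    ∃ a b : QA (DD K k), cj K x ρ ui hu h3 b ≠ 0 ∧
      y = cj K x ρ ui hu h3 a / cj K x ρ ui hu h3 b := by
  have hy : y ∈ adjoin K (Set.range x ∪ {ρ}) := by rw [htop]; trivial
  have h1 : cj K x ρ ui hu h3 1 ≠ 0 := by rw [map_one]; exact one_ne_zero
  induction hy using IntermediateField.adjoin_induction with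
  | mem y hy =>
    rcases hy with ⟨i, rfl⟩ | hy
    · exact ⟨xx K k i, 1, h1, by rw [map_one, div_one, cj_xx]⟩
    · rw [Set.mem_singleton_iff] at hy
      exact ⟨rr K k, 1, h1, by rw [map_one, div_one, cj_rr, hy]⟩
  | algebraMap a =>
    exact ⟨algebraMap (SX K k) (QA (DD K k)) (Polynomial.C (C a)), 1, h1, by
      rw [map_one, div_one, cj_const]⟩
  | add y y' _ _ hy hy' =>
    obtain ⟨a, b, hb, e⟩ := hy
    obtain ⟨a', b', hb', e'⟩ := hy'
    refine ⟨a * b' + a' * b, b * b', by rw [map_mul]; exact mul_ne_zero hb hb', ?_⟩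
    rw [e, e', map_add, map_mul, map_mul, map_mul]
    field_simp
  | mul y y' _ _ hy hy' =>
    obtain ⟨a, b, hb, e⟩ := hy
    obtain ⟨a', b', hb', e'⟩ := hy'
    refine ⟨a * a', b * b', by rw [map_mul]; exact mul_ne_zero hb hb', ?_⟩
    rw [e, e', map_mul, map_mul, div_mul_div_comm]
  | inv y _ hy =>
    obtain ⟨a, b, hb, e⟩ := hy
    by_cases ha : cj K x ρ ui hu h3 a = 0
    · refine ⟨0, 1, h1, ?_⟩
      rw [e, ha, zero_div, inv_zero, map_zero, zero_div]
    · exact ⟨b, a, ha, by rw [e, inv_div]⟩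

omit [CharZero K] in
theorem pt_uu {κ : Type} [Field κ] [Algebra K κ] (x : Fin (k + 5) → κ) (ρ : κ)
    (h3 : ∑ i, x i ^ 3 = 0)
    (h : Algebra.IsAlgebraic (Algebra.adjoin K (Set.range x ∪ {ρ})) κ)
    (htr : Algebra.trdeg K κ = (k + 4 : ℕ)) (h01 : x 0 + x (i1 k) = 0)
    (h23 : x (i2 k) + x (i3 k) = 0) : False := by
  let g : Fin (k + 3) → κ := Fin.cons ρ (Fin.cons (x 0) (Fin.cons (x (i2 k)) (fun j => x (i5 j))))
  have hmem : ∀ y ∈ Algebra.adjoin K (Set.range g), IsAlgebraic (Algebra.adjoin K (Set.range g)) y :=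
    fun y hy => isAlgebraic_algebraMap (⟨y, hy⟩ : Algebra.adjoin K (Set.range g))
  have m0 : x 0 ∈ Algebra.adjoin K (Set.range g) := Algebra.subset_adjoin ⟨Fin.succ 0, rfl⟩
  have m2 : x (i2 k) ∈ Algebra.adjoin K (Set.range g) :=
    Algebra.subset_adjoin ⟨Fin.succ (Fin.succ 0), rfl⟩
  have m5 : ∀ j : Fin k, x (i5 j) ∈ Algebra.adjoin K (Set.range g) := fun j =>
    Algebra.subset_adjoin ⟨j.succ.succ.succ, rfl⟩
  have mr : ρ ∈ Algebra.adjoin K (Set.range g) := Algebra.subset_adjoin ⟨0, rfl⟩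
  have h1 : Algebra.IsAlgebraic (Algebra.adjoin K (Set.range g)) κ := by
    refine alg_change _ _ ?_ h
    rintro y (⟨i, rfl⟩ | hy)
    · refine all5 (P := fun i => IsAlgebraic (Algebra.adjoin K (Set.range g)) (x i))
        (hmem _ m0) ?_ (hmem _ m2) ?_ ?_ (fun j => hmem _ (m5 j)) i
      · have : x (i1 k) = -x 0 := by linear_combination h01
        rw [this]
        exact hmem _ (neg_mem m0)
      · have : x (i3 k) = -x (i2 k) := by linear_combination h23
        rw [this]
        exact hmem _ (neg_mem m2)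
      · refine alg_pow _ 3 three_ne_zero ?_
        have : x (i4 k) ^ 3 = -∑ j : Fin k, x (i5 j) ^ 3 := by
          rw [sum5] at h3
          linear_combination h3 - (x 0 ^ 2 - x 0 * x (i1 k) + x (i1 k) ^ 2) * h01 -
            (x (i2 k) ^ 2 - x (i2 k) * x (i3 k) + x (i3 k) ^ 2) * h23
        rw [this]
        exact hmem _ (neg_mem (sum_mem fun j _ => pow_mem (m5 j) 3))
    · rw [Set.mem_singleton_iff] at hy
      rw [hy]
      exact hmem _ mr
  have h2 : Algebra.trdeg K κ ≤ Cardinal.mk (Set.range g) :=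
    Algebra.IsAlgebraic.trdeg_le_cardinalMk K (Set.range g)
  have h4 : Cardinal.mk (Set.range g) ≤ (k + 3 : ℕ) := by
    refine Cardinal.mk_range_le.trans ?_
    rw [Cardinal.mk_fin]
  rw [htr] at h2
  have h5 := h2.trans h4
  have h6 : k + 4 ≤ k + 3 := by exact_mod_cast h5
  omega

theorem alg_topS {κ : Type} [Field κ] [Algebra K κ] (S : Set κ) (htop : adjoin K S = ⊤) :
    Algebra.IsAlgebraic (Algebra.adjoin K S) κ := by
  refine ⟨fun c => ?_⟩
  have hc : c ∈ adjoin K S := by rw [htop]; trivial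
  obtain ⟨r, hr, s, hs, rfl⟩ := IntermediateField.mem_adjoin_iff_div.mp hc
  have h1 : ∀ x ∈ Algebra.adjoin K S, IsAlgebraic (Algebra.adjoin K S) x := fun x hx =>
    isAlgebraic_algebraMap (⟨x, hx⟩ : Algebra.adjoin K S)
  rw [div_eq_mul_inv]
  exact (h1 r hr).mul (h1 s hs).inv

section gg

variable (K k)

/-- the function field -/
abbrev GG : Type := FractionRing (QA (DD K k))

/-- the generic point -/
def gx (i : Fin (k + 5)) : GG K k := algebraMap (QA (DD K k)) (GG K k) (xx K k i)

/-- the generic parameter -/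
def gr : GG K k := algebraMap (QA (DD K k)) (GG K k) (rr K k)

theorem xx01 : xx K k 0 + xx K k (i1 k) = algebraMap (SX K k) (QA (DD K k)) (Polynomial.C (X (s3 k))) := by
  rw [xx_0, xx_1]
  have h2 := hh (T := Polynomial (MvPolynomial (Fin (k + 4)) K)) K
  have e1 : ∀ a : K, algebraMap K (Polynomial (MvPolynomial (Fin (k + 4)) K)) a =
      Polynomial.C (C a) := fun a => rfl
  rw [e1] at h2
  apply QuadraticAlgebra.ext
  · rw [QuadraticAlgebra.re_add, QuadraticAlgebra.algebraMap_re, Polynomial.C_mul]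
    change Polynomial.C (C (1 / 2)) * Polynomial.C (X (s3 k)) +
      Polynomial.C (C (1 / 2)) * Polynomial.C (X (s3 k)) = _
    linear_combination Polynomial.C (X (s3 k)) * h2
  · rw [QuadraticAlgebra.im_add, QuadraticAlgebra.algebraMap_im, Polynomial.C_neg]
    exact add_neg_cancel _

theorem g_u : gx K k 0 + gx K k (i1 k) ≠ 0 := by
  unfold gx
  rw [← map_add, xx01, map_ne_zero_iff _ (IsFractionRing.injective (QA (DD K k)) (GG K k)),
    map_ne_zero_iff _ QuadraticAlgebra.algebraMap_injective, Polynomial.C_ne_zero]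
  exact X_ne_zero _

theorem g_hu : (gx K k 0 + gx K k (i1 k)) * (gx K k 0 + gx K k (i1 k))⁻¹ = 1 :=
  mul_inv_cancel₀ (g_u K k)

theorem g_3 : ∑ i, gx K k i ^ 3 = 0 := by
  have h := congrArg (algebraMap (QA (DD K k)) (GG K k)) (cube_xx K k)
  rw [map_zero, map_sum] at h
  rw [← h]
  exact Finset.sum_congr rfl fun i _ => (map_pow _ _ _).symm

/-- the homomorphism of the generic point is the inclusion -/
theorem g_cj (z : QA (DD K k)) :
    cj K (gx K k) (gr K k) (gx K k 0 + gx K k (i1 k))⁻¹ (g_hu K k) (g_3 K k) z =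
      algebraMap (QA (DD K k)) (GG K k) z := by
  let ι := algebraMap (QA (DD K k)) (GG K k)
  have hιC : ∀ s, ι (algebraMap (SX K k) (QA (DD K k)) (Polynomial.C s)) =
      (ι.comp ((algebraMap (SX K k) (QA (DD K k))).comp Polynomial.C)) s := fun s => rfl
  set ui := (gx K k 0 + gx K k (i1 k))⁻¹ with hui
  have hu := g_hu K k
  rw [← hui] at hu
  have hu3 : gx K k 0 + gx K k (i1 k) = ι (algebraMap (SX K k) (QA (DD K k)) (Polynomial.C (X (s3 k)))) := by
    unfold gx
    rw [← map_add, xx01]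
  have halg : ∀ a : K, algebraMap K (GG K k) a =
      ι (algebraMap (SX K k) (QA (DD K k)) (Polynomial.C (C a))) := fun a => rfl
  have h2 := hh K (T := GG K k)
  have hval : ∀ i, ct (gx K k) (gr K k) ui i =
      ι (algebraMap (SX K k) (QA (DD K k)) (Polynomial.C (X i))) := by
    intro i
    refine all4 (P := fun i => ct (gx K k) (gr K k) ui i =
      ι (algebraMap (SX K k) (QA (DD K k)) (Polynomial.C (X i)))) ?_ ?_ ?_ ?_ (fun j => ?_) i
    · rw [ct_0]
      have e : gx K k (i4 k) = ι (algebraMap (SX K k) (QA (DD K k)) (Polynomial.C (X (s3 k)))) *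
          ι (algebraMap (SX K k) (QA (DD K k)) (Polynomial.C (X 0))) := by
        rw [← map_mul, ← map_mul, ← Polynomial.C_mul]
        rfl
      rw [e, ← hu3]
      linear_combination ι (algebraMap (SX K k) (QA (DD K k)) (Polynomial.C (X 0))) * hu
    · rw [ct_1]
      have e : gx K k (i2 k) + gx K k (i3 k) =
          ι (algebraMap (SX K k) (QA (DD K k)) (Polynomial.C (X (s3 k)))) *
          ι (algebraMap (SX K k) (QA (DD K k)) (Polynomial.C (X 1))) := by
        unfold gx
        rw [← map_add, ← map_mul, ← map_mul, ← Polynomial.C_mul, xx_2, xx_3]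
        congr 1
        have h2 := hh (T := Polynomial (MvPolynomial (Fin (k + 4)) K)) K
        have e1 : ∀ a : K, algebraMap K (Polynomial (MvPolynomial (Fin (k + 4)) K)) a =
          Polynomial.C (C a) := fun a => rfl
        rw [e1] at h2
        apply QuadraticAlgebra.ext
        · rw [QuadraticAlgebra.re_add, QuadraticAlgebra.algebraMap_re]
          simp only [Polynomial.C_mul]
          linear_combination Polynomial.C (X (s3 k)) * Polynomial.C (X 1) * h2
        · rw [QuadraticAlgebra.im_add, QuadraticAlgebra.algebraMap_im]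
          exact add_zero _
      rw [e, ← hu3]
      linear_combination ι (algebraMap (SX K k) (QA (DD K k)) (Polynomial.C (X 1))) * hu
    · rw [ct_2]
      have e : gr K k = ι (algebraMap (SX K k) (QA (DD K k)) (Polynomial.C (X (s3 k)))) *
          ι (algebraMap (SX K k) (QA (DD K k)) (Polynomial.C (X (s2 k)))) := by
        rw [← map_mul, ← map_mul, ← Polynomial.C_mul]
        rfl
      rw [e, ← hu3]
      linear_combination ι (algebraMap (SX K k) (QA (DD K k)) (Polynomial.C (X (s2 k)))) * hu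
    · rw [ct_3, hu3]
    · rw [ct_4]
      have e : gx K k (i5 j) = ι (algebraMap (SX K k) (QA (DD K k)) (Polynomial.C (X (s3 k)))) *
          ι (algebraMap (SX K k) (QA (DD K k)) (Polynomial.C (X j.succ.succ.succ.succ))) := by
        rw [← map_mul, ← map_mul, ← Polynomial.C_mul]
        rfl
      rw [e, ← hu3]
      linear_combination ι (algebraMap (SX K k) (QA (DD K k)) (Polynomial.C (X j.succ.succ.succ.succ))) * hu
  have hq : cq K (gx K k) ui = ι (algebraMap (SX K k) (QA (DD K k)) Polynomial.X) := by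
    unfold cq
    have e : gx K k (i2 k) - gx K k (i3 k) = 2 *
        (ι (algebraMap (SX K k) (QA (DD K k)) (Polynomial.C (X (s3 k)))) *
        ι (algebraMap (SX K k) (QA (DD K k)) Polynomial.X)) := by
      unfold gx
      rw [← map_sub, ← map_mul, ← map_mul, xx_2, xx_3, ← map_ofNat ι 2, ← map_mul,
        ← map_ofNat (algebraMap (SX K k) (QA (DD K k))) 2, ← map_mul]
      congr 1
      apply QuadraticAlgebra.ext
      · rw [QuadraticAlgebra.re_sub, QuadraticAlgebra.algebraMap_re]
        change (_ + _) - (_ - _) = _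
        ring
      · rw [QuadraticAlgebra.im_sub, QuadraticAlgebra.algebraMap_im]
        exact sub_zero _
    rw [e, ← hu3]
    linear_combination 2 * algebraMap K (GG K k) (1 / 2) *
      ι (algebraMap (SX K k) (QA (DD K k)) Polynomial.X) * hu +
      ι (algebraMap (SX K k) (QA (DD K k)) Polynomial.X) * h2
  have hp : cp K (gx K k) ui = ι QuadraticAlgebra.omega := by
    unfold cp
    have e : gx K k 0 - gx K k (i1 k) = 2 *
        (ι (algebraMap (SX K k) (QA (DD K k)) (Polynomial.C (X (s3 k)))) *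
        ι QuadraticAlgebra.omega) := by
      unfold gx
      rw [two_mul, ← map_sub, ← map_mul, xx_0, xx_1, ← map_add]
      congr 1
      apply QuadraticAlgebra.ext
      · simp
      · simp
    rw [e, ← hu3]
    linear_combination 2 * algebraMap K (GG K k) (1 / 2) * ι QuadraticAlgebra.omega * hu +
      ι QuadraticAlgebra.omega * h2
  have hE : ∀ s, Polynomial.eval₂RingHom
      (aeval (ct (gx K k) (gr K k) ui) : MvPolynomial (Fin (k + 4)) K →ₐ[K] GG K k).toRingHom
      (cq K (gx K k) ui) s = ι (algebraMap (SX K k) (QA (DD K k)) s) := by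
    intro s
    have e : Polynomial.eval₂RingHom
      (aeval (ct (gx K k) (gr K k) ui) : MvPolynomial (Fin (k + 4)) K →ₐ[K] GG K k).toRingHom
      (cq K (gx K k) ui) = ι.comp (algebraMap (SX K k) (QA (DD K k))) := by
      apply Polynomial.ringHom_ext'
      · apply MvPolynomial.ringHom_ext
        · intro a
          change Polynomial.eval₂ _ _ (Polynomial.C (C a)) = _
          rw [Polynomial.eval₂_C]
          change aeval _ (C a) = _
          rw [aeval_C]
          rfl
        · intro i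
          change Polynomial.eval₂ _ _ (Polynomial.C (X i)) = _
          rw [Polynomial.eval₂_C]
          change aeval _ (X i) = _
          rw [aeval_X, hval]
          rfl
      · change Polynomial.eval₂ _ _ Polynomial.X = _
        rw [Polynomial.eval₂_X, hq]
        rfl
    exact RingHom.congr_fun e s
  unfold cj
  rw [qaHom_apply, hE, hE, hp, ← map_mul, ← map_add]
  congr 1
  apply QuadraticAlgebra.ext
  · simp
  · simp

theorem g_top : adjoin K (Set.range (gx K k) ∪ {gr K k}) = ⊤ := by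
  rw [eq_top_iff]
  intro y _
  have hx : ∀ i, gx K k i ∈ adjoin K (Set.range (gx K k) ∪ {gr K k}) := fun i =>
    subset_adjoin K _ (Or.inl ⟨i, rfl⟩)
  have hr : gr K k ∈ adjoin K (Set.range (gx K k) ∪ {gr K k}) := subset_adjoin K _ (Or.inr rfl)
  have hui : (gx K k 0 + gx K k (i1 k))⁻¹ ∈ adjoin K (Set.range (gx K k) ∪ {gr K k}) :=
    inv_mem (add_mem (hx _) (hx _))
  have hq : cq K (gx K k) (gx K k 0 + gx K k (i1 k))⁻¹ ∈
      adjoin K (Set.range (gx K k) ∪ {gr K k}) := by
    unfold cq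
    exact mul_mem (IntermediateField.algebraMap_mem _ _) (mul_mem (sub_mem (hx _) (hx _)) hui)
  have hp : cp K (gx K k) (gx K k 0 + gx K k (i1 k))⁻¹ ∈
      adjoin K (Set.range (gx K k) ∪ {gr K k}) := by
    unfold cp
    exact mul_mem (IntermediateField.algebraMap_mem _ _) (mul_mem (sub_mem (hx _) (hx _)) hui)
  have ht : ∀ i, ct (gx K k) (gr K k) (gx K k 0 + gx K k (i1 k))⁻¹ i ∈
      adjoin K (Set.range (gx K k) ∪ {gr K k}) := by
    intro i
    refine all4 (P := fun i => ct (gx K k) (gr K k) (gx K k 0 + gx K k (i1 k))⁻¹ i ∈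
      adjoin K (Set.range (gx K k) ∪ {gr K k})) ?_ ?_ ?_ ?_ (fun j => ?_) i
    · rw [ct_0]; exact mul_mem (hx _) hui
    · rw [ct_1]; exact mul_mem (add_mem (hx _) (hx _)) hui
    · rw [ct_2]; exact mul_mem hr hui
    · rw [ct_3]; exact add_mem (hx _) (hx _)
    · rw [ct_4]; exact mul_mem (hx _) hui
  have hE : ∀ s, Polynomial.eval₂RingHom
      (aeval (ct (gx K k) (gr K k) (gx K k 0 + gx K k (i1 k))⁻¹) :
        MvPolynomial (Fin (k + 4)) K →ₐ[K] GG K k).toRingHom
      (cq K (gx K k) (gx K k 0 + gx K k (i1 k))⁻¹) s ∈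
      adjoin K (Set.range (gx K k) ∪ {gr K k}) := by
    intro s
    have h1 := ev_mem (K := K) (ct (gx K k) (gr K k) (gx K k 0 + gx K k (i1 k))⁻¹)
      (cq K (gx K k) (gx K k 0 + gx K k (i1 k))⁻¹) s
    have h2 : Algebra.adjoin K (Set.range (Fin.cons (cq K (gx K k) (gx K k 0 + gx K k (i1 k))⁻¹)
        (ct (gx K k) (gr K k) (gx K k 0 + gx K k (i1 k))⁻¹) : Fin (k + 5) → GG K k)) ≤
        (adjoin K (Set.range (gx K k) ∪ {gr K k})).toSubalgebra := by
      rw [Algebra.adjoin_le_iff]
      rintro _ ⟨i, rfl⟩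
      refine Fin.cases ?_ (fun i => ?_) i
      · rw [Fin.cons_zero]
        exact hq
      · rw [Fin.cons_succ]
        exact ht i
    exact h2 h1
  have hz : ∀ z : QA (DD K k), algebraMap (QA (DD K k)) (GG K k) z ∈
      adjoin K (Set.range (gx K k) ∪ {gr K k}) := by
    intro z
    rw [← g_cj]
    unfold cj
    rw [qaHom_apply]
    exact add_mem (hE _) (mul_mem (hE _) hp)
  obtain ⟨a, b, hb, rfl⟩ := IsFractionRing.div_surjective (A := QA (DD K k)) y
  exact div_mem (hz a) (hz b)

theorem g_A : Algebra.IsAlgebraic (Algebra.adjoin K (Set.range (gx K k) ∪ {gr K k})) (GG K k) :=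
  alg_topS _ (g_top K k)

theorem g_tr : Algebra.trdeg K (GG K k) = (k + 5 : ℕ) := by
  have h1 := pt_alg (gx K k) (gr K k) _ (g_hu K k) (g_3 K k) (g_A K k)
  have hind : AlgebraicIndependent K (Fin.cons (cq K (gx K k) (gx K k 0 + gx K k (i1 k))⁻¹)
      (ct (gx K k) (gr K k) (gx K k 0 + gx K k (i1 k))⁻¹) : Fin (k + 5) → GG K k) := by
    unfold AlgebraicIndependent
    rw [injective_iff_map_eq_zero]
    intro p hp
    have h2 : p = (finSuccEquiv K (k + 4)).symm (finSuccEquiv K (k + 4) p) := by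
      rw [AlgEquiv.symm_apply_apply]
    rw [h2, ev_cons] at hp
    have h3 := g_cj K k (algebraMap (SX K k) (QA (DD K k)) (finSuccEquiv K (k + 4) p))
    unfold cj at h3
    rw [qaHom_apply, QuadraticAlgebra.algebraMap_re, QuadraticAlgebra.algebraMap_im, map_zero,
      zero_mul, add_zero, hp] at h3
    have h4 : algebraMap (SX K k) (QA (DD K k)) (finSuccEquiv K (k + 4) p) = 0 :=
      IsFractionRing.injective (QA (DD K k)) (GG K k) (by rw [← h3, map_zero])
    have h5 := QuadraticAlgebra.algebraMap_injective (h4.trans (map_zero _).symm)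
    rw [h2, h5, map_zero]
  have hb := hind.isTranscendenceBasis_iff_isAlgebraic.2 h1
  rw [← hb.cardinalMk_eq_trdeg, Cardinal.mk_fin]

end gg

end

end Pool.Agent.T9h1
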