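import Pool.Agent.T9h1.AnisoE

/-! # Quadratic forms over a field of rational functions, homogeneous version -/

set_option autoImplicit false

namespace Pool.Agent.T9h1

open MvPolynomial Module IntermediateField Pool.Agent.R845.E3

noncomputable section

theorem diag0 {A : Type} [Field A] {n : ℕ} (c : Fin n → MvPolynomial (Fin n) A)
    (h : ∑ i, X i * c i ^ 2 = 0) : c = 0 := by
  classical
  by_contra hne
  have h1 : ∃ i ∈ (Finset.univ : Finset (Fin n)), c i ≠ 0 := by
    by_contra h2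
    push Not at h2
    exact hne (funext fun i => h2 i (Finset.mem_univ i))
  let mo : MonomialOrder (Fin n) := MonomialOrder.lex
  have hdeg : ∀ i, c i ≠ 0 → mo.degree (X i * c i ^ 2) = Finsupp.single i 1 + 2 • mo.degree (c i) := by
    intro i hi
    rw [mo.degree_mul (X_ne_zero i) (pow_ne_zero 2 hi), mo.degree_X, mo.degree_pow]
  have hne' : ∀ i, X i * c i ^ 2 ≠ 0 ↔ c i ≠ 0 := by
    intro i
    constructor
    · intro h h0
      apply h
      rw [h0]
      ring
    · intro h
      exact mul_ne_zero (X_ne_zero i) (pow_ne_zero 2 h)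
  obtain ⟨i0, -, -, hs, -, -⟩ := sum_lead mo Finset.univ (fun i => X i * c i ^ 2) (by
    intro i _ j _ hin hjn hij h
    rw [hdeg i ((hne' i).1 hin), hdeg j ((hne' j).1 hjn)] at h
    have h1 := DFunLike.congr_fun h i
    simp only [Finsupp.add_apply, Finsupp.smul_apply, smul_eq_mul, Finsupp.single_eq_same,
      Finsupp.single_eq_of_ne hij] at h1
    omega) (by
    obtain ⟨i, hi, hin⟩ := h1
    exact ⟨i, hi, (hne' i).2 hin⟩)
  exact hs h

section

variable {A Λ κ : Type} [Field A] [Field Λ] [Algebra A Λ] [Field κ] [Algebra A κ]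
  [Algebra Λ κ] [IsScalarTower A Λ κ] {n : ℕ} (Z : Fin n → Λ)

theorem adj_img (htop : adjoin A (Set.range Z) = ⊤) :
    adjoin A (Set.range (aeval (fun i => algebraMap Λ κ (Z i)) :
      MvPolynomial (Fin n) A →ₐ[A] κ)) = (IsScalarTower.toAlgHom A Λ κ).fieldRange := by
  rw [adj_aeval, AlgHom.fieldRange_eq_map, ← htop, IntermediateField.adjoin_map]
  congr 1
  rw [← Set.range_comp]
  rfl

theorem odd_img (htop : adjoin A (Set.range Z) = ⊤) (hodd : Odd (finrank Λ κ)) :
    Odd (finrank (adjoin A (Set.range (aeval (fun i => algebraMap Λ κ (Z i)) :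
      MvPolynomial (Fin n) A →ₐ[A] κ))) κ) := by
  rw [adj_img Z htop]
  have h : finrank (IsScalarTower.toAlgHom A Λ κ).fieldRange κ = finrank Λ κ := by
    let i : Λ ≃+* (IsScalarTower.toAlgHom A Λ κ).fieldRange :=
      RingEquiv.ofBijective (IsScalarTower.toAlgHom A Λ κ).toRingHom.rangeRestrict
        ⟨fun x y hxy => (algebraMap Λ κ).injective (congrArg Subtype.val hxy), by
          rintro ⟨_, ⟨c, rfl⟩⟩
          exact ⟨c, rfl⟩⟩
    exact (Algebra.finrank_eq_of_equiv_equiv i (RingEquiv.refl _) (by ext; rfl)).symm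
  rw [h]
  exact hodd

theorem ind_img (hind : AlgebraicIndependent A Z) :
    AlgebraicIndependent A (fun i => algebraMap Λ κ (Z i)) :=
  hind.map' (f := IsScalarTower.toAlgHom A Λ κ) (algebraMap Λ κ).injective

variable [CharZero A]

theorem diagH (hind : AlgebraicIndependent A Z) (htop : adjoin A (Set.range Z) = ⊤)
    (hodd : Odd (finrank Λ κ)) (c : Fin n → κ)
    (h : ∑ i, algebraMap Λ κ (Z i) * c i ^ 2 = 0) : c = 0 := by
  classical
  by_contra hne
  have hne' : ∃ i, c i ≠ 0 := by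
    by_contra h2
    push Not at h2
    exact hne (funext h2)
  obtain ⟨r, ⟨i0, hi0⟩, hr⟩ := odd_descentK (aeval (fun i => algebraMap Λ κ (Z i)) :
      MvPolynomial (Fin n) A →ₐ[A] κ) (odd_img Z htop hodd)
    (fun i j => if i = j then X i else 0) c hne' (by
      rw [← h]
      refine Finset.sum_congr rfl fun i _ => ?_
      rw [Finset.sum_eq_single i]
      · rw [if_pos rfl, aeval_X]
        ring
      · intro j _ hj
        rw [if_neg (Ne.symm hj), map_zero]
        ring
      · intro h2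
        exact absurd (Finset.mem_univ i) h2)
  have h1 : ∑ i, ∑ j, (if i = j then X i else 0) * r i * r j = 0 := by
    apply ind_img (κ := κ) Z hind
    rw [map_zero]
    exact hr
  have h2 : ∑ i, X i * r i ^ 2 = 0 := by
    rw [← h1]
    refine Finset.sum_congr rfl fun i _ => ?_
    rw [Finset.sum_eq_single i]
    · rw [if_pos rfl]
      ring
    · intro j _ hj
      rw [if_neg (Ne.symm hj)]
      ring
    · intro h2
      exact absurd (Finset.mem_univ i) h2
  have h3 := diag0 r h2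
  rw [h3] at hi0
  apply hi0
  rw [Pi.zero_apply, map_zero]

end

/-- a square of the shape of the discriminant in two variables -/
theorem sq_shape {A : Type} [Field A] [CharZero A] (a b : A) (ha : a ≠ 0) (s : Polynomial A)
    (h : s ^ 2 = 9 * (Polynomial.X ^ 2 * Polynomial.C a + Polynomial.C b) ^ 2 -
      12 * (Polynomial.X ^ 3 + 1) *
        (Polynomial.X * Polynomial.C a ^ 2 + Polynomial.C b ^ 2)) :
    b ≠ 0 ∧ a ^ 3 + b ^ 3 = 0 := by
  have hrhs : s ^ 2 = Polynomial.C (-3 * a ^ 2) * Polynomial.X ^ 4 +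
      Polynomial.C (-12 * b ^ 2) * Polynomial.X ^ 3 + Polynomial.C (18 * a * b) * Polynomial.X ^ 2 +
      Polynomial.C (-12 * a ^ 2) * Polynomial.X + Polynomial.C (-3 * b ^ 2) := by
    rw [h]
    simp only [map_mul, map_pow, map_neg, map_ofNat]
    ring
  have hdeg : s.natDegree ≤ 2 := by
    have h1 := congrArg Polynomial.natDegree hrhs
    rw [Polynomial.natDegree_pow] at h1
    have h2 : (Polynomial.C (-3 * a ^ 2) * Polynomial.X ^ 4 +
      Polynomial.C (-12 * b ^ 2) * Polynomial.X ^ 3 + Polynomial.C (18 * a * b) * Polynomial.X ^ 2 +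
      Polynomial.C (-12 * a ^ 2) * Polynomial.X + Polynomial.C (-3 * b ^ 2)).natDegree ≤ 4 := by
      compute_degree
    omega
  have hs : s = Polynomial.C (s.coeff 2) * Polynomial.X ^ 2 +
      Polynomial.C (s.coeff 1) * Polynomial.X + Polynomial.C (s.coeff 0) := by
    have h1 := s.as_sum_range_C_mul_X_pow' (n := 3) (by omega)
    rw [Finset.sum_range_succ, Finset.sum_range_succ, Finset.sum_range_one] at h1
    rw [pow_zero, mul_one, pow_one] at h1
    conv_lhs => rw [h1]
    ring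
  set x := s.coeff 2
  set y := s.coeff 1
  set z := s.coeff 0
  rw [hs] at hrhs
  have hexp : Polynomial.C (x ^ 2) * Polynomial.X ^ 4 + Polynomial.C (2 * x * y) * Polynomial.X ^ 3 +
      Polynomial.C (y ^ 2 + 2 * x * z) * Polynomial.X ^ 2 + Polynomial.C (2 * y * z) * Polynomial.X +
      Polynomial.C (z ^ 2) = Polynomial.C (-3 * a ^ 2) * Polynomial.X ^ 4 +
      Polynomial.C (-12 * b ^ 2) * Polynomial.X ^ 3 + Polynomial.C (18 * a * b) * Polynomial.X ^ 2 +
      Polynomial.C (-12 * a ^ 2) * Polynomial.X + Polynomial.C (-3 * b ^ 2) := by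
    rw [← hrhs]
    simp only [map_mul, map_pow, map_add, map_ofNat]
    ring
  have c4 := congrArg (fun p => Polynomial.coeff p 4) hexp
  have c3 := congrArg (fun p => Polynomial.coeff p 3) hexp
  have c2 := congrArg (fun p => Polynomial.coeff p 2) hexp
  have c1 := congrArg (fun p => Polynomial.coeff p 1) hexp
  have c0 := congrArg (fun p => Polynomial.coeff p 0) hexp
  simp only [Polynomial.coeff_add, Polynomial.coeff_C_mul,
      Polynomial.coeff_X_pow, Polynomial.coeff_X, Polynomial.coeff_C] at c4 c3 c2 c1 c0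
  norm_num at c4 c3 c2 c1 c0
  have hx : x ≠ 0 := by
    intro h0
    rw [h0] at c4
    have h1 : a ^ 2 = 0 := by linear_combination (1 / 3 : A) * c4
    exact ha (pow_eq_zero_iff two_ne_zero |>.1 h1)
  have hyz : y ≠ 0 ∧ z ≠ 0 := by
    rw [← mul_ne_zero_iff]
    intro h0
    have h1 : a ^ 2 = 0 := by linear_combination (1 / 12 : A) * c1 - (1 / 6 : A) * h0
    exact ha (pow_eq_zero_iff two_ne_zero |>.1 h1)
  have hb : b ≠ 0 := by
    rintro rfl
    have h1 : x * y = 0 := by linear_combination (1 / 2 : A) * c3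
    rcases mul_eq_zero.1 h1 with h2 | h2
    · exact hx h2
    · exact hyz.1 h2
  refine ⟨hb, ?_⟩
  -- `x² = -3 a²`, `x y = -6 b²`, `y² + 2 x z = 18 a b`, `y z = -6 a²`, `z² = -3 b²`
  have e3 : x * y = -6 * b ^ 2 := by linear_combination (1 / 2 : A) * c3
  have e1 : y * z = -6 * a ^ 2 := by linear_combination (1 / 2 : A) * c1
  -- `x² y² = 36 b⁴ = -3 a² y²`
  have f1 : a ^ 2 * y ^ 2 = -12 * b ^ 4 := by
    have : x ^ 2 * y ^ 2 = 36 * b ^ 4 := by linear_combination (x * y - 6 * b ^ 2) * e3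
    linear_combination -(1 / 3 : A) * this + (1 / 3 : A) * y ^ 2 * c4
  have f2 : b ^ 2 * (x * z) = -3 * a ^ 4 + 0 * b := by
    -- `x y · y z = x z y²`
    have g1 : x * z * y ^ 2 = 36 * a ^ 2 * b ^ 2 := by
      linear_combination (y * z) * e3 - 6 * b ^ 2 * e1
    have g2 : a ^ 2 * (x * z * y ^ 2) = -12 * b ^ 4 * (x * z) := by linear_combination x * z * f1
    have g3 : b ^ 2 * (b ^ 2 * (x * z)) = b ^ 2 * (-3 * a ^ 4) := by
      linear_combination (1 / 12 : A) * g2 - (1 / 12 : A) * a ^ 2 * g1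
    have g4 := mul_left_cancel₀ (pow_ne_zero 2 hb) g3
    linear_combination g4
  have f3 : (a ^ 3 + b ^ 3) * (a ^ 3 + 2 * b ^ 3) = 0 := by
    linear_combination -(1 / 6 : A) * a ^ 2 * b ^ 2 * c2 + (1 / 6 : A) * b ^ 2 * f1 +
      (1 / 3 : A) * a ^ 2 * f2
  have f4 : (a ^ 3 + b ^ 3) * (a ^ 3 - b ^ 3) = 0 := by
    -- `x² z² = 9 a² b²`, and `b⁴ x² z² = 9 a ^ 8`
    have g1 : x ^ 2 * z ^ 2 = 9 * a ^ 2 * b ^ 2 := by
      linear_combination z ^ 2 * c4 - 3 * a ^ 2 * c0
    have g2 : b ^ 4 * (x ^ 2 * z ^ 2) = 9 * a ^ 8 := by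
      linear_combination (b ^ 2 * (x * z) - 3 * a ^ 4) * f2
    have g3 : a ^ 2 * ((a ^ 3 + b ^ 3) * (a ^ 3 - b ^ 3)) = 0 := by
      linear_combination (1 / 9 : A) * b ^ 4 * g1 - (1 / 9 : A) * g2
    exact (mul_eq_zero.1 g3).resolve_left (pow_ne_zero 2 ha)
  by_contra hne
  have k1 := (mul_eq_zero.1 f3).resolve_left hne
  have k2 := (mul_eq_zero.1 f4).resolve_left hne
  have k3 : b ^ 3 = 0 := by linear_combination (1 / 3 : A) * (k1 - k2)
  exact hb (pow_eq_zero_iff three_ne_zero |>.1 k3)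

section

variable {A Λ κ : Type} [Field A] [CharZero A] [Field Λ] [Algebra A Λ] [Field κ] [Algebra A κ]
  [Algebra Λ κ] [IsScalarTower A Λ κ] {n : ℕ} (Z : Fin (n + 3) → Λ)

/-- **chords through constant points** -/
theorem constH (hind : AlgebraicIndependent A Z) (htop : adjoin A (Set.range Z) = ⊤)
    (hodd : Odd (finrank Λ κ)) (v : Fin (n + 3) → A) (hv : v ≠ 0) (e : κ)
    (he : e ^ 2 = 9 * (∑ i, algebraMap Λ κ (Z i) ^ 2 * algebraMap A κ (v i)) ^ 2 -
      12 * (∑ i, algebraMap Λ κ (Z i) ^ 3) *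
        ∑ i, algebraMap Λ κ (Z i) * algebraMap A κ (v i) ^ 2) : False := by
  classical
  set Δ : MvPolynomial (Fin (n + 3)) A := 9 * (∑ i, X i ^ 2 * C (v i)) ^ 2 -
      12 * (∑ i, X i ^ 3) * ∑ i, X i * C (v i) ^ 2 with hΔ
  have hΔe : aeval (fun i => algebraMap Λ κ (Z i)) Δ = e ^ 2 := by
    rw [he, hΔ]
    simp only [map_sub, map_mul, map_pow, map_sum, aeval_X, aeval_C, map_ofNat]
  obtain ⟨r, ⟨i0, hi0⟩, hr⟩ := odd_descentK (aeval (fun i => algebraMap Λ κ (Z i)) :
      MvPolynomial (Fin (n + 3)) A →ₐ[A] κ) (odd_img Z htop hodd) (m := 2)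
    ![![1, 0], ![0, -Δ]] ![e, 1] ⟨1, one_ne_zero⟩ (by
      simp only [Fin.sum_univ_two]
      change (aeval _) 1 * e * e + (aeval _) 0 * e * 1 + ((aeval _) 0 * 1 * e +
        (aeval _) (-Δ) * 1 * 1) = 0
      rw [map_one, map_zero, map_neg, hΔe]
      ring)
  have h1 : r 0 ^ 2 = Δ * r 1 ^ 2 := by
    have h2 : (∑ i, ∑ j, (![![1, 0], ![0, -Δ]] : Fin 2 → Fin 2 → _) i j * r i * r j) = 0 := by
      apply ind_img (κ := κ) Z hind
      rw [map_zero]
      exact hr
    simp only [Fin.sum_univ_two] at h2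
    change 1 * r 0 * r 0 + 0 * r 0 * r 1 + (0 * r 1 * r 0 + (-Δ) * r 1 * r 1) = 0 at h2
    linear_combination h2
  have hr1 : r 1 ≠ 0 := by
    intro h0
    rw [h0] at h1
    have h2 : r 0 = 0 := by
      have : r 0 ^ 2 = 0 := by rw [h1]; ring
      exact (pow_eq_zero_iff two_ne_zero).1 this
    apply hi0
    have : r i0 = 0 := by
      fin_cases i0
      · exact h2
      · exact h0
    rw [this, map_zero]
  obtain ⟨s, hs⟩ : r 1 ∣ r 0 := by
    rw [← IsIntegrallyClosed.pow_dvd_pow_iff two_ne_zero]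
    exact ⟨Δ, by rw [h1]; ring⟩
  have hsq : s ^ 2 = Δ := by
    rw [hs] at h1
    apply mul_left_cancel₀ (pow_ne_zero 2 hr1)
    linear_combination h1
  -- restriction to the lines of the coordinates
  have key : ∀ i j : Fin (n + 3), i ≠ j → v i ≠ 0 → v j ≠ 0 ∧ v i ^ 3 + v j ^ 3 = 0 := by
    intro i j hij hvi
    let ev : MvPolynomial (Fin (n + 3)) A →ₐ[A] Polynomial A :=
      aeval fun l => if l = i then Polynomial.X else if l = j then 1 else 0
    refine sq_shape (v i) (v j) hvi (ev s) ?_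
    rw [← map_pow, hsq, hΔ]
    have hsum : ∀ f : Fin (n + 3) → Polynomial A, (∀ l, l ≠ i → l ≠ j → f l = 0) →
        ∑ l, f l = f i + f j := by
      intro f hf
      rw [← Finset.sum_subset (Finset.subset_univ {i, j})]
      · exact Finset.sum_pair hij
      · intro l _ hl
        simp only [Finset.mem_insert, Finset.mem_singleton, not_or] at hl
        exact hf l hl.1 hl.2
    have hei : ev (X i) = Polynomial.X := by
      change aeval _ (X i) = _
      rw [aeval_X, if_pos rfl]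
    have hej : ev (X j) = 1 := by
      change aeval _ (X j) = _
      rw [aeval_X, if_neg (Ne.symm hij), if_pos rfl]
    have hel : ∀ l, l ≠ i → l ≠ j → ev (X l) = 0 := by
      intro l h1 h2
      change aeval _ (X l) = _
      rw [aeval_X, if_neg h1, if_neg h2]
    have heC : ∀ a, ev (C a) = Polynomial.C a := fun a => aeval_C _ _
    simp only [map_sub, map_mul, map_pow, map_sum, map_ofNat, heC]
    rw [hsum _ (fun l h1 h2 => by rw [hel l h1 h2]; ring),
      hsum _ (fun l h1 h2 => by rw [hel l h1 h2]; ring),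
      hsum _ (fun l h1 h2 => by rw [hel l h1 h2]; ring), hei, hej]
    ring
  obtain ⟨i, hi⟩ : ∃ i, v i ≠ 0 := by
    by_contra h2
    push Not at h2
    exact hv (funext h2)
  have hall : ∀ j, v j ≠ 0 := by
    intro j
    by_cases hij : i = j
    · rw [← hij]; exact hi
    · exact (key i j hij hi).1
  have h01 := (key ⟨0, by omega⟩ ⟨1, by omega⟩ (by simp) (hall _)).2
  have h12 := (key ⟨1, by omega⟩ ⟨2, by omega⟩ (by simp) (hall _)).2
  have h02 := (key ⟨0, by omega⟩ ⟨2, by omega⟩ (by simp) (hall _)).2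
  have h3 : v ⟨0, by omega⟩ ^ 3 = 0 := by linear_combination (1 / 2 : A) * (h01 - h12 + h02)
  exact hall _ (pow_eq_zero_iff three_ne_zero |>.1 h3)

end

end

end Pool.Agent.T9h1
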