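import Pool.Agent.T9h1.C7
import Pool.Agent.T9h1.C8
import Pool.Agent.T9h1.C11

/-! # The function field over the field of the coordinates of the generic point of the space -/

set_option autoImplicit false

namespace Pool.Agent.T9h1

open MvPolynomial IntermediateField Module FF

noncomputable section

theorem exists_hom {A Λ G : Type} [Field A] [Field Λ] [Algebra A Λ] [Field G] [Algebra A G] {n : ℕ}
    (Z : Fin n → Λ) (hind : AlgebraicIndependent A Z) (htop : adjoin A (Set.range Z) = ⊤)
    (z : Fin n → G) (hz : AlgebraicIndependent A z) :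
    ∃ f : Λ →ₐ[A] G, ∀ i, f (Z i) = z i := by
  let e1 : (adjoin A (Set.range Z)) ≃ₐ[A] Λ := (IntermediateField.equivOfEq htop).trans topEquiv
  have he1 : ∀ x : adjoin A (Set.range Z), e1 x = x := fun x => rfl
  let f : Λ →ₐ[A] G := (adjoin A (Set.range z)).val.comp
    (((e1.symm.trans hind.aevalEquivField.symm).trans hz.aevalEquivField) :
      Λ →ₐ[A] (adjoin A (Set.range z)))
  refine ⟨f, fun i => ?_⟩
  have h1 : e1.symm (Z i) = hind.aevalEquivField (algebraMap (MvPolynomial (Fin n) A)
      (FractionRing (MvPolynomial (Fin n) A)) (X i)) := by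
    apply e1.injective
    rw [AlgEquiv.apply_symm_apply, he1, AlgebraicIndependent.aevalEquivField_algebraMap_apply_coe,
      aeval_X]
  change ((hz.aevalEquivField (hind.aevalEquivField.symm (e1.symm (Z i))) :
    adjoin A (Set.range z)) : G) = z i
  rw [h1, AlgEquiv.symm_apply_apply, AlgebraicIndependent.aevalEquivField_algebraMap_apply_coe,
      aeval_X]

/-- the function field over the field of the coordinates of the generic point of the space -/
theorem exists_G {A Λ K E : Type} [Field A] [Field Λ] [Algebra A Λ] [Field K] [CharZero K]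
    [Algebra A K] [Field E] [Algebra A E] [Algebra Λ E] [Algebra K E] [IsScalarTower A Λ E]
    [IsScalarTower A K E] {k : ℕ} (Z : Fin (k + 5) → Λ) (hind : AlgebraicIndependent A Z)
    (htop : adjoin A (Set.range Z) = ⊤) [Algebra.EssFiniteType A K] (hK : Algebra.trdeg A K = 1)
    (V : Fin (k + 5) → K) (x : Fin (k + 5) → E) (ρ : E)
    (hZ : ∀ i, algebraMap Λ E (Z i) = x i + ρ * algebraMap K E (V i)) (h3 : ∑ i, x i ^ 3 = 0)
    (hu : x 0 + x (i1 k) ≠ 0) :
    ∃ (G : Type) (_ : Field G) (_ : Algebra A G) (_ : Algebra Λ G) (_ : Algebra K G)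
      (_ : IsScalarTower A Λ G) (_ : IsScalarTower A K G) (_ : IsFF Λ G)
      (X : Fin (k + 5) → G) (R : G), X 0 + X (i1 k) ≠ 0 ∧ ∑ i, X i ^ 3 = 0 ∧
      adjoin K (Set.range X ∪ {R}) = ⊤ ∧ Algebra.trdeg K G = (k + 5 : ℕ) ∧
      ∀ i, algebraMap Λ G (Z i) = X i + R * algebraMap K G (V i) := by
  have hu' : (x 0 + x (i1 k)) * (x 0 + x (i1 k))⁻¹ = 1 := mul_inv_cancel₀ hu
  let φ : QA (DD K k) →+* E := cj K x ρ (x 0 + x (i1 k))⁻¹ hu' h3
  let zr : Fin (k + 5) → QA (DD K k) := fun i =>
    xx K k i + rr K k * algebraMap (SX K k) (QA (DD K k)) (Polynomial.C (C (V i)))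
  let zg : Fin (k + 5) → GG K k := fun i => gx K k i + gr K k * algebraMap K (GG K k) (V i)
  have hzr : ∀ i, algebraMap (QA (DD K k)) (GG K k) (zr i) = zg i := by
    intro i
    change algebraMap (QA (DD K k)) (GG K k) (xx K k i + rr K k * _) = _
    rw [map_add, map_mul]
    rfl
  have hφz : ∀ i, φ (zr i) = algebraMap Λ E (Z i) := by
    intro i
    change cj K x ρ _ hu' h3 (xx K k i + rr K k * _) = _
    rw [map_add, map_mul, cj_xx, cj_rr, cj_const, hZ]
  have htow : IsScalarTower A K (GG K k) := IsScalarTower.of_algebraMap_eq fun a => rfl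
  have hz : AlgebraicIndependent A zg := by
    unfold AlgebraicIndependent
    rw [injective_iff_map_eq_zero]
    intro p hp
    have h1 : aeval zg p = algebraMap (QA (DD K k)) (GG K k)
        (eval₂ (algebraMap A (QA (DD K k))) zr p) := by
      rw [hom_eval₂, aeval_def]
      congr 1
      funext i
      exact (hzr i).symm
    rw [h1] at hp
    have h2 : eval₂ (algebraMap A (QA (DD K k))) zr p = 0 :=
      IsFractionRing.injective (QA (DD K k)) (GG K k) (by rw [hp, map_zero])
    have h4 := congrArg φ h2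
    rw [hom_eval₂, map_zero] at h4
    have h5 : φ.comp (algebraMap A (QA (DD K k))) = algebraMap A E := by
      ext a
      rw [RingHom.comp_apply]
      change cj K x ρ _ hu' h3 (algebraMap (SX K k) (QA (DD K k))
        (Polynomial.C (C (algebraMap A K a)))) = _
      rw [cj_const, ← IsScalarTower.algebraMap_apply]
    have h6 : (fun i => φ (zr i)) = fun i => algebraMap Λ E (Z i) := funext hφz
    rw [h5, h6] at h4
    exact ind_img (κ := E) Z hind (by rw [map_zero]; exact h4)
  obtain ⟨f, hf⟩ := exists_hom Z hind htop zg hz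
  let _ : Algebra Λ (GG K k) := f.toRingHom.toAlgebra
  have htow2 : IsScalarTower A Λ (GG K k) :=
    IsScalarTower.of_algebraMap_eq fun a => (f.commutes a).symm
  have hess1 : Algebra.EssFiniteType K (GG K k) := by
    rw [← IntermediateField.fg_top_iff]
    have hfin : (Set.range (gx K k) ∪ {gr K k}).Finite :=
      (Set.finite_range _).union (Set.finite_singleton _)
    refine ⟨hfin.toFinset, ?_⟩
    rw [Set.Finite.coe_toFinset]
    exact g_top K k
  have hess2 : Algebra.EssFiniteType A (GG K k) := Algebra.EssFiniteType.comp A K (GG K k)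
  have hFF : IsFF Λ (GG K k) := by
    refine ⟨Algebra.EssFiniteType.of_comp A Λ (GG K k), ?_⟩
    have h1 := trdeg_add_eq A K (A := GG K k)
    have h2 := trdeg_add_eq A Λ (A := GG K k)
    rw [hK, g_tr] at h1
    rw [trL Z hind htop, ← h1] at h2
    have hlt : Algebra.trdeg Λ (GG K k) < Cardinal.aleph0 := by
      have h3 : Algebra.trdeg Λ (GG K k) ≤ 1 + ((k + 5 : ℕ) : Cardinal) := by
        rw [← h2]
        exact self_le_add_left _ _
      refine h3.trans_lt ?_
      have h4 : (1 : Cardinal) + ((k + 5 : ℕ) : Cardinal) = ((1 + (k + 5) : ℕ) : Cardinal) := by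
        push_cast
        ring
      rw [h4]
      exact Cardinal.natCast_lt_aleph0
    obtain ⟨d, hd⟩ := Cardinal.lt_aleph0.1 hlt
    rw [hd] at h2 ⊢
    have h4 : (k + 5) + d = 1 + (k + 5) := by exact_mod_cast h2
    have h5 : d = 1 := by omega
    rw [h5, Nat.cast_one]
  exact ⟨GG K k, inferInstance, inferInstance, inferInstance, inferInstance, htow2, htow, hFF,
    gx K k, gr K k, g_u K k, g_3 K k, g_top K k, g_tr K k, hf⟩

end

end Pool.Agent.T9h1
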