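import Pool.Agent.T9h1.C11

/-! # The generic fibre of the conic bundle -/

set_option autoImplicit false

namespace Pool.Agent.T9h1

open MvPolynomial IntermediateField

noncomputable section

section base

variable (K : Type) [Field K] [CharZero K] {T : Type} [CommRing T] [Algebra K T] {k : ℕ}

theorem eval_D0 (t : Fin (k + 4) → T) (q : T) (L : K0 K k →+* T)
    (hL : ∀ s, L (algebraMap (MvPolynomial (Fin (k + 4)) K) (K0 K k) s) = aeval t s) :
    Polynomial.eval₂RingHom L q (D0 K k) = Polynomial.eval₂RingHom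
      (aeval t : MvPolynomial (Fin (k + 4)) K →ₐ[K] T).toRingHom q (DD K k) := by
  rw [D0_eq]
  change Polynomial.eval₂ L q (Polynomial.map _ _) = Polynomial.eval₂ _ q _
  rw [Polynomial.eval₂_map]
  congr 1
  exact RingHom.ext hL

/-- the homomorphism of the coordinate ring of the generic fibre given by a point -/
def cj0 (x : Fin (k + 5) → T) (ρ ui : T) (hu : (x 0 + x (i1 k)) * ui = 1)
    (h3 : ∑ i, x i ^ 3 = 0) (L : K0 K k →+* T)
    (hL : ∀ s, L (algebraMap (MvPolynomial (Fin (k + 4)) K) (K0 K k) s) = aeval (ct x ρ ui) s) :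
    QA (D0 K k) →+* T :=
  qaHom (D0 K k) (Polynomial.eval₂RingHom L (cq K x ui)) (cp K x ui)
    ((c_eq K x ρ ui hu h3).trans (eval_D0 K (ct x ρ ui) (cq K x ui) L hL).symm)

theorem cj0_map {T' : Type} [CommRing T'] [Algebra K T'] (g : T →ₐ[K] T') (x : Fin (k + 5) → T)
    (ρ ui : T) (hu : (x 0 + x (i1 k)) * ui = 1) (h3 : ∑ i, x i ^ 3 = 0) (L : K0 K k →+* T)
    (hL : ∀ s, L (algebraMap (MvPolynomial (Fin (k + 4)) K) (K0 K k) s) = aeval (ct x ρ ui) s)
    (hu' : (g (x 0) + g (x (i1 k))) * g ui = 1) (h3' : ∑ i, g (x i) ^ 3 = 0)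
    (L' : K0 K k →+* T') (hLL : ∀ c, L' c = g (L c))
    (hL' : ∀ s, L' (algebraMap (MvPolynomial (Fin (k + 4)) K) (K0 K k) s) =
      aeval (ct (fun i => g (x i)) (g ρ) (g ui)) s) (z : QA (D0 K k)) :
    g (cj0 K x ρ ui hu h3 L hL z) = cj0 K (fun i => g (x i)) (g ρ) (g ui) hu' h3' L' hL' z := by
  unfold cj0
  rw [qaHom_apply, qaHom_apply, map_add, map_mul]
  have hq : g (cq K x ui) = cq K (fun i => g (x i)) (g ui) := by
    unfold cq
    rw [map_mul, map_mul, map_sub, AlgHom.commutes]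
  have hp : g (cp K x ui) = cp K (fun i => g (x i)) (g ui) := by
    unfold cp
    rw [map_mul, map_mul, map_sub, AlgHom.commutes]
  have hf : ∀ s, g (Polynomial.eval₂RingHom L (cq K x ui) s) =
      Polynomial.eval₂RingHom L' (cq K (fun i => g (x i)) (g ui)) s := by
    intro s
    change g.toRingHom (Polynomial.eval₂ _ _ s) = Polynomial.eval₂ _ _ s
    rw [Polynomial.hom_eval₂]
    congr 1
    exact RingHom.ext fun c => (hLL c).symm
  rw [hf, hf, hp]

/-- the inclusion of the chart ring -/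
def bt (k : ℕ) : QA (DD K k) →+* QA (D0 K k) :=
  qaHom (DD K k) ((algebraMap (Polynomial (K0 K k)) (QA (D0 K k))).comp
    (Polynomial.mapRingHom (algebraMap (MvPolynomial (Fin (k + 4)) K) (K0 K k))))
    QuadraticAlgebra.omega (by
      rw [sq, QuadraticAlgebra.omega_mul_omega_eq_mk, RingHom.comp_apply, D0_eq]
      rfl)

theorem bt_apply (z : QA (DD K k)) : bt K k z =
    ⟨Polynomial.map (algebraMap (MvPolynomial (Fin (k + 4)) K) (K0 K k)) z.re,
      Polynomial.map (algebraMap (MvPolynomial (Fin (k + 4)) K) (K0 K k)) z.im⟩ := by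
  unfold bt
  rw [qaHom_apply]
  apply QuadraticAlgebra.ext
  · simp
  · simp

theorem cj0_bt (x : Fin (k + 5) → T) (ρ ui : T) (hu : (x 0 + x (i1 k)) * ui = 1)
    (h3 : ∑ i, x i ^ 3 = 0) (L : K0 K k →+* T)
    (hL : ∀ s, L (algebraMap (MvPolynomial (Fin (k + 4)) K) (K0 K k) s) = aeval (ct x ρ ui) s)
    (z : QA (DD K k)) :
    cj0 K x ρ ui hu h3 L hL (bt K k z) = cj K x ρ ui hu h3 z := by
  unfold cj0 cj
  rw [bt_apply, qaHom_apply, qaHom_apply]
  have hf : ∀ s : SX K k, Polynomial.eval₂RingHom L (cq K x ui) (Polynomial.map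
      (algebraMap (MvPolynomial (Fin (k + 4)) K) (K0 K k)) s) = Polynomial.eval₂RingHom
      (aeval (ct x ρ ui) : MvPolynomial (Fin (k + 4)) K →ₐ[K] T).toRingHom (cq K x ui) s := by
    intro s
    change Polynomial.eval₂ L _ (Polynomial.map _ _) = Polynomial.eval₂ _ _ _
    rw [Polynomial.eval₂_map]
    congr 1
    exact RingHom.ext hL
  change Polynomial.eval₂RingHom L (cq K x ui) (Polynomial.map
      (algebraMap (MvPolynomial (Fin (k + 4)) K) (K0 K k)) z.re) +
    Polynomial.eval₂RingHom L (cq K x ui) (Polynomial.map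
      (algebraMap (MvPolynomial (Fin (k + 4)) K) (K0 K k)) z.im) * _ = _
  rw [hf, hf]

end base

variable {K : Type} [Field K] [CharZero K] {k : ℕ}

instance : IsDomain (QA (D0 K k)) := qa_domain _ ns0

instance : IsNoetherianRing (QA (D0 K k)) := qa_noeth _

theorem cj0_inj {κ : Type} [Field κ] [Algebra K κ] (x : Fin (k + 5) → κ) (ρ ui : κ)
    (hu : (x 0 + x (i1 k)) * ui = 1) (h3 : ∑ i, x i ^ 3 = 0) (L : K0 K k →+* κ)
    (hL : ∀ s, L (algebraMap (MvPolynomial (Fin (k + 4)) K) (K0 K k) s) = aeval (ct x ρ ui) s)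
    (hj : Function.Injective (cj K x ρ ui hu h3)) :
    Function.Injective (cj0 K x ρ ui hu h3 L hL) := by
  have hE : ∀ s : SX K k, Polynomial.eval₂RingHom
      (aeval (ct x ρ ui) : MvPolynomial (Fin (k + 4)) K →ₐ[K] κ).toRingHom (cq K x ui) s = 0 →
      s = 0 := by
    intro s hs
    have h1 : cj K x ρ ui hu h3 (algebraMap (SX K k) (QA (DD K k)) s) = 0 := by
      unfold cj
      rw [qaHom_apply, QuadraticAlgebra.algebraMap_re, QuadraticAlgebra.algebraMap_im, map_zero,
        zero_mul, add_zero, hs]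
    have h2 := hj (h1.trans (map_zero _).symm)
    exact QuadraticAlgebra.algebraMap_injective (h2.trans (map_zero _).symm)
  have hE0 : ∀ s : Polynomial (K0 K k), Polynomial.eval₂RingHom L (cq K x ui) s = 0 → s = 0 := by
    intro s hs
    obtain ⟨b, hb⟩ := IsLocalization.integerNormalization_map_to_map
      (nonZeroDivisors (MvPolynomial (Fin (k + 4)) K)) s
    have hb0 : algebraMap (MvPolynomial (Fin (k + 4)) K) (K0 K k) b ≠ 0 :=
      IsFractionRing.to_map_ne_zero_of_mem_nonZeroDivisors b.2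
    set s' := IsLocalization.integerNormalization
      (nonZeroDivisors (MvPolynomial (Fin (k + 4)) K)) s
    have hb' : Polynomial.map (algebraMap (MvPolynomial (Fin (k + 4)) K) (K0 K k)) s' =
        Polynomial.C (algebraMap (MvPolynomial (Fin (k + 4)) K) (K0 K k) b) * s := by
      rw [hb, ← Polynomial.smul_eq_C_mul]
      exact (algebraMap_smul (K0 K k) (b : MvPolynomial (Fin (k + 4)) K) s).symm
    have h1 : Polynomial.eval₂RingHom
        (aeval (ct x ρ ui) : MvPolynomial (Fin (k + 4)) K →ₐ[K] κ).toRingHom (cq K x ui) s' = 0 := by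
      have h2 : Polynomial.eval₂RingHom L (cq K x ui) (Polynomial.map
          (algebraMap (MvPolynomial (Fin (k + 4)) K) (K0 K k)) s') = Polynomial.eval₂RingHom
          (aeval (ct x ρ ui) : MvPolynomial (Fin (k + 4)) K →ₐ[K] κ).toRingHom (cq K x ui) s' := by
        change Polynomial.eval₂ L _ (Polynomial.map _ _) = Polynomial.eval₂ _ _ _
        rw [Polynomial.eval₂_map]
        congr 1
        exact RingHom.ext hL
      rw [← h2, hb', map_mul, hs, mul_zero]
    have h4 := hE s' h1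
    rw [h4, Polynomial.map_zero] at hb'
    have h5 := mul_eq_zero.1 hb'.symm
    rw [Polynomial.C_eq_zero] at h5
    exact h5.resolve_left hb0
  rw [injective_iff_map_eq_zero]
  intro z hz
  have hc : cp K x ui ^ 2 = Polynomial.eval₂RingHom L (cq K x ui) (D0 K k) :=
    (c_eq K x ρ ui hu h3).trans (eval_D0 K (ct x ρ ui) (cq K x ui) L hL).symm
  unfold cj0 at hz
  rw [qaHom_apply] at hz
  have h2 : z.re ^ 2 - z.im ^ 2 * D0 K k = 0 := by
    apply hE0
    rw [map_sub, map_mul, map_pow, map_pow, ← hc]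
    linear_combination (Polynomial.eval₂RingHom L (cq K x ui) z.re -
      Polynomial.eval₂RingHom L (cq K x ui) z.im * cp K x ui) * hz
  obtain ⟨h5, h6⟩ := ns0 z.re z.im (sub_eq_zero.1 h2)
  exact QuadraticAlgebra.ext h5 h6

/-- **principal kernel, vertical case** -/
theorem PK1 {κ : Type} [Field κ] [Algebra K κ] (hω : ∃ ω : K, ω ^ 2 + ω + 1 = 0)
    (x : Fin (k + 5) → κ) (ρ ui : κ)
    (hu : (x 0 + x (i1 k)) * ui = 1) (h3 : ∑ i, x i ^ 3 = 0)
    (h : Algebra.IsAlgebraic (Algebra.adjoin K (Set.range x ∪ {ρ})) κ)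
    (htr : Algebra.trdeg K κ = (k + 4 : ℕ)) (f : MvPolynomial (Fin (k + 4)) K)
    (hf : Irreducible f) (hft : aeval (ct x ρ ui) f = 0) (z : QA (DD K k)) :
    cj K x ρ ui hu h3 z = 0 ↔ algebraMap (SX K k) (QA (DD K k)) (Polynomial.C f) ∣ z := by
  have h1 := pt_alg x ρ ui hu h3 h
  exact pk1 hω (ct x ρ ui) (cq K x ui) (cp K x ui) htr (c_eq K x ρ ui hu h3) f hf hft z

/-- **principal kernel, horizontal case** -/
theorem PK2 {κ : Type} [Field κ] [Algebra K κ] (x : Fin (k + 5) → κ) (ρ ui : κ)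
    (hu : (x 0 + x (i1 k)) * ui = 1) (h3 : ∑ i, x i ^ 3 = 0)
    (htr : Algebra.trdeg K κ = (k + 4 : ℕ)) (L : K0 K k →+* κ)
    (hL : ∀ s, L (algebraMap (MvPolynomial (Fin (k + 4)) K) (K0 K k) s) = aeval (ct x ρ ui) s) :
    ∃ g : QA (D0 K k), g ≠ 0 ∧ ∀ z, cj0 K x ρ ui hu h3 L hL z = 0 ↔ g ∣ z := by
  let _ : Algebra (K0 K k) κ := L.toAlgebra
  have hind : AlgebraicIndependent K (ct x ρ ui) := by
    unfold AlgebraicIndependent
    rw [injective_iff_map_eq_zero]
    intro s hs
    rw [← hL] at hs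
    have h1 := L.injective (hs.trans (map_zero L).symm)
    exact IsFractionRing.injective (MvPolynomial (Fin (k + 4)) K) (K0 K k)
      (h1.trans (map_zero _).symm)
  have hb : IsTranscendenceBasis K (ct x ρ ui) :=
    hind.isTranscendenceBasis_of_trdeg_le_of_finite (by rw [htr, Cardinal.mk_fin])
  have halg : IsAlgebraic (K0 K k) (cq K x ui) := by
    have h1 := hb.isAlgebraic
    have h2 := h1.isAlgebraic (cq K x ui)
    refine isAlg_mono ((algebraMap (MvPolynomial (Fin (k + 4)) K) (K0 K k)).comp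
      (hind.aevalEquiv.symm : Algebra.adjoin K (Set.range (ct x ρ ui)) →+*
        MvPolynomial (Fin (k + 4)) K)) ?_ ?_ h2
    · exact (IsFractionRing.injective (MvPolynomial (Fin (k + 4)) K) (K0 K k)).comp
        hind.aevalEquiv.symm.injective
    · intro r
      obtain ⟨s, rfl⟩ := hind.aevalEquiv.surjective r
      change L (algebraMap _ _ (hind.aevalEquiv.symm (hind.aevalEquiv s))) = _
      rw [AlgEquiv.symm_apply_apply, hL]
      exact (hind.algebraMap_aevalEquiv s).symm
  exact pk2 (w0 K k) (g0 K k) aniso0 (D0 K k) rfl ns0 (cq K x ui) (cp K x ui) halg.isIntegral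
    ((c_eq K x ρ ui hu h3).trans (eval_D0 K (ct x ρ ui) (cq K x ui) L hL).symm)

end

end Pool.Agent.T9h1
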