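import Pool.Agent.T9h1.C12
import Pool.Agent.T9h1.C13

/-! # Places of odd degree -/

set_option autoImplicit false

namespace Pool.Agent.T9h1

open MvPolynomial IntermediateField Module FF

noncomputable section

theorem alg_mem {A K : Type} [Field A] [IsAlgClosed A] [Field K] [Algebra A K] (c : K)
    (hc : IsAlgebraic A c) : ∃ a, algebraMap A K a = c := by
  have h1 := IsAlgClosed.degree_eq_one_of_irreducible A (minpoly.irreducible hc.isIntegral)
  exact minpoly.mem_range_of_degree_eq_one A c h1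

section

variable {A Λ K G : Type} [Field A] [Field Λ] [Field K] [Field G] [Algebra A Λ]
  [Algebra A K] [Algebra A G] [Algebra Λ G] [Algebra K G] [IsScalarTower A Λ G]
  [IsScalarTower A K G]

omit [Field K] [Algebra A K] [Algebra K G] [IsScalarTower A K G] in
theorem reg_A (Q : Place Λ G) (a : A) : Q.Reg (algebraMap A G a) := by
  rw [IsScalarTower.algebraMap_apply A Λ G]
  exact Q.reg_const _

/-- the constants in the valuation ring -/
def aO (A : Type) [Field A] [Algebra A Λ] [Algebra A G] [IsScalarTower A Λ G] (Q : Place Λ G) :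
    A →+* Q.O where
  toFun a := ⟨algebraMap A G a, reg_A Q a⟩
  map_one' := Subtype.ext (map_one _)
  map_zero' := Subtype.ext (map_zero _)
  map_add' _ _ := Subtype.ext (map_add _ _ _)
  map_mul' _ _ := Subtype.ext (map_mul _ _ _)

theorem const_red [IsAlgClosed A] [IsFF A K] (Q : Place Λ G) (c0 : K) (hc0 : c0 ≠ 0)
    (hord : Q.ord (algebraMap K G c0) ≠ 0) (c : K) (hc : Q.Reg (algebraMap K G c)) :
    ∃ a : A, Q.red (algebraMap K G c) = Q.red (algebraMap A G a) := by
  by_cases halg : IsAlgebraic A c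
  · obtain ⟨a, rfl⟩ := alg_mem c halg
    exact ⟨a, by rw [← IsScalarTower.algebraMap_apply A K G]⟩
  let cO : Q.O := ⟨algebraMap K G c, hc⟩
  have hev : ∀ p : Polynomial A, ((Polynomial.eval₂ (aO A Q) cO p : Q.O) : G) =
      algebraMap K G (Polynomial.aeval c p) := by
    intro p
    change Q.O.subtype (Polynomial.eval₂ (aO A Q) cO p) = _
    rw [Polynomial.hom_eval₂, Polynomial.aeval_def, Polynomial.hom_eval₂,
      ← IsScalarTower.algebraMap_eq A K G]
    rfl
  by_cases h2 : ∃ p : Polynomial A, p ≠ 0 ∧ Q.resHom (Polynomial.eval₂ (aO A Q) cO p) = 0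
  · obtain ⟨p, hp, h3⟩ := h2
    let _ : Algebra A Q.RF := (Q.resHom.comp (aO A Q)).toAlgebra
    have h4 : IsAlgebraic A (Q.resHom cO) := by
      refine ⟨p, hp, ?_⟩
      rw [Polynomial.hom_eval₂] at h3
      exact h3
    obtain ⟨a, ha⟩ := alg_mem _ h4
    refine ⟨a, ?_⟩
    rw [Q.red_of_reg hc, Q.red_of_reg (reg_A Q a)]
    exact ha.symm
  · exfalso
    push Not at h2
    have hord0 : ∀ p : Polynomial A, p ≠ 0 → algebraMap K G (Polynomial.aeval c p) ≠ 0 ∧
        Q.ord (algebraMap K G (Polynomial.aeval c p)) = 0 := by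
      intro p hp
      have h3 := h2 p hp
      have h5 : Q.Reg (algebraMap K G (Polynomial.aeval c p)) := by
        rw [← hev]
        exact (Polynomial.eval₂ (aO A Q) cO p).2
      have h6 : Q.red (algebraMap K G (Polynomial.aeval c p)) ≠ 0 := by
        rw [Q.red_of_reg h5]
        have h7 : (⟨algebraMap K G (Polynomial.aeval c p), h5⟩ : Q.O) =
            Polynomial.eval₂ (aO A Q) cO p := Subtype.ext (hev p).symm
        rw [h7]
        exact h3
      rw [Ne, Q.red_eq_zero_iff h5] at h6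
      push Not at h6
      have h8 := (Q.reg_iff h6.1).1 h5
      exact ⟨h6.1, le_antisymm h6.2 h8⟩
    have hfa := IsFF.isAlgebraic (k := A) (K := K) halg
    let Q' : Place A⟮c⟯ G :=
      { ord := Q.ord
        ord_zero := Q.ord_zero
        ord_mul := Q.ord_mul
        ord_add := Q.ord_add
        ord_const := by
          intro x hx
          obtain ⟨r, s, hrs⟩ := IntermediateField.mem_adjoin_simple_iff A (x : K) |>.1 x.2
          have hx' : (x : K) ≠ 0 := fun h => hx (Subtype.ext h)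
          have hr : r ≠ 0 := by
            rintro rfl
            apply hx'
            rw [hrs, map_zero, zero_div]
          have hs : s ≠ 0 := by
            rintro rfl
            apply hx'
            rw [hrs, map_zero, div_zero]
          change Q.ord (algebraMap K G (x : K)) = 0
          rw [hrs, map_div₀, Q.ord_div (hord0 r hr).1 (hord0 s hs).1, (hord0 r hr).2,
            (hord0 s hs).2, sub_zero]
        surj := Q.surj }
    have h9 : IsAlgebraic A⟮c⟯ (algebraMap K G c0) := (hfa.isAlgebraic c0).algebraMap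
    have h10 := Q'.ord_eq_zero_of_isAlgebraic ((map_ne_zero _).2 hc0) h9
    exact hord h10

omit [Field K] [Algebra A K] [Algebra K G] [IsScalarTower A K G] [Field A] [Algebra A Λ]
  [Algebra A G] [IsScalarTower A Λ G] in
theorem reg_sq (Q : Place Λ G) (e : G) (h : Q.Reg (e ^ 2)) : Q.Reg e := by
  by_cases he : e = 0
  · exact Or.inl he
  · right
    have h1 := (Q.reg_iff (pow_ne_zero 2 he)).1 h
    rw [Q.ord_pow] at h1
    push_cast at h1
    omega

end

/-- the discriminant of the quadratic equation of the residual point -/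
theorem disc_eq {G : Type} [CommRing G] {ι : Type} [Fintype ι] (z v x : ι → G) (R : G)
    (hx : ∀ i, z i = x i + R * v i) (hx3 : ∑ i, x i ^ 3 = 0) (hv3 : ∑ i, v i ^ 3 = 0) :
    (6 * (∑ i, z i * v i ^ 2) * R - 3 * ∑ i, z i ^ 2 * v i) ^ 2 =
      9 * (∑ i, z i ^ 2 * v i) ^ 2 - 12 * (∑ i, z i ^ 3) * ∑ i, z i * v i ^ 2 := by
  have h1 : ∑ i, x i ^ 3 = ∑ i, z i ^ 3 - 3 * R * ∑ i, z i ^ 2 * v i +
      3 * R ^ 2 * ∑ i, z i * v i ^ 2 - R ^ 3 * ∑ i, v i ^ 3 := by
    rw [Finset.mul_sum, Finset.mul_sum, Finset.mul_sum, ← Finset.sum_sub_distrib,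
      ← Finset.sum_add_distrib, ← Finset.sum_sub_distrib]
    refine Finset.sum_congr rfl fun i _ => ?_
    rw [hx]
    ring
  rw [hx3, hv3] at h1
  linear_combination (-12) * (∑ i, z i * v i ^ 2) * h1

section

variable {A Λ K G : Type} [Field A] [IsAlgClosed A] [CharZero A] [Field Λ] [Field K] [Field G]
  [Algebra A Λ]
  [Algebra A K] [Algebra A G] [Algebra Λ G] [Algebra K G] [IsScalarTower A Λ G]
  [IsScalarTower A K G] {k : ℕ} (Z : Fin (k + 5) → Λ) (hind : AlgebraicIndependent A Z)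
  (htop : adjoin A (Set.range Z) = ⊤) (V : Fin (k + 5) → K) (hV : V ≠ 0) (hV3 : ∑ i, V i ^ 3 = 0)
  (X : Fin (k + 5) → G) (R : G) (hX3 : ∑ i, X i ^ 3 = 0)
  (hZ : ∀ i, algebraMap Λ G (Z i) = X i + R * algebraMap K G (V i))
  (Q : Place Λ G) (hodd : Odd Q.deg)

include hind htop hV hV3 hX3 hZ hodd in
/-- **a place of odd degree is trivial on the field of the point** -/
theorem K_triv [IsFF A K] (c : K) (hc : c ≠ 0) : Q.ord (algebraMap K G c) = 0 := by
  classical
  by_contra hord
  have hred := const_red (A := A) Q c hc hord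
  obtain ⟨i1, hi1⟩ : ∃ i, V i ≠ 0 := by
    by_contra h2
    push Not at h2
    exact hV (funext h2)
  have hJ : (Finset.univ.filter fun i => V i ≠ 0).Nonempty :=
    ⟨i1, Finset.mem_filter.2 ⟨Finset.mem_univ _, hi1⟩⟩
  obtain ⟨i0, hi0, hmin⟩ := Finset.exists_min_image _ (fun i => Q.ord (algebraMap K G (V i))) hJ
  have hi0n : V i0 ≠ 0 := (Finset.mem_filter.1 hi0).2
  have hVG : ∀ i, V i ≠ 0 → algebraMap K G (V i) ≠ 0 := fun i hi => (map_ne_zero _).2 hi
  have hregV : ∀ i, Q.Reg (algebraMap K G (V i / V i0)) := by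
    intro i
    by_cases hi : V i = 0
    · rw [hi, zero_div, map_zero]
      exact Q.reg_zero
    · right
      rw [map_div₀, Q.ord_div (hVG i hi) (hVG i0 hi0n)]
      have := hmin i (Finset.mem_filter.2 ⟨Finset.mem_univ _, hi⟩)
      omega
  choose a ha using fun i => hred (V i / V i0) (hregV i)
  let _ : Algebra A Q.RF := (Q.resHom.comp (aO A Q)).toAlgebra
  have htow : IsScalarTower A Λ Q.RF := by
    refine IsScalarTower.of_algebraMap_eq fun x => ?_
    change Q.resHom (aO A Q x) = Q.red (algebraMap Λ G (algebraMap A Λ x))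
    rw [← IsScalarTower.algebraMap_apply A Λ G, Q.red_of_reg (reg_A Q x)]
    rfl
  have ha0 : a ≠ 0 := by
    intro h
    have h1 := ha i0
    rw [h, Pi.zero_apply, map_zero, Q.red_zero, div_self hi0n, map_one, Q.red_one] at h1
    exact one_ne_zero h1
  set zG : Fin (k + 5) → G := fun i => algebraMap Λ G (Z i) with hzG
  set vG : Fin (k + 5) → G := fun i => algebraMap K G (V i) with hvG
  have hd := disc_eq zG vG X R hZ hX3 (by
    rw [hvG]
    have := congrArg (algebraMap K G) hV3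
    rw [map_sum, map_zero] at this
    rw [← this]
    exact Finset.sum_congr rfl fun i _ => (map_pow _ _ _).symm)
  let zO : Fin (k + 5) → Q.O := fun i => ⟨algebraMap Λ G (Z i), Q.reg_const _⟩
  let vO : Fin (k + 5) → Q.O := fun i => ⟨algebraMap K G (V i / V i0), hregV i⟩
  let DO : Q.O := 9 * (∑ i, zO i ^ 2 * vO i) ^ 2 - 12 * (∑ i, zO i ^ 3) * ∑ i, zO i * vO i ^ 2
  let e' : G := (6 * (∑ i, zG i * vG i ^ 2) * R - 3 * ∑ i, zG i ^ 2 * vG i) / vG i0
  have hv0 : vG i0 ≠ 0 := hVG i0 hi0n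
  have hDO : (DO : G) = e' ^ 2 := by
    have e1 : (DO : G) = 9 * (∑ i, zG i ^ 2 * (vG i / vG i0)) ^ 2 -
        12 * (∑ i, zG i ^ 3) * ∑ i, zG i * (vG i / vG i0) ^ 2 := by
      change Q.O.subtype DO = _
      have hz1 : ∀ i, Q.O.subtype (zO i) = zG i := fun _ => rfl
      have hv1 : ∀ i, Q.O.subtype (vO i) = vG i / vG i0 := by
        intro i
        change algebraMap K G (V i / V i0) = _
        rw [map_div₀]
      change Q.O.subtype (9 * (∑ i, zO i ^ 2 * vO i) ^ 2 - 12 * (∑ i, zO i ^ 3) *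
        ∑ i, zO i * vO i ^ 2) = _
      simp only [map_sub, map_mul, map_pow, map_sum, map_ofNat, hz1, hv1]
    have s1 : ∑ i, zG i ^ 2 * (vG i / vG i0) = (∑ i, zG i ^ 2 * vG i) / vG i0 := by
      rw [Finset.sum_div]
      exact Finset.sum_congr rfl fun i _ => by ring
    have s2 : ∑ i, zG i * (vG i / vG i0) ^ 2 = (∑ i, zG i * vG i ^ 2) / vG i0 ^ 2 := by
      rw [Finset.sum_div]
      exact Finset.sum_congr rfl fun i _ => by ring
    rw [e1, s1, s2]
    change _ = ((6 * (∑ i, zG i * vG i ^ 2) * R - 3 * ∑ i, zG i ^ 2 * vG i) / vG i0) ^ 2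
    conv_rhs => rw [div_pow, hd]
    field_simp
  have hereg : Q.Reg e' := reg_sq Q e' (by rw [← hDO]; exact DO.2)
  let eO : Q.O := ⟨e', hereg⟩
  have heO : eO ^ 2 = DO := Subtype.ext hDO.symm
  refine constH (κ := Q.RF) (n := k + 2) Z hind htop hodd a ha0 (Q.resHom eO) ?_
  rw [← map_pow, heO]
  have hz2 : ∀ i, Q.resHom (zO i) = algebraMap Λ Q.RF (Z i) := fun i =>
    (Q.red_of_reg (Q.reg_const (Z i))).symm
  have hv2 : ∀ i, Q.resHom (vO i) = algebraMap A Q.RF (a i) := by
    intro i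
    have h1 := ha i
    rw [Q.red_of_reg (hregV i), Q.red_of_reg (reg_A Q (a i))] at h1
    exact h1
  change Q.resHom (9 * (∑ i, zO i ^ 2 * vO i) ^ 2 - 12 * (∑ i, zO i ^ 3) *
    ∑ i, zO i * vO i ^ 2) = _
  simp only [map_sub, map_mul, map_pow, map_sum, map_ofNat, hz2, hv2]

include hind htop hV hV3 hX3 hZ hodd in
theorem reg_all [IsFF A K] : (∀ c : K, Q.Reg (algebraMap K G c)) ∧ Q.Reg R ∧ ∀ i, Q.Reg (X i) := by
  classical
  have htriv := K_triv Z hind htop V hV hV3 X R hX3 hZ Q hodd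
  have hregK : ∀ c : K, Q.Reg (algebraMap K G c) := by
    intro c
    by_cases hc : c = 0
    · rw [hc, map_zero]
      exact Q.reg_zero
    · exact Or.inr (htriv c hc).ge
  set zG : Fin (k + 5) → G := fun i => algebraMap Λ G (Z i) with hzG
  set vG : Fin (k + 5) → G := fun i => algebraMap K G (V i) with hvG
  have hd := disc_eq zG vG X R hZ hX3 (by
    rw [hvG]
    have := congrArg (algebraMap K G) hV3
    rw [map_sum, map_zero] at this
    rw [← this]
    exact Finset.sum_congr rfl fun i _ => (map_pow _ _ _).symm)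
  let _ : Algebra A Q.RF := (Q.resHom.comp (aO A Q)).toAlgebra
  have htow : IsScalarTower A Λ Q.RF := by
    refine IsScalarTower.of_algebraMap_eq fun x => ?_
    change Q.resHom (aO A Q x) = Q.red (algebraMap Λ G (algebraMap A Λ x))
    rw [← IsScalarTower.algebraMap_apply A Λ G, Q.red_of_reg (reg_A Q x)]
    rfl
  let zO : Fin (k + 5) → Q.O := fun i => ⟨algebraMap Λ G (Z i), Q.reg_const _⟩
  let vO : Fin (k + 5) → Q.O := fun i => ⟨algebraMap K G (V i), hregK _⟩
  have hz1 : ∀ i, Q.O.subtype (zO i) = zG i := fun _ => rfl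
  have hv1 : ∀ i, Q.O.subtype (vO i) = vG i := fun _ => rfl
  have hz2 : ∀ i, Q.resHom (zO i) = algebraMap Λ Q.RF (Z i) := fun i =>
    (Q.red_of_reg (Q.reg_const (Z i))).symm
  let PO : Q.O := ∑ i, zO i * vO i ^ 2
  let SO : Q.O := ∑ i, zO i ^ 2 * vO i
  let TO : Q.O := ∑ i, zO i ^ 3
  have hP : (PO : G) = ∑ i, zG i * vG i ^ 2 := by
    change Q.O.subtype (∑ i, zO i * vO i ^ 2) = _
    simp only [map_sum, map_mul, map_pow, hz1, hv1]
  have hS : (SO : G) = ∑ i, zG i ^ 2 * vG i := by
    change Q.O.subtype (∑ i, zO i ^ 2 * vO i) = _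
    simp only [map_sum, map_mul, map_pow, hz1, hv1]
  have hT : (TO : G) = ∑ i, zG i ^ 3 := by
    change Q.O.subtype (∑ i, zO i ^ 3) = _
    simp only [map_sum, map_pow, hz1]
  have hPne : Q.resHom PO ≠ 0 := by
    intro h0
    have h1 := diagH (κ := Q.RF) Z hind htop hodd (fun i => Q.resHom (vO i)) (by
      rw [← h0]
      change _ = Q.resHom (∑ i, zO i * vO i ^ 2)
      simp only [map_sum, map_mul, map_pow, hz2])
    obtain ⟨i, hi⟩ : ∃ i, V i ≠ 0 := by
      by_contra h2
      push Not at h2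
      exact hV (funext h2)
    have h3 := congrFun h1 i
    have h4 : Q.red (algebraMap K G (V i)) = 0 := by
      rw [Q.red_of_reg (hregK _)]
      exact h3
    exact Q.red_ne_zero ((map_ne_zero _).2 hi) (htriv _ hi) h4
  have hPO : (PO : G) ≠ 0 ∧ Q.ord (PO : G) = 0 := by
    have h1 : Q.red (PO : G) ≠ 0 := by
      rw [Q.red_of_reg PO.2]
      exact hPne
    rw [Ne, Q.red_eq_zero_iff PO.2] at h1
    push Not at h1
    exact ⟨h1.1, le_antisymm h1.2 ((Q.reg_iff h1.1).1 PO.2)⟩
  have he : Q.Reg (6 * (PO : G) * R - 3 * (SO : G)) := by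
    apply reg_sq
    rw [hP, hS, hd, ← hP, ← hS, ← hT]
    have h1 : (9 : G) * (SO : G) ^ 2 - 12 * (TO : G) * (PO : G) =
        ((9 * SO ^ 2 - 12 * TO * PO : Q.O) : G) := by
      change _ = Q.O.subtype (9 * SO ^ 2 - 12 * TO * PO)
      simp only [map_sub, map_mul, map_pow, map_ofNat]
      rfl
    rw [h1]
    exact (9 * SO ^ 2 - 12 * TO * PO : Q.O).2
  have hchar : CharZero G := charZero_of_injective_algebraMap (algebraMap A G).injective
  have hR : Q.Reg R := by
    have h6 : algebraMap A G (1 / 6) * 6 = 1 := by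
      rw [← map_ofNat (algebraMap A G) 6, ← map_mul, ← map_one (algebraMap A G)]
      congr 1
      norm_num
    have h1 : R = algebraMap A G (1 / 6) * ((6 * (PO : G) * R - 3 * (SO : G)) + 3 * (SO : G)) *
        (PO : G)⁻¹ := by
      have h2 := mul_inv_cancel₀ hPO.1
      linear_combination -R * h6 * (PO : G) * (PO : G)⁻¹ - R * h2
    rw [h1]
    refine Q.reg_mul (Q.reg_mul (reg_A Q _) (Q.reg_add he ?_)) (Or.inr ?_)
    · have h3 : (3 : G) * (SO : G) = ((3 * SO : Q.O) : G) := by
        change _ = Q.O.subtype (3 * SO)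
        rw [map_mul, map_ofNat]
        rfl
      rw [h3]
      exact (3 * SO : Q.O).2
    · rw [Q.ord_inv, hPO.2, neg_zero]
  refine ⟨hregK, hR, fun i => ?_⟩
  have h1 : X i = algebraMap Λ G (Z i) + -(R * algebraMap K G (V i)) := by
    rw [hZ]
    ring
  rw [h1]
  exact Q.reg_add (Q.reg_const _) (Q.reg_neg (Q.reg_mul hR (hregK _)))

end

end

end Pool.Agent.T9h1
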