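import Pool.Agent.T9h1.C14

/-! # The kernels of the places of odd degree are principal -/

set_option autoImplicit false

namespace Pool.Agent.T9h1

open MvPolynomial IntermediateField Module FF

noncomputable section

theorem ct_map {T T' : Type} [CommRing T] [CommRing T'] {k : ℕ} (g : T →+* T')
    (x : Fin (k + 5) → T) (ρ ui : T) (i : Fin (k + 4)) :
    g (ct x ρ ui i) = ct (fun i => g (x i)) (g ρ) (g ui) i := by
  refine all4 (P := fun i => g (ct x ρ ui i) = ct (fun i => g (x i)) (g ρ) (g ui) i)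
    ?_ ?_ ?_ ?_ (fun j => ?_) i
  · rw [ct_0, ct_0, map_mul]
  · rw [ct_1, ct_1, map_mul, map_add]
  · rw [ct_2, ct_2, map_mul]
  · rw [ct_3, ct_3, map_add]
  · rw [ct_4, ct_4, map_mul]

theorem aeval_ct_map {K T T' : Type} [Field K] [CommRing T] [CommRing T'] [Algebra K T]
    [Algebra K T'] {k : ℕ} (g : T →ₐ[K] T')
    (x : Fin (k + 5) → T) (ρ ui : T) (s : MvPolynomial (Fin (k + 4)) K) :
    g (aeval (ct x ρ ui) s) = aeval (ct (fun i => g (x i)) (g ρ) (g ui)) s := by
  have h := comp_aeval_apply (f := ct x ρ ui) g s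
  rw [h]
  congr 2
  funext i
  exact ct_map g.toRingHom x ρ ui i

theorem cj_C {K : Type} [Field K] [CharZero K] {T : Type} [CommRing T] [Algebra K T] {k : ℕ}
    (x : Fin (k + 5) → T) (ρ ui : T)
    (hu : (x 0 + x (i1 k)) * ui = 1) (h3 : ∑ i, x i ^ 3 = 0) (s : MvPolynomial (Fin (k + 4)) K) :
    cj K x ρ ui hu h3 (algebraMap (SX K k) (QA (DD K k)) (Polynomial.C s)) =
      aeval (ct x ρ ui) s := by
  unfold cj
  rw [qaHom_apply, QuadraticAlgebra.algebraMap_re, QuadraticAlgebra.algebraMap_im, map_zero,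
    zero_mul, add_zero]
  exact Polynomial.eval₂_C _ _

section

variable {A Λ K : Type} [Field A] [IsAlgClosed A] [CharZero A] [Field Λ] [Field K]
  [Algebra A Λ] [Algebra A K] {k : ℕ} (Z : Fin (k + 5) → Λ) (hind : AlgebraicIndependent A Z)
  (htop : adjoin A (Set.range Z) = ⊤) (V : Fin (k + 5) → K)

include hind htop in
omit [IsAlgClosed A] [CharZero A] in
theorem pt_facts [IsFF A K] {κ : Type} [Field κ] [Algebra A κ] [Algebra Λ κ] [Algebra K κ]
    [IsScalarTower A Λ κ] [IsScalarTower A K κ] (hodd : Odd (finrank Λ κ)) (x : Fin (k + 5) → κ)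
    (ρ : κ) (hZ : ∀ i, algebraMap Λ κ (Z i) = x i + ρ * algebraMap K κ (V i)) :
    Algebra.IsAlgebraic (Algebra.adjoin K (Set.range x ∪ {ρ})) κ ∧
      Algebra.trdeg K κ = (k + 4 : ℕ) := by
  have hfin : FiniteDimensional Λ κ := FiniteDimensional.of_finrank_pos hodd.pos
  have halg : Algebra.IsAlgebraic Λ κ := Algebra.IsAlgebraic.of_finite Λ κ
  constructor
  · refine alg_change _ _ ?_ (alg_of_top Z htop (K := K) (κ := κ))
    rintro y ⟨i, rfl⟩
    have hmem : x i + ρ * algebraMap K κ (V i) ∈ Algebra.adjoin K (Set.range x ∪ {ρ}) :=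
      add_mem (Algebra.subset_adjoin (Or.inl ⟨i, rfl⟩))
        (mul_mem (Algebra.subset_adjoin (Or.inr rfl)) (Subalgebra.algebraMap_mem _ _))
    change IsAlgebraic _ (algebraMap Λ κ (Z i))
    rw [hZ]
    exact isAlgebraic_algebraMap (⟨_, hmem⟩ : Algebra.adjoin K (Set.range x ∪ {ρ}))
  · exact pt_tr (m := k + 4) Z hind htop IsFF.trdeg

variable {G : Type} [Field G] [Algebra A G] [Algebra Λ G] [Algebra K G] [IsScalarTower A Λ G]
  [IsScalarTower A K G] (X : Fin (k + 5) → G) (R : G) (hX3 : ∑ i, X i ^ 3 = 0)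
  (hZ : ∀ i, algebraMap Λ G (Z i) = X i + R * algebraMap K G (V i))
  (Q : Place Λ G) (hodd : Odd Q.deg) (hregK : ∀ c : K, Q.Reg (algebraMap K G c)) (hR : Q.Reg R)
  (hX : ∀ i, Q.Reg (X i))

/-- the field of the point in the valuation ring -/
def kOr (Q : Place Λ G) (hregK : ∀ c : K, Q.Reg (algebraMap K G c)) : K →+* Q.O where
  toFun c := ⟨algebraMap K G c, hregK c⟩
  map_one' := Subtype.ext (map_one _)
  map_zero' := Subtype.ext (map_zero _)
  map_add' _ _ := Subtype.ext (map_add _ _ _)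
  map_mul' _ _ := Subtype.ext (map_mul _ _ _)

include hind htop hZ hodd hregK hR hX in
omit [IsAlgClosed A] [CharZero A] in
/-- both pairs of coordinates cannot vanish -/
theorem pl_uu [IsFF A K] (hX3 : ∑ i, X i ^ 3 = 0) (h01 : Q.red (X 0 + X (i1 k)) = 0)
    (h23 : Q.red (X (i2 k) + X (i3 k)) = 0) : False := by
  let _ : Algebra K Q.RF := (Q.resHom.comp (kOr Q hregK)).toAlgebra
  let _ : Algebra A Q.RF := (Q.resHom.comp (aO A Q)).toAlgebra
  have htow : IsScalarTower A Λ Q.RF := by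
    refine IsScalarTower.of_algebraMap_eq fun x => ?_
    change Q.resHom (aO A Q x) = Q.red (algebraMap Λ G (algebraMap A Λ x))
    rw [← IsScalarTower.algebraMap_apply A Λ G, Q.red_of_reg (reg_A Q x)]
    rfl
  have htow2 : IsScalarTower A K Q.RF := by
    refine IsScalarTower.of_algebraMap_eq fun x => ?_
    change Q.resHom (aO A Q x) = Q.resHom (kOr Q hregK (algebraMap A K x))
    congr 1
    apply Subtype.ext
    change algebraMap A G x = algebraMap K G (algebraMap A K x)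
    rw [← IsScalarTower.algebraMap_apply A K G]
  have hZκ : ∀ i, algebraMap Λ Q.RF (Z i) = Q.red (X i) + Q.red R * algebraMap K Q.RF (V i) := by
    intro i
    change Q.red (algebraMap Λ G (Z i)) = _ + _ * Q.resHom (kOr Q hregK (V i))
    rw [hZ, Q.red_add (hX i) (Q.reg_mul hR (hregK _)), Q.red_mul hR (hregK _),
      Q.red_of_reg (hregK _)]
    rfl
  obtain ⟨h1, h2⟩ := pt_facts Z hind htop V hodd (fun i => Q.red (X i)) (Q.red R) hZκ
  refine pt_uu (K := K) (fun i => Q.red (X i)) (Q.red R) ?_ h1 h2 ?_ ?_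
  · let XO : Fin (k + 5) → Q.O := fun i => ⟨X i, hX i⟩
    have h3 : ∑ i, XO i ^ 3 = 0 := by
      apply Subtype.ext
      change Q.O.subtype (∑ i, XO i ^ 3) = 0
      rw [map_sum, ← hX3]
      exact Finset.sum_congr rfl fun i _ => map_pow _ _ _
    have h4 := congrArg Q.resHom h3
    rw [map_zero, map_sum] at h4
    rw [← h4]
    refine Finset.sum_congr rfl fun i _ => ?_
    rw [map_pow, Q.red_of_reg (hX i)]
  · rw [← Q.red_add (hX _) (hX _)]
    exact h01
  · rw [← Q.red_add (hX _) (hX _)]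
    exact h23

variable [CharZero K]

include hind htop hZ hodd hregK hR hX in
omit [IsAlgClosed A] [CharZero A] in
/-- **the kernels of the places of odd degree are principal** -/
theorem pl_chart [IsFF A K] (hω : ∃ ω : K, ω ^ 2 + ω + 1 = 0)
    (hU : Q.red (X 0 + X (i1 k)) ≠ 0)
    (hu : (X 0 + X (i1 k)) * (X 0 + X (i1 k))⁻¹ = 1) :
    (∀ b, Q.Reg (cj K X R (X 0 + X (i1 k))⁻¹ hu hX3 b)) ∧
    (∀ f, Irreducible f → Q.red (cj K X R (X 0 + X (i1 k))⁻¹ hu hX3
        (algebraMap (SX K k) (QA (DD K k)) (Polynomial.C f))) = 0 →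
      ∀ b, Q.red (cj K X R (X 0 + X (i1 k))⁻¹ hu hX3 b) = 0 ↔
        algebraMap (SX K k) (QA (DD K k)) (Polynomial.C f) ∣ b) ∧
    ((∀ s, s ≠ 0 → Q.red (cj K X R (X 0 + X (i1 k))⁻¹ hu hX3
        (algebraMap (SX K k) (QA (DD K k)) (Polynomial.C s))) ≠ 0) →
      ∀ (L : K0 K k →+* G) (hL : ∀ s, L (algebraMap (MvPolynomial (Fin (k + 4)) K) (K0 K k) s) =
        aeval (ct X R (X 0 + X (i1 k))⁻¹) s),
      ∃ g : QA (D0 K k), g ≠ 0 ∧
        (∀ b, Q.Reg (cj0 K X R (X 0 + X (i1 k))⁻¹ hu hX3 L hL b)) ∧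
        ∀ b, Q.red (cj0 K X R (X 0 + X (i1 k))⁻¹ hu hX3 L hL b) = 0 ↔ g ∣ b) := by
  let _ : Algebra K Q.O := (kOr Q hregK).toAlgebra
  let _ : Algebra K Q.RF := (Q.resHom.comp (kOr Q hregK)).toAlgebra
  let _ : Algebra A Q.RF := (Q.resHom.comp (aO A Q)).toAlgebra
  have htow : IsScalarTower A Λ Q.RF := by
    refine IsScalarTower.of_algebraMap_eq fun x => ?_
    change Q.resHom (aO A Q x) = Q.red (algebraMap Λ G (algebraMap A Λ x))
    rw [← IsScalarTower.algebraMap_apply A Λ G, Q.red_of_reg (reg_A Q x)]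
    rfl
  have htow2 : IsScalarTower A K Q.RF := by
    refine IsScalarTower.of_algebraMap_eq fun x => ?_
    change Q.resHom (aO A Q x) = Q.resHom (kOr Q hregK (algebraMap A K x))
    congr 1
    apply Subtype.ext
    change algebraMap A G x = algebraMap K G (algebraMap A K x)
    rw [← IsScalarTower.algebraMap_apply A K G]
  have hZκ : ∀ i, algebraMap Λ Q.RF (Z i) = Q.red (X i) + Q.red R * algebraMap K Q.RF (V i) := by
    intro i
    change Q.red (algebraMap Λ G (Z i)) = _ + _ * Q.resHom (kOr Q hregK (V i))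
    rw [hZ, Q.red_add (hX i) (Q.reg_mul hR (hregK _)), Q.red_mul hR (hregK _),
      Q.red_of_reg (hregK _)]
    rfl
  obtain ⟨k1, k2⟩ := pt_facts Z hind htop V hodd (fun i => Q.red (X i)) (Q.red R) hZκ
  let XO : Fin (k + 5) → Q.O := fun i => ⟨X i, hX i⟩
  let RO : Q.O := ⟨R, hR⟩
  have hU1 : X 0 + X (i1 k) ≠ 0 := left_ne_zero_of_mul_eq_one hu
  have hU0 : Q.ord (X 0 + X (i1 k)) = 0 := by
    rw [Ne, Q.red_eq_zero_iff (Q.reg_add (hX _) (hX _))] at hU
    push Not at hU
    exact le_antisymm hU.2 ((Q.reg_iff hU1).1 (Q.reg_add (hX _) (hX _)))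
  let uO : Q.O := ⟨(X 0 + X (i1 k))⁻¹, Or.inr (by rw [Q.ord_inv, hU0, neg_zero])⟩
  have huO : (XO 0 + XO (i1 k)) * uO = 1 := Subtype.ext hu
  have h3O : ∑ i, XO i ^ 3 = 0 := by
    apply Subtype.ext
    change Q.O.subtype (∑ i, XO i ^ 3) = 0
    rw [map_sum, ← hX3]
    exact Finset.sum_congr rfl fun i _ => map_pow _ _ _
  let gs : Q.O →ₐ[K] G := { Q.O.subtype with commutes' := fun _ => rfl }
  let gr : Q.O →ₐ[K] Q.RF := { Q.resHom with commutes' := fun _ => rfl }
  have hxr : (fun i => gr (XO i)) = fun i => Q.red (X i) := by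
    funext i
    exact (Q.red_of_reg (hX i)).symm
  have hRr : gr RO = Q.red R := (Q.red_of_reg hR).symm
  have hu' : (gr (XO 0) + gr (XO (i1 k))) * gr uO = 1 := by
    rw [← map_add, ← map_mul, huO, map_one]
  have h3' : ∑ i, gr (XO i) ^ 3 = 0 := by
    have h4 := congrArg gr h3O
    rw [map_zero, map_sum] at h4
    rw [← h4]
    exact Finset.sum_congr rfl fun i _ => (map_pow _ _ _).symm
  have hjO : ∀ b, ((cj K XO RO uO huO h3O b : Q.O) : G) =
      cj K X R (X 0 + X (i1 k))⁻¹ hu hX3 b := fun b =>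
    cj_map K gs XO RO uO huO h3O hu hX3 b
  have hreg : ∀ b, Q.Reg (cj K X R (X 0 + X (i1 k))⁻¹ hu hX3 b) := by
    intro b
    rw [← hjO]
    exact (cj K XO RO uO huO h3O b).2
  have hred : ∀ b, Q.red (cj K X R (X 0 + X (i1 k))⁻¹ hu hX3 b) =
      cj K (fun i => gr (XO i)) (gr RO) (gr uO) hu' h3' b := by
    intro b
    rw [← cj_map K gr XO RO uO huO h3O hu' h3' b, Q.red_of_reg (hreg b)]
    change Q.resHom _ = Q.resHom _
    congr 1
    exact Subtype.ext (hjO b).symm
  have k1' : Algebra.IsAlgebraic (Algebra.adjoin K (Set.range (fun i => gr (XO i)) ∪ {gr RO}))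
      Q.RF := by
    rw [hxr, hRr]
    exact k1
  refine ⟨hreg, ?_, ?_⟩
  · intro f hf hf0 b
    rw [hred] at hf0 ⊢
    rw [cj_C] at hf0
    exact PK1 hω _ _ _ hu' h3' k1' k2 f hf hf0 b
  · intro hs L hL
    have hunit : ∀ s : nonZeroDivisors (MvPolynomial (Fin (k + 4)) K),
        IsUnit ((aeval (ct XO RO uO) : MvPolynomial (Fin (k + 4)) K →ₐ[K] Q.O).toRingHom
          (s : MvPolynomial (Fin (k + 4)) K)) := by
      intro s
      have h1 := hs s (nonZeroDivisors.ne_zero s.2)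
      rw [hred, cj_C, ← aeval_ct_map gr XO RO uO] at h1
      exact IsLocalRing.residue_ne_zero_iff_isUnit _ |>.1 h1
    let LO : K0 K k →+* Q.O := IsLocalization.lift (M := nonZeroDivisors
      (MvPolynomial (Fin (k + 4)) K)) (S := K0 K k) hunit
    have hLO : ∀ s, LO (algebraMap (MvPolynomial (Fin (k + 4)) K) (K0 K k) s) =
        aeval (ct XO RO uO) s := fun s => IsLocalization.lift_eq hunit s
    have hLG : ∀ c, L c = gs (LO c) := by
      intro c
      have h1 : L = (gs : Q.O →+* G).comp LO := by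
        apply IsLocalization.ringHom_ext (nonZeroDivisors (MvPolynomial (Fin (k + 4)) K))
        apply RingHom.ext
        intro s
        rw [RingHom.comp_apply, RingHom.comp_apply, RingHom.comp_apply, hL, hLO]
        exact (aeval_ct_map gs XO RO uO s).symm
      rw [h1]
      rfl
    have hLκ : ∀ s, ((gr : Q.O →+* Q.RF).comp LO)
        (algebraMap (MvPolynomial (Fin (k + 4)) K) (K0 K k) s) =
        aeval (ct (fun i => gr (XO i)) (gr RO) (gr uO)) s := by
      intro s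
      rw [RingHom.comp_apply, hLO]
      exact aeval_ct_map gr XO RO uO s
    obtain ⟨g, hg0, hg⟩ := PK2 (K := K) (fun i => gr (XO i)) (gr RO) (gr uO) hu' h3' k2
      ((gr : Q.O →+* Q.RF).comp LO) hLκ
    have hj0 : ∀ b, ((cj0 K XO RO uO huO h3O LO hLO b : Q.O) : G) =
        cj0 K X R (X 0 + X (i1 k))⁻¹ hu hX3 L hL b := fun b =>
      cj0_map K gs XO RO uO huO h3O LO hLO hu hX3 L hLG hL b
    have hreg0 : ∀ b, Q.Reg (cj0 K X R (X 0 + X (i1 k))⁻¹ hu hX3 L hL b) := by
      intro b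
      rw [← hj0]
      exact (cj0 K XO RO uO huO h3O LO hLO b).2
    refine ⟨g, hg0, hreg0, fun b => ?_⟩
    rw [← hg, ← cj0_map K gr XO RO uO huO h3O LO hLO hu' h3' _ (fun c => rfl) hLκ b,
      Q.red_of_reg (hreg0 b)]
    have h5 : (⟨cj0 K X R (X 0 + X (i1 k))⁻¹ hu hX3 L hL b, hreg0 b⟩ : Q.O) =
        cj0 K XO RO uO huO h3O LO hLO b := Subtype.ext (hj0 b).symm
    rw [h5]
    rfl

end

end

end Pool.Agent.T9h1
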