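import Pool.Agent.T9h1.C15

/-! # There are no places of odd degree -/

set_option autoImplicit false

namespace Pool.Agent.T9h1

open MvPolynomial IntermediateField Module FF

noncomputable section

theorem exists_irred {S κ : Type} [CommRing S] [IsDomain S] [WfDvdMonoid S] [Field κ] (φ : S →+* κ)
    (s : S) (hs : s ≠ 0) (h : φ s = 0) : ∃ f, Irreducible f ∧ φ f = 0 := by
  induction s using WfDvdMonoid.induction_on_irreducible with
  | zero => exact absurd rfl hs
  | unit u hu =>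
    have h1 := hu.map φ
    rw [h] at h1
    exact absurd h1 not_isUnit_zero
  | mul a i ha hi ih =>
    rw [map_mul] at h
    rcases mul_eq_zero.1 h with h1 | h1
    · exact ⟨i, hi, h1⟩
    · exact ih ha h1

theorem X1_irr {K : Type} [Field K] {k : ℕ} : Irreducible (X 1 : MvPolynomial (Fin (k + 4)) K) := by
  have hp : Prime (X 1 : MvPolynomial (Fin (k + 4)) K) := by
    refine ⟨X_ne_zero _, ?_, ?_⟩
    · intro hu
      have := (isUnit_iff_totalDegree_of_isReduced.1 hu).2
      rw [totalDegree_X] at this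
      omega
    · intro x y hxy
      rw [dvd_iff_kill, map_mul] at hxy
      rw [dvd_iff_kill, dvd_iff_kill]
      exact mul_eq_zero.1 hxy
  exact hp.irreducible

/-- the exchange of the two pairs of coordinates -/
def tau (k : ℕ) : Equiv.Perm (Fin (k + 5)) := (Equiv.swap 0 (i2 k)).trans (Equiv.swap (i1 k) (i3 k))

theorem n10 (k : ℕ) : i1 k ≠ 0 := Fin.succ_ne_zero _
theorem n20 (k : ℕ) : i2 k ≠ 0 := Fin.succ_ne_zero _
theorem n30 (k : ℕ) : i3 k ≠ 0 := Fin.succ_ne_zero _
theorem n21 (k : ℕ) : i2 k ≠ i1 k := fun h => Fin.succ_ne_zero _ (Fin.succ_injective _ h)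
theorem n31 (k : ℕ) : i3 k ≠ i1 k := fun h => Fin.succ_ne_zero _ (Fin.succ_injective _ h)
theorem n32 (k : ℕ) : i3 k ≠ i2 k := fun h =>
  Fin.succ_ne_zero _ (Fin.succ_injective _ (Fin.succ_injective _ h))

theorem tau_0 (k : ℕ) : tau k 0 = i2 k := by
  change Equiv.swap (i1 k) (i3 k) (Equiv.swap 0 (i2 k) 0) = _
  rw [Equiv.swap_apply_left, Equiv.swap_apply_of_ne_of_ne (n21 k) (n32 k).symm]

theorem tau_1 (k : ℕ) : tau k (i1 k) = i3 k := by
  change Equiv.swap (i1 k) (i3 k) (Equiv.swap 0 (i2 k) (i1 k)) = _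
  rw [Equiv.swap_apply_of_ne_of_ne (n10 k) (n21 k).symm, Equiv.swap_apply_left]

theorem tau_2 (k : ℕ) : tau k (i2 k) = 0 := by
  change Equiv.swap (i1 k) (i3 k) (Equiv.swap 0 (i2 k) (i2 k)) = _
  rw [Equiv.swap_apply_right, Equiv.swap_apply_of_ne_of_ne (n10 k).symm (n30 k).symm]

theorem tau_3 (k : ℕ) : tau k (i3 k) = i1 k := by
  change Equiv.swap (i1 k) (i3 k) (Equiv.swap 0 (i2 k) (i3 k)) = _
  rw [Equiv.swap_apply_of_ne_of_ne (n30 k) (n32 k), Equiv.swap_apply_right]

section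

variable {A Λ K G : Type} [Field A] [IsAlgClosed A] [CharZero A] [Field Λ] [Field K] [Field G]
  [Algebra A Λ]
  [Algebra A K] [Algebra A G] [Algebra Λ G] [Algebra K G] [IsScalarTower A Λ G]
  [IsScalarTower A K G] {k : ℕ} (Z : Fin (k + 5) → Λ) (hind : AlgebraicIndependent A Z)
  (htop : adjoin A (Set.range Z) = ⊤) (V : Fin (k + 5) → K) (hV : V ≠ 0) (hV3 : ∑ i, V i ^ 3 = 0)
  (X : Fin (k + 5) → G) (R : G) (hX3 : ∑ i, X i ^ 3 = 0)
  (hZ : ∀ i, algebraMap Λ G (Z i) = X i + R * algebraMap K G (V i))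
  (htopG : adjoin K (Set.range X ∪ {R}) = ⊤) (htrG : Algebra.trdeg K G = (k + 5 : ℕ))

include hind htop hV hV3 hX3 hZ htopG htrG in
/-- the first pair of coordinates does not vanish at a place of odd degree -/
theorem step1 [CharZero K] [IsFF A K] [IsFF Λ G] (hω : ∃ ω : K, ω ^ 2 + ω + 1 = 0)
    (Q : Place Λ G) (hodd : Odd Q.deg) : Q.red (X 0 + X (i1 k)) ≠ 0 := by
  intro h01
  have hcharΛ : CharZero Λ := charZero_of_injective_algebraMap (algebraMap A Λ).injective
  have hall := fun (Q : Place Λ G) (hodd : Odd Q.deg) =>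
    reg_all Z hind htop V hV hV3 X R hX3 hZ Q hodd
  have huu := fun (Q : Place Λ G) (hodd : Odd Q.deg) =>
    pl_uu Z hind htop V X R hZ Q hodd (hall Q hodd).1 (hall Q hodd).2.1 (hall Q hodd).2.2 hX3
  have h23 : Q.red (X (i2 k) + X (i3 k)) ≠ 0 := fun h => huu Q hodd h01 h
  have h23' : X (i2 k) + X (i3 k) ≠ 0 := by
    intro h
    rw [h, Q.red_zero] at h23
    exact h23 rfl
  -- the second chart
  let Z' : Fin (k + 5) → Λ := fun i => Z (tau k i)
  let V' : Fin (k + 5) → K := fun i => V (tau k i)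
  let X' : Fin (k + 5) → G := fun i => X (tau k i)
  have e0 : X' 0 + X' (i1 k) = X (i2 k) + X (i3 k) := by
    change X (tau k 0) + X (tau k (i1 k)) = _
    rw [tau_0, tau_1]
  have e2 : X' (i2 k) + X' (i3 k) = X 0 + X (i1 k) := by
    change X (tau k (i2 k)) + X (tau k (i3 k)) = _
    rw [tau_2, tau_3]
  have hrZ : Set.range Z' = Set.range Z := (tau k).surjective.range_comp Z
  have hrX : Set.range X' = Set.range X := (tau k).surjective.range_comp X
  have hind' : AlgebraicIndependent A Z' := hind.comp (tau k) (tau k).injective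
  have htop' : adjoin A (Set.range Z') = ⊤ := by rw [hrZ, htop]
  have hX3' : ∑ i, X' i ^ 3 = 0 := by
    rw [← hX3]
    exact Equiv.sum_comp (tau k) (fun i => X i ^ 3)
  have hZ' : ∀ i, algebraMap Λ G (Z' i) = X' i + R * algebraMap K G (V' i) := fun i =>
    hZ (tau k i)
  have htopG' : adjoin K (Set.range X' ∪ {R}) = ⊤ := by rw [hrX, htopG]
  have hu' : (X' 0 + X' (i1 k)) * (X' 0 + X' (i1 k))⁻¹ = 1 := by
    rw [e0]
    exact mul_inv_cancel₀ h23'
  have hinj := gen_inj (K := K) X' R _ hu' hX3' (alg_topS _ htopG') htrG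
  have hfrac : ∀ x : G, ∃ a b : QA (DD K k), b ≠ 0 ∧
      x = cj K X' R _ hu' hX3' a / cj K X' R _ hu' hX3' b := by
    intro x
    obtain ⟨a, b, hb, h⟩ := gen_frac (K := K) X' R _ hu' hX3' htopG' x
    refine ⟨a, b, ?_, h⟩
    rintro rfl
    exact hb (map_zero _)
  have hchart := fun (Q : Place Λ G) (hodd : Odd Q.deg) (h : Q.red (X (i2 k) + X (i3 k)) ≠ 0) =>
    pl_chart Z' hind' htop' V' X' R hX3' hZ' Q hodd (hall Q hodd).1 (hall Q hodd).2.1
      (fun i => (hall Q hodd).2.2 (tau k i)) hω (by rw [e0]; exact h) hu'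
  have hval : cj K X' R (X' 0 + X' (i1 k))⁻¹ hu' hX3'
      (algebraMap (SX K k) (QA (DD K k)) (Polynomial.C (MvPolynomial.X 1))) =
      (X 0 + X (i1 k)) * (X' 0 + X' (i1 k))⁻¹ := by
    rw [cj_C, aeval_X, ct_1, e2]
  have hordu : ∀ Q : Place Λ G, (∀ i, Q.Reg (X i)) → Q.red (X (i2 k) + X (i3 k)) ≠ 0 →
      Q.ord (X (i2 k) + X (i3 k)) = 0 := by
    intro Q hX h
    rw [Ne, Q.red_eq_zero_iff (Q.reg_add (hX _) (hX _))] at h
    push Not at h
    exact le_antisymm h.2 ((Q.reg_iff h23').1 (Q.reg_add (hX _) (hX _)))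
  have hred0 : ∀ Q : Place Λ G, Odd Q.deg → Q.red (X 0 + X (i1 k)) = 0 →
      Q.red (cj K X' R (X' 0 + X' (i1 k))⁻¹ hu' hX3'
      (algebraMap (SX K k) (QA (DD K k)) (Polynomial.C (MvPolynomial.X 1)))) = 0 := by
    intro Q hodd h
    have h2 : Q.red (X (i2 k) + X (i3 k)) ≠ 0 := fun h' => huu Q hodd h h'
    have hX := (hall Q hodd).2.2
    rw [hval, Q.red_mul (Q.reg_add (hX _) (hX _)) (Or.inr (by
      rw [Q.ord_inv, e0, hordu Q hX h2, neg_zero])), h, zero_mul]
  have hker := (hchart Q hodd h23).2.1 (MvPolynomial.X 1) X1_irr (hred0 Q hodd h01)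
  have hπ0 : algebraMap (SX K k) (QA (DD K k)) (Polynomial.C (MvPolynomial.X 1)) ≠ 0 := by
    rw [Ne, map_eq_zero_iff _ QuadraticAlgebra.algebraMap_injective, Polynomial.C_eq_zero]
    exact X_ne_zero _
  have hreg := (hchart Q hodd h23).1
  let φ : QA (DD K k) →+* Q.RF :=
    { toFun := fun b => Q.red (cj K X' R (X' 0 + X' (i1 k))⁻¹ hu' hX3' b)
      map_one' := by rw [map_one, Q.red_one]
      map_zero' := by rw [map_zero, Q.red_zero]
      map_add' := fun a b => by rw [map_add, Q.red_add (hreg a) (hreg b)]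
      map_mul' := fun a b => by rw [map_mul, Q.red_mul (hreg a) (hreg b)] }
  have hπ : Prime (algebraMap (SX K k) (QA (DD K k)) (Polynomial.C (MvPolynomial.X 1))) :=
    prime_of_ker φ _ hker hπ0
  have hord1 := gl_ord_one _ hinj hfrac _ hπ Q hreg hker
  have h01' : X 0 + X (i1 k) ≠ 0 := by
    intro h
    rw [hval, h, zero_mul, Q.ord_zero] at hord1
    exact absurd hord1 (by norm_num)
  refine parity Q hodd (X 0 + X (i1 k)) ?_ ?_
  · rw [hval, Q.ord_mul h01' (inv_ne_zero (by rw [e0]; exact h23')), Q.ord_inv, e0,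
      hordu Q (hall Q hodd).2.2 h23, neg_zero, add_zero] at hord1
    rw [hord1]
    exact odd_one
  · intro Q' hodd' hne
    by_cases h : Q'.red (X 0 + X (i1 k)) = 0
    · exfalso
      apply hne
      have h2 : Q'.red (X (i2 k) + X (i3 k)) ≠ 0 := fun h' => huu Q' hodd' h h'
      exact gl_eq _ hinj hfrac _ hπ Q' Q (hchart Q' hodd' h2).1
        ((hchart Q' hodd' h2).2.1 (MvPolynomial.X 1) X1_irr (hred0 Q' hodd' h)) hreg hker
    · have hX := (hall Q' hodd').2.2
      rw [Q'.red_eq_zero_iff (Q'.reg_add (hX _) (hX _))] at h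
      push Not at h
      have h3 := (Q'.reg_iff h01').1 (Q'.reg_add (hX _) (hX _))
      have h4 : Q'.ord (X 0 + X (i1 k)) = 0 := le_antisymm h.2 h3
      rw [h4]
      exact Even.zero

include hind htop hV hV3 hX3 hZ htopG htrG in
/-- **there are no places of odd degree** -/
theorem no_odd [CharZero K] [IsFF A K] [IsFF Λ G] (hω : ∃ ω : K, ω ^ 2 + ω + 1 = 0)
    (h01 : X 0 + X (i1 k) ≠ 0) (Q : Place Λ G) (hodd : Odd Q.deg) : False := by
  have hcharΛ : CharZero Λ := charZero_of_injective_algebraMap (algebraMap A Λ).injective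
  have hall := fun (Q : Place Λ G) (hodd : Odd Q.deg) =>
    reg_all Z hind htop V hV hV3 X R hX3 hZ Q hodd
  have hU := fun (Q : Place Λ G) (hodd : Odd Q.deg) =>
    step1 Z hind htop V hV hV3 X R hX3 hZ htopG htrG hω Q hodd
  have hu : (X 0 + X (i1 k)) * (X 0 + X (i1 k))⁻¹ = 1 := mul_inv_cancel₀ h01
  have hinj := gen_inj (K := K) X R _ hu hX3 (alg_topS _ htopG) htrG
  have hfrac : ∀ x : G, ∃ a b : QA (DD K k), b ≠ 0 ∧
      x = cj K X R _ hu hX3 a / cj K X R _ hu hX3 b := by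
    intro x
    obtain ⟨a, b, hb, h⟩ := gen_frac (K := K) X R _ hu hX3 htopG x
    refine ⟨a, b, ?_, h⟩
    rintro rfl
    exact hb (map_zero _)
  have hchart := fun (Q : Place Λ G) (hodd : Odd Q.deg) =>
    pl_chart Z hind htop V X R hX3 hZ Q hodd (hall Q hodd).1 (hall Q hodd).2.1
      (hall Q hodd).2.2 hω (hU Q hodd) hu
  -- no vertical places of odd degree
  have step2 : ∀ Q : Place Λ G, Odd Q.deg → ∀ s, s ≠ 0 →
      Q.red (cj K X R (X 0 + X (i1 k))⁻¹ hu hX3
        (algebraMap (SX K k) (QA (DD K k)) (Polynomial.C s))) ≠ 0 := by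
    intro Q hodd s hs h0
    have hreg := (hchart Q hodd).1
    let φ : QA (DD K k) →+* Q.RF :=
      { toFun := fun b => Q.red (cj K X R (X 0 + X (i1 k))⁻¹ hu hX3 b)
        map_one' := by rw [map_one, Q.red_one]
        map_zero' := by rw [map_zero, Q.red_zero]
        map_add' := fun a b => by rw [map_add, Q.red_add (hreg a) (hreg b)]
        map_mul' := fun a b => by rw [map_mul, Q.red_mul (hreg a) (hreg b)] }
    obtain ⟨f, hf, hf0⟩ := exists_irred (φ.comp ((algebraMap (SX K k) (QA (DD K k))).comp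
      Polynomial.C)) s hs h0
    have hf0' : Q.red (cj K X R (X 0 + X (i1 k))⁻¹ hu hX3
        (algebraMap (SX K k) (QA (DD K k)) (Polynomial.C f))) = 0 := hf0
    have hker := (hchart Q hodd).2.1 f hf hf0'
    have hπ0 : algebraMap (SX K k) (QA (DD K k)) (Polynomial.C f) ≠ 0 := by
      rw [Ne, map_eq_zero_iff _ QuadraticAlgebra.algebraMap_injective, Polynomial.C_eq_zero]
      exact hf.ne_zero
    have hπ : Prime (algebraMap (SX K k) (QA (DD K k)) (Polynomial.C f)) :=
      prime_of_ker φ _ hker hπ0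
    have hord1 := gl_ord_one _ hinj hfrac _ hπ Q hreg hker
    refine parity Q hodd _ (by rw [hord1]; exact odd_one) ?_
    intro Q' hodd' hne
    by_cases h : Q'.red (cj K X R (X 0 + X (i1 k))⁻¹ hu hX3
        (algebraMap (SX K k) (QA (DD K k)) (Polynomial.C f))) = 0
    · exfalso
      apply hne
      exact gl_eq _ hinj hfrac _ hπ Q' Q (hchart Q' hodd').1
        ((hchart Q' hodd').2.1 f hf h) hreg hker
    · have hr' := (hchart Q' hodd').1 (algebraMap (SX K k) (QA (DD K k)) (Polynomial.C f))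
      rw [Q'.red_eq_zero_iff hr'] at h
      push Not at h
      have h3 := (Q'.reg_iff h.1).1 hr'
      rw [le_antisymm h.2 h3]
      exact Even.zero
  -- the generic fibre
  have hLinj : Function.Injective (aeval (ct X R (X 0 + X (i1 k))⁻¹) :
      MvPolynomial (Fin (k + 4)) K →ₐ[K] G).toRingHom := by
    rw [injective_iff_map_eq_zero]
    intro s hs
    have h1 : cj K X R (X 0 + X (i1 k))⁻¹ hu hX3
        (algebraMap (SX K k) (QA (DD K k)) (Polynomial.C s)) = 0 := by
      rw [cj_C]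
      exact hs
    have h2 := hinj (h1.trans (map_zero _).symm)
    rw [map_eq_zero_iff _ QuadraticAlgebra.algebraMap_injective, Polynomial.C_eq_zero] at h2
    exact h2
  let L : K0 K k →+* G := IsFractionRing.lift hLinj
  have hL : ∀ s, L (algebraMap (MvPolynomial (Fin (k + 4)) K) (K0 K k) s) =
      aeval (ct X R (X 0 + X (i1 k))⁻¹) s := fun s => IsFractionRing.lift_algebraMap hLinj s
  have hinj0 := cj0_inj (K := K) X R _ hu hX3 L hL hinj
  have hfrac0 : ∀ x : G, ∃ a b : QA (D0 K k), b ≠ 0 ∧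
      x = cj0 K X R _ hu hX3 L hL a / cj0 K X R _ hu hX3 L hL b := by
    intro x
    obtain ⟨a, b, hb, h⟩ := hfrac x
    refine ⟨bt K k a, bt K k b, ?_, ?_⟩
    · intro h0
      apply hb
      apply hinj
      rw [← cj0_bt K X R _ hu hX3 L hL b, h0, map_zero, map_zero]
    · rw [cj0_bt, cj0_bt]
      exact h
  obtain ⟨g, hg0, hreg, hker⟩ := (hchart Q hodd).2.2 (step2 Q hodd) L hL
  let φ : QA (D0 K k) →+* Q.RF :=
    { toFun := fun b => Q.red (cj0 K X R (X 0 + X (i1 k))⁻¹ hu hX3 L hL b)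
      map_one' := by rw [map_one, Q.red_one]
      map_zero' := by rw [map_zero, Q.red_zero]
      map_add' := fun a b => by rw [map_add, Q.red_add (hreg a) (hreg b)]
      map_mul' := fun a b => by rw [map_mul, Q.red_mul (hreg a) (hreg b)] }
  have hπ : Prime g := prime_of_ker φ _ hker hg0
  have hord1 := gl_ord_one _ hinj0 hfrac0 _ hπ Q hreg hker
  refine parity Q hodd _ (by rw [hord1]; exact odd_one) ?_
  intro Q' hodd' hne
  obtain ⟨g', hg0', hreg', hker'⟩ := (hchart Q' hodd').2.2 (step2 Q' hodd') L hL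
  by_cases h : Q'.red (cj0 K X R (X 0 + X (i1 k))⁻¹ hu hX3 L hL g) = 0
  · exfalso
    apply hne
    exact (gl_eq_of_zero _ hinj0 hfrac0 g g' Q Q' hreg hker hg0 hreg' hker' h).symm
  · rw [Q'.red_eq_zero_iff (hreg' g)] at h
    push Not at h
    have h3 := (Q'.reg_iff h.1).1 (hreg' g)
    rw [le_antisymm h.2 h3]
    exact Even.zero

end

end

end Pool.Agent.T9h1
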