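import Pool.Agent.T9h1.C16

/-! # There are no points of odd degree of transcendence degree one -/

set_option autoImplicit false

namespace Pool.Agent.T9h1

open MvPolynomial IntermediateField Module FF

noncomputable section

theorem exists_omega {A : Type} [Field A] [IsAlgClosed A] [CharZero A] :
    ∃ ω : A, ω ^ 2 + ω + 1 = 0 := by
  obtain ⟨r, hr⟩ := IsAlgClosed.exists_pow_nat_eq (-3 : A) (n := 2) (by norm_num)
  exact ⟨(-1 + r) / 2, by linear_combination (1 / 4 : A) * hr⟩

/-- the constants as fractions in the chart ring -/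
theorem frac_const {A Λ K E G : Type} [Field A] [Field Λ] [Field K] [CharZero K] [Field E] [Field G]
    [Algebra A Λ] [Algebra A K] [Algebra A E] [Algebra A G] [Algebra Λ E] [Algebra Λ G]
    [Algebra K E] [Algebra K G] [IsScalarTower A Λ E] [IsScalarTower A Λ G] [IsScalarTower A K E]
    [IsScalarTower A K G] {k : ℕ} (Z : Fin (k + 5) → Λ) (htop : adjoin A (Set.range Z) = ⊤)
    (V : Fin (k + 5) → K)
    (x : Fin (k + 5) → E) (ρ : E) (hZE : ∀ i, algebraMap Λ E (Z i) = x i + ρ * algebraMap K E (V i))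
    (X : Fin (k + 5) → G) (R : G) (hZG : ∀ i, algebraMap Λ G (Z i) = X i + R * algebraMap K G (V i))
    (hu : (x 0 + x (i1 k)) * (x 0 + x (i1 k))⁻¹ = 1) (h3 : ∑ i, x i ^ 3 = 0)
    (hU : (X 0 + X (i1 k)) * (X 0 + X (i1 k))⁻¹ = 1) (hX3 : ∑ i, X i ^ 3 = 0)
    (hinj : Function.Injective (cj K X R _ hU hX3)) (c : Λ) :
    ∃ a b : QA (DD K k), cj K x ρ _ hu h3 b ≠ 0 ∧
      algebraMap Λ G c = cj K X R _ hU hX3 a / cj K X R _ hU hX3 b ∧
      algebraMap Λ E c = cj K x ρ _ hu h3 a / cj K x ρ _ hu h3 b := by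
  have hc : c ∈ adjoin A (Set.range Z) := by rw [htop]; trivial
  have h1 : cj K x ρ _ hu h3 1 ≠ 0 := by rw [map_one]; exact one_ne_zero
  have hjb : ∀ b, cj K x ρ _ hu h3 b ≠ 0 → cj K X R _ hU hX3 b ≠ 0 := by
    intro b hb h
    have h2 := hinj (h.trans (map_zero _).symm)
    rw [h2, map_zero] at hb
    exact hb rfl
  induction hc using IntermediateField.adjoin_induction with
  | mem y hy =>
    obtain ⟨i, rfl⟩ := hy
    refine ⟨xx K k i + rr K k * algebraMap (SX K k) (QA (DD K k)) (Polynomial.C (C (V i))), 1, h1,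
      ?_, ?_⟩
    · rw [map_one, div_one, map_add, map_mul, cj_xx, cj_rr, cj_const, hZG]
    · rw [map_one, div_one, map_add, map_mul, cj_xx, cj_rr, cj_const, hZE]
  | algebraMap a =>
    refine ⟨algebraMap (SX K k) (QA (DD K k)) (Polynomial.C (C (algebraMap A K a))), 1, h1, ?_, ?_⟩
    · rw [map_one, div_one, cj_const, ← IsScalarTower.algebraMap_apply,
        ← IsScalarTower.algebraMap_apply]
    · rw [map_one, div_one, cj_const, ← IsScalarTower.algebraMap_apply,
        ← IsScalarTower.algebraMap_apply]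
  | add y y' _ _ hy hy' =>
    obtain ⟨a, b, hb, e, f⟩ := hy
    obtain ⟨a', b', hb', e', f'⟩ := hy'
    have g1 := hjb b hb
    have g2 := hjb b' hb'
    refine ⟨a * b' + a' * b, b * b', by rw [map_mul]; exact mul_ne_zero hb hb', ?_, ?_⟩
    · rw [map_add, e, e', map_add, map_mul, map_mul, map_mul, div_add_div _ _ g1 g2]
      congr 1
      ring
    · rw [map_add, f, f', map_add, map_mul, map_mul, map_mul, div_add_div _ _ hb hb']
      congr 1
      ring
  | mul y y' _ _ hy hy' =>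
    obtain ⟨a, b, hb, e, f⟩ := hy
    obtain ⟨a', b', hb', e', f'⟩ := hy'
    refine ⟨a * a', b * b', by rw [map_mul]; exact mul_ne_zero hb hb', ?_, ?_⟩
    · rw [map_mul, e, e', map_mul, map_mul, div_mul_div_comm]
    · rw [map_mul, f, f', map_mul, map_mul, div_mul_div_comm]
  | inv y _ hy =>
    obtain ⟨a, b, hb, e, f⟩ := hy
    by_cases ha : cj K x ρ _ hu h3 a = 0
    · have hy0 : y = 0 := by
        rw [ha, zero_div, map_eq_zero] at f
        exact f
      refine ⟨0, 1, h1, ?_, ?_⟩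
      · rw [hy0, inv_zero, map_zero, map_zero, zero_div]
      · rw [hy0, inv_zero, map_zero, map_zero, zero_div]
    · refine ⟨b, a, ha, ?_, ?_⟩
      · rw [map_inv₀, e, inv_div]
      · rw [map_inv₀, f, inv_div]

/-- **no points of odd degree: the case of a point with `x_0 + x_1 ≠ 0`** -/
theorem main_pt {A Λ K E : Type} [Field A] [IsAlgClosed A] [CharZero A] [Field Λ] [Field K]
    [Field E] [Algebra A Λ] [Algebra A K] [Algebra A E] [Algebra Λ E] [Algebra K E]
    [IsScalarTower A Λ E] [IsScalarTower A K E] {k : ℕ} (Z : Fin (k + 5) → Λ)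
    (hind : AlgebraicIndependent A Z)
    (htop : adjoin A (Set.range Z) = ⊤) [IsFF A K] (V : Fin (k + 5) → K) (hV : V ≠ 0)
    (hV3 : ∑ i, V i ^ 3 = 0) (hodd : Odd (finrank Λ E))
    (x : Fin (k + 5) → E) (ρ : E) (hZ : ∀ i, algebraMap Λ E (Z i) = x i + ρ * algebraMap K E (V i))
    (h3 : ∑ i, x i ^ 3 = 0) (hx : x 0 + x (i1 k) ≠ 0) : False := by
  have hcharK : CharZero K := charZero_of_injective_algebraMap (algebraMap A K).injective
  have hess : Algebra.EssFiniteType A K := IsFF.ess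
  have hω : ∃ ω : K, ω ^ 2 + ω + 1 = 0 := by
    obtain ⟨ω, h⟩ := exists_omega (A := A)
    exact ⟨algebraMap A K ω, by rw [← map_pow, ← map_add, ← map_one (algebraMap A K), ← map_add, h,
      map_zero]⟩
  obtain ⟨G, _, _, _, _, _, _, hFF, X, R, hX, hX3, htopG, htrG, hZG⟩ :=
    exists_G Z hind htop IsFF.trdeg V x ρ hZ h3 hx
  have hno := no_odd Z hind htop V hV hV3 X R hX3 hZG htopG htrG hω hX
  have hu : (x 0 + x (i1 k)) * (x 0 + x (i1 k))⁻¹ = 1 := mul_inv_cancel₀ hx
  have hU : (X 0 + X (i1 k)) * (X 0 + X (i1 k))⁻¹ = 1 := mul_inv_cancel₀ hX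
  have hinj := gen_inj (K := K) X R _ hU hX3 (alg_topS _ htopG) htrG
  have hfrac : ∀ x : G, ∃ a b : QA (DD K k), b ≠ 0 ∧
      x = cj K X R _ hU hX3 a / cj K X R _ hU hX3 b := by
    intro x
    obtain ⟨a, b, hb, h⟩ := gen_frac (K := K) X R _ hU hX3 htopG x
    refine ⟨a, b, ?_, h⟩
    rintro rfl
    exact hb (map_zero _)
  obtain ⟨k1, k2⟩ := pt_facts Z hind htop V hodd x ρ hZ
  have hΛ := frac_const Z htop V x ρ hZ X R hZG hu h3 hU hX3 hinj
  by_cases hs : ∃ s : MvPolynomial (Fin (k + 4)) K, s ≠ 0 ∧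
      aeval (ct x ρ (x 0 + x (i1 k))⁻¹) s = 0
  · obtain ⟨s, hs0, hs⟩ := hs
    obtain ⟨f, hf, hf0⟩ := exists_irred (aeval (ct x ρ (x 0 + x (i1 k))⁻¹) :
      MvPolynomial (Fin (k + 4)) K →ₐ[K] E).toRingHom s hs0 hs
    have hker := PK1 hω x ρ _ hu h3 k1 k2 f hf hf0
    have hπ0 : algebraMap (SX K k) (QA (DD K k)) (Polynomial.C f) ≠ 0 := by
      rw [Ne, map_eq_zero_iff _ QuadraticAlgebra.algebraMap_injective, Polynomial.C_eq_zero]
      exact hf.ne_zero
    obtain ⟨Q, hQ, -, -⟩ := gl_exists (Λ := Λ) _ hinj hfrac (cj K x ρ _ hu h3) _ hker hπ0 hΛ hodd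
    exact hno Q hQ
  · push Not at hs
    have hLinj : Function.Injective (aeval (ct X R (X 0 + X (i1 k))⁻¹) :
        MvPolynomial (Fin (k + 4)) K →ₐ[K] G).toRingHom := by
      rw [injective_iff_map_eq_zero]
      intro s hs
      have h1 : cj K X R (X 0 + X (i1 k))⁻¹ hU hX3
          (algebraMap (SX K k) (QA (DD K k)) (Polynomial.C s)) = 0 := by
        rw [cj_C]
        exact hs
      have h2 := hinj (h1.trans (map_zero _).symm)
      rw [map_eq_zero_iff _ QuadraticAlgebra.algebraMap_injective, Polynomial.C_eq_zero] at h2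
      exact h2
    let L : K0 K k →+* G := IsFractionRing.lift hLinj
    have hL : ∀ s, L (algebraMap (MvPolynomial (Fin (k + 4)) K) (K0 K k) s) =
        aeval (ct X R (X 0 + X (i1 k))⁻¹) s := fun s => IsFractionRing.lift_algebraMap hLinj s
    have hlinj : Function.Injective (aeval (ct x ρ (x 0 + x (i1 k))⁻¹) :
        MvPolynomial (Fin (k + 4)) K →ₐ[K] E).toRingHom := by
      rw [injective_iff_map_eq_zero]
      intro s h0
      by_contra hne
      exact hs s hne h0
    let l : K0 K k →+* E := IsFractionRing.lift hlinj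
    have hl : ∀ s, l (algebraMap (MvPolynomial (Fin (k + 4)) K) (K0 K k) s) =
        aeval (ct x ρ (x 0 + x (i1 k))⁻¹) s := fun s => IsFractionRing.lift_algebraMap hlinj s
    obtain ⟨g, hg0, hker⟩ := PK2 x ρ _ hu h3 k2 l hl
    have hinj0 := cj0_inj (K := K) X R _ hU hX3 L hL hinj
    have hfrac0 : ∀ x : G, ∃ a b : QA (D0 K k), b ≠ 0 ∧
        x = cj0 K X R _ hU hX3 L hL a / cj0 K X R _ hU hX3 L hL b := by
      intro x
      obtain ⟨a, b, hb, h⟩ := hfrac x
      refine ⟨bt K k a, bt K k b, ?_, ?_⟩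
      · intro h0
        apply hb
        apply hinj
        rw [← cj0_bt K X R _ hU hX3 L hL b, h0, map_zero, map_zero]
      · rw [cj0_bt, cj0_bt]
        exact h
    have hΛ0 : ∀ c : Λ, ∃ a b : QA (D0 K k), cj0 K x ρ _ hu h3 l hl b ≠ 0 ∧
        algebraMap Λ G c = cj0 K X R _ hU hX3 L hL a / cj0 K X R _ hU hX3 L hL b ∧
        algebraMap Λ E c = cj0 K x ρ _ hu h3 l hl a / cj0 K x ρ _ hu h3 l hl b := by
      intro c
      obtain ⟨a, b, h1, h2, h4⟩ := hΛ c
      refine ⟨bt K k a, bt K k b, ?_, ?_, ?_⟩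
      · rw [cj0_bt]
        exact h1
      · rw [cj0_bt, cj0_bt]
        exact h2
      · rw [cj0_bt, cj0_bt]
        exact h4
    obtain ⟨Q, hQ, -, -⟩ := gl_exists (Λ := Λ) _ hinj0 hfrac0 (cj0 K x ρ _ hu h3 l hl) g hker hg0
      hΛ0 hodd
    exact hno Q hQ

/-- **no points of odd degree** -/
theorem main_pt2 {A Λ K E : Type} [Field A] [IsAlgClosed A] [CharZero A] [Field Λ] [Field K]
    [Field E] [Algebra A Λ] [Algebra A K] [Algebra A E] [Algebra Λ E] [Algebra K E]
    [IsScalarTower A Λ E] [IsScalarTower A K E] {k : ℕ} (Z : Fin (k + 5) → Λ)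
    (hind : AlgebraicIndependent A Z)
    (htop : adjoin A (Set.range Z) = ⊤) [IsFF A K] (V : Fin (k + 5) → K) (hV : V ≠ 0)
    (hV3 : ∑ i, V i ^ 3 = 0) (hodd : Odd (finrank Λ E)) (e : E)
    (he : e ^ 2 = 9 * (∑ i, algebraMap Λ E (Z i) ^ 2 * algebraMap K E (V i)) ^ 2 -
      12 * (∑ i, algebraMap Λ E (Z i) ^ 3) *
        ∑ i, algebraMap Λ E (Z i) * algebraMap K E (V i) ^ 2) : False := by
  classical
  set z : Fin (k + 5) → E := fun i => algebraMap Λ E (Z i) with hz
  set v : Fin (k + 5) → E := fun i => algebraMap K E (V i) with hv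
  have hP : ∑ i, z i * v i ^ 2 ≠ 0 := by
    intro h0
    have h1 := diagH (κ := E) Z hind htop hodd v h0
    apply hV
    funext i
    have h2 := congrFun h1 i
    exact (map_eq_zero _).1 h2
  have hchar : CharZero E := charZero_of_injective_algebraMap (algebraMap A E).injective
  have hv3 : ∑ i, v i ^ 3 = 0 := by
    have := congrArg (algebraMap K E) hV3
    rw [map_sum, map_zero] at this
    rw [← this]
    exact Finset.sum_congr rfl fun i _ => (map_pow _ _ _).symm
  set P := ∑ i, z i * v i ^ 2 with hPd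
  set S := ∑ i, z i ^ 2 * v i with hSd
  set T := ∑ i, z i ^ 3 with hTd
  have he' : e ^ 2 = 9 * S ^ 2 - 12 * T * P := he
  let ρ : E := (3 * S + e) / (6 * P)
  let x : Fin (k + 5) → E := fun i => z i - ρ * v i
  have hxz : ∀ i, z i = x i + ρ * v i := fun i => by
    change z i = z i - ρ * v i + ρ * v i
    ring
  have h3 : ∑ i, x i ^ 3 = 0 := by
    have h1 : ∑ i, x i ^ 3 = T - 3 * ρ * S + 3 * ρ ^ 2 * P - ρ ^ 3 * ∑ i, v i ^ 3 := by
      rw [hTd, hSd, hPd, Finset.mul_sum, Finset.mul_sum, Finset.mul_sum, ← Finset.sum_sub_distrib,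
        ← Finset.sum_add_distrib, ← Finset.sum_sub_distrib]
      refine Finset.sum_congr rfl fun i _ => ?_
      rw [hxz i]
      ring
    rw [h1, hv3]
    have h2 : ρ * (6 * P) = 3 * S + e := div_mul_cancel₀ _ (mul_ne_zero (by norm_num) hP)
    have h4 : 12 * P * (T - 3 * ρ * S + 3 * ρ ^ 2 * P - ρ ^ 3 * 0) = 0 := by
      linear_combination (ρ * (6 * P) - 3 * S + e) * h2 + he'
    exact (mul_eq_zero.1 h4).resolve_left (mul_ne_zero (by norm_num) hP)
  -- a pair of coordinates with nonzero sum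
  have hpair : ∃ a b : Fin (k + 5), a ≠ b ∧ x a + x b ≠ 0 := by
    by_contra hcon
    push Not at hcon
    have hx0 : ∀ i, x i = 0 := by
      have h01 := hcon 0 (i1 k) (n10 k).symm
      have h02 := hcon 0 (i2 k) (n20 k).symm
      have h12 := hcon (i1 k) (i2 k) (n21 k).symm
      have h00 : x 0 = 0 := by linear_combination (1 / 2 : E) * (h01 + h02 - h12)
      intro i
      by_cases hi : i = 0
      · rw [hi]; exact h00
      · have h5 := hcon i 0 hi
        rw [h00, add_zero] at h5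
        exact h5
    have hT0 : T = 0 := by
      rw [hTd]
      have h6 : ∀ i, z i ^ 3 = ρ ^ 3 * v i ^ 3 := by
        intro i
        rw [hxz i, hx0 i]
        ring
      rw [Finset.sum_congr rfl fun i _ => h6 i, ← Finset.mul_sum, hv3, mul_zero]
    have hzi := ind_img (κ := E) Z hind
    have h7 : (∑ i, MvPolynomial.X i ^ 3 : MvPolynomial (Fin (k + 5)) A) = 0 := by
      apply hzi
      rw [map_zero, map_sum, ← hT0, hTd]
      refine Finset.sum_congr rfl fun i _ => ?_
      rw [map_pow, aeval_X]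
    have h8 := congrArg (coeff (Finsupp.single (0 : Fin (k + 5)) 3)) h7
    rw [coeff_sum, coeff_zero, Finset.sum_eq_single 0] at h8
    · rw [X_pow_eq_monomial, coeff_monomial, if_pos rfl] at h8
      exact one_ne_zero h8
    · intro i _ hi
      rw [X_pow_eq_monomial, coeff_monomial, if_neg]
      intro h9
      have h10 := DFunLike.congr_fun h9 i
      rw [Finsupp.single_eq_same, Finsupp.single_eq_of_ne hi] at h10
      omega
    · intro h9
      exact absurd (Finset.mem_univ _) h9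
  obtain ⟨a, b, hab, hx⟩ := hpair
  -- a permutation with `0 ↦ a`, `1 ↦ b`
  obtain ⟨σ, hσ0, hσ1⟩ : ∃ σ : Equiv.Perm (Fin (k + 5)), σ 0 = a ∧ σ (i1 k) = b := by
    refine ⟨(Equiv.swap (i1 k) (Equiv.swap 0 a b)).trans (Equiv.swap 0 a), ?_, ?_⟩
    · rw [Equiv.trans_apply, Equiv.swap_apply_of_ne_of_ne (n10 k).symm, Equiv.swap_apply_left]
      intro h
      have h1 := congrArg (Equiv.swap 0 a) h
      rw [Equiv.swap_apply_self, Equiv.swap_apply_left] at h1
      exact hab h1
    · rw [Equiv.trans_apply, Equiv.swap_apply_left, Equiv.swap_apply_self]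
  have hrZ : Set.range (fun i => Z (σ i)) = Set.range Z := σ.surjective.range_comp Z
  refine main_pt (fun i => Z (σ i)) (hind.comp σ σ.injective) (by rw [hrZ, htop])
    (fun i => V (σ i)) ?_ ?_ hodd (fun i => x (σ i)) ρ (fun i => hxz (σ i)) ?_ ?_
  · intro h
    apply hV
    funext i
    have h1 := congrFun h (σ.symm i)
    simpa using h1
  · rw [← hV3]
    exact Equiv.sum_comp σ (fun i => V i ^ 3)
  · rw [← h3]
    exact Equiv.sum_comp σ (fun i => x i ^ 3)
  · rw [hσ0, hσ1]
    exact hx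

end

end Pool.Agent.T9h1
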