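import Pool.Agent.Helper273.Brg.P_springer

/-! # Base change of extensions of odd degree -/

set_option autoImplicit false

namespace Pool.Agent.T9h1

open Module

noncomputable section

theorem base_change {L0 R L1 : Type} [Field L0] [CharZero L0] [Field R] [Field L1] [Algebra L0 R]
    [Algebra L0 L1] (hodd : Odd (finrank L0 R)) :
    ∃ (E : Type) (_ : Field E) (_ : Algebra L1 E) (f : R →+* E),
      (∀ c : L0, f (algebraMap L0 R c) = algebraMap L1 E (algebraMap L0 L1 c)) ∧
      Odd (finrank L1 E) := by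
  have hfin : FiniteDimensional L0 R := FiniteDimensional.of_finrank_pos hodd.pos
  let pb : PowerBasis L0 R := Field.powerBasisOfFiniteOfSeparable L0 R
  have hdeg : Odd ((minpoly L0 pb.gen).map (algebraMap L0 L1)).natDegree := by
    rw [Polynomial.natDegree_map, pb.natDegree_minpoly, ← pb.finrank]
    exact hodd
  obtain ⟨q, hq, hqodd, hqd⟩ := Pool.Agent.Helper273.Sup.exists_odd_irr_factor _ _ rfl hdeg
  have : Fact (Irreducible q) := ⟨hq⟩
  let _ : Algebra L0 (AdjoinRoot q) := ((algebraMap L1 (AdjoinRoot q)).comp (algebraMap L0 L1)).toAlgebra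
  have hroot : Polynomial.aeval (AdjoinRoot.root q) (minpoly L0 pb.gen) = 0 := by
    obtain ⟨r, hr⟩ := hqd
    have h1 : Polynomial.aeval (AdjoinRoot.root q) (minpoly L0 pb.gen) =
        Polynomial.eval₂ (algebraMap L1 (AdjoinRoot q)) (AdjoinRoot.root q)
          ((minpoly L0 pb.gen).map (algebraMap L0 L1)) := by
      rw [Polynomial.eval₂_map]
      rfl
    rw [h1, hr, Polynomial.eval₂_mul]
    have h2 : Polynomial.eval₂ (algebraMap L1 (AdjoinRoot q)) (AdjoinRoot.root q) q = 0 :=
      AdjoinRoot.eval₂_root q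
    rw [h2, zero_mul]
  let f : R →ₐ[L0] AdjoinRoot q := pb.lift (AdjoinRoot.root q) hroot
  refine ⟨AdjoinRoot q, inferInstance, inferInstance, f, fun c => f.commutes c, ?_⟩
  rw [PowerBasis.finrank (AdjoinRoot.powerBasis hq.ne_zero), AdjoinRoot.powerBasis_dim]
  exact hqodd

end

end Pool.Agent.T9h1
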