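import Pool.Agent.T9h1.AnisoE
import Pool.Agent.R845.E3.TrdAux

/-! # The second form with an arbitrary vanishing coordinate -/

set_option autoImplicit false

namespace Pool.Agent.T9h1

open MvPolynomial Module IntermediateField Pool.Agent.R845.E3

noncomputable section

variable {A E : Type} [Field A] [CharZero A] [Field E] [Algebra A E]

theorem cons_swap {m : ℕ} (y : Fin (m + 1) → E) (j : Fin (m + 1)) (i : Fin (m + 2)) :
    (Fin.cons 1 y : Fin (m + 2) → E) (Equiv.swap j.succ 1 i) =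
      (Fin.cons 1 (fun l => y (Equiv.swap j 0 l)) : Fin (m + 2) → E) i := by
  refine Fin.cases ?_ (fun l => ?_) i
  · rw [Equiv.swap_apply_of_ne_of_ne (Fin.succ_ne_zero j).symm (by simp), Fin.cons_zero, Fin.cons_zero]
  · rw [Fin.cons_succ]
    have h1 : (Equiv.swap j.succ (1 : Fin (m + 2))) l.succ = ((Equiv.swap j 0) l).succ := by
      have h2 : (1 : Fin (m + 2)) = (0 : Fin (m + 1)).succ := rfl
      rw [h2, Equiv.swap_apply_def, Equiv.swap_apply_def]
      simp only [Fin.succ_inj]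
      split_ifs <;> rfl
    rw [h1, Fin.cons_succ]

/-- the case of a coordinate with positive index -/
theorem second_succ {m : ℕ} (y : Fin (m + 1) → E) (hy : AlgebraicIndependent A y)
    (hodd : Odd (finrank (adjoin A (Set.range y)) E)) (c : Fin (m + 2) → E) (e : E)
    (j : Fin (m + 1)) (hc : c j.succ = 0)
    (h : e ^ 2 = 9 * (∑ i, (Fin.cons 1 y : Fin (m + 2) → E) i ^ 2 * c i) ^ 2 -
      12 * (∑ i, (Fin.cons 1 y : Fin (m + 2) → E) i ^ 3) *
        ∑ i, (Fin.cons 1 y : Fin (m + 2) → E) i * c i ^ 2) : c = 0 := by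
  classical
  set π : Equiv.Perm (Fin (m + 2)) := Equiv.swap j.succ 1 with hπ
  set y' : Fin (m + 1) → E := fun l => y (Equiv.swap j 0 l) with hy'
  have hr : Set.range y' = Set.range y := by
    rw [hy']
    exact (Equiv.swap j 0).surjective.range_comp y
  have hi' : AlgebraicIndependent A y' := hy.comp _ (Equiv.swap j 0).injective
  have hodd' : Odd (finrank (adjoin A (Set.range y')) E) := by rw [hr]; exact hodd
  have hz : ∀ i, (Fin.cons 1 y' : Fin (m + 2) → E) i = (Fin.cons 1 y : Fin (m + 2) → E) (π i) :=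
    fun i => (cons_swap y j i).symm
  have h1 := secondE y' hi' hodd' (fun i => c (π i)) e (by
    rw [hπ, Equiv.swap_apply_right]
    exact hc) (by
    rw [h]
    have e1 : ∑ i, (Fin.cons 1 y' : Fin (m + 2) → E) i ^ 2 * c (π i) =
        ∑ i, (Fin.cons 1 y : Fin (m + 2) → E) i ^ 2 * c i := by
      rw [← Equiv.sum_comp π (fun i => (Fin.cons 1 y : Fin (m + 2) → E) i ^ 2 * c i)]
      exact Finset.sum_congr rfl fun i _ => by rw [hz]
    have e2 : ∑ i, (Fin.cons 1 y' : Fin (m + 2) → E) i ^ 3 =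
        ∑ i, (Fin.cons 1 y : Fin (m + 2) → E) i ^ 3 := by
      rw [← Equiv.sum_comp π (fun i => (Fin.cons 1 y : Fin (m + 2) → E) i ^ 3)]
      exact Finset.sum_congr rfl fun i _ => by rw [hz]
    have e3 : ∑ i, (Fin.cons 1 y' : Fin (m + 2) → E) i * c (π i) ^ 2 =
        ∑ i, (Fin.cons 1 y : Fin (m + 2) → E) i * c i ^ 2 := by
      rw [← Equiv.sum_comp π (fun i => (Fin.cons 1 y : Fin (m + 2) → E) i * c i ^ 2)]
      exact Finset.sum_congr rfl fun i _ => by rw [hz]
    rw [e1, e2, e3])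
  funext i
  have h2 := congrFun h1 (π.symm i)
  simpa using h2

/-- inversion of the first coordinate -/
theorem cons_inv {m : ℕ} (y : Fin (m + 1) → E) (hy0 : y 0 ≠ 0) (i : Fin (m + 2)) :
    y 0 * (Fin.cons 1 (Fin.cons (y 0)⁻¹ (fun l : Fin m => y l.succ / y 0)) : Fin (m + 2) → E) i =
      (Fin.cons 1 y : Fin (m + 2) → E) (Equiv.swap 0 1 i) := by
  refine Fin.cases ?_ (fun j => ?_) i
  · rw [Fin.cons_zero, Equiv.swap_apply_left, mul_one]
    rfl
  · refine Fin.cases ?_ (fun l => ?_) j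
    · have h1 : Equiv.swap (0 : Fin (m + 2)) 1 (Fin.succ 0) = 0 := Equiv.swap_apply_right _ _
      rw [h1, Fin.cons_zero, Fin.cons_succ, Fin.cons_zero]
      exact mul_inv_cancel₀ hy0
    · have h1 : Equiv.swap (0 : Fin (m + 2)) 1 l.succ.succ = l.succ.succ := by
        apply Equiv.swap_apply_of_ne_of_ne
        · exact Fin.succ_ne_zero _
        · intro h
          have h2 : (1 : Fin (m + 2)) = (0 : Fin (m + 1)).succ := rfl
          rw [h2, Fin.succ_inj] at h
          exact Fin.succ_ne_zero _ h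
      rw [h1, Fin.cons_succ, Fin.cons_succ, Fin.cons_succ]
      exact mul_div_cancel₀ _ hy0

omit [CharZero A] in
theorem inv_data {m : ℕ} (y : Fin (m + 1) → E) (hy : AlgebraicIndependent A y) :
    AlgebraicIndependent A
      (Fin.cons (y 0)⁻¹ (fun l : Fin m => y l.succ / y 0) : Fin (m + 1) → E) ∧
    adjoin A (Set.range (Fin.cons (y 0)⁻¹ (fun l : Fin m => y l.succ / y 0) : Fin (m + 1) → E)) =
      adjoin A (Set.range y) := by
  have hy0 : y 0 ≠ 0 := hy.ne_zero 0
  set y' : Fin (m + 1) → E := Fin.cons (y 0)⁻¹ (fun l : Fin m => y l.succ / y 0) with hy'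
  have h0 : y' 0 = (y 0)⁻¹ := rfl
  have hs : ∀ l : Fin m, y' l.succ = y l.succ / y 0 := fun l => rfl
  have h1 : Set.range y ⊆ (adjoin A (Set.range y') : Set E) := by
    rintro _ ⟨i, rfl⟩
    have g0 : y 0 ∈ adjoin A (Set.range y') := by
      have := inv_mem (subset_adjoin A (Set.range y') ⟨0, rfl⟩)
      rwa [h0, inv_inv] at this
    refine Fin.cases g0 (fun l => ?_) i
    have g1 := mul_mem (subset_adjoin A (Set.range y') ⟨l.succ, rfl⟩) g0
    rwa [hs, div_mul_cancel₀ _ hy0] at g1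
  have h2 : Set.range y' ⊆ (adjoin A (Set.range y) : Set E) := by
    rintro _ ⟨i, rfl⟩
    refine Fin.cases ?_ (fun l => ?_) i
    · rw [h0]
      exact inv_mem (subset_adjoin A (Set.range y) ⟨0, rfl⟩)
    · rw [hs]
      exact div_mem (subset_adjoin A (Set.range y) ⟨l.succ, rfl⟩)
        (subset_adjoin A (Set.range y) ⟨0, rfl⟩)
  refine ⟨?_, le_antisymm (adjoin_le_iff.2 h2) (adjoin_le_iff.2 h1)⟩
  apply Trd.indep_of_le
  rw [← Trd.rk_range hy]
  exact Trd.rk_le_of_subset_adjoin _ _ h1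

/-- the case of an arbitrary coordinate -/
theorem second_any {m : ℕ} (y : Fin (m + 1) → E) (hy : AlgebraicIndependent A y)
    (hodd : Odd (finrank (adjoin A (Set.range y)) E)) (c : Fin (m + 2) → E) (e : E)
    (i : Fin (m + 2)) (hc : c i = 0)
    (h : e ^ 2 = 9 * (∑ i, (Fin.cons 1 y : Fin (m + 2) → E) i ^ 2 * c i) ^ 2 -
      12 * (∑ i, (Fin.cons 1 y : Fin (m + 2) → E) i ^ 3) *
        ∑ i, (Fin.cons 1 y : Fin (m + 2) → E) i * c i ^ 2) : c = 0 := by
  classical
  revert hc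
  refine Fin.cases ?_ (fun j hc => second_succ y hy hodd c e j hc h) i
  intro hc
  have hy0 : y 0 ≠ 0 := hy.ne_zero 0
  obtain ⟨hi', hadj⟩ := inv_data (A := A) y hy
  set y' : Fin (m + 1) → E := Fin.cons (y 0)⁻¹ (fun l : Fin m => y l.succ / y 0) with hy'
  have hodd' : Odd (finrank (adjoin A (Set.range y')) E) := by rw [hadj]; exact hodd
  set π : Equiv.Perm (Fin (m + 2)) := Equiv.swap 0 1 with hπ
  have hz : ∀ i, (Fin.cons 1 y : Fin (m + 2) → E) (π i) =
      y 0 * (Fin.cons 1 y' : Fin (m + 2) → E) i := fun i => (cons_inv y hy0 i).symm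
  have h1 := secondE y' hi' hodd' (fun i => c (π i)) (e / y 0 ^ 2) (by
    rw [hπ, Equiv.swap_apply_right]
    exact hc) (by
    have e1 : ∑ i, (Fin.cons 1 y : Fin (m + 2) → E) i ^ 2 * c i =
        y 0 ^ 2 * ∑ i, (Fin.cons 1 y' : Fin (m + 2) → E) i ^ 2 * c (π i) := by
      rw [← Equiv.sum_comp π (fun i => (Fin.cons 1 y : Fin (m + 2) → E) i ^ 2 * c i),
        Finset.mul_sum]
      exact Finset.sum_congr rfl fun i _ => by rw [hz]; ring
    have e2 : ∑ i, (Fin.cons 1 y : Fin (m + 2) → E) i ^ 3 =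
        y 0 ^ 3 * ∑ i, (Fin.cons 1 y' : Fin (m + 2) → E) i ^ 3 := by
      rw [← Equiv.sum_comp π (fun i => (Fin.cons 1 y : Fin (m + 2) → E) i ^ 3), Finset.mul_sum]
      exact Finset.sum_congr rfl fun i _ => by rw [hz]; ring
    have e3 : ∑ i, (Fin.cons 1 y : Fin (m + 2) → E) i * c i ^ 2 =
        y 0 * ∑ i, (Fin.cons 1 y' : Fin (m + 2) → E) i * c (π i) ^ 2 := by
      rw [← Equiv.sum_comp π (fun i => (Fin.cons 1 y : Fin (m + 2) → E) i * c i ^ 2),
        Finset.mul_sum]
      exact Finset.sum_congr rfl fun i _ => by rw [hz]; ring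
    rw [e1, e2, e3] at h
    rw [div_pow, h]
    field_simp)
  funext i
  have h2 := congrFun h1 (π.symm i)
  simpa using h2

end

end Pool.Agent.T9h1
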