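import Pool.Agent.T9h1.C17
import Pool.Agent.T9h1.C18
import Pool.Agent.T9h1.Second3

/-! # Chords of the sum of cubes through points of transcendence degree one -/

set_option autoImplicit false

namespace Pool.Agent.T9h1

open MvPolynomial IntermediateField Module FF

noncomputable section

theorem exists_hom' {A R G : Type} [Field A] [Field R] [Algebra A R] [Field G] [Algebra A G] {n : ℕ}
    (y : Fin n → R) (hy : AlgebraicIndependent A y)
    (z : Fin n → G) (hz : AlgebraicIndependent A z) :
    ∃ f : adjoin A (Set.range y) →ₐ[A] G, ∀ (i : Fin n) (h : y i ∈ adjoin A (Set.range y)),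
      f ⟨y i, h⟩ = z i := by
  let f : adjoin A (Set.range y) →ₐ[A] G := (adjoin A (Set.range z)).val.comp
    ((hy.aevalEquivField.symm.trans hz.aevalEquivField) :
      adjoin A (Set.range y) →ₐ[A] (adjoin A (Set.range z)))
  refine ⟨f, fun i h => ?_⟩
  have h1 : (⟨y i, h⟩ : adjoin A (Set.range y)) = hy.aevalEquivField
      (algebraMap (MvPolynomial (Fin n) A) (FractionRing (MvPolynomial (Fin n) A)) (X i)) := by
    apply Subtype.ext
    rw [AlgebraicIndependent.aevalEquivField_algebraMap_apply_coe, aeval_X]
  change ((hz.aevalEquivField (hy.aevalEquivField.symm ⟨y i, h⟩) :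
    adjoin A (Set.range z)) : G) = z i
  rw [h1, AlgEquiv.symm_apply_apply, AlgebraicIndependent.aevalEquivField_algebraMap_apply_coe,
      aeval_X]

/-- the substitution `X_i = 1`, `X_j = u`, `X_l = v` -/
def th {A : Type} [Field A] {n : ℕ} (i j l : Fin n) :
    MvPolynomial (Fin n) A →+* Polynomial (Polynomial A) :=
  eval₂Hom (Polynomial.C.comp Polynomial.C) fun a =>
    if a = i then 1 else if a = j then Polynomial.C Polynomial.X else
      if a = l then Polynomial.X else 0

theorem prod_three {M : Type} [CommMonoid M] {n : ℕ} (i j l : Fin n) (hij : i ≠ j) (hil : i ≠ l)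
    (hjl : j ≠ l) (f : Fin n → M) (hf : ∀ a, a ≠ i → a ≠ j → a ≠ l → f a = 1) :
    ∏ a, f a = f i * (f j * f l) := by
  rw [← Finset.prod_subset (Finset.subset_univ {i, j, l})]
  · rw [Finset.prod_insert, Finset.prod_pair hjl]
    simp [hij, hil]
  · intro a _ ha
    simp only [Finset.mem_insert, Finset.mem_singleton, not_or] at ha
    exact hf a ha.1 ha.2.1 ha.2.2

theorem th_ne {A : Type} [Field A] {n : ℕ} (i j l : Fin n) (hij : i ≠ j) (hil : i ≠ l)
    (hjl : j ≠ l) (Ψ : MvPolynomial (Fin n) A) (d : ℕ) (hΨ : Ψ.IsHomogeneous d) (h0 : Ψ ≠ 0)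
    (hs : ∀ β ∈ Ψ.support, ∀ a, a ≠ i → a ≠ j → a ≠ l → β a = 0) : th i j l Ψ ≠ 0 := by
  classical
  obtain ⟨β, hβ⟩ := MvPolynomial.ne_zero_iff.1 h0
  have hterm : ∀ γ ∈ Ψ.support, th i j l (monomial γ (coeff γ Ψ)) =
      Polynomial.C (Polynomial.C (coeff γ Ψ) * Polynomial.X ^ γ j) * Polynomial.X ^ γ l := by
    intro γ hγ
    unfold th
    rw [coe_eval₂Hom, eval₂_monomial, Finsupp.prod_pow, prod_three i j l hij hil hjl]
    · rw [if_pos rfl, one_pow, one_mul, if_neg hij.symm, if_pos rfl, if_neg hil.symm,
        if_neg hjl.symm, if_pos rfl, RingHom.comp_apply, Polynomial.C_mul, Polynomial.C_pow]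
      ring
    · intro a h1 h2 h3
      rw [hs γ hγ a h1 h2 h3, pow_zero]
  have hsum : th i j l Ψ = ∑ γ ∈ Ψ.support,
      Polynomial.C (Polynomial.C (coeff γ Ψ) * Polynomial.X ^ γ j) * Polynomial.X ^ γ l := by
    conv_lhs => rw [Ψ.as_sum]
    rw [map_sum]
    exact Finset.sum_congr rfl hterm
  intro h
  have h1 := congrArg (fun p => (Polynomial.coeff p (β l)).coeff (β j)) h
  simp only [Polynomial.coeff_zero] at h1
  rw [hsum, Polynomial.finset_sum_coeff, Polynomial.finset_sum_coeff,
    Finset.sum_eq_single β] at h1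
  · rw [Polynomial.coeff_C_mul, Polynomial.coeff_X_pow, if_pos rfl, mul_one,
      Polynomial.coeff_C_mul, Polynomial.coeff_X_pow, if_pos rfl, mul_one] at h1
    exact hβ h1
  · intro γ hγ hne
    rw [Polynomial.coeff_C_mul, Polynomial.coeff_X_pow]
    by_cases hl : β l = γ l
    · rw [if_pos hl, mul_one, Polynomial.coeff_C_mul, Polynomial.coeff_X_pow, if_neg, mul_zero]
      intro hj
      apply hne
      have hβs : β ∈ Ψ.support := MvPolynomial.mem_support_iff.2 hβ
      have hdβ : β.degree = d := by
        by_contra hcon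
        exact hβ (hΨ.coeff_eq_zero hcon)
      have hdγ : γ.degree = d := by
        by_contra hcon
        exact (MvPolynomial.mem_support_iff.1 hγ) (hΨ.coeff_eq_zero hcon)
      have hsum3 : ∀ δ ∈ Ψ.support, δ.degree = δ i + (δ j + δ l) := by
        intro δ hδ
        have h2 : δ.degree = ∑ a, δ a := by
          rw [Finsupp.degree_eq_sum]
        rw [h2, ← Finset.sum_subset (Finset.subset_univ {i, j, l})]
        · rw [Finset.sum_insert, Finset.sum_pair hjl]
          simp [hij, hil]
        · intro a _ ha
          simp only [Finset.mem_insert, Finset.mem_singleton, not_or] at ha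
          exact hs δ hδ a ha.1 ha.2.1 ha.2.2
      have e1 := hsum3 β hβs
      have e2 := hsum3 γ hγ
      have hi : γ i = β i := by omega
      ext a
      by_cases hai : a = i
      · rw [hai, hi]
      · by_cases haj : a = j
        · rw [haj, hj]
        · by_cases hal : a = l
          · rw [hal, hl]
          · rw [hs γ hγ a hai haj hal, hs β hβs a hai haj hal]
    · rw [if_neg hl, mul_zero, Polynomial.coeff_zero]
  · intro h2
    exact absurd (MvPolynomial.mem_support_iff.2 hβ) h2

/-- a ternary relation makes the second ratio algebraic over the first one -/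
theorem rel_alg {A κ : Type} [Field A] [Field κ] [Algebra A κ] {n : ℕ} (i j l : Fin n)
    (hij : i ≠ j) (hil : i ≠ l)
    (hjl : j ≠ l) (Ψ : MvPolynomial (Fin n) A) (d : ℕ) (hΨ : Ψ.IsHomogeneous d) (h0 : Ψ ≠ 0)
    (hs : ∀ β ∈ Ψ.support, ∀ a, a ≠ i → a ≠ j → a ≠ l → β a = 0) (u : Fin n → κ) (hu : u i = 1)
    (htr : Transcendental A (u j)) (h : aeval u Ψ = 0) :
    IsAlgebraic (Algebra.adjoin A {u j}) (u l) := by
  let _ : Algebra (Polynomial A) κ := (Polynomial.aeval (u j) : Polynomial A →ₐ[A] κ).toRingHom.toAlgebra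
  have halg : IsAlgebraic (Polynomial A) (u l) := by
    refine ⟨th i j l Ψ, th_ne i j l hij hil hjl Ψ d hΨ h0 hs, ?_⟩
    rw [← h]
    have e : (Polynomial.aeval (u l) : Polynomial (Polynomial A) →ₐ[Polynomial A] κ).toRingHom.comp
        (th i j l) = eval₂Hom (algebraMap A κ) fun a =>
          if a = i then 1 else if a = j then u j else if a = l then u l else 0 := by
      apply MvPolynomial.ringHom_ext
      · intro a
        rw [RingHom.comp_apply]
        unfold th
        rw [eval₂Hom_C, eval₂Hom_C]
        change Polynomial.aeval (u l) (Polynomial.C (Polynomial.C a)) = _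
        rw [Polynomial.aeval_C]
        change Polynomial.aeval (u j) (Polynomial.C a) = _
        rw [Polynomial.aeval_C]
      · intro a
        rw [RingHom.comp_apply]
        unfold th
        rw [eval₂Hom_X', eval₂Hom_X']
        split_ifs
        · exact map_one _
        · change Polynomial.aeval (u l) (Polynomial.C Polynomial.X) = _
          rw [Polynomial.aeval_C]
          change Polynomial.aeval (u j) Polynomial.X = _
          rw [Polynomial.aeval_X]
        · change Polynomial.aeval (u l) Polynomial.X = _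
          rw [Polynomial.aeval_X]
        · exact map_zero _
    have e2 := RingHom.congr_fun e Ψ
    change Polynomial.aeval (u l) (th i j l Ψ) = _ at e2
    rw [e2, coe_eval₂Hom, aeval_def, eval₂_eq', eval₂_eq']
    refine Finset.sum_congr rfl fun β hβ => ?_
    congr 1
    refine Finset.prod_congr rfl fun a _ => ?_
    by_cases hai : a = i
    · rw [if_pos hai, hai, hu]
    · by_cases haj : a = j
      · rw [if_neg hai, if_pos haj, haj]
      · by_cases hal : a = l
        · rw [if_neg hai, if_neg haj, if_pos hal, hal]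
        · rw [hs β hβ a hai haj hal, pow_zero, pow_zero]
  have hmem : ∀ p : Polynomial A, Polynomial.aeval (u j) p ∈ Algebra.adjoin A {u j} := fun p =>
    Polynomial.aeval_mem_adjoin_singleton A (u j)
  refine isAlg_mono ((Polynomial.aeval (u j) : Polynomial A →ₐ[A] κ).codRestrict
    (Algebra.adjoin A {u j}) hmem).toRingHom ?_ (fun p => rfl) halg
  intro p q hpq
  have h1 := congrArg Subtype.val hpq
  exact transcendental_iff_injective.1 htr h1

end

end Pool.Agent.T9h1
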