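import Pool.Agent.T9h1.C1

/-! # The conic bundle of the sum of cubes: no squares modulo primes of the base -/

set_option autoImplicit false

namespace Pool.Agent.T9h1

open MvPolynomial Module Pool.Agent.R845.E3

noncomputable section

variable {K : Type} [Field K] {k : ℕ}

/-- the residue field of a prime element -/
theorem exists_res {S : Type} [CommRing S] [IsDomain S] [Algebra K S] (f : S) (hf : Prime f) :
    ∃ (L : Type) (_ : Field L) (_ : Algebra K L) (π : S →ₐ[K] L), (∀ p, π p = 0 ↔ f ∣ p) ∧
      ∀ z : L, ∃ p q, π q ≠ 0 ∧ z = π p / π q := by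
  let I : Ideal S := Ideal.span {f}
  have hI : I.IsPrime := (Ideal.span_singleton_prime hf.ne_zero).2 hf
  let R := S ⧸ I
  have hR : IsDomain R := Ideal.Quotient.isDomain I
  let L := FractionRing R
  let π : S →ₐ[K] L := (IsScalarTower.toAlgHom K R L).comp (Ideal.Quotient.mkₐ K I)
  have hπ : ∀ p, π p = 0 ↔ f ∣ p := by
    intro p
    change algebraMap R L (Ideal.Quotient.mk I p) = 0 ↔ _
    rw [map_eq_zero_iff _ (IsFractionRing.injective R L), Ideal.Quotient.eq_zero_iff_mem,
      Ideal.mem_span_singleton]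
  refine ⟨L, inferInstance, inferInstance, π, hπ, fun z => ?_⟩
  obtain ⟨x, y, hy, rfl⟩ := IsFractionRing.div_surjective (A := R) z
  obtain ⟨p, rfl⟩ := Ideal.Quotient.mk_surjective x
  obtain ⟨q, rfl⟩ := Ideal.Quotient.mk_surjective y
  refine ⟨p, q, ?_, rfl⟩
  change algebraMap R L (Ideal.Quotient.mk I q) ≠ 0
  rw [Ne, map_eq_zero_iff _ (IsFractionRing.injective R L)]
  exact nonZeroDivisors.ne_zero hy

/-- a cubic radical extension has odd degree -/
theorem odd_radical {K' L : Type} [Field K'] [Field L] [Algebra K' L] (hω : ∃ ω : K', ω ^ 2 + ω + 1 = 0)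
    (T : L) (c : K') (hT : T ^ 3 = algebraMap K' L c) :
    IsIntegral K' T ∧ Odd (minpoly K' T).natDegree := by
  obtain ⟨ω, hω⟩ := hω
  have hmon : (Polynomial.X ^ 3 - Polynomial.C c : Polynomial K').Monic :=
    Polynomial.monic_X_pow_sub_C c (by norm_num)
  have hev : Polynomial.aeval T (Polynomial.X ^ 3 - Polynomial.C c : Polynomial K') = 0 := by
    rw [map_sub, map_pow, Polynomial.aeval_X, Polynomial.aeval_C, hT, sub_self]
  have hint : IsIntegral K' T := ⟨_, hmon, hev⟩
  refine ⟨hint, ?_⟩
  by_cases hc : ∃ b : K', b ^ 3 = c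
  · obtain ⟨b, hb⟩ := hc
    have h1 : (T - algebraMap K' L b) * ((T - algebraMap K' L (ω * b)) *
        (T - algebraMap K' L (-(1 + ω) * b))) = 0 := by
      have e : algebraMap K' L c = algebraMap K' L b ^ 3 := by rw [← map_pow, hb]
      have e2 : algebraMap K' L ω ^ 2 + algebraMap K' L ω + 1 = 0 := by
        rw [← map_pow, ← map_add, ← map_one (algebraMap K' L), ← map_add, hω, map_zero]
      rw [e] at hT
      simp only [map_mul, map_neg, map_add, map_one]
      linear_combination hT + (-T * algebraMap K' L b ^ 2 + algebraMap K' L b ^ 3) * e2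
    have h2 : ∃ a : K', T = algebraMap K' L a := by
      rcases mul_eq_zero.1 h1 with h | h
      · exact ⟨_, sub_eq_zero.1 h⟩
      · rcases mul_eq_zero.1 h with h | h
        · exact ⟨_, sub_eq_zero.1 h⟩
        · exact ⟨_, sub_eq_zero.1 h⟩
    obtain ⟨a, rfl⟩ := h2
    rw [minpoly.eq_X_sub_C, Polynomial.natDegree_X_sub_C]
    exact odd_one
  · have hirr : Irreducible (Polynomial.X ^ 3 - Polynomial.C c : Polynomial K') := by
      rw [X_pow_sub_C_irreducible_iff_of_prime Nat.prime_three]
      intro b hb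
      exact hc ⟨b, hb⟩
    have h3 : minpoly K' T = Polynomial.X ^ 3 - Polynomial.C c :=
      (minpoly.eq_of_irreducible_of_monic hirr hev hmon).symm
    rw [h3, Polynomial.natDegree_X_pow_sub_C]
    exact ⟨1, rfl⟩

/-- the equation `1 + w³ + 4 (x_4³ + ...)` as a polynomial in `x_4` -/
theorem gg_succ : finSuccEquiv K (k + 3) (gg K k) = Polynomial.C (C 4) * Polynomial.X ^ 3 +
    Polynomial.C (1 + X 0 ^ 3 + 4 * ∑ j : Fin k, X j.succ.succ.succ ^ 3) := by
  unfold gg
  have h1 : finSuccEquiv K (k + 3) (X (1 : Fin (k + 4))) = Polynomial.C (X 0) :=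
    finSuccEquiv_X_succ (j := 0)
  have h2 : ∀ j : Fin k, finSuccEquiv K (k + 3) (X j.succ.succ.succ.succ) =
      Polynomial.C (X j.succ.succ.succ) := fun j => finSuccEquiv_X_succ
  have h3 : finSuccEquiv K (k + 3) (C 4) = Polynomial.C (C 4) := by
    rw [finSuccEquiv_apply, eval₂Hom_C]
    rfl
  rw [four_eq, four_eq]
  simp only [map_add, map_mul, map_one, map_pow, map_sum, h1, h2, h3, finSuccEquiv_X_zero]
  ring

theorem succ_rename (n : ℕ) (h : MvPolynomial (Fin n) K) :
    finSuccEquiv K n (rename Fin.succ h) = Polynomial.C h := by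
  have e : (finSuccEquiv K n : MvPolynomial (Fin (n + 1)) K →+* _).comp
      (rename Fin.succ : MvPolynomial (Fin n) K →ₐ[K] _).toRingHom = Polynomial.C := by
    apply MvPolynomial.ringHom_ext
    · intro x
      change finSuccEquiv K n (rename Fin.succ (C x)) = _
      rw [rename_C, finSuccEquiv_apply, eval₂Hom_C]
      rfl
    · intro i
      change finSuccEquiv K n (rename Fin.succ (X i)) = _
      rw [rename_X, finSuccEquiv_X_succ]
  exact RingHom.congr_fun e h

/-- the equation modulo a prime factor: the other variables stay independent -/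
theorem inj_res [CharZero K] (f : MvPolynomial (Fin (k + 4)) K) (hf : Prime f)
    (hfg : f ∣ gg K k) (h : MvPolynomial (Fin (k + 3)) K) (hh : f ∣ rename Fin.succ h) : h = 0 := by
  by_contra h0
  let φ := finSuccEquiv K (k + 3)
  have h1 : φ f ∣ Polynomial.C h := by
    have := map_dvd φ hh
    rwa [show φ (rename Fin.succ h) = Polynomial.C h from succ_rename _ h] at this
  have hCh : (Polynomial.C h : Polynomial (MvPolynomial (Fin (k + 3)) K)) ≠ 0 :=
    Polynomial.C_ne_zero.2 h0
  have h2 : (φ f).natDegree = 0 := by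
    have := Polynomial.natDegree_le_of_dvd h1 hCh
    rw [Polynomial.natDegree_C] at this
    omega
  rw [Polynomial.natDegree_eq_zero] at h2
  obtain ⟨f0, hf0⟩ := h2
  have h3 : φ f ∣ φ (gg K k) := map_dvd φ hfg
  rw [show φ (gg K k) = _ from gg_succ, ← hf0, Polynomial.C_dvd_iff_dvd_coeff] at h3
  have h4 := h3 3
  rw [Polynomial.coeff_add, Polynomial.coeff_C_mul, Polynomial.coeff_X_pow, if_pos rfl,
    Polynomial.coeff_C, if_neg (by norm_num), mul_one, add_zero] at h4
  have h5 : IsUnit (C 4 : MvPolynomial (Fin (k + 3)) K) :=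
    (isUnit_iff_ne_zero.2 (by norm_num)).map C
  have h6 : IsUnit f0 := isUnit_of_dvd_unit h4 h5
  apply hf.not_isUnit
  have h7 : IsUnit (φ f) := by
    rw [← hf0]
    exact h6.map Polynomial.C
  exact (MulEquiv.isUnit_map φ.toMulEquiv).1 h7

/-- modulo a factor of the equation of the cubic `-w` is not a square -/
theorem beta [CharZero K] (hω : ∃ ω : K, ω ^ 2 + ω + 1 = 0) (f : MvPolynomial (Fin (k + 4)) K)
    (hf : Prime f) (hfg : f ∣ gg K k) (a b : MvPolynomial (Fin (k + 4)) K)
    (h : f ∣ a ^ 2 + X 1 * b ^ 2) : f ∣ b := by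
  classical
  by_contra hb
  obtain ⟨L, _, _, π, hπ, hπs⟩ := exists_res (K := K) f hf
  have hL : CharZero L := charZero_of_injective_algebraMap (algebraMap K L).injective
  let ψ : MvPolynomial (Fin (k + 3)) K →ₐ[K] L := π.comp (rename Fin.succ)
  have hψ : ∀ h, ψ h = 0 → h = 0 := by
    intro h hh
    exact inj_res f hf hfg h ((hπ _).1 hh)
  let K' : IntermediateField K L := IntermediateField.adjoin K (Set.range ψ)
  have hψK : ∀ h, ψ h ∈ K' := fun h => IntermediateField.subset_adjoin _ _ ⟨h, rfl⟩
  set T : L := π (X 0) with hT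
  have hTc : T ^ 3 = algebraMap K' L (⟨-(ψ (1 + X 0 ^ 3 + 4 *
      ∑ j : Fin k, X j.succ.succ.succ ^ 3)) / 4,
      div_mem (neg_mem (hψK _)) (ofNat_mem K' 4)⟩) := by
    have h1 : π (gg K k) = 0 := (hπ _).2 hfg
    have h2 : gg K k = 4 * X 0 ^ 3 + rename Fin.succ (1 + X 0 ^ 3 + 4 *
        ∑ j : Fin k, X j.succ.succ.succ ^ 3) := by
      unfold gg
      simp only [four_eq, map_add, map_mul, map_one, map_pow, map_sum, rename_X, rename_C]
      have e1 : Fin.succ (0 : Fin (k + 3)) = 1 := rfl
      rw [e1]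
      ring
    rw [h2, map_add, map_mul, map_pow] at h1
    change _ = -(ψ _) / 4
    have h4 : π 4 = (4 : L) := map_ofNat π 4
    rw [h4] at h1
    have h5 : (4 : L) ≠ 0 := by norm_num
    field_simp
    have h6 : ψ (1 + X 0 ^ 3 + 4 * ∑ j : Fin k, X j.succ.succ.succ ^ 3) =
      π (rename Fin.succ (1 + X 0 ^ 3 + 4 * ∑ j : Fin k, X j.succ.succ.succ ^ 3)) := rfl
    rw [h6]
    linear_combination h1
  obtain ⟨hint, hodd⟩ := odd_radical (K' := K') (by
    obtain ⟨ω, hω⟩ := hω
    refine ⟨algebraMap K K' ω, ?_⟩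
    rw [← map_pow, ← map_add, ← map_one (algebraMap K K'), ← map_add, hω, map_zero]) T _ hTc
  have htop : IntermediateField.adjoin K' {T} = ⊤ := by
    rw [eq_top_iff]
    intro z _
    obtain ⟨p, q, -, rfl⟩ := hπs z
    have hp : ∀ p, π p ∈ IntermediateField.adjoin K' {T} := by
      intro p
      induction p using MvPolynomial.induction_on with
      | C a =>
        have : π (C a) = algebraMap K' L (algebraMap K K' a) := π.commutes a
        rw [this]
        exact IntermediateField.algebraMap_mem _ _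
      | add p q hp hq =>
        rw [map_add]
        exact add_mem hp hq
      | mul_X p i hp =>
        rw [map_mul]
        refine mul_mem hp ?_
        refine Fin.cases ?_ (fun j => ?_) i
        · exact IntermediateField.mem_adjoin_simple_self K' T
        · have : π (X j.succ) = algebraMap K' L ⟨ψ (X j), hψK _⟩ := by
            change _ = π (rename Fin.succ (X j))
            rw [rename_X]
          rw [this]
          exact IntermediateField.algebraMap_mem _ _
    exact div_mem (hp p) (hp q)
  have hodd' : Odd (finrank K' L) := by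
    rw [← IntermediateField.adjoin.finrank hint, htop, IntermediateField.finrank_top'] at hodd
    exact hodd
  have hπb : π b ≠ 0 := fun h => hb ((hπ _).1 h)
  have h1 := (hπ _).2 h
  rw [map_add, map_mul, map_pow, map_pow] at h1
  have hX1 : π (X 1) = ψ (X 0) := by
    change _ = π (rename Fin.succ (X 0))
    rw [rename_X]
    rfl
  obtain ⟨r, ⟨i0, hi0⟩, hr⟩ := odd_descentK ψ hodd'
    (fun i j => if i = j then (if i = 0 then 1 else X 0) else 0) (![π a / π b, 1] : Fin 2 → L)
    ⟨1, by simp⟩ (by
      simp only [Fin.sum_univ_two, if_true, Matrix.cons_val_zero, Matrix.cons_val_one]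
      simp only [zero_ne_one, one_ne_zero, if_false, map_zero, map_one]
      rw [← hX1]
      field_simp
      linear_combination h1)
  have h2 := hψ _ hr
  simp only [Fin.sum_univ_two, if_true, zero_ne_one, one_ne_zero, if_false] at h2
  have h3 : r 0 ^ 2 = -(X 0 * r 1 ^ 2) := by linear_combination h2
  have hr1 : r 1 = 0 := by
    by_contra hr1
    have hr0 : r 0 ≠ 0 := by
      intro h0
      rw [h0] at h3
      apply mul_ne_zero (X_ne_zero 0) (pow_ne_zero 2 hr1)
      linear_combination h3
    have h4 := congrArg totalDegree h3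
    rw [totalDegree_neg, totalDegree_mul_of_isDomain (X_ne_zero 0) (pow_ne_zero 2 hr1),
      totalDegree_X, pow_two, pow_two, totalDegree_mul_of_isDomain hr0 hr0,
      totalDegree_mul_of_isDomain hr1 hr1] at h4
    omega
  have hr0 : r 0 = 0 := by
    rw [hr1] at h3
    have h5 : r 0 ^ 2 = 0 := by linear_combination h3
    exact (pow_eq_zero_iff two_ne_zero).1 h5
  apply hi0
  fin_cases i0
  · change ψ (r 0) = 0
    rw [hr0, map_zero]
  · change ψ (r 1) = 0
    rw [hr1, map_zero]

end

end Pool.Agent.T9h1
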