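import Pool.Agent.T9h1.C19
import Pool.Agent.R845.E3.TransB

/-! # Chords of the sum of cubes through points of transcendence degree one: the theorem -/

set_option autoImplicit false

namespace Pool.Agent.T9h1

open MvPolynomial IntermediateField Module FF

noncomputable section

/-- **over an algebraically closed field** -/
theorem fermat_closed {A Λ E : Type} [Field A] [IsAlgClosed A] [CharZero A] [Field Λ]
    [Field E] [Algebra A Λ] [Algebra A E] [Algebra Λ E]
    [IsScalarTower A Λ E] {k : ℕ} (Z : Fin (k + 5) → Λ)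
    (hind : AlgebraicIndependent A Z)
    (htop : adjoin A (Set.range Z) = ⊤) (hodd : Odd (finrank Λ E)) (u : Fin (k + 5) → E)
    (hu0 : u 0 = 1) (hu3 : ∑ i, u i ^ 3 = 0) (e : E)
    (he : e ^ 2 = 9 * (∑ i, algebraMap Λ E (Z i) ^ 2 * u i) ^ 2 -
      12 * (∑ i, algebraMap Λ E (Z i) ^ 3) *
        ∑ i, algebraMap Λ E (Z i) * u i ^ 2)
    (hrel : ∀ j l : Fin (k + 5), 0 ≠ j → 0 ≠ l → j ≠ l → ∃ (d : ℕ)
      (Ψ : MvPolynomial (Fin (k + 5)) A), Ψ.IsHomogeneous d ∧
      Ψ ≠ 0 ∧ (∀ β ∈ Ψ.support, ∀ a, a ≠ 0 → a ≠ j → a ≠ l → β a = 0) ∧ aeval u Ψ = 0) : False := by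
  classical
  by_cases hall : ∀ i, IsAlgebraic A (u i)
  · choose a ha using fun i => alg_mem (u i) (hall i)
    refine constH (κ := E) (n := k + 2) Z hind htop hodd a ?_ e ?_
    · intro h
      have h1 := ha 0
      rw [h, Pi.zero_apply, map_zero, hu0] at h1
      exact zero_ne_one h1
    · simp only [ha]
      exact he
  push Not at hall
  obtain ⟨j, hj⟩ := hall
  have hj' : Transcendental A (u j) := hj
  have hj0 : 0 ≠ j := by
    rintro rfl
    apply hj
    rw [hu0]
    exact isAlgebraic_one
  let K : IntermediateField A E := adjoin A (Set.range u)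
  have humem : ∀ i, u i ∈ K := fun i => subset_adjoin A _ ⟨i, rfl⟩
  let V : Fin (k + 5) → K := fun i => ⟨u i, humem i⟩
  have hVtop : adjoin A (Set.range V) = ⊤ := by
    apply IntermediateField.map_injective K.val
    rw [IntermediateField.adjoin_map, ← AlgHom.fieldRange_eq_map, IntermediateField.fieldRange_val,
      ← Set.range_comp]
    rfl
  have halgV : ∀ l, IsAlgebraic (Algebra.adjoin A {V j}) (V l) := by
    intro l
    by_cases hl0 : 0 = l
    · have : V l = 1 := by
        rw [← hl0]
        exact Subtype.ext hu0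
      rw [this]
      exact isAlgebraic_one
    by_cases hjl : j = l
    · rw [← hjl]
      exact isAlgebraic_algebraMap (⟨V j, Algebra.subset_adjoin rfl⟩ : Algebra.adjoin A {V j})
    obtain ⟨d, Ψ, h1, h2, h3, h4⟩ := hrel j l hj0 hl0 hjl
    refine rel_alg 0 j l hj0 hl0 hjl Ψ d h1 h2 h3 V (Subtype.ext hu0) ?_ ?_
    · intro h
      apply hj'
      exact (isAlgebraic_algHom_iff K.val K.val.toRingHom.injective).2 h
    · apply K.val.toRingHom.injective
      rw [map_zero]
      change K.val (aeval V Ψ) = 0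
      have h5 := comp_aeval_apply (f := V) K.val Ψ
      rw [h5]
      exact h4
  have hKalg : Algebra.IsAlgebraic (Algebra.adjoin A (Set.range fun _ : Unit => V j)) K := by
    have h6 : (Set.range fun _ : Unit => V j) = {V j} := by simp
    rw [h6]
    refine alg_change _ _ ?_ (alg_topS (Set.range V) hVtop)
    rintro _ ⟨l, rfl⟩
    exact halgV l
  have hVind : AlgebraicIndependent A (fun _ : Unit => V j) := by
    rw [algebraicIndependent_unique_type_iff]
    intro h
    apply hj'
    exact (isAlgebraic_algHom_iff K.val K.val.toRingHom.injective).2 h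
  have htr : Algebra.trdeg A K = 1 := by
    have hb := hVind.isTranscendenceBasis_iff_isAlgebraic.2 hKalg
    rw [← hb.cardinalMk_eq_trdeg]
    simp
  have hess : Algebra.EssFiniteType A K := by
    rw [← IntermediateField.fg_top_iff]
    refine ⟨(Set.finite_range V).toFinset, ?_⟩
    rw [Set.Finite.coe_toFinset]
    exact hVtop
  have hFF : IsFF A K := ⟨hess, htr⟩
  refine main_pt2 (K := K) Z hind htop V ?_ ?_ hodd e ?_
  · intro h
    have h1 := congrArg Subtype.val (congrFun h 0)
    change u 0 = 0 at h1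
    rw [hu0] at h1
    exact one_ne_zero h1
  · apply Subtype.ext
    change K.val (∑ i, V i ^ 3) = 0
    rw [map_sum, ← hu3]
    exact Finset.sum_congr rfl fun i _ => map_pow _ _ _
  · exact he

/-- **chords of the sum of cubes through points of transcendence degree at most one** -/
theorem fermat_curve {A0 R : Type} [Field A0] [CharZero A0] [Field R] [Algebra A0 R] {k : ℕ}
    (y : Fin (k + 4) → R) (hy : AlgebraicIndependent A0 y)
    (hodd : Odd (finrank (adjoin A0 (Set.range y)) R))
    (v : Fin (k + 5) → R) (hv : v ≠ 0) (hv3 : ∑ i, v i ^ 3 = 0) (e : R)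
    (he : e ^ 2 = 9 * (∑ i, (Fin.cons 1 y : Fin (k + 5) → R) i ^ 2 * v i) ^ 2 -
      12 * (∑ i, (Fin.cons 1 y : Fin (k + 5) → R) i ^ 3) *
        ∑ i, (Fin.cons 1 y : Fin (k + 5) → R) i * v i ^ 2)
    (hrel : ∀ j l : Fin (k + 5), 0 ≠ j → 0 ≠ l → j ≠ l → ∃ (d : ℕ)
      (Ψ : MvPolynomial (Fin (k + 5)) A0), Ψ.IsHomogeneous d ∧
      Ψ ≠ 0 ∧ (∀ β ∈ Ψ.support, ∀ a, a ≠ 0 → a ≠ j → a ≠ l → β a = 0) ∧ aeval v Ψ = 0) :
    False := by
  classical
  have hv0 : v 0 ≠ 0 := by
    intro h0
    exact hv (second_any (m := k + 3) y hy hodd v e 0 h0 he)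
  let A := AlgebraicClosure A0
  let Λ := FractionRing (MvPolynomial (Fin (k + 5)) A)
  let Z : Fin (k + 5) → Λ := fun i => algebraMap (MvPolynomial (Fin (k + 5)) A) Λ (X i)
  have hcharA : CharZero A := charZero_of_injective_algebraMap (algebraMap A0 A).injective
  have hZind : AlgebraicIndependent A Z := by
    have h1 : AlgebraicIndependent A (X : Fin (k + 5) → MvPolynomial (Fin (k + 5)) A) :=
      MvPolynomial.algebraicIndependent_X (Fin (k + 5)) A
    exact h1.map' (f := IsScalarTower.toAlgHom A (MvPolynomial (Fin (k + 5)) A) Λ)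
      (IsFractionRing.injective (MvPolynomial (Fin (k + 5)) A) Λ)
  have hZtop : adjoin A (Set.range Z) = ⊤ := by
    rw [eq_top_iff]
    intro c _
    have hp : ∀ p : MvPolynomial (Fin (k + 5)) A,
        algebraMap (MvPolynomial (Fin (k + 5)) A) Λ p ∈ adjoin A (Set.range Z) := by
      intro p
      induction p using MvPolynomial.induction_on with
      | C a =>
        exact IntermediateField.algebraMap_mem _ a
      | add p q hp hq => rw [map_add]; exact add_mem hp hq
      | mul_X p i hp => rw [map_mul]; exact mul_mem hp (subset_adjoin A _ ⟨i, rfl⟩)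
    obtain ⟨p, q, -, rfl⟩ := IsFractionRing.div_surjective (A := MvPolynomial (Fin (k + 5)) A) c
    exact div_mem (hp p) (hp q)
  have hZ0 : Z 0 ≠ 0 := hZind.ne_zero 0
  -- the ratios of the coordinates are algebraically independent over the small field
  have htowA : IsScalarTower A0 A Λ := inferInstance
  have hz : AlgebraicIndependent A0 (fun l : Fin (k + 4) => Z l.succ / Z 0) := by
    have h1 := (inv_data (A := A) (m := k + 4) Z hZind).1
    have h2 := h1.comp Fin.succ (Fin.succ_injective _)
    exact h2.restrictScalars (algebraMap A0 A).injective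
  obtain ⟨f, hf⟩ := exists_hom' y hy _ hz
  let _ : Algebra (adjoin A0 (Set.range y)) Λ := f.toRingHom.toAlgebra
  have hcharL : CharZero (adjoin A0 (Set.range y)) :=
    charZero_of_injective_algebraMap (algebraMap A0 (adjoin A0 (Set.range y))).injective
  obtain ⟨E, _, _, g, hg, hoddE⟩ := base_change (L0 := adjoin A0 (Set.range y)) (R := R) (L1 := Λ)
    hodd
  let _ : Algebra A E := ((algebraMap Λ E).comp (algebraMap A Λ)).toAlgebra
  have htow : IsScalarTower A Λ E := IsScalarTower.of_algebraMap_eq fun _ => rfl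
  set z : Fin (k + 5) → E := fun i => algebraMap Λ E (Z i) with hzdef
  have hz0 : z 0 ≠ 0 := (map_ne_zero _).2 hZ0
  have hgY : ∀ i, g ((Fin.cons 1 y : Fin (k + 5) → R) i) = z i / z 0 := by
    intro i
    refine Fin.cases ?_ (fun j => ?_) i
    · rw [Fin.cons_zero, map_one, div_self hz0]
    · rw [Fin.cons_succ]
      have h1 := hg ⟨y j, subset_adjoin A0 _ ⟨j, rfl⟩⟩
      change g (y j) = algebraMap Λ E (f _) at h1
      rw [h1, hf, map_div₀]
  have hgv0 : g (v 0) ≠ 0 := (map_ne_zero _).2 hv0
  let u : Fin (k + 5) → E := fun i => g (v i) / g (v 0)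
  refine fermat_closed (A := A) (Λ := Λ) Z hZind hZtop hoddE u (div_self hgv0) ?_
    (z 0 ^ 2 * g e / g (v 0)) ?_ ?_
  · have h1 : ∑ i, u i ^ 3 = g (∑ i, v i ^ 3) / g (v 0) ^ 3 := by
      rw [map_sum, Finset.sum_div]
      exact Finset.sum_congr rfl fun i _ => by
        change (g (v i) / g (v 0)) ^ 3 = _
        rw [map_pow, div_pow]
    rw [h1, hv3, map_zero, zero_div]
  · have h1 := congrArg g he
    simp only [map_sub, map_mul, map_pow, map_sum, map_ofNat, hgY] at h1
    have s1 : ∑ i, (z i / z 0) ^ 2 * g (v i) = (∑ i, z i ^ 2 * u i) * g (v 0) / z 0 ^ 2 := by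
      rw [Finset.sum_mul, Finset.sum_div]
      refine Finset.sum_congr rfl fun i _ => ?_
      change _ = z i ^ 2 * (g (v i) / g (v 0)) * g (v 0) / z 0 ^ 2
      field_simp
    have s2 : ∑ i, (z i / z 0) ^ 3 = (∑ i, z i ^ 3) / z 0 ^ 3 := by
      rw [Finset.sum_div]
      exact Finset.sum_congr rfl fun i _ => by rw [div_pow]
    have s3 : ∑ i, z i / z 0 * g (v i) ^ 2 = (∑ i, z i * u i ^ 2) * g (v 0) ^ 2 / z 0 := by
      rw [Finset.sum_mul, Finset.sum_div]
      refine Finset.sum_congr rfl fun i _ => ?_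
      change _ = z i * (g (v i) / g (v 0)) ^ 2 * g (v 0) ^ 2 / z 0
      field_simp
    rw [s1, s2, s3] at h1
    change (z 0 ^ 2 * g e / g (v 0)) ^ 2 = 9 * (∑ i, z i ^ 2 * u i) ^ 2 -
      12 * (∑ i, z i ^ 3) * ∑ i, z i * u i ^ 2
    rw [div_pow, mul_pow, h1]
    field_simp
  · intro j l hj hl hjl
    obtain ⟨d, Ψ, h1, h2, h3, h4⟩ := hrel j l hj hl hjl
    refine ⟨d, map (algebraMap A0 A) Ψ, h1.map _, ?_, ?_, ?_⟩
    · intro h
      exact h2 (map_injective _ (algebraMap A0 A).injective (by rw [h, map_zero]))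
    · intro β hβ
      rw [support_map_of_injective _ (algebraMap A0 A).injective] at hβ
      exact h3 β hβ
    · have e1 : aeval u (map (algebraMap A0 A) Ψ) = eval₂ ((algebraMap A E).comp
          (algebraMap A0 A)) u Ψ := by
        rw [aeval_def, eval₂_map]
      have e2 : (algebraMap A E).comp (algebraMap A0 A) = g.comp (algebraMap A0 R) := by
        ext a
        have h5 := hg (algebraMap A0 (adjoin A0 (Set.range y)) a)
        rw [← IsScalarTower.algebraMap_apply A0 (adjoin A0 (Set.range y)) R] at h5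
        rw [RingHom.comp_apply, RingHom.comp_apply, h5]
        change algebraMap Λ E (algebraMap A Λ (algebraMap A0 A a)) =
          algebraMap Λ E (f (algebraMap A0 (adjoin A0 (Set.range y)) a))
        rw [f.commutes, ← IsScalarTower.algebraMap_apply A0 A Λ]
      have e3 : (fun i => g (v i)) = fun i => g (v 0) * u i := by
        funext i
        change g (v i) = g (v 0) * (g (v i) / g (v 0))
        field_simp
      have e4 : g (aeval v Ψ) = g (v 0) ^ d * eval₂ (g.comp (algebraMap A0 R)) u Ψ := by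
        rw [aeval_def, hom_eval₂]
        change eval₂ _ (fun i => g (v i)) Ψ = _
        rw [e3]
        exact Pool.Agent.R845.E3.Trans.eval₂_smul _ _ _ h1
      rw [h4, map_zero] at e4
      rw [e1, e2]
      exact (mul_eq_zero.1 e4.symm).resolve_left (pow_ne_zero _ hgv0)

end

end Pool.Agent.T9h1
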