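import Pool.Agent.T9h1.Cov2

/-! # Chords and conics through the points of zero sets of covariants -/

set_option autoImplicit false

namespace Pool.Agent.T9h1

open MvPolynomial Pool.Agent.TH314.PD Module Pool.Agent.Y201.C3 IntermediateField
open Pool.Agent.R845.T2 Pool.Agent.R845.E3 Pool.Agent.N122 Pool.Agent.R845.VG

noncomputable section

/-- chords through the points of a hypersurface which contains no point of the kind considered -/
theorem chord_h {n : ℕ} {F : MvPolynomial (Fin (n + 2)) ℂ} (hF : F.IsHomogeneous 3) (hsm : Sm F)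
    {M : Type} [Field M] [Algebra ℂ M]
    (x c : Fin (n + 2) → M) (hG : Gp F x) (hodd : Odd (finrank (ratioField x) M)) (hc : c ≠ 0)
    (hcF : aeval c F = 0) (H : MvPolynomial (Fin (n + 2)) ℂ) (d : ℕ)
    (hH : H.IsHomogeneous d) (hnd : ¬ F ∣ H) (hcH : aeval c H = 0)
    (hno : ∀ (E : Type) [Field E] [Algebra ℂ E] (z : Fin (n + 2) → E),
      (∀ (e : ℕ) (G : MvPolynomial (Fin (n + 2)) ℂ), G.IsHomogeneous e → aeval z G = 0 → G = 0) →
      Odd (finrank (ratioField z) E) → ∀ c' : Fin (n + 2) → E, c' ≠ 0 → aeval c' F = 0 →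
      aeval c' H = 0 → ∀ τ : E, aeval (fun i => z i + τ * c' i) F = 0 → False)
    (s t : M) (hs : s ≠ 0)
    (hst : aeval (fun j => s * x j + t * c j) F = 0) :
    Gp F (fun j => s * x j + t * c j) ∧
      Odd (finrank (ratioField fun j => s * x j + t * c j) M) := by
  have hxc : LinearIndependent M ![x, c] := by
    rw [LinearIndependent.pair_iff]
    intro u v huv
    have hu : u = 0 := by
      by_contra hu
      apply hnd
      refine hG.2 d _ hH ?_
      have h1 : x = fun i => -(v / u) * c i := by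
        funext i
        have h2 := congrFun huv i
        simp only [Pi.add_apply, Pi.smul_apply, smul_eq_mul, Pi.zero_apply] at h2
        field_simp
        linear_combination h2
      rw [h1, aeval_smul_form hH, hcH, mul_zero]
    refine ⟨hu, ?_⟩
    rw [hu, zero_smul, zero_add] at huv
    exact (smul_eq_zero.1 huv).resolve_right hc
  refine chord_gen hF hsm x c hG hodd hxc (fun h => hnd (h.2 d _ hH hcH)) hcF ?_ s t hs hst
  intro hz hodd'
  let f : M →ₐ[ℂ] FractionRing (Polynomial M) := (IsScalarTower.toAlgHom ℂ (Polynomial M)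
      (FractionRing (Polynomial M))).comp (Polynomial.CAlgHom : M →ₐ[ℂ] Polynomial M)
  have hf : ∀ v, f v = algebraMap (Polynomial M) (FractionRing (Polynomial M))
    (Polynomial.C v) := fun _ => rfl
  refine hno _ _ hz hodd' (fun i => f (c i)) ?_ ?_ ?_
    (-(algebraMap (Polynomial M) (FractionRing (Polynomial M)) Polynomial.X)) ?_
  · intro h
    apply hc
    funext i
    have h2 := congrFun h i
    exact f.toRingHom.injective (by
      rw [Pi.zero_apply, map_zero]
      exact h2)
  · have h4 := comp_aeval_apply (f := c) f F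
    rw [hcF, map_zero] at h4
    exact h4.symm
  · have h4 := comp_aeval_apply (f := c) f H
    rw [hcH, map_zero] at h4
    exact h4.symm
  · have h4 := comp_aeval_apply (f := x) f F
    rw [hG.1, map_zero] at h4
    rw [h4]
    congr 2
    funext i
    rw [hf, hf, map_add, map_mul]
    ring

theorem hom_cov {m : ℕ} {ι : Type} (k : Subfield ℂ) (G : ι → MvPolynomial (Fin (m + 2)) ℂ) (g : ℕ)
    (hG : ∀ j, (G j).IsHomogeneous g) (P : MvPolynomial ι k) (d : ℕ) (hP : P.IsHomogeneous d) :
    (eval₂ (C.comp k.subtype) G P).IsHomogeneous (g * d) :=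
  IsHomogeneous.eval₂ hP _ _ (fun r => isHomogeneous_C _ _) hG

/-- **chords through the points of the zero set of a covariant** -/
theorem chord_cov {n : ℕ} (K : Subfield ℂ) [Countable K]
    {F : MvPolynomial (Fin (n + 2)) ℂ} (hF : F.IsHomogeneous 3) (hsm : Sm F)
    (hind : AlgebraicIndependent K (cf 3 F))
    (g : ℕ) (hg1 : 1 ≤ g) (hg2 : g ≤ 2) {ι : Type} (G : ι → MvPolynomial (Fin (n + 2)) ℂ)
    (hGh : ∀ j, (G j).IsHomogeneous g)
    (ν : ι → ℕ) (a : ι → Fin (n + 2)) (hCv : Cv F g G ν a)
    (P : MvPolynomial ι K) (d : ℕ) (hP : P.IsHomogeneous d)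
    (hPd0 : eval₂ C (fun j => C (ν j : K) * X (a j)) P ≠ (0 : MvPolynomial (Fin (n + 2)) K))
    {M : Type} [Field M] [Algebra ℂ M]
    (x c : Fin (n + 2) → M) (hG : Gp F x) (hodd : Odd (finrank (ratioField x) M)) (hc : c ≠ 0)
    (hcF : aeval c F = 0) (hcP : aeval c (eval₂ (C.comp K.subtype) G P) = 0)
    (s t : M) (hs : s ≠ 0)
    (hst : aeval (fun j => s * x j + t * c j) F = 0) :
    Gp F (fun j => s * x j + t * c j) ∧
      Odd (finrank (ratioField fun j => s * x j + t * c j) M) :=
  chord_h hF hsm x c hG hodd hc hcF _ _ (hom_cov K G g hGh P d hP)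
    (nd_cov K F hF hind g hg1 hg2 G ν a hCv P d hP hPd0) hcP
    (fun _ _ _ z hz hodd' c' hc' hcF' hcP' τ hτ =>
      no_cov K F hF hind g hg1 hg2 G ν a hCv P d hP hPd0 z hz hodd' c' hc' hcF' hcP' τ hτ)
    s t hs hst

/-- **the points of an odd family of conics are not on the zero set of a covariant** -/
theorem no_conics_cov {n : ℕ} (K : Subfield ℂ) [Countable K]
    {F : MvPolynomial (Fin (n + 2)) ℂ} (hF : F.IsHomogeneous 3) (hsm : Sm F)
    (hind : AlgebraicIndependent K (cf 3 F))
    (g : ℕ) (hg1 : 1 ≤ g) (hg2 : g ≤ 2) {ι : Type} (G : ι → MvPolynomial (Fin (n + 2)) ℂ)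
    (hGh : ∀ j, (G j).IsHomogeneous g)
    (ν : ι → ℕ) (a : ι → Fin (n + 2)) (hCv : Cv F g G ν a)
    (P : MvPolynomial ι K) (d : ℕ) (hP : P.IsHomogeneous d)
    (hPd0 : eval₂ C (fun j => C (ν j : K) * X (a j)) P ≠ (0 : MvPolynomial (Fin (n + 2)) K))
    {M : Type} [Field M] [Algebra ℂ M] (L : IntermediateField ℂ M) (t : M)
    (ht : Transcendental L t) (α β γ : Fin (n + 2) → M) (hα : ∀ i, α i ∈ L)
    (hβ : ∀ i, β i ∈ L) (hγ : ∀ i, γ i ∈ L)
    (hG : Gp F (fun i => t ^ 2 * α i + t * β i + γ i))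
    (hcP : aeval α (eval₂ (C.comp K.subtype) G P) = 0) :
    Even (finrank (ratioField fun i => t ^ 2 * α i + t * β i + γ i) M) := by
  have hnd := nd_cov K F hF hind g hg1 hg2 G ν a hCv P d hP hPd0
  have hHhom := hom_cov K G g hGh P d hP
  refine no_conics_gen hF hsm L t ht α β γ hα hβ hγ hG ?_ ?_
  · intro hα0
    rw [LinearIndependent.pair_iff]
    intro u v huv
    have hu : u = 0 := by
      by_contra hu
      apply hnd
      refine hG.2 _ _ hHhom ?_
      have h1 : (fun i => t ^ 2 * α i + t * β i + γ i) = fun i => -(v / u) * α i := by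
        funext i
        have h2 := congrFun huv i
        simp only [Pi.add_apply, Pi.smul_apply, smul_eq_mul, Pi.zero_apply] at h2
        field_simp
        linear_combination h2
      rw [h1, aeval_smul_form hHhom, hcP, mul_zero]
    refine ⟨hu, ?_⟩
    rw [hu, zero_smul, zero_add] at huv
    exact (smul_eq_zero.1 huv).resolve_right hα0
  · intro hα0 hαF s τ hs hodd hst
    exact chord_cov K hF hsm hind g hg1 hg2 G hGh ν a hCv P d hP hPd0 _ α hG hodd hα0 hαF hcP
      s τ hs hst

end

end Pool.Agent.T9h1
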