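import Pool.Agent.T9h1.C20
import Pool.Agent.T9h1.Cov3

/-! # Chords and conics through points of transcendence degree at most one -/

set_option autoImplicit false

namespace Pool.Agent.T9h1

open MvPolynomial Pool.Agent.TH314.PD Module Pool.Agent.Y201.C3 IntermediateField
open Pool.Agent.R845.T2 Pool.Agent.R845.E3 Pool.Agent.N122 Pool.Agent.R845.VG

noncomputable section

/-- the exponents of the homogenization -/
def he {n : ℕ} (i j l : Fin n) (D : ℕ) (β : Fin 2 →₀ ℕ) : Fin n →₀ ℕ :=
  Finsupp.single i (D - β.degree) + (Finsupp.single j (β 0) + Finsupp.single l (β 1))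

theorem tern {M : Type} [Field M] [Algebra ℂ M] {n : ℕ} (c : Fin n → M)
    (htr : Algebra.trdeg ℂ (ratioField c) ≤ 1) (i j l : Fin n) (hij : i ≠ j) (hil : i ≠ l)
    (hjl : j ≠ l) : ∃ (d : ℕ) (Ψ : MvPolynomial (Fin n) ℂ), Ψ.IsHomogeneous d ∧ Ψ ≠ 0 ∧
      (∀ β ∈ Ψ.support, ∀ a, a ≠ i → a ≠ j → a ≠ l → β a = 0) ∧ aeval c Ψ = 0 := by
  classical
  by_cases hci : c i = 0
  · refine ⟨1, X i, isHomogeneous_X _ _, X_ne_zero _, ?_, by rw [aeval_X, hci]⟩
    intro β hβ a ha _ _
    rw [support_X, Finset.mem_singleton] at hβ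
    rw [hβ, Finsupp.single_eq_of_ne ha]
  have hmem : ∀ a b, c a / c b ∈ ratioField c := fun a b => subset_adjoin ℂ _ ⟨a, b, rfl⟩
  let r : Fin 2 → ratioField c := ![⟨c j / c i, hmem j i⟩, ⟨c l / c i, hmem l i⟩]
  have hdep : ¬ AlgebraicIndependent ℂ r := by
    intro h
    have h1 := h.cardinalMk_le_trdeg
    rw [Cardinal.mk_fin] at h1
    have h2 := h1.trans htr
    have h3 : (2 : ℕ) ≤ 1 := by exact_mod_cast h2
    omega
  unfold AlgebraicIndependent at hdep
  rw [injective_iff_map_eq_zero] at hdep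
  push Not at hdep
  obtain ⟨p, hp0, hpne⟩ := hdep
  let D := p.totalDegree
  have hle : ∀ β ∈ p.support, β.degree ≤ D := by
    intro β hβ
    have h1 := le_totalDegree hβ
    rw [Finsupp.sum_fintype _ _ (fun _ => rfl)] at h1
    rw [Finsupp.degree_eq_sum]
    exact h1
  have hed : ∀ β ∈ p.support, (he i j l D β).degree = D := by
    intro β hβ
    have h1 := hle β hβ
    have h2 : β.degree = β 0 + β 1 := by
      rw [Finsupp.degree_eq_sum, Fin.sum_univ_two]
    unfold he
    rw [map_add, map_add, Finsupp.degree_single, Finsupp.degree_single, Finsupp.degree_single]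
    omega
  have heinj : ∀ β γ : Fin 2 →₀ ℕ, he i j l D β = he i j l D γ → β = γ := by
    intro β γ h
    have h1 := DFunLike.congr_fun h j
    have h2 := DFunLike.congr_fun h l
    unfold he at h1 h2
    simp only [Finsupp.add_apply, Finsupp.single_eq_same, Finsupp.single_eq_of_ne hij.symm,
      Finsupp.single_eq_of_ne hjl, Finsupp.single_eq_of_ne hil.symm,
      Finsupp.single_eq_of_ne hjl.symm] at h1 h2
    ext a
    fin_cases a
    · change β 0 = γ 0
      omega
    · change β 1 = γ 1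
      omega
  let Ψ : MvPolynomial (Fin n) ℂ := ∑ β ∈ p.support, monomial (he i j l D β) (coeff β p)
  have hsupp : ∀ δ ∈ Ψ.support, ∃ β ∈ p.support, δ = he i j l D β := by
    intro δ hδ
    rw [MvPolynomial.mem_support_iff] at hδ
    change coeff δ (∑ β ∈ p.support, monomial (he i j l D β) (coeff β p)) ≠ 0 at hδ
    rw [coeff_sum] at hδ
    obtain ⟨β, hβ, h1⟩ := Finset.exists_ne_zero_of_sum_ne_zero hδ
    refine ⟨β, hβ, ?_⟩
    rw [coeff_monomial] at h1
    by_contra hne
    rw [if_neg (Ne.symm hne)] at h1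
    exact h1 rfl
  refine ⟨D, Ψ, ?_, ?_, ?_, ?_⟩
  · refine IsHomogeneous.sum _ _ _ fun β hβ => ?_
    exact isHomogeneous_monomial _ (hed β hβ)
  · obtain ⟨β, hβ⟩ := MvPolynomial.ne_zero_iff.1 hpne
    intro h
    have h1 := congrArg (coeff (he i j l D β)) h
    change coeff (he i j l D β) (∑ β ∈ p.support, monomial (he i j l D β) (coeff β p)) = _ at h1
    rw [coeff_sum, Finset.sum_eq_single β] at h1
    · rw [coeff_monomial, if_pos rfl, coeff_zero] at h1
      exact hβ h1
    · intro γ _ hγ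
      rw [coeff_monomial, if_neg]
      intro h2
      exact hγ (heinj _ _ h2)
    · intro h2
      rw [notMem_support_iff.1 h2, monomial_zero, coeff_zero]
  · intro δ hδ a h1 h2 h3
    obtain ⟨β, -, rfl⟩ := hsupp δ hδ
    unfold he
    rw [Finsupp.add_apply, Finsupp.add_apply, Finsupp.single_eq_of_ne h1,
      Finsupp.single_eq_of_ne h2, Finsupp.single_eq_of_ne h3, add_zero, add_zero]
  · have h1 : aeval c Ψ = c i ^ D * ((aeval r p : ratioField c) : M) := by
      have h2 : ((aeval r p : ratioField c) : M) = aeval (fun a => ((r a : ratioField c) : M)) p := by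
        have h3 := comp_aeval_apply (f := r) (ratioField c).val p
        exact h3
      rw [h2]
      change aeval c (∑ β ∈ p.support, monomial (he i j l D β) (coeff β p)) = _
      rw [map_sum, aeval_def, eval₂_eq', Finset.mul_sum]
      refine Finset.sum_congr rfl fun β hβ => ?_
      have hd := hle β hβ
      have h4 : β.degree = β 0 + β 1 := by
        rw [Finsupp.degree_eq_sum, Fin.sum_univ_two]
      rw [aeval_monomial]
      unfold he
      have hpa : ∀ f g : Fin n →₀ ℕ, (f + g).prod (fun x e => c x ^ e) =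
          f.prod (fun x e => c x ^ e) * g.prod (fun x e => c x ^ e) := fun f g =>
        Finsupp.prod_add_index' (fun _ => pow_zero _) (fun _ _ _ => pow_add _ _ _)
      have hps : ∀ (a : Fin n) (e : ℕ), (Finsupp.single a e).prod (fun x e => c x ^ e) =
          c a ^ e := fun a e => Finsupp.prod_single_index (pow_zero _)
      rw [hpa, hpa, hps, hps, hps, Fin.prod_univ_two]
      change _ = c i ^ D * (algebraMap ℂ M (coeff β p) * ((c j / c i) ^ β 0 * (c l / c i) ^ β 1))
      have h5 : c i ^ D = c i ^ (D - β.degree) * (c i ^ β 0 * c i ^ β 1) := by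
        rw [← pow_add, ← pow_add]
        congr 1
        omega
      rw [h5, div_pow, div_pow]
      field_simp
    rw [h1, hp0]
    simp

/-- a form in few variables is not divisible by a generic cubic form -/
theorem not_dvd3 {n : ℕ} (F H : MvPolynomial (Fin n) ℂ) (a : Fin n)
    (ha : coeff (Finsupp.single a 3) F ≠ 0) (hH : H ≠ 0) (hs : ∀ β ∈ H.support, β a = 0) :
    ¬ F ∣ H := by
  classical
  rintro ⟨Q, rfl⟩
  have hF0 : F ≠ 0 := left_ne_zero_of_mul hH
  have hQ0 : Q ≠ 0 := right_ne_zero_of_mul hH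
  have h1 := degreeOf_mul_eq (n := a) hF0 hQ0
  have h2 : degreeOf a (F * Q) = 0 := by
    rw [degreeOf_eq_sup]
    apply Nat.eq_zero_of_le_zero
    apply Finset.sup_le
    intro β hβ
    rw [hs β hβ]
  have h3 : 3 ≤ degreeOf a F := by
    rw [degreeOf_eq_sup]
    have h4 := Finset.le_sup (f := fun m : Fin n →₀ ℕ => m a) (MvPolynomial.mem_support_iff.2 ha)
    simpa using h4
  omega

/-- chords through the points on which all forms of a family vanish -/
theorem chord_fam {n : ℕ} {F : MvPolynomial (Fin (n + 2)) ℂ} (hF : F.IsHomogeneous 3) (hsm : Sm F)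
    {M : Type} [Field M] [Algebra ℂ M]
    (x c : Fin (n + 2) → M) (hG : Gp F x) (hodd : Odd (finrank (ratioField x) M)) (hc : c ≠ 0)
    (hcF : aeval c F = 0) {T : Type} (H : T → MvPolynomial (Fin (n + 2)) ℂ) (d : T → ℕ)
    (hH : ∀ t, (H t).IsHomogeneous (d t)) (t0 : T) (hnd : ¬ F ∣ H t0) (hcH : ∀ t, aeval c (H t) = 0)
    (hno : ∀ (E : Type) [Field E] [Algebra ℂ E] (z : Fin (n + 2) → E),
      (∀ (e : ℕ) (G : MvPolynomial (Fin (n + 2)) ℂ), G.IsHomogeneous e → aeval z G = 0 → G = 0) →
      Odd (finrank (ratioField z) E) → ∀ c' : Fin (n + 2) → E, c' ≠ 0 → aeval c' F = 0 →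
      (∀ t, aeval c' (H t) = 0) → ∀ τ : E, aeval (fun i => z i + τ * c' i) F = 0 → False)
    (s t : M) (hs : s ≠ 0)
    (hst : aeval (fun j => s * x j + t * c j) F = 0) :
    Gp F (fun j => s * x j + t * c j) ∧
      Odd (finrank (ratioField fun j => s * x j + t * c j) M) := by
  have hxc : LinearIndependent M ![x, c] := by
    rw [LinearIndependent.pair_iff]
    intro u v huv
    have hu : u = 0 := by
      by_contra hu
      apply hnd
      refine hG.2 (d t0) _ (hH t0) ?_
      have h1 : x = fun i => -(v / u) * c i := by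
        funext i
        have h2 := congrFun huv i
        simp only [Pi.add_apply, Pi.smul_apply, smul_eq_mul, Pi.zero_apply] at h2
        field_simp
        linear_combination h2
      rw [h1, aeval_smul_form (hH t0), hcH, mul_zero]
    refine ⟨hu, ?_⟩
    rw [hu, zero_smul, zero_add] at huv
    exact (smul_eq_zero.1 huv).resolve_right hc
  refine chord_gen hF hsm x c hG hodd hxc (fun h => hnd (h.2 (d t0) _ (hH t0) (hcH t0))) hcF ?_
    s t hs hst
  intro hz hodd'
  let f : M →ₐ[ℂ] FractionRing (Polynomial M) := (IsScalarTower.toAlgHom ℂ (Polynomial M)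
      (FractionRing (Polynomial M))).comp (Polynomial.CAlgHom : M →ₐ[ℂ] Polynomial M)
  have hf : ∀ v, f v = algebraMap (Polynomial M) (FractionRing (Polynomial M))
    (Polynomial.C v) := fun _ => rfl
  refine hno _ _ hz hodd' (fun i => f (c i)) ?_ ?_ ?_
    (-(algebraMap (Polynomial M) (FractionRing (Polynomial M)) Polynomial.X)) ?_
  · intro h
    apply hc
    funext i
    have h2 := congrFun h i
    exact f.toRingHom.injective (by
      rw [Pi.zero_apply, map_zero]
      exact h2)
  · have h4 := comp_aeval_apply (f := c) f F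
    rw [hcF, map_zero] at h4
    exact h4.symm
  · intro t
    have h4 := comp_aeval_apply (f := c) f (H t)
    rw [hcH, map_zero] at h4
    exact h4.symm
  · have h4 := comp_aeval_apply (f := x) f F
    rw [hG.1, map_zero] at h4
    rw [h4]
    congr 2
    funext i
    rw [hf, hf, map_add, map_mul]
    ring

/-- the index set of the relations -/
abbrev Tr (N : ℕ) : Type := {p : Fin (N + 1) × Fin (N + 1) // 0 ≠ p.1 ∧ 0 ≠ p.2 ∧ p.1 ≠ p.2}

/-- the line through a generic point of the space of odd degree and a point of transcendence degree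
at most one is not a chord -/
theorem no_curve {k : ℕ} (K : Subfield ℂ) [Countable K] (F : MvPolynomial (Fin (k + 3 + 2)) ℂ)
    (hF : F.IsHomogeneous 3) (hind : AlgebraicIndependent K (cf 3 F))
    (Ψ : Tr (k + 4) → MvPolynomial (Fin (k + 3 + 2)) ℂ) (d : Tr (k + 4) → ℕ)
    (hΨ : ∀ t, (Ψ t).IsHomogeneous (d t)) (hΨ0 : ∀ t, Ψ t ≠ 0)
    (hs : ∀ t : Tr (k + 4), ∀ β ∈ (Ψ t).support, ∀ a, a ≠ 0 → a ≠ t.1.1 → a ≠ t.1.2 → β a = 0)
    {E : Type} [Field E] [Algebra ℂ E] (z : Fin (k + 3 + 2) → E)
    (hz : ∀ (e : ℕ) (G : MvPolynomial (Fin (k + 3 + 2)) ℂ), G.IsHomogeneous e → aeval z G = 0 →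
      G = 0)
    (hodd : Odd (finrank (ratioField z) E)) (c : Fin (k + 3 + 2) → E) (hc : c ≠ 0)
    (hcF : aeval c F = 0) (hcΨ : ∀ t, aeval c (Ψ t) = 0) (τ : E)
    (hx : aeval (fun i => z i + τ * c i) F = 0) : False := by
  classical
  obtain ⟨κ, _, _, s, A, θ, -, -, -, R, _, _, A0, y', v, e, hchar, hy, hoddR, hv, hv3, he, -,
    hrel⟩ := residue K F hF hind 0 1 (by
      intro β _
      unfold wtt
      simp) z hz hodd c hc hcF τ hx d Ψ hΨ hΨ0 hcΨ
  refine fermat_curve (A0 := A0) (k := k) y' hy hoddR v hv hv3 e he ?_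
  intro j l hj hl hjl
  obtain ⟨Ψ', h1, h2, h3, h4⟩ := hrel rfl ⟨(j, l), hj, hl, hjl⟩
  exact ⟨_, Ψ', h1, h2, fun β hβ => hs _ β (h3 hβ), h4⟩

end

end Pool.Agent.T9h1
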