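import Pool.Agent.T9h1.C2

/-! # The conic bundle of the sum of cubes: norms -/

set_option autoImplicit false

namespace Pool.Agent.T9h1

open MvPolynomial Module Pool.Agent.R845.E3

noncomputable section

variable {K : Type} [Field K] {k : ℕ}

/-- the equation `p² = D(q)`, `D = -(w q² + g / 12)` of the conic -/
def DD (K : Type) [Field K] (k : ℕ) : Polynomial (MvPolynomial (Fin (k + 4)) K) :=
  -(Polynomial.C (X 1) * Polynomial.X ^ 2 + Polynomial.C (C (1 / 12) * gg K k))

theorem ns [CharZero K] (hω : ∃ ω : K, ω ^ 2 + ω + 1 = 0) (f : MvPolynomial (Fin (k + 4)) K)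
    (hf : Prime f) (a c : Polynomial (MvPolynomial (Fin (k + 4)) K))
    (h : Polynomial.C f ∣ a ^ 2 - c ^ 2 * DD K k) :
    Polynomial.C f ∣ a ∧ Polynomial.C f ∣ c := by
  classical
  obtain ⟨L, _, _, π, hπ, hπs⟩ := exists_res (K := K) f hf
  have hL : CharZero L := charZero_of_injective_algebraMap (algebraMap K L).injective
  let μ : Polynomial (MvPolynomial (Fin (k + 4)) K) →+* Polynomial L :=
    Polynomial.mapRingHom π.toRingHom
  have hμ : ∀ p, μ p = 0 ↔ Polynomial.C f ∣ p := by
    intro p
    rw [Polynomial.C_dvd_iff_dvd_coeff, Polynomial.ext_iff]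
    refine forall_congr' fun i => ?_
    rw [← hπ]
    change (Polynomial.map _ p).coeff i = _ ↔ _
    rw [Polynomial.coeff_map, Polynomial.coeff_zero]
    rfl
  have hμC : ∀ x, μ (Polynomial.C x) = Polynomial.C (π x) := fun x => Polynomial.map_C _
  have hμX : μ Polynomial.X = Polynomial.X := Polynomial.map_X _
  rw [← hμ] at h ⊢
  rw [← hμ]
  have hD : μ (DD K k) = -(Polynomial.C (π (X 1)) * Polynomial.X ^ 2 +
      Polynomial.C (1 / 12 * π (gg K k))) := by
    unfold DD
    rw [map_neg, map_add, map_mul, map_pow, hμC, hμC, hμX, map_mul]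
    have : π (C (1 / 12)) = 1 / 12 := by
      have h1 : π (C (1 / 12)) = algebraMap K L (1 / 12) := π.commutes _
      rw [h1, map_div₀, map_one, map_ofNat]
    rw [this]
  rw [map_sub, map_mul, map_pow, map_pow, sub_eq_zero] at h
  have hc : μ c = 0 := by
    by_contra hc
    have h1 : μ c ^ 2 ∣ μ a ^ 2 := ⟨_, h⟩
    rw [IsIntegrallyClosed.pow_dvd_pow_iff two_ne_zero] at h1
    obtain ⟨r, hr⟩ := h1
    rw [hr, mul_pow] at h
    have h2 : r ^ 2 = μ (DD K k) := mul_left_cancel₀ (pow_ne_zero 2 hc) h
    rw [hD] at h2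
    have hdeg : r.natDegree ≤ 1 := by
      have h3 := congrArg Polynomial.natDegree h2
      rw [Polynomial.natDegree_pow] at h3
      have h4 : (-(Polynomial.C (π (X 1)) * Polynomial.X ^ 2 +
          Polynomial.C (1 / 12 * π (gg K k)))).natDegree ≤ 2 := by
        rw [Polynomial.natDegree_neg]
        compute_degree
      omega
    have hr1 : r = Polynomial.C (r.coeff 1) * Polynomial.X + Polynomial.C (r.coeff 0) :=
      Polynomial.eq_X_add_C_of_natDegree_le_one hdeg
    set r1 := r.coeff 1
    set r0 := r.coeff 0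
    rw [hr1] at h2
    have h3 : (Polynomial.C (r1 ^ 2) * Polynomial.X ^ 2 + Polynomial.C (2 * r1 * r0) *
        Polynomial.X + Polynomial.C (r0 ^ 2) : Polynomial L) =
        -(Polynomial.C (π (X 1)) * Polynomial.X ^ 2 + Polynomial.C (1 / 12 * π (gg K k))) := by
      rw [← h2]
      simp only [map_mul, map_pow, map_ofNat]
      ring
    have c2 := congrArg (fun p => Polynomial.coeff p 2) h3
    have c1 := congrArg (fun p => Polynomial.coeff p 1) h3
    have c0 := congrArg (fun p => Polynomial.coeff p 0) h3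
    simp only [Polynomial.coeff_add, Polynomial.coeff_neg, Polynomial.coeff_C_mul,
      Polynomial.coeff_X_pow, Polynomial.coeff_X, Polynomial.coeff_C] at c2 c1 c0
    norm_num at c2 c1 c0
    rcases c1 with h4 | h4
    · -- `r1 = 0`
      rw [h4] at c2
      have h5 : π (X 1) = 0 := by linear_combination c2
      rw [hπ] at h5
      have hX1 : Irreducible (X 1 : MvPolynomial (Fin (k + 4)) K) := by
        have hp : Prime (X 1 : MvPolynomial (Fin (k + 4)) K) := by
          refine ⟨X_ne_zero _, ?_, ?_⟩
          · intro hu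
            have := (isUnit_iff_totalDegree_of_isReduced.1 hu).2
            rw [totalDegree_X] at this
            omega
          · intro x y hxy
            rw [dvd_iff_kill, map_mul] at hxy
            rw [dvd_iff_kill, dvd_iff_kill]
            exact mul_eq_zero.1 hxy
        exact hp.irreducible
      have hass : Associated f (X 1) := (hf.irreducible.associated_of_dvd hX1 h5)
      obtain ⟨p, q, hq, he⟩ := hπs r0
      have h6 : π (p ^ 2 + C (1 / 12) * gg K k * q ^ 2) = 0 := by
        rw [map_add, map_mul, map_mul, map_pow, map_pow]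
        have : π (C (1 / 12)) = 1 / 12 := by
          have h1 : π (C (1 / 12)) = algebraMap K L (1 / 12) := π.commutes _
          rw [h1, map_div₀, map_one, map_ofNat]
        rw [this]
        rw [he] at c0
        field_simp at c0 ⊢
        linear_combination c0
      rw [hπ, hass.dvd_iff_dvd_left] at h6
      apply hq
      rw [hπ, hass.dvd_iff_dvd_left]
      exact (alpha p q h6).2
    · -- `r0 = 0`
      rw [h4] at c0
      have h5 : π (gg K k) = 0 := by linear_combination 12 * c0
      rw [hπ] at h5
      obtain ⟨p, q, hq, he⟩ := hπs r1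
      have h6 : π (p ^ 2 + X 1 * q ^ 2) = 0 := by
        rw [map_add, map_mul, map_pow, map_pow]
        rw [he] at c2
        field_simp at c2 ⊢
        linear_combination c2
      rw [hπ] at h6
      apply hq
      rw [hπ]
      exact beta hω f hf h5 p q h6
  refine ⟨?_, hc⟩
  rw [hc] at h
  have h7 : μ a ^ 2 = 0 := by rw [h]; ring
  exact (pow_eq_zero_iff two_ne_zero).1 h7

/-- the field of fractions of the base of the conic bundle -/
abbrev K0 (K : Type) [Field K] (k : ℕ) : Type := FractionRing (MvPolynomial (Fin (k + 4)) K)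

/-- the coordinate `w` -/
def w0 (K : Type) [Field K] (k : ℕ) : K0 K k :=
  algebraMap (MvPolynomial (Fin (k + 4)) K) (K0 K k) (X 1)

/-- the constant term -/
def g0 (K : Type) [Field K] (k : ℕ) : K0 K k :=
  algebraMap (MvPolynomial (Fin (k + 4)) K) (K0 K k) (C (1 / 12) * gg K k)

/-- the conic over the function field of the base has no rational point -/
theorem aniso0 [CharZero K] (P Q R : K0 K k) (h : P ^ 2 + w0 K k * Q ^ 2 + g0 K k * R ^ 2 = 0) :
    P = 0 ∧ Q = 0 ∧ R = 0 := by
  let S := MvPolynomial (Fin (k + 4)) K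
  obtain ⟨p1, p2, hp, rfl⟩ := IsFractionRing.div_surjective (A := S) P
  obtain ⟨q1, q2, hq, rfl⟩ := IsFractionRing.div_surjective (A := S) Q
  obtain ⟨r1, r2, hr, rfl⟩ := IsFractionRing.div_surjective (A := S) R
  have hinj := IsFractionRing.injective S (K0 K k)
  have hp2 := nonZeroDivisors.ne_zero hp
  have hq2 := nonZeroDivisors.ne_zero hq
  have hr2 := nonZeroDivisors.ne_zero hr
  have e1 : algebraMap S (K0 K k) p2 ≠ 0 := (map_ne_zero_iff _ hinj).2 hp2
  have e2 : algebraMap S (K0 K k) q2 ≠ 0 := (map_ne_zero_iff _ hinj).2 hq2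
  have e3 : algebraMap S (K0 K k) r2 ≠ 0 := (map_ne_zero_iff _ hinj).2 hr2
  have h1 : (p1 * q2 * r2) ^ 2 + X 1 * (q1 * p2 * r2) ^ 2 + C (1 / 12) * gg K k *
      (r1 * p2 * q2) ^ 2 = 0 := by
    apply hinj
    rw [map_zero]
    unfold w0 g0 at h
    simp only [map_add, map_mul, map_pow] at h ⊢
    field_simp at h
    linear_combination h
  obtain ⟨h2, h3, h4⟩ := conic_aniso _ _ _ _ le_rfl h1
  have f1 : p1 = 0 := by
    rcases mul_eq_zero.1 h2 with h | h
    · rcases mul_eq_zero.1 h with h | h
      · exact h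
      · exact absurd h hq2
    · exact absurd h hr2
  have f2 : q1 = 0 := by
    rcases mul_eq_zero.1 h3 with h | h
    · rcases mul_eq_zero.1 h with h | h
      · exact h
      · exact absurd h hp2
    · exact absurd h hr2
  have f3 : r1 = 0 := by
    rcases mul_eq_zero.1 h4 with h | h
    · rcases mul_eq_zero.1 h with h | h
      · exact h
      · exact absurd h hp2
    · exact absurd h hq2
  rw [f1, f2, f3]
  simp

/-- the polynomial `D` over the function field of the base -/
def D0 (K : Type) [Field K] (k : ℕ) : Polynomial (K0 K k) :=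
  -(Polynomial.C (w0 K k) * Polynomial.X ^ 2 + Polynomial.C (g0 K k))

theorem D0_eq : D0 K k = Polynomial.map (algebraMap _ (K0 K k)) (DD K k) := by
  unfold D0 DD w0 g0
  simp

theorem w0_ne : w0 K k ≠ 0 := by
  unfold w0
  rw [map_ne_zero_iff _ (IsFractionRing.injective (MvPolynomial (Fin (k + 4)) K) (K0 K k))]
  exact X_ne_zero _

theorem natDegree_D0 : (D0 K k).natDegree = 2 := by
  unfold D0
  rw [Polynomial.natDegree_neg, Polynomial.natDegree_add_C,
    Polynomial.natDegree_C_mul_X_pow 2 _ w0_ne]

theorem lead_D0 : (D0 K k).leadingCoeff = -w0 K k := by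
  rw [Polynomial.leadingCoeff, natDegree_D0]
  unfold D0
  simp [Polynomial.coeff_X_pow, Polynomial.coeff_C]

/-- `D` is not a square of a rational function -/
theorem ns0 [CharZero K] (a c : Polynomial (K0 K k)) (h : a ^ 2 = c ^ 2 * D0 K k) :
    a = 0 ∧ c = 0 := by
  have hc : c = 0 := by
    by_contra hc
    have h1 := congrArg Polynomial.leadingCoeff h
    rw [Polynomial.leadingCoeff_mul, Polynomial.leadingCoeff_pow, Polynomial.leadingCoeff_pow,
      lead_D0] at h1
    have h2 := aniso0 a.leadingCoeff c.leadingCoeff 0 (by linear_combination h1)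
    exact hc (Polynomial.leadingCoeff_eq_zero.1 h2.2.1)
  refine ⟨?_, hc⟩
  rw [hc] at h
  have h2 : a ^ 2 = 0 := by rw [h]; ring
  exact (pow_eq_zero_iff two_ne_zero).1 h2

end

end Pool.Agent.T9h1
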