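import Mathlib

/-! # Relations between elements of a field of transcendence degree one less -/

set_option autoImplicit false

namespace Pool.Agent.T9h1

open MvPolynomial

noncomputable section

variable {K κ : Type} [Field K] [Field κ] [Algebra K κ]

theorem exists_indep {n : ℕ} (t : Fin (n + 1) → κ)
    [Algebra.IsAlgebraic (Algebra.adjoin K (Set.range t)) κ] (htr : Algebra.trdeg K κ = n) :
    ∃ i : Fin (n + 1), AlgebraicIndependent K (fun j : Fin n => t (Equiv.swap 0 i j.succ)) := by
  classical
  obtain ⟨T, hT, hb⟩ := exists_isTranscendenceBasis_subset (R := K) (A := κ) (Set.range t)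
  have hcard : Cardinal.mk T = n := by rw [hb.cardinalMk_eq_trdeg, htr]
  have hfin : Finite T := by
    rw [← Cardinal.lt_aleph0_iff_finite, hcard]
    exact Cardinal.natCast_lt_aleph0
  let _ := Fintype.ofFinite T
  have hcard' : Fintype.card T = n := by
    rw [Cardinal.mk_fintype] at hcard
    exact_mod_cast hcard
  choose ψ hψ using fun b : T => hT b.2
  have hinj : Function.Injective ψ := by
    intro b b' h
    apply Subtype.ext
    rw [← hψ b, ← hψ b', h]
  obtain ⟨i, hi⟩ : ∃ i, ∀ b, ψ b ≠ i := by
    by_contra hcon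
    push Not at hcon
    have h1 := Fintype.card_le_of_surjective ψ hcon
    rw [hcard', Fintype.card_fin] at h1
    omega
  refine ⟨i, ?_⟩
  have hne : ∀ b, Equiv.swap 0 i (ψ b) ≠ 0 := by
    intro b h
    have h1 := congrArg (Equiv.swap 0 i) h
    rw [Equiv.swap_apply_self, Equiv.swap_apply_left] at h1
    exact hi b h1
  choose e he using fun b => Fin.exists_succ_eq.2 (hne b)
  have he2 : ∀ b, t (Equiv.swap 0 i (e b).succ) = b := by
    intro b
    rw [he, Equiv.swap_apply_self, hψ]
  have heinj : Function.Injective e := by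
    intro b b' h
    apply Subtype.ext
    rw [← he2 b, ← he2 b', h]
  have hebij : Function.Bijective e := by
    rw [Fintype.bijective_iff_injective_and_card]
    exact ⟨heinj, by rw [hcard', Fintype.card_fin]⟩
  let ee := Equiv.ofBijective e hebij
  have h2 := hb.1.comp ee.symm ee.symm.injective
  have h3 : (fun j : Fin n => t (Equiv.swap 0 i j.succ)) = (Subtype.val : T → κ) ∘ ee.symm := by
    funext j
    obtain ⟨b, rfl⟩ := ee.surjective j
    rw [Function.comp_apply, Equiv.symm_apply_apply]
    exact he2 b
  rw [h3]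
  exact h2

/-- Gauss lemma in the form needed below -/
theorem gauss_kernel {R0 Q : Type} [CommRing R0] [IsDomain R0] [IsGCDMonoid R0] [Field Q]
    [Algebra R0 Q] [IsFractionRing R0 Q] (φ : R0 →+* κ) (hφ : Function.Injective φ) (x : κ)
    (F : Polynomial R0) (hF : Irreducible F) (hF0 : Polynomial.eval₂ φ x F = 0)
    (G : Polynomial R0) (hG0 : Polynomial.eval₂ φ x G = 0) : F ∣ G := by
  have hdeg : F.natDegree ≠ 0 := by
    intro h
    rw [Polynomial.natDegree_eq_zero] at h
    obtain ⟨f0, hf0⟩ := h
    rw [← hf0, Polynomial.eval₂_C] at hF0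
    have : f0 = 0 := hφ (by rw [hF0, map_zero])
    rw [this, Polynomial.C_0] at hf0
    exact hF.ne_zero hf0.symm
  have hprim := hF.isPrimitive hdeg
  have hFQ : Irreducible (F.map (algebraMap R0 Q)) :=
    (hprim.irreducible_iff_irreducible_map_fraction_map (K := Q)).1 hF
  have hφQ : ∀ p : Polynomial R0, Polynomial.eval₂ (IsFractionRing.lift hφ : Q →+* κ) x
      (p.map (algebraMap R0 Q)) = Polynomial.eval₂ φ x p := by
    intro p
    rw [Polynomial.eval₂_map]
    congr 1
    refine RingHom.ext fun x => ?_
    exact IsFractionRing.lift_algebraMap hφ x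
  refine Polynomial.IsPrimitive.dvd_of_fraction_map_dvd_fraction_map (K := Q) hprim ?_
  by_contra hnd
  have hcop := (hFQ.coprime_iff_not_dvd).2 hnd
  obtain ⟨a, b, hab⟩ := hcop
  have h1 := congrArg (Polynomial.eval₂ (IsFractionRing.lift hφ : Q →+* κ) x) hab
  rw [Polynomial.eval₂_add, Polynomial.eval₂_mul, Polynomial.eval₂_mul, hφQ, hφQ,
    hF0, hG0, mul_zero, mul_zero, add_zero, Polynomial.eval₂_one] at h1
  exact zero_ne_one h1

theorem kernel_zero {n : ℕ} (t : Fin (n + 1) → κ)
    (hind : AlgebraicIndependent K (fun j : Fin n => t j.succ))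
    (f : MvPolynomial (Fin (n + 1)) K) (hf : Irreducible f) (hft : aeval t f = 0)
    (s : MvPolynomial (Fin (n + 1)) K) (hs : aeval t s = 0) : f ∣ s := by
  classical
  have hev : ∀ p, aeval t p = Polynomial.eval₂
      ((aeval fun j : Fin n => t j.succ : MvPolynomial (Fin n) K →ₐ[K] κ) :
        MvPolynomial (Fin n) K →+* κ) (t 0) (finSuccEquiv K n p) := by
    intro p
    have e : (aeval t : MvPolynomial (Fin (n + 1)) K →ₐ[K] κ).toRingHom =
        (Polynomial.eval₂RingHom
      ((aeval fun j : Fin n => t j.succ : MvPolynomial (Fin n) K →ₐ[K] κ) :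
        MvPolynomial (Fin n) K →+* κ) (t 0)).comp
        (finSuccEquiv K n : MvPolynomial (Fin (n + 1)) K →+* _) := by
      apply MvPolynomial.ringHom_ext
      · intro x
        change aeval t (C x) = Polynomial.eval₂ _ (t 0) (finSuccEquiv K n (C x))
        rw [finSuccEquiv_apply, eval₂Hom_C, aeval_C]
        change _ = Polynomial.eval₂ _ (t 0) (Polynomial.C (C x))
        rw [Polynomial.eval₂_C]
        change _ = aeval _ (C x)
        rw [aeval_C]
      · intro i
        change aeval t (X i) = Polynomial.eval₂ _ (t 0) (finSuccEquiv K n (X i))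
        refine Fin.cases ?_ (fun j => ?_) i
        · rw [finSuccEquiv_X_zero, Polynomial.eval₂_X, aeval_X]
        · rw [finSuccEquiv_X_succ, Polynomial.eval₂_C, aeval_X]
          change _ = aeval _ (X j)
          rw [aeval_X]
    exact RingHom.congr_fun e p
  have hF : Irreducible (finSuccEquiv K n f) :=
    (MulEquiv.irreducible_iff (finSuccEquiv K n).toMulEquiv).2 hf
  rw [hev] at hft hs
  have h2 := gauss_kernel (Q := FractionRing (MvPolynomial (Fin n) K)) _
    (by exact hind) (t 0) _ hF hft _ hs
  have h3 := map_dvd (finSuccEquiv K n).symm h2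
  rwa [AlgEquiv.symm_apply_apply, AlgEquiv.symm_apply_apply] at h3

/-- **the kernel of evaluation is generated by any irreducible element** -/
theorem kernel_principal {n : ℕ} (t : Fin (n + 1) → κ)
    [Algebra.IsAlgebraic (Algebra.adjoin K (Set.range t)) κ] (htr : Algebra.trdeg K κ = n)
    (f : MvPolynomial (Fin (n + 1)) K) (hf : Irreducible f) (hft : aeval t f = 0)
    (s : MvPolynomial (Fin (n + 1)) K) (hs : aeval t s = 0) : f ∣ s := by
  obtain ⟨i, hi⟩ := exists_indep (K := K) t htr
  let σ : Fin (n + 1) ≃ Fin (n + 1) := Equiv.swap 0 i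
  have hren : ∀ p, aeval (t ∘ σ) (renameEquiv K σ p) = aeval t p := by
    intro p
    rw [renameEquiv_apply, aeval_rename]
    congr 1
    congr 1
    funext j
    change t (σ (σ j)) = t j
    rw [Equiv.swap_apply_self]
  have h1 := kernel_zero (K := K) (t ∘ σ) hi (renameEquiv K σ f)
    ((MulEquiv.irreducible_iff (renameEquiv K σ).toMulEquiv).2 hf) (by rw [hren, hft])
    (renameEquiv K σ s) (by rw [hren, hs])
  have h3 := map_dvd (renameEquiv K σ).symm h1
  rwa [AlgEquiv.symm_apply_apply, AlgEquiv.symm_apply_apply] at h3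

end

end Pool.Agent.T9h1
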