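import Pool.Agent.T9h1.C3
import Pool.Agent.T9h1.C4
import Pool.Agent.Helper273.Brg.P_springer

/-! # Prime divisors of the conic bundle are principal -/

set_option autoImplicit false

namespace Pool.Agent.T9h1

open MvPolynomial

noncomputable section

/-- the ring `S[p] / (p² - D)` -/
abbrev QA {S : Type} [CommRing S] (D : S) : Type := QuadraticAlgebra S D 0

section

variable {S : Type} [CommRing S] (D : S)

theorem qa_noeth [IsNoetherianRing S] : IsNoetherianRing (QA D) :=
  IsNoetherianRing.of_finite S (QA D)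

theorem qa_domain [IsDomain S] (hns : ∀ a c : S, a ^ 2 = c ^ 2 * D → a = 0 ∧ c = 0) :
    IsDomain (QA D) := by
  have hnorm : ∀ z : QA D, QuadraticAlgebra.norm z = 0 → z = 0 := by
    intro z hz
    rw [QuadraticAlgebra.norm_def] at hz
    obtain ⟨h1, h2⟩ := hns z.re z.im (by linear_combination hz)
    exact QuadraticAlgebra.ext h1 h2
  have : NoZeroDivisors (QA D) := ⟨by
    intro a b hab
    have h1 := congrArg QuadraticAlgebra.norm hab
    rw [map_mul, QuadraticAlgebra.norm_zero] at h1
    rcases mul_eq_zero.1 h1 with h | h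
    · exact Or.inl (hnorm _ h)
    · exact Or.inr (hnorm _ h)⟩
  exact NoZeroDivisors.to_isDomain _

/-- a homomorphism given by its values -/
def qaHom {T : Type} [CommRing T] (f : S →+* T) (p : T) (hp : p ^ 2 = f D) : QA D →+* T where
  toFun z := f z.re + f z.im * p
  map_one' := by
    rw [QuadraticAlgebra.re_one, QuadraticAlgebra.im_one, map_one, map_zero, zero_mul, add_zero]
  map_zero' := by
    rw [QuadraticAlgebra.re_zero, QuadraticAlgebra.im_zero, map_zero, zero_mul, add_zero]
  map_add' x y := by
    rw [QuadraticAlgebra.re_add, QuadraticAlgebra.im_add, map_add, map_add]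
    ring
  map_mul' x y := by
    rw [QuadraticAlgebra.re_mul, QuadraticAlgebra.im_mul]
    simp only [map_add, map_mul, map_zero]
    linear_combination (-f x.im * f y.im) * hp

theorem qaHom_apply {T : Type} [CommRing T] (f : S →+* T) (p : T) (hp : p ^ 2 = f D) (z : QA D) :
    qaHom D f p hp z = f z.re + f z.im * p := rfl

end

/-- **the case of a vertical prime divisor** -/
theorem pk1 {K κ : Type} [Field K] [CharZero K] [Field κ] [Algebra K κ] {k : ℕ}
    (hω : ∃ ω : K, ω ^ 2 + ω + 1 = 0) (t : Fin (k + 4) → κ) (q p : κ)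
    [Algebra.IsAlgebraic (Algebra.adjoin K (Set.range (Fin.cons q t : Fin (k + 5) → κ))) κ]
    (htr : Algebra.trdeg K κ = (k + 4 : ℕ))
    (hp : p ^ 2 = Polynomial.eval₂RingHom (aeval t : MvPolynomial (Fin (k + 4)) K →ₐ[K] κ).toRingHom
      q (DD K k))
    (f : MvPolynomial (Fin (k + 4)) K) (hf : Irreducible f) (hft : aeval t f = 0)
    (z : QA (DD K k)) :
    qaHom (DD K k) (Polynomial.eval₂RingHom
      (aeval t : MvPolynomial (Fin (k + 4)) K →ₐ[K] κ).toRingHom q) p hp z = 0 ↔
      algebraMap _ (QA (DD K k)) (Polynomial.C f) ∣ z := by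
  classical
  have hdvd : ∀ s : Polynomial (MvPolynomial (Fin (k + 4)) K), Polynomial.eval₂RingHom
      (aeval t : MvPolynomial (Fin (k + 4)) K →ₐ[K] κ).toRingHom q s = 0 → Polynomial.C f ∣ s := by
    intro s hs
    have hev : ∀ s : Polynomial (MvPolynomial (Fin (k + 4)) K),
        aeval (Fin.cons q t : Fin (k + 5) → κ) ((finSuccEquiv K (k + 4)).symm s) =
        Polynomial.eval₂RingHom
          (aeval t : MvPolynomial (Fin (k + 4)) K →ₐ[K] κ).toRingHom q s := by
      intro s
      obtain ⟨p, rfl⟩ := (finSuccEquiv K (k + 4)).surjective s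
      rw [AlgEquiv.symm_apply_apply]
      have e : (aeval (Fin.cons q t : Fin (k + 5) → κ) :
          MvPolynomial (Fin (k + 5)) K →ₐ[K] κ).toRingHom =
          (Polynomial.eval₂RingHom
          (aeval t : MvPolynomial (Fin (k + 4)) K →ₐ[K] κ).toRingHom q).comp
          (finSuccEquiv K (k + 4) : MvPolynomial (Fin (k + 4 + 1)) K →+* _) := by
        apply MvPolynomial.ringHom_ext
        · intro x
          change aeval _ (C x) = Polynomial.eval₂ _ q (finSuccEquiv K (k + 4) (C x))
          rw [finSuccEquiv_apply, eval₂Hom_C, aeval_C]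
          change _ = Polynomial.eval₂ _ q (Polynomial.C (C x))
          rw [Polynomial.eval₂_C]
          change _ = aeval _ (C x)
          rw [aeval_C]
        · intro i
          change aeval _ (X i) = Polynomial.eval₂ _ q (finSuccEquiv K (k + 4) (X i))
          refine Fin.cases ?_ (fun j => ?_) i
          · rw [finSuccEquiv_X_zero, Polynomial.eval₂_X, aeval_X, Fin.cons_zero]
          · rw [finSuccEquiv_X_succ, Polynomial.eval₂_C, aeval_X, Fin.cons_succ]
            change _ = aeval _ (X j)
            rw [aeval_X]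
      exact RingHom.congr_fun e p
    have hirr : Irreducible ((finSuccEquiv K (k + 4)).symm (Polynomial.C f)) := by
      have h1 : Irreducible (Polynomial.C f) := (Polynomial.prime_C_iff.2 hf.prime).irreducible
      exact (MulEquiv.irreducible_iff (finSuccEquiv K (k + 4)).symm.toMulEquiv).2 h1
    have h1 := kernel_principal (K := K) (Fin.cons q t : Fin (k + 4 + 1) → κ) htr _ hirr (by
      rw [hev]
      change Polynomial.eval₂ _ q (Polynomial.C f) = 0
      rw [Polynomial.eval₂_C]
      exact hft) ((finSuccEquiv K (k + 4)).symm s) (by rw [hev, hs])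
    have h2 := map_dvd (finSuccEquiv K (k + 4)) h1
    rwa [AlgEquiv.apply_symm_apply, AlgEquiv.apply_symm_apply] at h2
  rw [QuadraticAlgebra.algebraMap_dvd_iff, qaHom_apply]
  have hfz : Polynomial.eval₂RingHom (aeval t : MvPolynomial (Fin (k + 4)) K →ₐ[K] κ).toRingHom q
      (Polynomial.C f) = 0 := by
    change Polynomial.eval₂ _ q (Polynomial.C f) = 0
    rw [Polynomial.eval₂_C]
    exact hft
  constructor
  · intro h
    refine ns hω f hf.prime z.re z.im (hdvd _ ?_)
    rw [map_sub, map_mul, map_pow, map_pow, ← hp]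
    linear_combination (Polynomial.eval₂RingHom
      (aeval t : MvPolynomial (Fin (k + 4)) K →ₐ[K] κ).toRingHom q z.re -
      Polynomial.eval₂RingHom
      (aeval t : MvPolynomial (Fin (k + 4)) K →ₐ[K] κ).toRingHom q z.im * p) * h
  · rintro ⟨⟨a, ha⟩, ⟨b, hb⟩⟩
    rw [ha, hb, map_mul, map_mul, hfz]
    ring

end

end Pool.Agent.T9h1
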