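import Pool.Agent.T9h1.C5

/-! # Prime divisors of a conic without points -/

set_option autoImplicit false

namespace Pool.Agent.T9h1

open Module

noncomputable section

variable {F κ : Type} [Field F] [Field κ] [Algebra F κ]

theorem even_min (w g : F)
    (han : ∀ P Q R : F, P ^ 2 + w * Q ^ 2 + g * R ^ 2 = 0 → P = 0 ∧ Q = 0 ∧ R = 0)
    (θ : κ) (hθ : IsIntegral F θ) (r : Polynomial F)
    (h : Polynomial.aeval θ r ^ 2 + algebraMap F κ w * θ ^ 2 + algebraMap F κ g = 0) :
    Even (minpoly F θ).natDegree := by
  classical
  by_contra hodd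
  rw [Nat.not_even_iff_odd] at hodd
  refine Pool.Agent.Helper273.Sup.springer_poly (F := F) (m := 3)
    (Matrix.diagonal ![1, w, g]) ?_ _ (minpoly F θ) (minpoly.irreducible hθ) hodd rfl
    ![r, Polynomial.X, 1] ⟨2, ?_⟩ ?_
  · intro v hv
    simp only [Fin.sum_univ_three, Matrix.diagonal_apply] at hv
    have h1 := han (v 0) (v 1) (v 2) (by
      have e : ∀ (a b c d : F), (if False then a else b) = b := fun _ _ _ _ => if_neg id
      simp at hv
      linear_combination hv)
    funext i
    fin_cases i
    · exact h1.1
    · exact h1.2.1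
    · exact h1.2.2
  · intro hd
    have h1 : IsUnit (minpoly F θ) := isUnit_of_dvd_one hd
    exact (minpoly.irreducible hθ).not_isUnit h1
  · apply minpoly.dvd
    simp only [Fin.sum_univ_three, Matrix.diagonal_apply]
    simp
    linear_combination h

/-- **prime divisors of an affine conic without rational points are principal** -/
theorem pk2 (w g : F)
    (han : ∀ P Q R : F, P ^ 2 + w * Q ^ 2 + g * R ^ 2 = 0 → P = 0 ∧ Q = 0 ∧ R = 0)
    (D : Polynomial F) (hD : D = -(Polynomial.C w * Polynomial.X ^ 2 + Polynomial.C g))
    (hns : ∀ a c : Polynomial F, a ^ 2 = c ^ 2 * D → a = 0 ∧ c = 0)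
    (q p : κ) (hq : IsIntegral F q)
    (hp : p ^ 2 = Polynomial.eval₂RingHom (algebraMap F κ) q D) :
    ∃ g0 : QA D, g0 ≠ 0 ∧
      ∀ z, qaHom D (Polynomial.eval₂RingHom (algebraMap F κ) q) p hp z = 0 ↔ g0 ∣ z := by
  classical
  have hdom : IsDomain (QA D) := qa_domain D hns
  have hev : ∀ s, Polynomial.eval₂RingHom (algebraMap F κ) q s = Polynomial.aeval q s :=
    fun s => rfl
  have hm := minpoly.irreducible hq
  have hm0 := hm.ne_zero
  have hmd : ∀ s, Polynomial.aeval q s = 0 ↔ minpoly F q ∣ s := fun s =>
    ⟨fun h => minpoly.dvd _ _ h, fun ⟨r, hr⟩ => by rw [hr, map_mul, minpoly.aeval, zero_mul]⟩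
  by_cases hr : ∃ r : Polynomial F, Polynomial.aeval q r = p
  · obtain ⟨r, hr⟩ := hr
    have hev2 : Even (minpoly F q).natDegree := by
      refine even_min w g han q hq r ?_
      rw [hr, hp, hD, hev]
      simp
    obtain ⟨j, hj⟩ := hev2
    have hpL : p ∈ IntermediateField.adjoin F {q} := by
      rw [← hr]
      have h1 : Polynomial.aeval q r ∈ Algebra.adjoin F {q} := Polynomial.aeval_mem_adjoin_singleton F q
      exact IntermediateField.algebra_adjoin_le_adjoin F {q} h1
    have hqL : q ∈ IntermediateField.adjoin F {q} := IntermediateField.mem_adjoin_simple_self F q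
    let qL : IntermediateField.adjoin F {q} := ⟨q, hqL⟩
    let pL : IntermediateField.adjoin F {q} := ⟨p, hpL⟩
    let Φ : (Polynomial.degreeLT F (j + 1) × Polynomial.degreeLT F j) →ₗ[F]
        IntermediateField.adjoin F {q} :=
      LinearMap.coprod ((Polynomial.aeval qL).toLinearMap ∘ₗ (Polynomial.degreeLT F (j + 1)).subtype)
        ((LinearMap.mulLeft F pL) ∘ₗ (Polynomial.aeval qL).toLinearMap ∘ₗ
          (Polynomial.degreeLT F j).subtype)
    have hfinL : FiniteDimensional F (IntermediateField.adjoin F {q}) :=
      IntermediateField.adjoin.finiteDimensional hq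
    have hker : LinearMap.ker Φ ≠ ⊥ := by
      apply LinearMap.ker_ne_bot_of_finrank_lt
      rw [IntermediateField.adjoin.finrank hq, hj, finrank_prod]
      have h1 : ∀ n, finrank F (Polynomial.degreeLT F n) = n := by
        intro n
        rw [LinearEquiv.finrank_eq (Polynomial.degreeLTEquiv F n), finrank_fin_fun]
      rw [h1, h1]
      omega
    obtain ⟨⟨α, β⟩, hker1, hker2⟩ := (Submodule.ne_bot_iff _).1 hker
    rw [LinearMap.mem_ker] at hker1
    have hα : (α : Polynomial F).natDegree ≤ j := by
      have h1 := α.2
      rw [Polynomial.mem_degreeLT] at h1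
      by_cases h0 : (α : Polynomial F) = 0
      · rw [h0, Polynomial.natDegree_zero]; exact Nat.zero_le _
      · rw [← Polynomial.natDegree_lt_iff_degree_lt h0] at h1
        omega
    have hβ : 2 * (β : Polynomial F).natDegree + 2 ≤ 2 * j ∨ (β : Polynomial F) = 0 := by
      have h1 := β.2
      rw [Polynomial.mem_degreeLT] at h1
      by_cases h0 : (β : Polynomial F) = 0
      · exact Or.inr h0
      · rw [← Polynomial.natDegree_lt_iff_degree_lt h0] at h1
        left
        omega
    have hαβ : Polynomial.aeval q (α : Polynomial F) + Polynomial.aeval q (β : Polynomial F) * p = 0 := by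
      have h1 := congrArg (IntermediateField.adjoin F {q}).val hker1
      have e1 : ∀ s : Polynomial F, (IntermediateField.adjoin F {q}).val (Polynomial.aeval qL s) =
          Polynomial.aeval q s := by
        intro s
        rw [← Polynomial.aeval_algHom_apply]
        rfl
      rw [map_zero] at h1
      change (IntermediateField.adjoin F {q}).val (Polynomial.aeval qL (α : Polynomial F) +
        pL * Polynomial.aeval qL (β : Polynomial F)) = 0 at h1
      rw [map_add, map_mul, e1, e1] at h1
      change Polynomial.aeval q (α : Polynomial F) + p * Polynomial.aeval q (β : Polynomial F) = 0 at h1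
      linear_combination h1
    have hp' : p ^ 2 = Polynomial.aeval q D := hp
    have hNm : minpoly F q ∣ (α : Polynomial F) ^ 2 - (β : Polynomial F) ^ 2 * D := by
      rw [← hmd, map_sub, map_mul, map_pow, map_pow, ← hp']
      linear_combination (Polynomial.aeval q (α : Polynomial F) -
        Polynomial.aeval q (β : Polynomial F) * p) * hαβ
    have hg0 : (⟨(α : Polynomial F), (β : Polynomial F)⟩ : QA D) ≠ 0 := by
      intro h
      apply hker2
      have h1 := congrArg QuadraticAlgebra.re h
      have h2 := congrArg QuadraticAlgebra.im h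
      exact Prod.ext (Subtype.ext h1) (Subtype.ext h2)
    have hN0 : (α : Polynomial F) ^ 2 - (β : Polynomial F) ^ 2 * D ≠ 0 := by
      intro h
      obtain ⟨h1, h2⟩ := hns _ _ (sub_eq_zero.1 h)
      apply hg0
      exact QuadraticAlgebra.ext h1 h2
    obtain ⟨c, hc⟩ := hNm
    have hc0 : c ≠ 0 := by
      rintro rfl
      exact hN0 (by rw [hc, mul_zero])
    have hDdeg : D.natDegree ≤ 2 := by
      rw [hD, Polynomial.natDegree_neg]
      compute_degree
    have hcdeg : c.natDegree = 0 := by
      have h1 : ((α : Polynomial F) ^ 2 - (β : Polynomial F) ^ 2 * D).natDegree ≤ 2 * j := by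
        refine (Polynomial.natDegree_sub_le _ _).trans (max_le ?_ ?_)
        · rw [Polynomial.natDegree_pow]
          omega
        · rcases hβ with h | h
          · refine Polynomial.natDegree_mul_le.trans ?_
            rw [Polynomial.natDegree_pow]
            omega
          · rw [h]
            simp
      rw [hc, Polynomial.natDegree_mul hm0 hc0, hj] at h1
      omega
    obtain ⟨l, hl⟩ := Polynomial.natDegree_eq_zero.1 hcdeg
    have hl0 : l ≠ 0 := by
      rintro rfl
      exact hc0 (by rw [← hl, Polynomial.C_0])
    refine ⟨⟨α, β⟩, hg0, fun z => ⟨?_, ?_⟩⟩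
    · intro hz
      rw [qaHom_apply, hev, hev] at hz
      obtain ⟨y1, hy1⟩ : minpoly F q ∣ z.re * α - z.im * β * D := by
        rw [← hmd, map_sub, map_mul, map_mul, map_mul, ← hp']
        linear_combination (Polynomial.aeval q (α : Polynomial F)) * hz -
          (Polynomial.aeval q z.im * p) * hαβ
      obtain ⟨y2, hy2⟩ : minpoly F q ∣ z.im * α - z.re * β := by
        rw [← hmd, map_sub, map_mul, map_mul]
        linear_combination Polynomial.aeval q z.im * hαβ -
          Polynomial.aeval q (β : Polynomial F) * hz
      refine ⟨⟨Polynomial.C l⁻¹ * y1, Polynomial.C l⁻¹ * y2⟩, ?_⟩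
      have hst : (⟨(α : Polynomial F), -(β : Polynomial F)⟩ : QA D) ≠ 0 := by
        intro h
        apply hg0
        have h1 := congrArg QuadraticAlgebra.re h
        have h2 := congrArg QuadraticAlgebra.im h
        change -(β : Polynomial F) = 0 at h2
        exact QuadraticAlgebra.ext h1 (neg_eq_zero.1 h2)
      apply mul_right_cancel₀ hst
      have hll : Polynomial.C l * Polynomial.C l⁻¹ = 1 := by
        rw [← Polynomial.C_mul, mul_inv_cancel₀ hl0, Polynomial.C_1]
      rw [← hl] at hc
      apply QuadraticAlgebra.ext
      · simp only [QuadraticAlgebra.re_mul, QuadraticAlgebra.im_mul]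
        linear_combination hy1 - (minpoly F q * y1) * hll - Polynomial.C l⁻¹ * y1 * hc
      · simp only [QuadraticAlgebra.re_mul, QuadraticAlgebra.im_mul]
        linear_combination hy2 - (minpoly F q * y2) * hll - Polynomial.C l⁻¹ * y2 * hc
    · rintro ⟨y, rfl⟩
      rw [map_mul]
      have : qaHom D (Polynomial.eval₂RingHom (algebraMap F κ) q) p hp ⟨α, β⟩ = 0 := hαβ
      rw [this, zero_mul]
  · refine ⟨algebraMap _ _ (minpoly F q), ?_, fun z => ?_⟩
    · intro h
      exact hm0 (QuadraticAlgebra.algebraMap_injective (by rw [h, map_zero]))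
    · rw [QuadraticAlgebra.algebraMap_dvd_iff, qaHom_apply, hev, hev]
      constructor
      · intro h
        have him : minpoly F q ∣ z.im := by
          by_contra hnd
          obtain ⟨a, b, hab⟩ := (hm.coprime_iff_not_dvd).2 hnd
          apply hr
          refine ⟨-(z.re * b), ?_⟩
          have h1 := congrArg (Polynomial.aeval q) hab
          rw [map_add, map_mul, map_mul, minpoly.aeval, mul_zero, zero_add, map_one] at h1
          rw [map_neg, map_mul]
          linear_combination p * h1 - Polynomial.aeval q b * h
        refine ⟨?_, him⟩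
        rw [← hmd] at him ⊢
        rw [him, zero_mul, add_zero] at h
        exact h
      · rintro ⟨h1, h2⟩
        rw [← hmd] at h1 h2
        rw [h1, h2]
        ring

end

end Pool.Agent.T9h1
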