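import Pool.Agent.Helper386.D5V.Helper386_FF_RR

/-! # The place of a principal prime -/

set_option autoImplicit false

namespace Pool.Agent.T9h1

open Module FF

noncomputable section

variable {Λ G R0 : Type} [Field Λ] [Field G] [Algebra Λ G] [CommRing R0] [IsDomain R0]

theorem prime_of_ker {E : Type} [Field E] (φ : R0 →+* E) (π : R0) (h : ∀ b, φ b = 0 ↔ π ∣ b)
    (h0 : π ≠ 0) : Prime π := by
  refine ⟨h0, ?_, ?_⟩
  · intro hu
    have h1 := (h 1).2 hu.dvd
    rw [map_one] at h1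
    exact one_ne_zero h1
  · intro a b hab
    rw [← h] at hab ⊢
    rw [← h]
    rw [map_mul] at hab
    exact mul_eq_zero.1 hab

theorem gl_dec [WfDvdMonoid R0] (j : R0 →+* G) (hj : Function.Injective j)
    (hfrac : ∀ x : G, ∃ a b : R0, b ≠ 0 ∧ x = j a / j b) (π : R0) (hπ : Prime π) (x : G)
    (hx : x ≠ 0) :
    ∃ (z : ℤ) (a b : R0), ¬ π ∣ a ∧ ¬ π ∣ b ∧ x = j π ^ z * (j a / j b) := by
  obtain ⟨a, b, hb, rfl⟩ := hfrac x
  have ha : a ≠ 0 := by
    rintro rfl
    exact hx (by rw [map_zero, zero_div])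
  obtain ⟨m, a', ha', rfl⟩ := WfDvdMonoid.max_power_factor ha hπ.irreducible
  obtain ⟨n, b', hb', rfl⟩ := WfDvdMonoid.max_power_factor hb hπ.irreducible
  have hjπ : j π ≠ 0 := (map_ne_zero_iff j hj).2 hπ.ne_zero
  refine ⟨(m : ℤ) - n, a', b', ha', hb', ?_⟩
  rw [map_mul, map_mul, map_pow, map_pow, zpow_sub₀ hjπ, zpow_natCast, zpow_natCast]
  have : j b' ≠ 0 := (map_ne_zero_iff j hj).2 (by rintro rfl; exact hb' (dvd_zero _))
  field_simp

theorem gl_unique (j : R0 →+* G) (hj : Function.Injective j) (π : R0) (hπ : Prime π)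
    (z z' : ℤ) (a b a' b' : R0) (ha : ¬ π ∣ a) (hb : ¬ π ∣ b) (ha' : ¬ π ∣ a') (hb' : ¬ π ∣ b')
    (h : j π ^ z * (j a / j b) = j π ^ z' * (j a' / j b')) : z = z' := by
  have hjπ : j π ≠ 0 := (map_ne_zero_iff j hj).2 hπ.ne_zero
  have key : ∀ (z z' : ℤ) (a b a' b' : R0), ¬ π ∣ a → ¬ π ∣ b → ¬ π ∣ a' → ¬ π ∣ b' →
      j π ^ z * (j a / j b) = j π ^ z' * (j a' / j b') → ¬ z < z' := by
    intro z z' a b a' b' ha hb ha' hb' h hlt
    obtain ⟨n, hn⟩ : ∃ n : ℕ, z' = z + (n + 1 : ℕ) := ⟨(z' - z - 1).toNat, by omega⟩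
    have hjb : j b ≠ 0 := (map_ne_zero_iff j hj).2 (by rintro rfl; exact hb (dvd_zero _))
    have hjb' : j b' ≠ 0 := (map_ne_zero_iff j hj).2 (by rintro rfl; exact hb' (dvd_zero _))
    rw [hn, zpow_add₀ hjπ, zpow_natCast, mul_assoc] at h
    have h1 := mul_left_cancel₀ (zpow_ne_zero z hjπ) h
    field_simp at h1
    rw [← map_pow, ← map_mul, ← map_mul, ← map_mul] at h1
    have h2 := hj h1
    have h3 : π ∣ a * b' := by
      rw [h2]
      exact ((dvd_pow_self π (Nat.succ_ne_zero n)).mul_left _).mul_right _ |> fun h => by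
        simpa [mul_comm, mul_assoc, mul_left_comm] using h
    rcases hπ.dvd_or_dvd h3 with h4 | h4
    · exact ha h4
    · exact hb' h4
  rcases lt_trichotomy z z' with h1 | h1 | h1
  · exact absurd h1 (key z z' a b a' b' ha hb ha' hb' h)
  · exact h1
  · exact absurd h1 (key z' z a' b' a b ha' hb' ha hb h.symm)

/-- **the order of a function at a place which is the place of a principal prime** -/
theorem gl_ord [WfDvdMonoid R0] (j : R0 →+* G) (hj : Function.Injective j)
    (hfrac : ∀ x : G, ∃ a b : R0, b ≠ 0 ∧ x = j a / j b) (π : R0) (hπ : Prime π)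
    (Q : Place Λ G) (hreg : ∀ b, Q.Reg (j b)) (hker : ∀ b, Q.red (j b) = 0 ↔ π ∣ b)
    (z : ℤ) (a b : R0) (ha : ¬ π ∣ a) (hb : ¬ π ∣ b) :
    Q.ord (j π ^ z * (j a / j b)) = z := by
  have hjπ : j π ≠ 0 := (map_ne_zero_iff j hj).2 hπ.ne_zero
  have h0 : ∀ a, ¬ π ∣ a → j a ≠ 0 ∧ Q.ord (j a) = 0 := by
    intro a ha
    have h1 : j a ≠ 0 := (map_ne_zero_iff j hj).2 (by rintro rfl; exact ha (dvd_zero _))
    refine ⟨h1, ?_⟩
    rw [← hker, Q.red_eq_zero_iff (hreg a)] at ha
    push Not at ha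
    have h2 := (Q.reg_iff h1).1 (hreg a)
    have h3 := ha.2
    omega
  have h1 : ∀ (z : ℤ) (a b : R0), ¬ π ∣ a → ¬ π ∣ b →
      Q.ord (j π ^ z * (j a / j b)) = z * Q.ord (j π) := by
    intro z a b ha hb
    obtain ⟨a1, a2⟩ := h0 a ha
    obtain ⟨b1, b2⟩ := h0 b hb
    rw [Q.ord_mul (zpow_ne_zero _ hjπ) (div_ne_zero a1 b1), Q.ord_div a1 b1, a2, b2, Q.ord_zpow]
    ring
  have h2 : 0 < Q.ord (j π) := by
    have h3 := (hker π).2 dvd_rfl
    rw [Q.red_eq_zero_iff (hreg π)] at h3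
    exact h3.resolve_left hjπ
  have h4 : Q.ord (j π) = 1 := by
    obtain ⟨t, ht0, ht⟩ := Q.surj
    obtain ⟨z', a', b', ha', hb', rfl⟩ := gl_dec j hj hfrac π hπ t ht0
    rw [h1 z' a' b' ha' hb'] at ht
    exact Int.eq_one_of_dvd_one h2.le ⟨z', by rw [← ht]; ring⟩
  rw [h1 z a b ha hb, h4, mul_one]

/-- **uniqueness of the place of a principal prime** -/
theorem gl_eq [WfDvdMonoid R0] (j : R0 →+* G) (hj : Function.Injective j)
    (hfrac : ∀ x : G, ∃ a b : R0, b ≠ 0 ∧ x = j a / j b) (π : R0) (hπ : Prime π)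
    (Q Q' : Place Λ G) (hreg : ∀ b, Q.Reg (j b)) (hker : ∀ b, Q.red (j b) = 0 ↔ π ∣ b)
    (hreg' : ∀ b, Q'.Reg (j b)) (hker' : ∀ b, Q'.red (j b) = 0 ↔ π ∣ b) : Q = Q' := by
  ext x
  by_cases hx : x = 0
  · rw [hx, Q.ord_zero, Q'.ord_zero]
  · obtain ⟨z, a, b, ha, hb, rfl⟩ := gl_dec j hj hfrac π hπ x hx
    rw [gl_ord j hj hfrac π hπ Q hreg hker z a b ha hb,
      gl_ord j hj hfrac π hπ Q' hreg' hker' z a b ha hb]

theorem gl_ord_one [WfDvdMonoid R0] (j : R0 →+* G) (hj : Function.Injective j)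
    (hfrac : ∀ x : G, ∃ a b : R0, b ≠ 0 ∧ x = j a / j b) (π : R0) (hπ : Prime π)
    (Q : Place Λ G) (hreg : ∀ b, Q.Reg (j b)) (hker : ∀ b, Q.red (j b) = 0 ↔ π ∣ b) :
    Q.ord (j π) = 1 := by
  have h1 : ¬ π ∣ 1 := hπ.not_dvd_one
  have h := gl_ord j hj hfrac π hπ Q hreg hker 1 1 1 h1 h1
  rw [map_one, div_one, mul_one, zpow_one] at h
  exact h

/-- two places of the domain whose kernels are principal and meet in a generator are equal -/
theorem gl_eq_of_zero [WfDvdMonoid R0] (j : R0 →+* G) (hj : Function.Injective j)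
    (hfrac : ∀ x : G, ∃ a b : R0, b ≠ 0 ∧ x = j a / j b) (π π' : R0)
    (Q Q' : Place Λ G) (hreg : ∀ b, Q.Reg (j b)) (hker : ∀ b, Q.red (j b) = 0 ↔ π ∣ b)
    (hπ0 : π ≠ 0)
    (hreg' : ∀ b, Q'.Reg (j b)) (hker' : ∀ b, Q'.red (j b) = 0 ↔ π' ∣ b)
    (h : Q'.red (j π) = 0) : Q = Q' := by
  let φ : R0 →+* Q.RF :=
    { toFun := fun b => Q.red (j b)
      map_one' := by rw [map_one, Q.red_one]
      map_zero' := by rw [map_zero, Q.red_zero]
      map_add' := fun a b => by rw [map_add, Q.red_add (hreg a) (hreg b)]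
      map_mul' := fun a b => by rw [map_mul, Q.red_mul (hreg a) (hreg b)] }
  have hπ : Prime π := prime_of_ker φ π hker hπ0
  obtain ⟨c, hc⟩ := (hker' π).1 h
  have hass : π ∣ π' := by
    have h1 : π ∣ π' * c := hc ▸ dvd_rfl
    rcases hπ.dvd_or_dvd h1 with h2 | ⟨c', hc'⟩
    · exact h2
    · exfalso
      rw [hc'] at hc
      have h3 : π' * c' = 1 := by
        apply mul_left_cancel₀ hπ0
        linear_combination -hc
      have h4 := (hker' 1).2 ⟨c', h3.symm⟩
      rw [map_one, Q'.red_one] at h4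
      exact one_ne_zero h4
  have hass' : π' ∣ π := ⟨c, hc⟩
  exact gl_eq j hj hfrac π hπ Q Q' hreg hker hreg'
    fun b => (hker' b).trans ⟨fun h => hass.trans h, fun h => hass'.trans h⟩

/-- the place of a principal prime -/
def glPlace [WfDvdMonoid R0] (j : R0 →+* G) (hj : Function.Injective j)
    (hfrac : ∀ x : G, ∃ a b : R0, b ≠ 0 ∧ x = j a / j b) (π : R0) (hπ : Prime π)
    (hΛ : ∀ c : Λ, c ≠ 0 → ∃ a b, ¬ π ∣ a ∧ ¬ π ∣ b ∧ algebraMap Λ G c = j a / j b) :
    Place Λ G := by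
  classical
  let o : G → ℤ := fun x => if hx : x = 0 then 0 else (gl_dec j hj hfrac π hπ x hx).choose
  have ho : ∀ (z : ℤ) (a b : R0), ¬ π ∣ a → ¬ π ∣ b → o (j π ^ z * (j a / j b)) = z := by
    intro z a b ha hb
    have hjπ : j π ≠ 0 := (map_ne_zero_iff j hj).2 hπ.ne_zero
    have hja : j a ≠ 0 := (map_ne_zero_iff j hj).2 (by rintro rfl; exact ha (dvd_zero _))
    have hjb : j b ≠ 0 := (map_ne_zero_iff j hj).2 (by rintro rfl; exact hb (dvd_zero _))
    have hx : j π ^ z * (j a / j b) ≠ 0 := mul_ne_zero (zpow_ne_zero _ hjπ) (div_ne_zero hja hjb)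
    change (if hx : j π ^ z * (j a / j b) = 0 then 0 else
      (gl_dec j hj hfrac π hπ _ hx).choose) = z
    rw [dif_neg hx]
    obtain ⟨a', b', ha', hb', h⟩ := (gl_dec j hj hfrac π hπ _ hx).choose_spec
    exact (gl_unique j hj π hπ z _ a b a' b' ha hb ha' hb' h).symm
  exact
  { ord := o
    ord_zero := dif_pos rfl
    ord_mul := by
      intro f g hf hg
      obtain ⟨z, a, b, ha, hb, rfl⟩ := gl_dec j hj hfrac π hπ f hf
      obtain ⟨z', a', b', ha', hb', rfl⟩ := gl_dec j hj hfrac π hπ g hg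
      have hjπ : j π ≠ 0 := (map_ne_zero_iff j hj).2 hπ.ne_zero
      have h1 : j π ^ z * (j a / j b) * (j π ^ z' * (j a' / j b')) =
          j π ^ (z + z') * (j (a * a') / j (b * b')) := by
        rw [zpow_add₀ hjπ, map_mul, map_mul, ← div_mul_div_comm]
        ring
      rw [h1, ho z a b ha hb, ho z' a' b' ha' hb', ho _ _ _ (hπ.not_dvd_mul ha ha')
        (hπ.not_dvd_mul hb hb')]
    ord_add := by
      have key : ∀ (z : ℤ) (n : ℕ) (a b a' b' : R0), ¬ π ∣ a → ¬ π ∣ b → ¬ π ∣ a' → ¬ π ∣ b' →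
          j π ^ z * (j a / j b) + j π ^ (z + n) * (j a' / j b') ≠ 0 →
          z ≤ o (j π ^ z * (j a / j b) + j π ^ (z + n) * (j a' / j b')) := by
        intro z n a b a' b' ha hb ha' hb' h
        have hjπ : j π ≠ 0 := (map_ne_zero_iff j hj).2 hπ.ne_zero
        have hjb : j b ≠ 0 := (map_ne_zero_iff j hj).2 (by rintro rfl; exact hb (dvd_zero _))
        have hjb' : j b' ≠ 0 := (map_ne_zero_iff j hj).2 (by rintro rfl; exact hb' (dvd_zero _))
        have h1 : j π ^ z * (j a / j b) + j π ^ (z + n) * (j a' / j b') =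
            j π ^ z * (j (a * b' + π ^ n * a' * b) / j (b * b')) := by
          rw [zpow_add₀ hjπ, zpow_natCast]
          simp only [map_add, map_mul, map_pow]
          field_simp
        have h2 : a * b' + π ^ n * a' * b ≠ 0 := by
          intro h3
          rw [h1, h3, map_zero, zero_div, mul_zero] at h
          exact h rfl
        obtain ⟨m, c, hc, h3⟩ := WfDvdMonoid.max_power_factor h2 hπ.irreducible
        have h4 : j π ^ z * (j a / j b) + j π ^ (z + n) * (j a' / j b') =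
            j π ^ (z + m) * (j c / j (b * b')) := by
          rw [h1, h3, zpow_add₀ hjπ, zpow_natCast, map_mul, map_pow]
          ring
        rw [h4, ho _ _ _ hc (hπ.not_dvd_mul hb hb')]
        omega
      intro f g hf hg hfg
      obtain ⟨z, a, b, ha, hb, rfl⟩ := gl_dec j hj hfrac π hπ f hf
      obtain ⟨z', a', b', ha', hb', rfl⟩ := gl_dec j hj hfrac π hπ g hg
      rw [ho z a b ha hb, ho z' a' b' ha' hb']
      rcases le_total z z' with h | h
      · obtain ⟨n, hn⟩ : ∃ n : ℕ, z' = z + n := ⟨(z' - z).toNat, by omega⟩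
        rw [min_eq_left h]
        rw [hn] at hfg ⊢
        exact key z n a b a' b' ha hb ha' hb' hfg
      · obtain ⟨n, hn⟩ : ∃ n : ℕ, z = z' + n := ⟨(z - z').toNat, by omega⟩
        rw [min_eq_right h]
        rw [hn, add_comm] at hfg ⊢
        exact key z' n a' b' a b ha' hb' ha hb hfg
    ord_const := by
      intro c hc
      obtain ⟨a, b, ha, hb, h⟩ := hΛ c hc
      have h1 := ho 0 a b ha hb
      rw [zpow_zero, one_mul] at h1
      rw [h]
      exact h1
    surj := by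
      refine ⟨j π, (map_ne_zero_iff j hj).2 hπ.ne_zero, ?_⟩
      have h1 := ho 1 1 1 hπ.not_dvd_one hπ.not_dvd_one
      rw [map_one, div_one, mul_one, zpow_one] at h1
      exact h1 }

theorem glPlace_ord [WfDvdMonoid R0] (j : R0 →+* G) (hj : Function.Injective j)
    (hfrac : ∀ x : G, ∃ a b : R0, b ≠ 0 ∧ x = j a / j b) (π : R0) (hπ : Prime π)
    (hΛ : ∀ c : Λ, c ≠ 0 → ∃ a b, ¬ π ∣ a ∧ ¬ π ∣ b ∧ algebraMap Λ G c = j a / j b)
    (z : ℤ) (a b : R0) (ha : ¬ π ∣ a) (hb : ¬ π ∣ b) :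
    (glPlace j hj hfrac π hπ hΛ).ord (j π ^ z * (j a / j b)) = z := by
  classical
  have hjπ : j π ≠ 0 := (map_ne_zero_iff j hj).2 hπ.ne_zero
  have hja : j a ≠ 0 := (map_ne_zero_iff j hj).2 (by rintro rfl; exact ha (dvd_zero _))
  have hjb : j b ≠ 0 := (map_ne_zero_iff j hj).2 (by rintro rfl; exact hb (dvd_zero _))
  have hx : j π ^ z * (j a / j b) ≠ 0 := mul_ne_zero (zpow_ne_zero _ hjπ) (div_ne_zero hja hjb)
  change (if hx : j π ^ z * (j a / j b) = 0 then 0 else
    (gl_dec j hj hfrac π hπ _ hx).choose) = z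
  rw [dif_neg hx]
  obtain ⟨a', b', ha', hb', h⟩ := (gl_dec j hj hfrac π hπ _ hx).choose_spec
  exact (gl_unique j hj π hπ z _ a b a' b' ha hb ha' hb' h).symm

/-- **a point of odd degree with principal kernel gives a place of odd degree** -/
theorem gl_exists [WfDvdMonoid R0] (j : R0 →+* G) (hj : Function.Injective j)
    (hfrac : ∀ x : G, ∃ a b : R0, b ≠ 0 ∧ x = j a / j b) {E : Type} [Field E] [Algebra Λ E]
    (φ : R0 →+* E) (π : R0) (hφ : ∀ b, φ b = 0 ↔ π ∣ b) (hπ0 : π ≠ 0)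
    (hΛ : ∀ c : Λ, ∃ a b, φ b ≠ 0 ∧ algebraMap Λ G c = j a / j b ∧
      algebraMap Λ E c = φ a / φ b) (hodd : Odd (finrank Λ E)) :
    ∃ Q : Place Λ G, Odd Q.deg ∧ (∀ b, Q.Reg (j b)) ∧ ∀ b, Q.red (j b) = 0 ↔ π ∣ b := by
  classical
  have hπ : Prime π := prime_of_ker φ π hφ hπ0
  have hΛ' : ∀ c : Λ, c ≠ 0 → ∃ a b, ¬ π ∣ a ∧ ¬ π ∣ b ∧ algebraMap Λ G c = j a / j b := by
    intro c hc
    obtain ⟨a, b, hb, h1, h2⟩ := hΛ c
    refine ⟨a, b, ?_, ?_, h1⟩
    · rw [← hφ]
      intro ha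
      rw [ha, zero_div, map_eq_zero] at h2
      exact hc h2
    · rwa [← hφ]
  let Q := glPlace j hj hfrac π hπ hΛ'
  have hQ : ∀ (z : ℤ) (a b : R0), ¬ π ∣ a → ¬ π ∣ b → Q.ord (j π ^ z * (j a / j b)) = z :=
    glPlace_ord j hj hfrac π hπ hΛ'
  -- the elements of the valuation ring
  have hO : ∀ x : Q.O, ∃ a b : R0, φ b ≠ 0 ∧ (x : G) = j a / j b := by
    rintro ⟨x, hx⟩
    by_cases hx0 : x = 0
    · exact ⟨0, 1, by rw [map_one]; exact one_ne_zero, by rw [map_zero, zero_div]; exact hx0⟩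
    · obtain ⟨z, a, b, ha, hb, rfl⟩ := gl_dec j hj hfrac π hπ x hx0
      have h1 := (Q.reg_iff hx0).1 hx
      rw [hQ z a b ha hb] at h1
      obtain ⟨n, rfl⟩ := Int.eq_ofNat_of_zero_le h1
      refine ⟨π ^ n * a, b, by rwa [Ne, hφ], ?_⟩
      change j π ^ (n : ℤ) * (j a / j b) = _
      rw [zpow_natCast, map_mul, map_pow, mul_div_assoc]
  have hOr : ∀ a b : R0, φ b ≠ 0 → Q.Reg (j a / j b) := by
    intro a b hb
    rw [Ne, hφ] at hb
    have hjb : j b ≠ 0 := (map_ne_zero_iff j hj).2 (by rintro rfl; exact hb (dvd_zero _))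
    by_cases ha : a = 0
    · left
      rw [ha, map_zero, zero_div]
    · right
      obtain ⟨n, c, hc, rfl⟩ := WfDvdMonoid.max_power_factor ha hπ.irreducible
      have h1 : j (π ^ n * c) / j b = j π ^ (n : ℤ) * (j c / j b) := by
        rw [zpow_natCast, map_mul, map_pow, mul_div_assoc]
      rw [h1, hQ _ _ _ hc hb]
      exact Int.natCast_nonneg _
  choose nu de hde hval using hO
  have hwd : ∀ (x : Q.O) (a b : R0), φ b ≠ 0 → (x : G) = j a / j b →
      φ (nu x) / φ (de x) = φ a / φ b := by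
    intro x a b hb hx
    have hd := hde x
    have hjb : j b ≠ 0 := (map_ne_zero_iff j hj).2 (by rintro rfl; exact hb (map_zero φ))
    have hjd : j (de x) ≠ 0 := (map_ne_zero_iff j hj).2 (by
      intro h
      rw [h] at hd
      exact hd (map_zero φ))
    rw [hval x] at hx
    rw [div_eq_div_iff hjd hjb, ← map_mul, ← map_mul] at hx
    have h1 := congrArg φ (hj hx)
    rw [map_mul, map_mul] at h1
    rw [div_eq_div_iff hd hb, h1]
  have hjd : ∀ x, j (de x) ≠ 0 := fun x => (map_ne_zero_iff j hj).2 (by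
      intro h
      have hd := hde x
      rw [h] at hd
      exact hd (map_zero φ))
  let θ : Q.O →+* E :=
    { toFun := fun x => φ (nu x) / φ (de x)
      map_one' := by
        rw [hwd 1 1 1 (by rw [map_one]; exact one_ne_zero) (by
          rw [map_one, div_one]
          rfl), map_one, div_one]
      map_zero' := by
        rw [hwd 0 0 1 (by rw [map_one]; exact one_ne_zero) (by
          rw [map_zero, zero_div]
          rfl), map_zero, zero_div]
      map_add' := by
        intro x y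
        rw [hwd (x + y) (nu x * de y + nu y * de x) (de x * de y)
          (by rw [map_mul]; exact mul_ne_zero (hde x) (hde y)) (by
            change (x : G) + (y : G) = _
            have h1 := hjd x
            have h2 := hjd y
            rw [hval x, hval y]
            simp only [map_add, map_mul]
            field_simp)]
        have h1 := hde x
        have h2 := hde y
        simp only [map_add, map_mul]
        field_simp
      map_mul' := by
        intro x y
        rw [hwd (x * y) (nu x * nu y) (de x * de y)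
          (by rw [map_mul]; exact mul_ne_zero (hde x) (hde y)) (by
            change (x : G) * (y : G) = _
            rw [hval x, hval y, map_mul, map_mul, div_mul_div_comm])]
        rw [map_mul, map_mul, div_mul_div_comm] }
  have hθ : ∀ (x : Q.O) (a b : R0), φ b ≠ 0 → (x : G) = j a / j b → θ x = φ a / φ b := hwd
  have hloc : IsLocalHom θ := ⟨by
    intro x hx
    have h1 : φ (nu x) ≠ 0 := by
      intro h
      have h2 : θ x = 0 := by
        change φ (nu x) / φ (de x) = 0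
        rw [h, zero_div]
      rw [h2] at hx
      exact not_isUnit_zero hx
    have h3 : Q.Reg (j (de x) / j (nu x)) := hOr _ _ h1
    refine IsUnit.of_mul_eq_one ⟨_, h3⟩ (Subtype.ext ?_)
    change (x : G) * (j (de x) / j (nu x)) = 1
    have h4 : j (nu x) ≠ 0 := (map_ne_zero_iff j hj).2 (by
      intro h
      rw [h] at h1
      exact h1 (map_zero φ))
    have h5 := hjd x
    rw [hval x]
    field_simp⟩
  let Θ : Q.RF →+* E := IsLocalRing.ResidueField.lift θ
  have hΘ : ∀ x : Q.O, Θ (Q.resHom x) = θ x := fun x => IsLocalRing.ResidueField.lift_residue_apply θ x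
  let _ : Algebra Q.RF E := Θ.toAlgebra
  have htow : IsScalarTower Λ Q.RF E := by
    apply IsScalarTower.of_algebraMap_eq
    intro c
    obtain ⟨a, b, hb, h1, h2⟩ := hΛ c
    change _ = Θ (Q.red (algebraMap Λ G c))
    rw [Q.red_of_reg (Q.reg_const c), hΘ, hθ _ a b hb h1, h2]
  have hreg : ∀ b, Q.Reg (j b) := by
    intro b
    have h1 := hOr b 1 (by rw [map_one]; exact one_ne_zero)
    rwa [map_one, div_one] at h1
  refine ⟨Q, ?_, hreg, ?_⟩
  · have h1 := finrank_mul_finrank Λ Q.RF E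
    rw [← h1, Nat.odd_mul] at hodd
    exact hodd.1
  · intro b
    rw [← hφ, ← map_eq_zero Θ, Q.red_of_reg (hreg b), hΘ, hθ _ b 1
      (by rw [map_one]; exact one_ne_zero) (by rw [map_one, div_one]), map_one, div_one]

/-- **parity**: the degree of a principal divisor is even -/
theorem parity [CharZero Λ] [IsFF Λ G] (Q0 : Place Λ G) (h0 : Odd Q0.deg) (f : G)
    (hf : Odd (Q0.ord f)) (h : ∀ Q : Place Λ G, Odd Q.deg → Q ≠ Q0 → Even (Q.ord f)) : False := by
  classical
  have h1 : ddeg (divisor Λ f) = 0 := ddeg_divisor f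
  unfold ddeg at h1
  rw [Finsupp.sum] at h1
  have hmem : Q0 ∈ (divisor Λ f).support := by
    rw [Finsupp.mem_support_iff, divisor_apply]
    rintro h2
    rw [h2] at hf
    exact absurd hf (by decide)
  rw [← Finset.add_sum_erase _ _ hmem] at h1
  have h2 : Even (∑ x ∈ (divisor Λ f).support.erase Q0, divisor Λ f x * (x.deg : ℤ)) := by
    apply Finset.even_sum
    intro Q hQ
    rw [Finset.mem_erase] at hQ
    by_cases hodd : Odd Q.deg
    · exact (h Q hodd hQ.1).mul_right _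
    · rw [Nat.not_odd_iff_even] at hodd
      exact Even.mul_left (by exact_mod_cast hodd) _
  have h3 : Odd (divisor Λ f Q0 * (Q0.deg : ℤ)) := by
    refine Odd.mul hf ?_
    exact_mod_cast h0
  have h4 := h3.add_even h2
  rw [h1] at h4
  exact absurd h4 (by decide)

end

end Pool.Agent.T9h1
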