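import Pool.Agent.T9h1.Kappa

/-! # Transcendence degrees of the fields of the points of odd degree -/

set_option autoImplicit false

namespace Pool.Agent.T9h1

open Module IntermediateField

noncomputable section

theorem alg_change {K κ : Type} [Field K] [Field κ] [Algebra K κ] (s t : Set κ)
    (hs : ∀ x ∈ s, IsAlgebraic (Algebra.adjoin K t) x)
    (h : Algebra.IsAlgebraic (Algebra.adjoin K s) κ) :
    Algebra.IsAlgebraic (Algebra.adjoin K t) κ :=
  ⟨fun a => IsAlgebraic.adjoin_of_forall_isAlgebraic (fun x hx => hs x hx.1) (h.isAlgebraic a)⟩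

section

variable {A Λ : Type} [Field A] [Field Λ] [Algebra A Λ] {n : ℕ} (Z : Fin n → Λ)

theorem alg_top (htop : adjoin A (Set.range Z) = ⊤) :
    Algebra.IsAlgebraic (Algebra.adjoin A (Set.range Z)) Λ := by
  refine ⟨fun c => ?_⟩
  have hc : c ∈ adjoin A (Set.range Z) := by rw [htop]; trivial
  obtain ⟨r, hr, s, hs, rfl⟩ := IntermediateField.mem_adjoin_iff_div.mp hc
  have h1 : ∀ x ∈ Algebra.adjoin A (Set.range Z),
      IsAlgebraic (Algebra.adjoin A (Set.range Z)) x := fun x hx =>
    isAlgebraic_algebraMap (⟨x, hx⟩ : Algebra.adjoin A (Set.range Z))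
  rw [div_eq_mul_inv]
  exact (h1 r hr).mul (h1 s hs).inv

theorem trL (hind : AlgebraicIndependent A Z) (htop : adjoin A (Set.range Z) = ⊤) :
    Algebra.trdeg A Λ = n := by
  have h1 : IsTranscendenceBasis A Z := by
    rw [hind.isTranscendenceBasis_iff_isAlgebraic]
    exact alg_top Z htop
  have h2 := h1.cardinalMk_eq_trdeg
  rw [← h2, Cardinal.mk_fin]

theorem alg_of_top (htop : adjoin A (Set.range Z) = ⊤) {K κ : Type} [Field K] [Field κ]
    [Algebra A K] [Algebra A κ] [Algebra Λ κ] [Algebra K κ] [IsScalarTower A Λ κ]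
    [IsScalarTower A K κ] [Algebra.IsAlgebraic Λ κ] :
    Algebra.IsAlgebraic (Algebra.adjoin K (Set.range fun i => algebraMap Λ κ (Z i))) κ := by
  have h0 := alg_top Z htop
  have h1 : Algebra.IsAlgebraic (Algebra.adjoin A (Set.range Z)) κ :=
    Algebra.IsAlgebraic.trans (Algebra.adjoin A (Set.range Z)) Λ κ
  have hmem : ∀ x ∈ Algebra.adjoin A (Set.range Z), algebraMap Λ κ x ∈
      Algebra.adjoin K (Set.range fun i => algebraMap Λ κ (Z i)) := by
    intro x hx
    induction hx using Algebra.adjoin_induction with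
    | mem x hx =>
      obtain ⟨i, rfl⟩ := hx
      exact Algebra.subset_adjoin ⟨i, rfl⟩
    | algebraMap r =>
      rw [← IsScalarTower.algebraMap_apply A Λ κ, IsScalarTower.algebraMap_apply A K κ]
      exact Subalgebra.algebraMap_mem _ _
    | add x y _ _ hx hy => rw [map_add]; exact add_mem hx hy
    | mul x y _ _ hx hy => rw [map_mul]; exact mul_mem hx hy
  let φ : Algebra.adjoin A (Set.range Z) →+*
      Algebra.adjoin K (Set.range fun i => algebraMap Λ κ (Z i)) :=
    { toFun := fun x => ⟨algebraMap Λ κ x, hmem x x.2⟩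
      map_one' := Subtype.ext (map_one _)
      map_zero' := Subtype.ext (map_zero _)
      map_add' := fun x y => Subtype.ext (map_add _ _ _)
      map_mul' := fun x y => Subtype.ext (map_mul _ _ _) }
  have hφ : Function.Injective φ := by
    intro x y hxy
    have h2 := congrArg Subtype.val hxy
    exact Subtype.ext ((algebraMap Λ κ).injective h2)
  refine ⟨fun a => ?_⟩
  exact isAlg_mono φ hφ (fun r => rfl) (h1.isAlgebraic a)

theorem pt_tr {m : ℕ} (Z : Fin (m + 1) → Λ)
    (hind : AlgebraicIndependent A Z) (htop : adjoin A (Set.range Z) = ⊤)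
    {K κ : Type} [Field K] [Field κ]
    [Algebra A K] [Algebra A κ] [Algebra Λ κ] [Algebra K κ] [IsScalarTower A Λ κ]
    [IsScalarTower A K κ] [Algebra.IsAlgebraic Λ κ] (hK : Algebra.trdeg A K = 1) :
    Algebra.trdeg K κ = m := by
  have h1 := trdeg_add_eq A Λ (A := κ)
  rw [trL Z hind htop, (trdeg_eq_zero_iff (R := Λ) (A := κ)).2 inferInstance, add_zero] at h1
  have h2 := trdeg_add_eq A K (A := κ)
  rw [hK, ← h1] at h2
  have hlt : Algebra.trdeg K κ < Cardinal.aleph0 := by
    have h3 : Algebra.trdeg K κ ≤ ((m + 1 : ℕ) : Cardinal) := by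
      rw [← h2]
      exact self_le_add_left _ _
    exact h3.trans_lt Cardinal.natCast_lt_aleph0
  obtain ⟨d, hd⟩ := Cardinal.lt_aleph0.1 hlt
  rw [hd] at h2 ⊢
  have h4 : 1 + d = m + 1 := by exact_mod_cast h2
  have h5 : d = m := by omega
  rw [h5]

end

/-- an element whose square or cube is algebraic is algebraic -/
theorem alg_pow {K κ : Type} [CommRing K] [IsDomain K] [Field κ] [Algebra K κ] (x : κ) (n : ℕ)
    (hn : n ≠ 0) (h : IsAlgebraic K (x ^ n)) : IsAlgebraic K x := by
  obtain ⟨p, hp, hx⟩ := h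
  refine ⟨p.comp (Polynomial.X ^ n), ?_, ?_⟩
  · intro h0
    rw [Polynomial.comp_eq_zero_iff] at h0
    rcases h0 with h0 | ⟨-, h0⟩
    · exact hp h0
    · have h1 := congrArg Polynomial.natDegree h0
      rw [Polynomial.natDegree_X_pow, Polynomial.natDegree_C] at h1
      exact hn h1
  · rw [Polynomial.aeval_comp, map_pow, Polynomial.aeval_X]
    exact hx

end

end Pool.Agent.T9h1
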