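import Pool.Agent.T9h1.Nsp
import Pool.Agent.N122.Chord

/-! # Chords and conics: the general argument -/

set_option autoImplicit false

namespace Pool.Agent.T9h1

open MvPolynomial Pool.Agent.TH314.PD Module Pool.Agent.Y201.C3 IntermediateField
open Pool.Agent.R845.T2 Pool.Agent.R845.E3 Pool.Agent.N122

noncomputable section

/-- the parity of the degree is preserved by chords -/
theorem chord_gen {n : ℕ} {F : MvPolynomial (Fin (n + 2)) ℂ} (hF : F.IsHomogeneous 3)
    (hsm : Sm F) {M : Type} [Field M] [Algebra ℂ M] (x c : Fin (n + 2) → M)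
    (hG : Gp F x) (hodd : Odd (finrank (ratioField x) M)) (hxc : LinearIndependent M ![x, c])
    (hpn : ¬ Gp F c) (hcF : aeval c F = 0)
    (hno : (∀ (e : ℕ) (H : MvPolynomial (Fin (n + 2)) ℂ), H.IsHomogeneous e →
        aeval (fun j => algebraMap (Polynomial M) (FractionRing (Polynomial M))
          (Polynomial.C (x j) + Polynomial.X * Polynomial.C (c j))) H = 0 → H = 0) →
      Odd (finrank (ratioField fun j => algebraMap (Polynomial M)
        (FractionRing (Polynomial M)) (Polynomial.C (x j) + Polynomial.X * Polynomial.C (c j)))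
        (FractionRing (Polynomial M))) → False)
    (s t : M) (hs : s ≠ 0)
    (hst : aeval (fun j => s * x j + t * c j) F = 0) :
    Gp F (fun j => s * x j + t * c j) ∧ Odd (finrank (ratioField fun j => s * x j + t * c j) M) := by
  classical
  have tan : S_TAN := tan_of div (nt Pool.Agent.Y201.LI.hT1) fi fd
  obtain ⟨T, hT, hFT⟩ := exists_tri F hF
  have hodd2 : ¬ 2 ∣ finrank (ratioField x) M := fun h =>
    (Nat.not_even_iff_odd.2 hodd) (even_iff_two_dvd.2 h)
  set A := 3 * Bg T x x c with hA
  set B := 3 * Bg T x c c with hB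
  have hline := line_shape hT hFT x c hG.1 hcF
  rw [← hA, ← hB] at hline
  have hB0 : B ≠ 0 := by
    intro h0
    rw [h0, Polynomial.C_0, zero_mul, add_zero] at hline
    exact hodd2 (tan (n + 1) 3 F hF (by norm_num) hsm M x c A hxc hG.1 hG.2 hline)
  have hscale := fun v b hb h1 h2 => scale hF (M := M) v b hb h1 h2
  -- the equation of the point
  have heq : t * (s * A + t * B) = 0 := by
    have h1 := congrArg (Polynomial.eval (t / s)) hline
    rw [Polynomial.eval_add, Polynomial.eval_mul, Polynomial.eval_mul, Polynomial.eval_pow,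
      Polynomial.eval_C, Polynomial.eval_C, Polynomial.eval_X] at h1
    have h2 : Polynomial.eval (t / s) (aeval (fun j => Polynomial.C (x j) +
        Polynomial.X * Polynomial.C (c j)) F) = aeval (fun j => x j + t / s * c j) F := by
      have h3 := comp_aeval_apply (f := fun j => Polynomial.C (x j) +
        Polynomial.X * Polynomial.C (c j)) ((Polynomial.aeval (R := M) (t / s)).restrictScalars ℂ) F
      have h4 : ((Polynomial.aeval (R := M) (t / s)).restrictScalars ℂ) (aeval (fun j =>
          Polynomial.C (x j) + Polynomial.X * Polynomial.C (c j)) F) =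
          Polynomial.eval (t / s) (aeval (fun j => Polynomial.C (x j) +
            Polynomial.X * Polynomial.C (c j)) F) := by
        rw [AlgHom.restrictScalars_apply, Polynomial.coe_aeval_eq_eval]
      rw [← h4, h3]
      congr 2
      funext j
      rw [AlgHom.restrictScalars_apply, Polynomial.coe_aeval_eq_eval]
      rw [Polynomial.eval_add, Polynomial.eval_mul, Polynomial.eval_C, Polynomial.eval_C,
        Polynomial.eval_X]
    rw [h2] at h1
    have h3 : (fun j => s * x j + t * c j) = fun j => s * (x j + t / s * c j) := by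
      funext j
      field_simp
    rw [h3, aeval_smul_form hF, h1] at hst
    have h4 := (mul_eq_zero.1 hst).resolve_left (pow_ne_zero _ hs)
    field_simp at h4
    linear_combination h4
  rcases mul_eq_zero.1 heq with ht | hAB
  · have h1 : (fun j => s * x j + t * c j) = fun j => s * x j := by
      funext j
      rw [ht, zero_mul, add_zero]
    rw [h1]
    exact hscale x s hs hG hodd
  have h1 : (fun j => s * x j + t * c j) = fun j => (s / B) * (B * x j - A * c j) := by
    funext j
    field_simp
    linear_combination c j * hAB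
  rw [h1]
  have hsB : s / B ≠ 0 := div_ne_zero hs hB0
  by_cases hA0 : A = 0
  · have h2 : (fun j => (s / B) * (B * x j - A * c j)) = fun j => s * x j := by
      funext j
      rw [hA0, zero_mul, sub_zero]
      field_simp
    rw [h2]
    exact hscale x s hs hG hodd
  by_cases hy : Gp F (fun j => B * x j - A * c j) ∧
      Odd (finrank (ratioField fun j => B * x j - A * c j) M)
  · exact hscale _ _ hsB hy.1 hy.2
  exfalso
  obtain ⟨hygen, hyodd⟩ := p3 (n + 1) F hF hsm M x c A B hxc hG hodd hpn hA0 hB0 hline
    (by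
      intro h2
      by_contra h3
      apply hy
      refine ⟨h2, ?_⟩
      rw [← Nat.not_even_iff_odd, even_iff_two_dvd]
      exact h3)
  exact hno hygen hyodd

/-- no odd families of conics -/
theorem no_conics_gen {n : ℕ} {F : MvPolynomial (Fin (n + 2)) ℂ} (hF : F.IsHomogeneous 3)
    (hsm : Sm F) {M : Type} [Field M] [Algebra ℂ M] (L : IntermediateField ℂ M) (t : M)
    (ht : Transcendental L t) (α β γ : Fin (n + 2) → M) (hα : ∀ i, α i ∈ L)
    (hβ : ∀ i, β i ∈ L) (hγ : ∀ i, γ i ∈ L)
    (hG : Gp F (fun i => t ^ 2 * α i + t * β i + γ i))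
    (hli : α ≠ 0 → LinearIndependent M ![(fun i => t ^ 2 * α i + t * β i + γ i), α])
    (hch : α ≠ 0 → aeval α F = 0 → ∀ s τ : M, s ≠ 0 →
      Odd (finrank (ratioField fun i => t ^ 2 * α i + t * β i + γ i) M) →
      aeval (fun j => s * (t ^ 2 * α j + t * β j + γ j) + τ * α j) F = 0 →
      Gp F (fun j => s * (t ^ 2 * α j + t * β j + γ j) + τ * α j) ∧
        Odd (finrank (ratioField fun j => s * (t ^ 2 * α j + t * β j + γ j) + τ * α j) M)) :
    Even (finrank (ratioField fun i => t ^ 2 * α i + t * β i + γ i) M) := by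
  classical
  rw [← Nat.not_odd_iff_even]
  intro hodd
  set x : Fin (n + 2) → M := fun i => t ^ 2 * α i + t * β i + γ i with hx
  have hodd2 : ¬ 2 ∣ finrank (ratioField x) M := fun h =>
    (Nat.not_even_iff_odd.2 hodd) (even_iff_two_dvd.2 h)
  have hF0 : F ≠ 0 := ne_zero_of_smooth (m := n + 1) hsm
  have hirr : Irreducible F := Pool.Agent.Y201.LI.irreducible_of_generic hF hF0 x hG.1 hG.2
  have hT1 := Pool.Agent.Y201.LI.hT1 (n + 2) 3 F hF (by norm_num) hirr hsm M L t ht
  have hane : α ≠ 0 := by
    intro h0
    have h1 : x = fun i => t * β i + γ i := by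
      funext i
      rw [hx]
      simp only
      rw [h0, Pi.zero_apply, mul_zero, zero_add]
    have h2 := hG
    rw [h1] at h2 hodd2
    exact hodd2 (hT1 β γ hβ hγ h2.1 h2.2)
  obtain ⟨l1, l2, l3, k1, k2, k3, hline⟩ := conic_shape hF L t ht α β γ hα hβ hγ hG.1
  have hev : ∀ τ : M, aeval (fun j => x j + τ * α j) F =
      -(l1 * t ^ 2 + l2 * t + l3) * τ + -l1 * τ ^ 2 := by
    intro τ
    have h1 := congrArg (Polynomial.eval τ) hline
    rw [Polynomial.eval_add, Polynomial.eval_mul, Polynomial.eval_mul, Polynomial.eval_pow,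
      Polynomial.eval_C, Polynomial.eval_C, Polynomial.eval_X] at h1
    rw [← h1]
    have h3 := comp_aeval_apply (f := fun j => Polynomial.C (t ^ 2 * α j + t * β j + γ j) +
        Polynomial.X * Polynomial.C (α j)) ((Polynomial.aeval (R := M) τ).restrictScalars ℂ) F
    have h4 : ((Polynomial.aeval (R := M) τ).restrictScalars ℂ) (aeval (fun j =>
        Polynomial.C (t ^ 2 * α j + t * β j + γ j) + Polynomial.X * Polynomial.C (α j)) F) =
        Polynomial.eval τ (aeval (fun j => Polynomial.C (t ^ 2 * α j + t * β j + γ j) +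
          Polynomial.X * Polynomial.C (α j)) F) := by
      rw [AlgHom.restrictScalars_apply, Polynomial.coe_aeval_eq_eval]
    rw [← h4, h3]
    congr 2
    funext j
    rw [AlgHom.restrictScalars_apply, Polynomial.coe_aeval_eq_eval]
    rw [Polynomial.eval_add, Polynomial.eval_mul, Polynomial.eval_C, Polynomial.eval_C,
      Polynomial.eval_X]
  have hxα := hli hane
  have tan : S_TAN := tan_of div (nt Pool.Agent.Y201.LI.hT1) fi fd
  have hl1 : l1 ≠ 0 := by
    intro h0
    have h1 : Polynomial.C (-l1) * Polynomial.X ^ 2 = 0 := by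
      rw [h0, neg_zero, Polynomial.C_0, zero_mul]
    rw [h1, add_zero] at hline
    exact hodd2 (tan (n + 1) 3 F hF (by norm_num) hsm M x α _ hxα hG.1 hG.2 hline)
  -- the point `α` lies on the hypersurface
  have hαF : aeval α F = 0 := by
    obtain ⟨T, hT, hFT⟩ := exists_tri F hF
    have hT' : ∀ {R : Type} [CommRing R] [Algebra ℂ R] (v : Fin (n + 2) → R),
        aeval v F = Bg T v v v := by
      intro R _ _ v
      conv_lhs => rw [hFT]
      exact aeval_frmG T v
    have h1 : ∀ τ : M, aeval (fun j => x j + τ * α j) F =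
        3 * Bg T x x α * τ + 3 * Bg T x α α * τ ^ 2 + Bg T α α α * τ ^ 3 := by
      intro τ
      have h2 := Bg_span3 hT x α α 1 τ 0
      have h3 : (fun i => 1 * x i + τ * α i + 0 * α i) = fun i => x i + τ * α i := by
        funext i
        ring
      rw [h3, ← hT', ← hT' x, hG.1] at h2
      linear_combination h2
    have e1 := (h1 1).symm.trans (hev 1)
    have e2 := (h1 (-1)).symm.trans (hev (-1))
    have e3 := (h1 2).symm.trans (hev 2)
    rw [hT']
    have h6 : (6 : M) * Bg T α α α = 0 := by
      linear_combination e3 - 3 * e1 - e2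
    have h60 : (6 : M) ≠ 0 := by
      have := Algebra.algebraMap_eq_smul_one (R := ℂ) (A := M) 6
      have h7 : algebraMap ℂ M 6 ≠ 0 := by
        rw [Ne, map_eq_zero]
        norm_num
      rwa [map_ofNat] at h7
    exact (mul_eq_zero.1 h6).resolve_left h60
  have hs : -l1 ≠ 0 := neg_ne_zero.2 hl1
  have h1 := hch hane hαF (-l1) (l1 * t ^ 2 + l2 * t + l3) hs hodd (by
    have h2 : (fun j => -l1 * x j + (l1 * t ^ 2 + l2 * t + l3) * α j) =
        fun j => -l1 * (x j + (l1 * t ^ 2 + l2 * t + l3) / -l1 * α j) := by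
      funext j
      have h3 := div_mul_cancel₀ (l1 * t ^ 2 + l2 * t + l3) hs
      linear_combination -α j * h3
    rw [h2, aeval_smul_form hF, hev]
    have h3 := div_mul_cancel₀ (l1 * t ^ 2 + l2 * t + l3) hs
    generalize (l1 * t ^ 2 + l2 * t + l3) / -l1 = τ at h3
    rw [← h3]
    ring)
  have h2 : (fun j => -l1 * (t ^ 2 * α j + t * β j + γ j) +
      (l1 * t ^ 2 + l2 * t + l3) * α j) =
      fun j => t * (-l1 * β j + l2 * α j) + (-l1 * γ j + l3 * α j) := by
    funext j
    ring
  rw [h2] at h1
  have h3 := hT1 _ _ (fun j => add_mem (mul_mem (neg_mem k1) (hβ j)) (mul_mem k2 (hα j)))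
      (fun j => add_mem (mul_mem (neg_mem k1) (hγ j)) (mul_mem k3 (hα j))) h1.1.1 h1.1.2
  exact (Nat.not_even_iff_odd.2 h1.2) (even_iff_two_dvd.2 h3)

end

end Pool.Agent.T9h1
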