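import Pool.Agent.T9h1.Nd

/-! # Covariants of a generic cubic -/

set_option autoImplicit false

namespace Pool.Agent.T9h1

open MvPolynomial Module IntermediateField FF Pool.Agent.R845.E3 Pool.Agent.R845.E3.Trans
open Pool.Agent.TH314.PD Pool.Agent.N122 Pool.Agent.R845.VG

noncomputable section

/-- the shape of a covariant quantity of order `g` -/
def Shape {m : ℕ} {κ : Type} [Field κ] [Algebra κ ℂ] (M N g : ℕ) (s : ℂ) {ι : Type}
    (G : ι → MvPolynomial (Fin (m + 2)) ℂ) (ν : ι → ℕ) (a : ι → Fin (m + 2))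
    (B : ι → MvPolynomial (Fin (m + 2)) κ) : Prop :=
  ∀ j, (B j).IsHomogeneous g ∧ G j = C (ν j * s ^ (3 * M ^ (a j : ℕ))) * X (a j) ^ g +
    C (s ^ N) * map (algebraMap κ ℂ) (B j)

theorem cov_lead {m : ℕ} {κ : Type} [Field κ] [Algebra κ ℂ] (M N g : ℕ) (hg1 : 1 ≤ g)
    (hg2 : g ≤ 2) (s : ℂ) {ι : Type} (G : ι → MvPolynomial (Fin (m + 2)) ℂ) (ν : ι → ℕ)
    (a : ι → Fin (m + 2)) (B : ι → MvPolynomial (Fin (m + 2)) κ) (hG : Shape M N g s G ν a B)
    (k : Subfield ℂ) (θ : k →+* κ) (hθ : ∀ x : k, algebraMap κ ℂ (θ x) = x)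
    (P : MvPolynomial ι k) (d : ℕ) (hP : P.IsHomogeneous d) (hd : d < M)
    (hN : N = 2 * (d * M ^ (m + 1)) + 1 + 3 * M ^ (m + 1))
    (hPd0 : eval₂ C (fun j => C (ν j : k) * X (a j)) P ≠
      (0 : MvPolynomial (Fin (m + 2)) k)) :
    ∃ (r : ℕ) (Ξ' : MvPolynomial (Fin (m + 2)) (Polynomial κ)) (β0 : Fin (m + 2) →₀ ℕ) (l : κ),
      l ≠ 0 ∧ Ξ'.IsHomogeneous (g * d) ∧ map Polynomial.constantCoeff Ξ' = monomial β0 l ∧
      ∀ (R : Type) [CommRing R] [Algebra ℂ R] (c : Fin (m + 2) → R),
        algebraMap ℂ R s ^ r * eval₂ ((algebraMap ℂ R).comp (evs κ s))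
          (fun i : Fin (m + 2) => algebraMap ℂ R s ^ (M ^ (i : ℕ)) * c i) Ξ' =
          aeval c (eval₂ (C.comp k.subtype) G P) := by
  classical
  have hM1 : 1 ≤ M := by omega
  let w : Fin (m + 2) → ℕ := fun i => M ^ (i : ℕ)
  let Bx : ι → MvPolynomial (Fin (m + 2)) (Polynomial κ) := fun j =>
    shiftX w N (map Polynomial.C (B j))
  have hwt : ∀ β : Fin (m + 2) →₀ ℕ, wtt w β ≤ β.degree * M ^ (m + 1) := by
    intro β
    rw [wtt_eq]
    exact wt_le hM1 β
  have hB : ∀ j, ∀ β, Polynomial.X ^ (2 * (d * M ^ (m + 1)) + 1) ∣ coeff β (Bx j) := by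
    intro j β
    change _ ∣ coeff β (shiftX w N (map Polynomial.C (B j)))
    rw [shiftX_coeff, coeff_map]
    by_cases h0 : coeff β (B j) = 0
    · rw [h0, map_zero, zero_mul]
      exact dvd_zero _
    · have h1 : β.degree = g := by
        have := (hG j).1 h0
        rwa [Finsupp.degree_eq_weight_one]
      have h2 := hwt β
      rw [h1] at h2
      have h3 : g * M ^ (m + 1) ≤ 3 * M ^ (m + 1) := Nat.mul_le_mul_right _ (by omega)
      exact Dvd.dvd.mul_left (pow_dvd_pow _ (by omega)) _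
  let Pd : MvPolynomial (Fin (m + 2)) κ := eval₂ (C.comp θ) (fun j => C (ν j : κ) * X (a j)) P
  have hPd : Pd = map θ (eval₂ C (fun j => C (ν j : k) * X (a j)) P) := by
    have h1 : (map θ : MvPolynomial (Fin (m + 2)) k →+* _).comp
        (eval₂Hom C (fun j => C (ν j : k) * X (a j))) =
        eval₂Hom (C.comp θ) (fun j => C (ν j : κ) * X (a j)) := by
      apply MvPolynomial.ringHom_ext
      · intro x
        simp
      · intro j
        simp
    exact (RingHom.congr_fun h1 P).symm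
  have hPdne : Pd ≠ 0 := by
    rw [hPd]
    intro h
    apply hPd0
    apply map_injective θ θ.injective
    rw [h, map_zero]
  have hPdh : Pd.IsHomogeneous d := by
    have h1 := IsHomogeneous.eval₂ (n := 1) hP (C.comp θ)
      (fun j => (C (ν j : κ) * X (a j) : MvPolynomial (Fin (m + 2)) κ))
      (fun r => isHomogeneous_C _ _) (fun j => by
        have := (isHomogeneous_C (Fin (m + 2)) (ν j : κ)).mul (isHomogeneous_X κ (a j))
        rwa [zero_add] at this)
    rwa [one_mul] at h1
  obtain ⟨r, Ξ', β0, l, hl, hfac, hlead⟩ := lead_gen (m := m) M (2 * (d * M ^ (m + 1)) + 1) g hg1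
    hg2 (fun j => (ν j : κ)) a Bx hB θ P d hd (by omega) Pd hPdh rfl hPdne
  set Ξ : MvPolynomial (Fin (m + 2)) (Polynomial κ) := eval₂ ((C.comp Polynomial.C).comp θ)
    (fun j => C (Polynomial.C (ν j : κ) * Polynomial.X ^ ((3 - g) * M ^ (a j : ℕ))) *
      X (a j) ^ g + Bx j) P with hΞ
  have hΞh : Ξ.IsHomogeneous (g * d) := by
    refine IsHomogeneous.eval₂ hP _ _ (fun r => isHomogeneous_C _ _) (fun j => ?_)
    refine IsHomogeneous.add ?_ ?_
    · have := (isHomogeneous_C (Fin (m + 2)) (Polynomial.C (ν j : κ) *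
        Polynomial.X ^ ((3 - g) * M ^ (a j : ℕ)))).mul ((isHomogeneous_X (Polynomial κ) (a j)).pow g)
      rwa [zero_add, one_mul] at this
    · exact shiftX_hom _ _ _ _ ((hG j).1.map _)
  refine ⟨r, Ξ', β0, l, hl, ?_, hlead, ?_⟩
  · intro β hβ
    apply hΞh
    rw [hfac, coeff_C_mul]
    exact mul_ne_zero (pow_ne_zero _ Polynomial.X_ne_zero) hβ
  · intro R _ _ c
    set f : Polynomial κ →+* R := (algebraMap ℂ R).comp (evs κ s) with hf
    have hfX : f Polynomial.X = algebraMap ℂ R s := by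
      rw [hf, RingHom.comp_apply, evs_X]
    have hfC : ∀ x, f (Polynomial.C x) = algebraMap ℂ R (algebraMap κ ℂ x) := by
      intro x
      rw [hf, RingHom.comp_apply, evs_C]
    have h1 : eval₂ f (fun i : Fin (m + 2) => algebraMap ℂ R s ^ (M ^ (i : ℕ)) * c i) Ξ =
        algebraMap ℂ R s ^ r * eval₂ f
          (fun i : Fin (m + 2) => algebraMap ℂ R s ^ (M ^ (i : ℕ)) * c i) Ξ' := by
      rw [hfac, eval₂_mul, eval₂_C, map_pow, hfX]
    rw [← h1]
    have h2 : (eval₂Hom f (fun i : Fin (m + 2) => algebraMap ℂ R s ^ (M ^ (i : ℕ)) * c i)).comp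
        (eval₂Hom ((C.comp Polynomial.C).comp θ)
          (fun j => C (Polynomial.C (ν j : κ) * Polynomial.X ^ ((3 - g) * M ^ (a j : ℕ))) *
            X (a j) ^ g + Bx j)) =
        (aeval c : MvPolynomial (Fin (m + 2)) ℂ →ₐ[ℂ] R).toRingHom.comp
          (eval₂Hom (C.comp k.subtype) G) := by
      apply MvPolynomial.ringHom_ext
      · intro x
        simp only [RingHom.comp_apply, coe_eval₂Hom, eval₂_C]
        rw [hfC, hθ]
        simp
      · intro j
        simp only [RingHom.comp_apply, coe_eval₂Hom, eval₂_X]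
        rw [(hG j).2]
        have e1 := shiftX_eval w N (map Polynomial.C (B j)) (by
          intro β hβ
          have h0 : coeff β (B j) ≠ 0 := by
            intro h0
            rw [MvPolynomial.mem_support_iff, coeff_map, h0, map_zero] at hβ
            exact hβ rfl
          have h1 : β.degree = g := by
            have := (hG j).1 h0
            rwa [Finsupp.degree_eq_weight_one]
          have h2 := hwt β
          rw [h1] at h2
          have h3 : g * M ^ (m + 1) ≤ 3 * M ^ (m + 1) := Nat.mul_le_mul_right _ (by omega)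
          omega) f c
        rw [hfX] at e1
        rw [eval₂_add, eval₂_mul, eval₂_C, eval₂_pow, eval₂_X]
        have e2 : eval₂ f (fun i : Fin (m + 2) => algebraMap ℂ R s ^ (M ^ (i : ℕ)) * c i) (Bx j) =
            algebraMap ℂ R s ^ N * eval₂ f c (map Polynomial.C (B j)) := e1
        rw [e2, eval₂_map]
        have e3 : f.comp Polynomial.C = (algebraMap ℂ R).comp (algebraMap κ ℂ) := by
          ext x
          exact hfC x
        rw [e3]
        change _ = aeval c (C (ν j * s ^ (3 * M ^ (a j : ℕ))) * X (a j) ^ g +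
          C (s ^ N) * map (algebraMap κ ℂ) (B j))
        rw [map_add, map_mul (aeval c) (C (ν j * s ^ (3 * M ^ (a j : ℕ)))),
          map_mul (aeval c) (C (s ^ N)), aeval_C, aeval_C, map_pow (aeval c), aeval_X,
          map_pow (algebraMap ℂ R) s N, aeval_def, eval₂_map]
        congr 1
        rw [map_mul f, map_pow, hfX, hfC, map_natCast, map_natCast, map_mul, map_natCast, map_pow,
          mul_pow, ← pow_mul]
        have e4 : 3 * M ^ (a j : ℕ) = (3 - g) * M ^ (a j : ℕ) + M ^ (a j : ℕ) * g := by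
          rw [mul_comm (M ^ (a j : ℕ)) g, ← add_mul, Nat.sub_add_cancel (by omega)]
        rw [e4, pow_add]
        ring
    exact RingHom.congr_fun h2 P

/-- the decomposition of a generic cubic as a polynomial -/
theorem key_form {m : ℕ} {κ : Type} [Field κ] [Algebra κ ℂ] {k : Subfield ℂ} (w : Fin (m + 2) → ℕ)
    (N : ℕ) (s : ℂ) (A : MvPolynomial (Fin (m + 2)) κ) (F : MvPolynomial (Fin (m + 2)) ℂ)
    (hF : F.IsHomogeneous 3)
    (hcf : ∀ β : Mon (m + 2) 3, cf 3 F β = Polynomial.aeval s (Uw (k := k) w β.1) +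
        algebraMap κ ℂ (coeff β.1 A) * s ^ N) :
    F = (∑ i, C (s ^ (3 * w i)) * X i ^ 3) +
      C (s ^ N) * map (algebraMap κ ℂ) (homogeneousComponent 3 A) := by
  classical
  have hcube : ∀ (i : Fin (m + 2)) (a : ℂ), (C a * X i ^ 3 : MvPolynomial (Fin (m + 2)) ℂ) =
      monomial (Finsupp.single i 3) a := by
    intro i a
    rw [X_pow_eq_monomial, C_mul_monomial, mul_one]
  ext β
  rw [coeff_add, coeff_sum, coeff_C_mul, coeff_map, coeff_homogeneousComponent]
  have e1 : ∀ i, coeff β (C (s ^ (3 * w i)) * X i ^ 3 : MvPolynomial (Fin (m + 2)) ℂ) =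
      if β = Finsupp.single i 3 then s ^ (3 * w i) else 0 := by
    intro i
    rw [hcube, coeff_monomial]
    simp only [eq_comm]
  by_cases hβ : β.degree = 3
  · have h4 := hcf ⟨β, hβ⟩
    change coeff β F = _ at h4
    rw [h4, if_pos hβ]
    congr 1
    · unfold Uw
      rw [map_sum]
      refine Finset.sum_congr rfl fun i _ => ?_
      rw [e1]
      split_ifs
      · rw [map_pow, Polynomial.aeval_X]
      · rw [map_zero]
    · ring
  · rw [hF.coeff_eq_zero hβ, if_neg hβ, map_zero, mul_zero, add_zero]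
    rw [Finset.sum_eq_zero]
    intro i _
    rw [e1, if_neg]
    intro h
    apply hβ
    rw [h, Finsupp.degree_single]

end

end Pool.Agent.T9h1
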