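import Pool.Agent.T9h1.Cov
import Pool.Agent.T9h1.Chord2

/-! # Chords through the points of zero sets of covariants -/

set_option autoImplicit false

namespace Pool.Agent.T9h1

open MvPolynomial Module IntermediateField FF Pool.Agent.R845.E3 Pool.Agent.R845.E3.Trans
open Pool.Agent.TH314.PD Pool.Agent.N122 Pool.Agent.R845.VG Pool.Agent.Y201.C3 Pool.Agent.R845.T2

noncomputable section

/-- the quantities `G` of order `g` are monomials up to terms of high order, for all decompositions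
of the cubic form -/
def Cv {m : ℕ} (F : MvPolynomial (Fin (m + 2)) ℂ) (g : ℕ) {ι : Type}
    (G : ι → MvPolynomial (Fin (m + 2)) ℂ) (ν : ι → ℕ) (a : ι → Fin (m + 2)) : Prop :=
  ∀ (κ : Type) [Field κ] [Algebra κ ℂ] (M N : ℕ) (s : ℂ) (A : MvPolynomial (Fin (m + 2)) κ),
    A.IsHomogeneous 3 → F = (∑ i : Fin (m + 2), C (s ^ (3 * M ^ (i : ℕ))) * X i ^ 3) +
      C (s ^ N) * map (algebraMap κ ℂ) A →
    ∃ B : ι → MvPolynomial (Fin (m + 2)) κ, Shape M N g s G ν a B

theorem pderiv_diag {m : ℕ} (M : ℕ) (s : ℂ) (j : Fin (m + 2)) :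
    pderiv j (∑ i : Fin (m + 2), C (s ^ (3 * M ^ (i : ℕ))) * X i ^ 3 : MvPolynomial _ ℂ) =
      C (3 * s ^ (3 * M ^ (j : ℕ))) * X j ^ 2 := by
  rw [map_sum, Finset.sum_eq_single j]
  · rw [pderiv_C_mul, pderiv_pow, pderiv_X_self, C_mul]
    push_cast
    have h3 : (C (3 : ℂ) : MvPolynomial (Fin (m + 2)) ℂ) = 3 := by
      exact map_ofNat C 3
    rw [h3]
    ring
  · intro i _ hi
    rw [pderiv_C_mul, pderiv_pow, pderiv_X_of_ne hi, mul_zero, mul_zero]
  · intro h
    exact absurd (Finset.mem_univ _) h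

theorem cv_grad {m : ℕ} (F : MvPolynomial (Fin (m + 2)) ℂ) :
    Cv F 2 (fun j => pderiv j F) (fun _ => 3) (fun j => j) := by
  intro κ _ _ M N s A hA hF
  refine ⟨fun j => pderiv j A, ?_⟩
  intro j
  refine ⟨hA.pderiv, ?_⟩
  simp only
  conv_lhs => rw [hF]
  rw [map_add, pderiv_C_mul, pderiv_map, pderiv_diag]
  push_cast
  rfl

theorem cv_hess {m : ℕ} (F : MvPolynomial (Fin (m + 2)) ℂ) :
    Cv F 1 (fun j : Fin (m + 2) × Fin (m + 2) => pderiv j.1 (pderiv j.2 F))
      (fun j => if j.1 = j.2 then 6 else 0) (fun j => j.2) := by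
  intro κ _ _ M N s A hA hF
  refine ⟨fun j => pderiv j.1 (pderiv j.2 A), ?_⟩
  rintro ⟨i, j⟩
  refine ⟨hA.pderiv.pderiv, ?_⟩
  simp only
  conv_lhs => rw [hF]
  rw [map_add, pderiv_C_mul, pderiv_map, pderiv_diag, map_add, pderiv_C_mul, pderiv_C_mul,
    pderiv_map, pderiv_pow]
  congr 1
  by_cases h : i = j
  · subst h
    rw [if_pos rfl, pderiv_X_self]
    push_cast
    simp only [C_mul]
    have h3 : (C (3 : ℂ) : MvPolynomial (Fin (m + 2)) ℂ) = 3 := map_ofNat C 3
    have h6 : (C (6 : ℂ) : MvPolynomial (Fin (m + 2)) ℂ) = 6 := map_ofNat C 6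
    rw [h3, h6]
    ring
  · rw [if_neg h, pderiv_X_of_ne (Ne.symm h), Nat.cast_zero, zero_mul, C_0, zero_mul, mul_zero,
      mul_zero]

/-- **no generic point of odd degree on a chord through a point of the zero set of a covariant** -/
theorem no_cov {m : ℕ} (k : Subfield ℂ) [Countable k] (F : MvPolynomial (Fin (m + 2)) ℂ)
    (hF : F.IsHomogeneous 3) (hind : AlgebraicIndependent k (cf 3 F))
    (g : ℕ) (hg1 : 1 ≤ g) (hg2 : g ≤ 2) {ι : Type} (G : ι → MvPolynomial (Fin (m + 2)) ℂ)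
    (ν : ι → ℕ) (a : ι → Fin (m + 2)) (hCv : Cv F g G ν a)
    (P : MvPolynomial ι k) (d : ℕ) (hP : P.IsHomogeneous d)
    (hPd0 : eval₂ C (fun j => C (ν j : k) * X (a j)) P ≠ (0 : MvPolynomial (Fin (m + 2)) k))
    {E : Type} [Field E] [Algebra ℂ E] (z : Fin (m + 2) → E)
    (hz : ∀ (e : ℕ) (G : MvPolynomial (Fin (m + 2)) ℂ), G.IsHomogeneous e → aeval z G = 0 → G = 0)
    (hodd : Odd (finrank (ratioField z) E)) (c : Fin (m + 2) → E) (hc : c ≠ 0)
    (hcF : aeval c F = 0)
    (hcP : aeval c (eval₂ (C.comp k.subtype) G P) = 0) (τ : E)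
    (hx : aeval (fun i => z i + τ * c i) F = 0) : False := by
  classical
  set M : ℕ := d + 1 with hMdef
  have hM1 : 1 ≤ M := by omega
  let w : Fin (m + 2) → ℕ := fun i => M ^ (i : ℕ)
  obtain ⟨N, hNdef⟩ : ∃ N : ℕ, N = 2 * (d * M ^ (m + 1)) + 1 + 3 * M ^ (m + 1) := ⟨_, rfl⟩
  have hN : ∀ β : Fin (m + 2) →₀ ℕ, β.degree = 3 → wtt w β < N := by
    intro β hβ
    rw [wtt_eq]
    have h1 := wt_le hM1 β
    rw [hβ] at h1
    omega
  obtain ⟨κ, iF, iA, s, A, θ, hθ, hs0, hcf, R, iR, iκR, A0, y', v, e', hA0, hy', hodd', hv0, hv3,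
    hev, hrel, -⟩ := residue k F hF hind w N hN z hz hodd c hc hcF τ hx
      (T := Empty) (fun t => t.elim) (fun t => t.elim) (fun t => t.elim) (fun t => t.elim)
      (fun t => t.elim)
  have hkey := key_form (k := k) w N s A F hF hcf
  obtain ⟨B, hB⟩ := hCv κ M N s (homogeneousComponent 3 A)
    (homogeneousComponent_isHomogeneous 3 A) hkey
  obtain ⟨r, Ξ', β0, l, hl, hΞh, hlead, hval⟩ := cov_lead M N g hg1 hg2 s G ν a B hB k θ hθ P d hP
    (by omega) hNdef hPd0
  have hsE0 : algebraMap ℂ E s ≠ 0 := (map_ne_zero _).2 hs0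
  have h0 := hval E c
  rw [hcP] at h0
  have h1 := hrel (g * d) Ξ' hΞh ((mul_eq_zero.1 h0).resolve_left (pow_ne_zero _ hsE0))
  rw [← eval₂_map, hlead, eval₂_monomial, Finsupp.prod_pow] at h1
  have h2 := (mul_eq_zero.1 h1).resolve_left ((map_ne_zero _).2 hl)
  obtain ⟨i, -, hi⟩ := Finset.prod_eq_zero_iff.1 h2
  have hvi : v i = 0 := by
    by_contra h
    exact pow_ne_zero _ h hi
  exact hv0 (second_any y' hy' hodd' v e' i hvi hev)

/-- **a generic cubic does not divide the covariant** -/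
theorem nd_cov {m : ℕ} (k : Subfield ℂ) [Countable k] (F : MvPolynomial (Fin (m + 2)) ℂ)
    (hF : F.IsHomogeneous 3) (hind : AlgebraicIndependent k (cf 3 F))
    (g : ℕ) (hg1 : 1 ≤ g) (hg2 : g ≤ 2) {ι : Type} (G : ι → MvPolynomial (Fin (m + 2)) ℂ)
    (ν : ι → ℕ) (a : ι → Fin (m + 2)) (hCv : Cv F g G ν a)
    (P : MvPolynomial ι k) (d : ℕ) (hP : P.IsHomogeneous d)
    (hPd0 : eval₂ C (fun j => C (ν j : k) * X (a j)) P ≠ (0 : MvPolynomial (Fin (m + 2)) k)) :
    ¬ F ∣ eval₂ (C.comp k.subtype) G P := by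
  classical
  intro hdvd
  set M : ℕ := d + 1 with hMdef
  have hM1 : 1 ≤ M := by omega
  let w : Fin (m + 2) → ℕ := fun i => M ^ (i : ℕ)
  obtain ⟨N, hNdef⟩ : ∃ N : ℕ, N = 2 * (d * M ^ (m + 1)) + 1 + 3 * M ^ (m + 1) := ⟨_, rfl⟩
  have hN : ∀ β : Fin (m + 2) →₀ ℕ, β.degree = 3 → wtt w β < N := by
    intro β hβ
    rw [wtt_eq]
    have h1 := wt_le hM1 β
    rw [hβ] at h1
    omega
  obtain ⟨κ, iF, iA, s, A, θ, hθ, hAh, htb, hcf, hval0⟩ := decomp2 k F hF hind w N
  have hstr : Transcendental κ s := by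
    have h1 := htb.1
    rwa [algebraicIndependent_unique_type_iff] at h1
  have hs0 : s ≠ 0 := by
    rintro rfl
    exact hstr isAlgebraic_zero
  have hkey := key_form (k := k) w N s A F hF hcf
  obtain ⟨B, hB⟩ := hCv κ M N s (homogeneousComponent 3 A)
    (homogeneousComponent_isHomogeneous 3 A) hkey
  obtain ⟨r, Ξ', β0, l, hl, hΞh, hlead, hval⟩ := cov_lead M N g hg1 hg2 s G ν a B hB k θ hθ P d hP
    (by omega) hNdef hPd0
  let Fb : MvPolynomial (Fin (m + 2)) (Polynomial κ) :=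
    (∑ i, X i ^ 3) + shiftX w N (map Polynomial.C A)
  have hFb : map Polynomial.constantCoeff Fb = ∑ i, X i ^ 3 := by
    have h1 : map Polynomial.constantCoeff (shiftX w N (map Polynomial.C A)) = 0 := by
      ext β
      rw [coeff_map, shiftX_coeff, coeff_map, coeff_zero]
      by_cases h0 : coeff β A = 0
      · rw [h0, map_zero, zero_mul, map_zero]
      · have hβ : β.degree = 3 := by
          have := hAh h0
          rwa [Finsupp.degree_eq_weight_one]
        have := hN β hβ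
        rw [map_mul, map_pow, Polynomial.constantCoeff_apply Polynomial.X, Polynomial.coeff_X_zero,
          zero_pow (by omega), mul_zero]
    change map Polynomial.constantCoeff ((∑ i, X i ^ 3) + shiftX w N (map Polynomial.C A)) = _
    rw [map_add, h1, add_zero, map_sum]
    exact Finset.sum_congr rfl fun i _ => by rw [map_pow, map_X]
  refine nd_lead s hstr Fb Ξ' hFb β0 l hl hlead ?_
  -- the substitution
  let c : Fin (m + 2) → MvPolynomial (Fin (m + 2)) ℂ := fun i => C ((s ^ (M ^ (i : ℕ)))⁻¹) * X i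
  have hsc : ∀ i : Fin (m + 2), algebraMap ℂ (MvPolynomial (Fin (m + 2)) ℂ) s ^ (M ^ (i : ℕ)) *
      c i = X i := by
    intro i
    have e : c i = C ((s ^ (M ^ (i : ℕ)))⁻¹) * X i := rfl
    rw [e, algebraMap_eq, ← mul_assoc, ← C_pow, ← C_mul, mul_inv_cancel₀ (pow_ne_zero _ hs0), C_1,
      one_mul]
  have hmap : ∀ Q : MvPolynomial (Fin (m + 2)) (Polynomial κ),
      eval₂ ((algebraMap ℂ (MvPolynomial (Fin (m + 2)) ℂ)).comp (evs κ s)) X Q =
        map (evs κ s) Q := by
    intro Q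
    have e : eval₂Hom ((algebraMap ℂ (MvPolynomial (Fin (m + 2)) ℂ)).comp (evs κ s)) X =
        map (evs κ s) := by
      apply MvPolynomial.ringHom_ext
      · intro x
        rw [coe_eval₂Hom, eval₂_C, map_C, algebraMap_eq, RingHom.comp_apply]
      · intro i
        rw [coe_eval₂Hom, eval₂_X, map_X]
    exact RingHom.congr_fun e Q
  have h1 := hval (MvPolynomial (Fin (m + 2)) ℂ) c
  simp only [hsc] at h1
  rw [hmap] at h1
  have h2 := hval0 (MvPolynomial (Fin (m + 2)) ℂ) c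
  have h3 : aeval c F = map (evs κ s) Fb := by
    rw [h2]
    change _ = map (evs κ s) ((∑ i, X i ^ 3) + shiftX w N (map Polynomial.C A))
    rw [map_add, map_sum]
    congr 1
    · refine Finset.sum_congr rfl fun i _ => ?_
      rw [map_pow, map_X]
      congr 1
      exact hsc i
    · have e1 := shiftX_eval w N (map Polynomial.C A) (by
        intro β hβ
        have h0 : coeff β A ≠ 0 := by
          intro h0
          rw [MvPolynomial.mem_support_iff, coeff_map, h0, map_zero] at hβ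
          exact hβ rfl
        have hβ3 : β.degree = 3 := by
          have := hAh h0
          rwa [Finsupp.degree_eq_weight_one]
        exact (hN β hβ3).le) ((algebraMap ℂ (MvPolynomial (Fin (m + 2)) ℂ)).comp (evs κ s)) c
      have h4 : ((algebraMap ℂ (MvPolynomial (Fin (m + 2)) ℂ)).comp (evs κ s)) Polynomial.X =
          algebraMap ℂ (MvPolynomial (Fin (m + 2)) ℂ) s := by
        rw [RingHom.comp_apply, evs_X]
      rw [h4] at e1
      have h5 : (fun i : Fin (m + 2) => algebraMap ℂ (MvPolynomial (Fin (m + 2)) ℂ) s ^ w i *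
          c i) = X := funext hsc
      rw [h5, hmap] at e1
      rw [e1, eval₂_map]
      congr 2
      ext x
      rw [RingHom.comp_apply, RingHom.comp_apply, RingHom.comp_apply, evs_C]
  have h4 : aeval c F ∣ aeval c (eval₂ (C.comp k.subtype) G P) := map_dvd _ hdvd
  rw [← h1, h3] at h4
  have hu : IsUnit (algebraMap ℂ (MvPolynomial (Fin (m + 2)) ℂ) s ^ r) := by
    rw [algebraMap_eq]
    exact ((isUnit_iff_ne_zero.2 hs0).map C).pow r
  rwa [hu.dvd_mul_left] at h4

end

end Pool.Agent.T9h1
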