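import Mathlib

/-! # Sparse substitutions and trailing degrees -/

set_option autoImplicit false

namespace Pool.Agent.T9h1

open MvPolynomial

noncomputable section

theorem digits {N : ℕ} (M : ℕ) (d : Fin N → ℤ) (hd : ∀ j, |d j| < M)
    (h : ∑ j, d j * (M : ℤ) ^ (j : ℕ) = 0) : d = 0 := by
  induction N with
  | zero => exact Subsingleton.elim _ _
  | succ N ih =>
    rw [Fin.sum_univ_succ] at h
    have h1 : ∑ j : Fin N, d j.succ * (M : ℤ) ^ ((j.succ : Fin (N + 1)) : ℕ) =
        M * ∑ j : Fin N, d j.succ * (M : ℤ) ^ (j : ℕ) := by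
      rw [Finset.mul_sum]
      refine Finset.sum_congr rfl fun j _ => ?_
      rw [Fin.val_succ, pow_succ]
      ring
    rw [h1] at h
    have h2 : (M : ℤ) ∣ d 0 := by
      refine ⟨-∑ j : Fin N, d j.succ * (M : ℤ) ^ (j : ℕ), ?_⟩
      simp only [Fin.val_zero, pow_zero, mul_one] at h
      linarith
    have h3 : d 0 = 0 := Int.eq_zero_of_abs_lt_dvd h2 (hd 0)
    have hM : (M : ℤ) ≠ 0 := by
      intro h0
      have := hd 0
      rw [h0] at this
      exact absurd this (not_lt.2 (abs_nonneg _))
    rw [h3, zero_mul, zero_add] at h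
    have h4 := (mul_eq_zero.1 h).resolve_left hM
    have h5 := ih (fun j => d j.succ) (fun j => hd _) h4
    funext j
    refine Fin.cases h3 (fun l => ?_) j
    exact congrFun h5 l

/-- the weight of an exponent -/
def wt {N : ℕ} (M : ℕ) (n : Fin N →₀ ℕ) : ℕ := ∑ j, n j * M ^ (j : ℕ)

theorem exp_le {N : ℕ} {κ : Type} [Field κ] (p : MvPolynomial (Fin N) κ) (n : Fin N →₀ ℕ)
    (hn : n ∈ p.support) (j : Fin N) : n j ≤ p.totalDegree := by
  have h1 := le_totalDegree hn
  have h2 : n j ≤ n.sum fun _ e => e := by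
    by_cases hj : j ∈ n.support
    · exact Finset.single_le_sum (f := fun j => n j) (fun _ _ => Nat.zero_le _) hj
    · rw [Finsupp.notMem_support_iff.1 hj]
      exact Nat.zero_le _
  exact h2.trans h1

/-- the trailing degree after a sparse substitution -/
theorem trailing {N : ℕ} {κ : Type} [Field κ] (M : ℕ) (p : MvPolynomial (Fin N) κ) (hp : p ≠ 0)
    (hD : p.totalDegree < M) :
    ∃ n ∈ p.support, eval₂ Polynomial.C (fun j : Fin N => (Polynomial.X : Polynomial κ) ^
        (3 * M ^ (j : ℕ))) p ≠ 0 ∧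
      (eval₂ Polynomial.C (fun j : Fin N => (Polynomial.X : Polynomial κ) ^ (3 * M ^ (j : ℕ)))
        p).natTrailingDegree = 3 * wt M n := by
  classical
  set q : Polynomial κ := eval₂ Polynomial.C (fun j : Fin N => (Polynomial.X : Polynomial κ) ^
        (3 * M ^ (j : ℕ))) p with hq
  have hsum : q = ∑ n ∈ p.support, Polynomial.C (coeff n p) * Polynomial.X ^ (3 * wt M n) := by
    rw [hq, eval₂_eq']
    refine Finset.sum_congr rfl fun n _ => ?_
    congr 1
    rw [show (3 * wt M n) = ∑ j : Fin N, (3 * M ^ (j : ℕ)) * n j by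
      unfold wt
      rw [Finset.mul_sum]
      exact Finset.sum_congr rfl fun j _ => by ring]
    rw [← Finset.prod_pow_eq_pow_sum]
    exact Finset.prod_congr rfl fun j _ => (pow_mul _ _ _).symm
  have hinj : ∀ n ∈ p.support, ∀ n' ∈ p.support, wt M n = wt M n' → n = n' := by
    intro n hn n' hn' h
    have h1 := digits M (fun j => (n j : ℤ) - n' j) (fun j => by
      have h2 := exp_le p n hn j
      have h3 := exp_le p n' hn' j
      rw [abs_lt]
      constructor <;> omega) (by
      unfold wt at h
      have h4 : (∑ j, (n j : ℤ) * (M : ℤ) ^ (j : ℕ)) = ∑ j, (n' j : ℤ) * (M : ℤ) ^ (j : ℕ) := by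
        exact_mod_cast h
      simp only [sub_mul, Finset.sum_sub_distrib]
      rw [h4, sub_self])
    ext j
    have h2 := congrFun h1 j
    simp only [Pi.zero_apply] at h2
    omega
  obtain ⟨n0, hn0, hmin⟩ := Finset.exists_min_image p.support (wt M) (by
    rw [Finset.nonempty_iff_ne_empty]
    intro h
    exact hp (support_eq_empty.1 h))
  have hco : ∀ r, q.coeff r = ∑ n ∈ p.support, if r = 3 * wt M n then coeff n p else 0 := by
    intro r
    rw [hsum, Polynomial.finsetSum_coeff]
    refine Finset.sum_congr rfl fun n _ => ?_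
    rw [Polynomial.coeff_C_mul, Polynomial.coeff_X_pow]
    split_ifs <;> simp
  have hc0 : q.coeff (3 * wt M n0) = coeff n0 p := by
    rw [hco, Finset.sum_eq_single n0]
    · rw [if_pos rfl]
    · intro n hn hnn
      rw [if_neg]
      intro h
      exact hnn (hinj n0 hn0 n hn (by omega)).symm
    · intro h
      exact absurd hn0 h
  have hne : q.coeff (3 * wt M n0) ≠ 0 := by
    rw [hc0]
    exact mem_support_iff.1 hn0
  refine ⟨n0, hn0, ?_, ?_⟩
  · intro h
    rw [h, Polynomial.coeff_zero] at hne
    exact hne rfl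
  · apply le_antisymm
    · exact Polynomial.natTrailingDegree_le_of_ne_zero hne
    · apply Polynomial.le_natTrailingDegree
      · intro h
        rw [h, Polynomial.coeff_zero] at hne
        exact hne rfl
      · intro r hr
        rw [hco]
        refine Finset.sum_eq_zero fun n hn => ?_
        rw [if_neg]
        intro h
        have := hmin n hn
        omega

/-- extraction of the leading term of a family of polynomials with different trailing degrees -/
theorem leading {σ : Type} {κ : Type} [Field κ] (Ξ : MvPolynomial σ (Polynomial κ)) (h0 : Ξ ≠ 0)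
    (hd : ∀ β ∈ Ξ.support, ∀ β' ∈ Ξ.support,
      (coeff β Ξ).natTrailingDegree = (coeff β' Ξ).natTrailingDegree → β = β') :
    ∃ (r : ℕ) (Ξ' : MvPolynomial σ (Polynomial κ)) (β0 : σ →₀ ℕ) (l : κ), l ≠ 0 ∧
      β0 ∈ Ξ.support ∧ Ξ = C (Polynomial.X ^ r) * Ξ' ∧ Ξ'.support ⊆ Ξ.support ∧
      map Polynomial.constantCoeff Ξ' = monomial β0 l := by
  classical
  obtain ⟨β0, hβ0, hmin⟩ := Finset.exists_min_image Ξ.support
    (fun β => (coeff β Ξ).natTrailingDegree) (by
    rw [Finset.nonempty_iff_ne_empty]
    intro h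
    exact h0 (support_eq_empty.1 h))
  set r := (coeff β0 Ξ).natTrailingDegree with hr
  have hdvd : ∀ β, Polynomial.X ^ r ∣ coeff β Ξ := by
    intro β
    by_cases hβ : β ∈ Ξ.support
    · rw [Polynomial.X_pow_dvd_iff]
      intro j hj
      exact Polynomial.coeff_eq_zero_of_lt_natTrailingDegree (lt_of_lt_of_le hj (hmin β hβ))
    · rw [notMem_support_iff.1 hβ]
      exact dvd_zero _
  choose g hg using hdvd
  let Ξ' : MvPolynomial σ (Polynomial κ) := ∑ β ∈ Ξ.support, monomial β (g β)
  have hco : ∀ β, coeff β Ξ' = if β ∈ Ξ.support then g β else 0 := by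
    intro β
    change coeff β (∑ β ∈ Ξ.support, monomial β (g β)) = _
    rw [coeff_sum]
    simp only [coeff_monomial]
    rw [Finset.sum_ite_eq']
  refine ⟨r, Ξ', β0, (coeff β0 Ξ).trailingCoeff, ?_, hβ0, ?_, ?_, ?_⟩
  · rw [Ne, Polynomial.trailingCoeff_eq_zero]
    exact mem_support_iff.1 hβ0
  · ext1 β
    rw [coeff_C_mul, hco]
    by_cases hβ : β ∈ Ξ.support
    · rw [if_pos hβ, ← hg]
    · rw [if_neg hβ, mul_zero]
      exact notMem_support_iff.1 hβ
  · intro β hβ
    by_contra h
    rw [mem_support_iff, hco, if_neg h] at hβ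
    exact hβ rfl
  · ext1 β
    rw [coeff_map, hco, coeff_monomial]
    have hcg : ∀ β, Polynomial.constantCoeff (g β) = (coeff β Ξ).coeff r := by
      intro β
      conv_rhs => rw [hg β]
      have h1 := Polynomial.coeff_X_pow_mul (g β) r 0
      rw [zero_add] at h1
      rw [h1]
      rfl
    by_cases hb : β0 = β
    · rw [if_pos hb, ← hb, if_pos hβ0, hcg]
      rfl
    · rw [if_neg hb]
      by_cases hβ : β ∈ Ξ.support
      · rw [if_pos hβ, hcg]
        apply Polynomial.coeff_eq_zero_of_lt_natTrailingDegree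
        refine lt_of_le_of_ne (hmin β hβ) ?_
        intro h
        exact hb (hd β0 hβ0 β hβ h)
      · rw [if_neg hβ, map_zero]

/-- the total degree after a substitution of polynomials of degree at most one -/
theorem deg_subst {ι τ : Type} {k κ : Type} [Field k] [Field κ] (θ : k →+* κ)
    (g : ι → MvPolynomial τ κ) (hg : ∀ i, (g i).totalDegree ≤ 1) (p : MvPolynomial ι k) :
    (eval₂ (C.comp θ) g p).totalDegree ≤ p.totalDegree := by
  classical
  rw [eval₂_eq]
  refine totalDegree_finsetSum_le fun d hd => ?_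
  refine (totalDegree_mul _ _).trans ?_
  have h1 : ((C.comp θ) (coeff d p) : MvPolynomial τ κ).totalDegree = 0 := totalDegree_C _
  rw [h1, zero_add]
  refine (totalDegree_finsetProd _ _).trans ?_
  refine le_trans (Finset.sum_le_sum fun i _ => ?_) (le_totalDegree hd)
  refine (totalDegree_pow _ _).trans ?_
  calc d i * (g i).totalDegree ≤ d i * 1 := Nat.mul_le_mul_left _ (hg i)
    _ = d i := mul_one _

end

end Pool.Agent.T9h1
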