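import Pool.Agent.T9h1.Kappa

/-! # A subfield of the complex numbers over which a given element is transcendental, second form -/

set_option autoImplicit false

namespace Pool.Agent.T9h1

open IntermediateField Pool.Agent.R845.E3

noncomputable section

theorem exists_kappa2 (k : Subfield ℂ) [Countable k] {ι : Type} [Finite ι] (f : ι → ℂ)
    (hf : AlgebraicIndependent k f) (U : ι → Polynomial k) (N : ℕ) :
    ∃ (κ : Type) (_ : Field κ) (_ : Algebra κ ℂ) (s : ℂ) (a : ι → κ) (θ : k →+* κ),
      (∀ x : k, algebraMap κ ℂ (θ x) = x) ∧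
      (∀ i, f i = Polynomial.aeval s (U i) + algebraMap κ ℂ (a i) * s ^ N) ∧
      IsTranscendenceBasis κ (fun _ : Unit => s) := by
  classical
  have hf' : AlgebraicIndepOn k id (Set.range f) := hf.to_subtype_range
  obtain ⟨T, hfT, hT⟩ := exists_isTranscendenceBasis_superset hf'
  -- an element outside the range of `f`
  have hcard : Cardinal.mk ℂ = Cardinal.mk T :=
    IsAlgClosed.cardinal_eq_cardinal_transcendence_basis_of_aleph0_lt' _ hT
      (Cardinal.mk_le_aleph0_iff.2 inferInstance) (by
        rw [Cardinal.mk_complex]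
        exact Cardinal.aleph0_lt_continuum)
  have hnc : ¬ T.Countable := by
    intro h
    have h1 := Cardinal.mk_le_aleph0_iff.2 (Set.countable_coe_iff.2 h)
    rw [← hcard, Cardinal.mk_complex] at h1
    exact absurd h1 (not_le.2 Cardinal.aleph0_lt_continuum)
  obtain ⟨s, hsT, hsf⟩ : ∃ s ∈ T, s ∉ Set.range f := by
    by_contra hcon
    push Not at hcon
    exact hnc ((Set.finite_range f).countable.mono hcon)
  have hs0 : s ≠ 0 := by
    rintro rfl
    have h1 := hT.1.transcendental ⟨0, hsT⟩
    exact h1 isAlgebraic_zero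
  let T' : Set ℂ := T \ (Set.range f ∪ {s})
  let k2 : IntermediateField k ℂ := adjoin k T'
  -- independence over `k2`
  let fs : Option ι → ℂ := fun o => o.elim s f
  have hfsinj : Function.Injective fs := by
    intro a b hab
    cases a with
    | none =>
      cases b with
      | none => rfl
      | some b => exact absurd ⟨b, hab.symm⟩ hsf
    | some a =>
      cases b with
      | none => exact absurd ⟨a, hab⟩ hsf
      | some b => rw [hf.injective hab]
  have hfsT : ∀ o, fs o ∈ T := by
    intro o
    cases o with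
    | none => exact hsT
    | some a => exact hfT ⟨a, rfl⟩
  have h1 : AlgebraicIndependent (Algebra.adjoin k T') fs := by
    have h2 := hT.1.adjoin_of_disjoint (s := {t : T | (t : ℂ) ∈ T'})
      (t := {t : T | (t : ℂ) ∈ Set.range f ∪ {s}}) (by
        rw [Set.disjoint_left]
        intro t ht ht'
        exact ht.2 ht')
    have h3 : ((fun t : T => (t : ℂ)) '' {t : T | (t : ℂ) ∈ T'}) = T' := by
      ext x
      constructor
      · rintro ⟨t, ht, rfl⟩
        exact ht
      · intro hx
        exact ⟨⟨x, hx.1⟩, hx, rfl⟩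
    rw [h3] at h2
    have h4 : ∀ o, fs o ∈ Set.range f ∪ {s} := by
      intro o
      cases o with
      | none => exact Or.inr rfl
      | some a => exact Or.inl ⟨a, rfl⟩
    exact h2.comp (fun o => ⟨⟨fs o, hfsT o⟩, h4 o⟩) (fun a b hab => hfsinj (by
      have h5 := congrArg (fun t => ((t : T) : ℂ)) (congrArg Subtype.val hab)
      exact h5))
  open scoped algebraAdjoinAdjoin in
  have h2 : AlgebraicIndependent k2 fs := h1.extendScalars k2
  -- the new elements
  let a : ι → ℂ := fun i => (f i - Polynomial.aeval s (U i)) / s ^ N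
  have ha : ∀ i, f i = Polynomial.aeval s (U i) + a i * s ^ N := by
    intro i
    change f i = Polynomial.aeval s (U i) + (f i - Polynomial.aeval s (U i)) / s ^ N * s ^ N
    rw [div_mul_cancel₀ _ (pow_ne_zero N hs0)]
    ring
  let as : Option ι → ℂ := fun o => o.elim s a
  have hkmem : ∀ (x : k) (F : IntermediateField k2 ℂ), (x : ℂ) ∈ F := by
    intro x F
    exact F.algebraMap_mem (algebraMap k k2 x)
  have hUmem : ∀ (Q : Subfield ℂ) (t : ℂ), (∀ x : k, (x : ℂ) ∈ Q) → t ∈ Q → ∀ p : Polynomial k,
      Polynomial.aeval t p ∈ Q := by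
    intro Q t hx ht p
    rw [Polynomial.aeval_eq_sum_range]
    exact sum_mem fun j _ => by
      rw [Algebra.smul_def]
      exact mul_mem (hx _) (pow_mem ht j)
  have h3 : AlgebraicIndependent k2 as := by
    apply Trd.indep_of_le
    rw [← Trd.rk_range h2]
    apply Trd.rk_le_of_subset_adjoin
    rintro _ ⟨o, rfl⟩
    have hsm : s ∈ adjoin k2 (Set.range as) := subset_adjoin _ _ ⟨none, rfl⟩
    cases o with
    | none => exact hsm
    | some i =>
      change f i ∈ adjoin k2 (Set.range as)
      rw [ha i]
      have ham : a i ∈ adjoin k2 (Set.range as) := subset_adjoin _ _ ⟨some i, rfl⟩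
      exact add_mem (hUmem (adjoin k2 (Set.range as)).toSubfield _ (fun x => hkmem x _) hsm _)
        (mul_mem ham (pow_mem hsm N))
  have h4 := AlgebraicIndependent.option_iff.1 h3
  let κ : IntermediateField k2 ℂ := adjoin k2 (Set.range a)
  open scoped algebraAdjoinAdjoin in
  have h5 : Transcendental κ s := h4.2.extendScalars κ
  refine ⟨κ, inferInstance, inferInstance, s, fun i => ⟨a i, subset_adjoin _ _ ⟨i, rfl⟩⟩,
    (algebraMap k2 κ).comp (algebraMap k k2), fun x => rfl, ha, ?_⟩
  have h6 : AlgebraicIndependent κ (fun _ : Unit => s) := by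
    rw [algebraicIndependent_unique_type_iff]
    exact h5
  rw [isTranscendenceBasis_iff_algebraicIndependent_isAlgebraic]
  refine ⟨h6, ?_⟩
  have hrange : Set.range (fun _ : Unit => s) = {s} := by simp
  rw [hrange]
  have h7 : Algebra.IsAlgebraic (adjoin κ {s}) ℂ := by
    constructor
    intro z
    have h8 := hT.isAlgebraic.isAlgebraic z
    have hrT : Set.range ((↑) : T → ℂ) = T := Subtype.range_coe
    rw [hrT] at h8
    have hsub : ∀ x ∈ Algebra.adjoin k T, x ∈ adjoin κ {s} := by
      intro x hx
      have hsm : s ∈ adjoin κ {s} := subset_adjoin _ _ rfl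
      have hk2 : ∀ x ∈ k2, x ∈ adjoin κ {s} := fun x hx =>
        (adjoin κ {s}).algebraMap_mem (algebraMap k2 κ ⟨x, hx⟩)
      induction hx using Algebra.adjoin_induction with
      | mem x hx =>
        by_cases h9 : x ∈ Set.range f
        · obtain ⟨i, rfl⟩ := h9
          rw [ha i]
          have ham : a i ∈ adjoin κ {s} :=
            (adjoin κ {s}).algebraMap_mem ⟨a i, subset_adjoin _ _ ⟨i, rfl⟩⟩
          exact add_mem (hUmem (adjoin κ {s}).toSubfield _
            (fun x => hk2 _ (k2.algebraMap_mem x)) hsm _) (mul_mem ham (pow_mem hsm N))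
        · by_cases h10 : x = s
          · rw [h10]
            exact hsm
          · exact hk2 x (subset_adjoin _ _ ⟨hx, by rintro (h | h); exacts [h9 h, h10 h]⟩)
      | algebraMap r => exact hk2 _ (k2.algebraMap_mem r)
      | add x y _ _ hx hy => exact add_mem hx hy
      | mul x y _ _ hx hy => exact mul_mem hx hy
    let φ : Algebra.adjoin k T →+* adjoin κ {s} :=
      { toFun := fun x => ⟨x.1, hsub x.1 x.2⟩
        map_one' := rfl
        map_mul' := fun _ _ => rfl
        map_zero' := rfl
        map_add' := fun _ _ => rfl }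
    refine isAlg_mono φ ?_ (fun r => rfl) h8
    intro x y hxy
    apply Subtype.ext
    exact congrArg (fun t => ((t : adjoin κ {s}) : ℂ)) hxy
  open scoped algebraAdjoinAdjoin in
  have h8 : Algebra.IsAlgebraic (Algebra.adjoin κ {s}) (adjoin κ {s}) := inferInstance
  open scoped algebraAdjoinAdjoin in
  exact Algebra.IsAlgebraic.trans (Algebra.adjoin κ {s}) (adjoin κ {s}) ℂ

end

end Pool.Agent.T9h1
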