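import Pool.Agent.T9h1.Quad1

/-! # Leading monomials of covariants -/

set_option autoImplicit false

namespace Pool.Agent.T9h1

open MvPolynomial Module IntermediateField FF Pool.Agent.R845.E3 Pool.Agent.R845.E3.Trans
open Pool.Agent.TH314.PD Pool.Agent.N122 Pool.Agent.R845.VG

noncomputable section

/-- a form in quantities which are monomials up to terms of high order -/
theorem lead_gen {ι : Type} {m : ℕ} {κ : Type} [Field κ] (M L g : ℕ) (hg1 : 1 ≤ g) (hg2 : g ≤ 2)
    (ν : ι → κ) (a : ι → Fin (m + 2)) (B : ι → MvPolynomial (Fin (m + 2)) (Polynomial κ))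
    (hB : ∀ j, ∀ β, Polynomial.X ^ L ∣ coeff β (B j)) {k : Type} [Field k] (θ : k →+* κ)
    (P : MvPolynomial ι k) (d : ℕ) (hd : d < M) (hL : 2 * (d * M ^ (m + 1)) < L)
    (Pd : MvPolynomial (Fin (m + 2)) κ) (hPdh : Pd.IsHomogeneous d)
    (hPd : Pd = eval₂ (C.comp θ) (fun j => C (ν j) * X (a j)) P) (hPd0 : Pd ≠ 0) :
    ∃ (r : ℕ) (Ξ' : MvPolynomial (Fin (m + 2)) (Polynomial κ)) (β0 : Fin (m + 2) →₀ ℕ) (l : κ),
      l ≠ 0 ∧ eval₂ ((C.comp Polynomial.C).comp θ) (fun j => C (Polynomial.C (ν j) *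
        Polynomial.X ^ ((3 - g) * M ^ (a j : ℕ))) * X (a j) ^ g + B j) P =
          C (Polynomial.X ^ r) * Ξ' ∧
      map Polynomial.constantCoeff Ξ' = monomial β0 l := by
  classical
  set Ξ := eval₂ ((C.comp Polynomial.C).comp θ) (fun j => C (Polynomial.C (ν j) *
        Polynomial.X ^ ((3 - g) * M ^ (a j : ℕ))) * X (a j) ^ g + B j) P with hΞ
  set Ξl : MvPolynomial (Fin (m + 2)) (Polynomial κ) := eval₂ (C.comp Polynomial.C)
    (fun i : Fin (m + 2) => C (Polynomial.X ^ ((3 - g) * M ^ (i : ℕ))) * X i ^ g) Pd with hΞl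
  -- congruence
  let I : Ideal (MvPolynomial (Fin (m + 2)) (Polynomial κ)) := Ideal.span {C (Polynomial.X ^ L)}
  have hBI : ∀ j, B j ∈ I := by
    intro j
    choose q hq using hB j
    have h1 : B j = C (Polynomial.X ^ L) * ∑ β ∈ (B j).support, monomial β (q β) := by
      conv_lhs => rw [← support_sum_monomial_coeff (B j)]
      rw [Finset.mul_sum]
      refine Finset.sum_congr rfl fun β _ => ?_
      rw [C_mul_monomial, ← hq]
    rw [h1]
    exact Ideal.mul_mem_right _ _ (Ideal.mem_span_singleton_self _)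
  have hcong : Ideal.Quotient.mk I Ξ = Ideal.Quotient.mk I Ξl := by
    have h1 : Ξl = eval₂ ((C.comp Polynomial.C).comp θ) (fun j => C (Polynomial.C (ν j) *
        Polynomial.X ^ ((3 - g) * M ^ (a j : ℕ))) * X (a j) ^ g) P := by
      rw [hΞl, hPd]
      have h2 : (eval₂Hom (C.comp Polynomial.C : κ →+* MvPolynomial (Fin (m + 2)) (Polynomial κ))
          (fun i : Fin (m + 2) => C (Polynomial.X ^ ((3 - g) * M ^ (i : ℕ))) * X i ^ g)).comp
          (eval₂Hom (C.comp θ) (fun j => C (ν j) * X (a j))) =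
          eval₂Hom ((C.comp Polynomial.C).comp θ) (fun j => C (Polynomial.C (ν j) *
            Polynomial.X ^ ((3 - g) * M ^ (a j : ℕ))) * X (a j) ^ g) := by
        apply MvPolynomial.ringHom_ext
        · intro x
          simp only [RingHom.comp_apply, coe_eval₂Hom, eval₂_C]
        · intro j
          simp only [RingHom.comp_apply, coe_eval₂Hom, eval₂_X, eval₂_mul, eval₂_C]
          rw [C_mul]
          ring
      exact RingHom.congr_fun h2 P
    rw [h1, hΞ]
    rw [← coe_eval₂Hom, ← coe_eval₂Hom]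
    rw [← RingHom.comp_apply, ← RingHom.comp_apply]
    congr 1
    apply MvPolynomial.ringHom_ext
    · intro x
      simp only [RingHom.comp_apply, coe_eval₂Hom, eval₂_C]
    · intro j
      simp only [RingHom.comp_apply, coe_eval₂Hom, eval₂_X, map_add]
      rw [Ideal.Quotient.eq_zero_iff_mem.2 (hBI j), add_zero]
  rw [Ideal.Quotient.eq, Ideal.mem_span_singleton] at hcong
  obtain ⟨Ξr, hΞr⟩ := hcong
  -- the leading part
  have hsum : Ξl = ∑ b ∈ Pd.support, monomial (g • b) (Polynomial.C (coeff b Pd) *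
      Polynomial.X ^ ((3 - g) * wt M b)) := by
    rw [hΞl, eval₂_eq']
    refine Finset.sum_congr rfl fun b _ => ?_
    rw [RingHom.comp_apply]
    have h1 : ∏ i : Fin (m + 2), (C (Polynomial.X ^ ((3 - g) * M ^ (i : ℕ))) * X i ^ g :
        MvPolynomial (Fin (m + 2)) (Polynomial κ)) ^ b i =
        C (Polynomial.X ^ ((3 - g) * wt M b)) * monomial (g • b) 1 := by
      have h2 : (monomial (g • b) 1 : MvPolynomial (Fin (m + 2)) (Polynomial κ)) =
          ∏ i, X i ^ (g * b i) := by
        rw [monomial_eq, C_1, one_mul, Finsupp.prod_pow]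
        rfl
      rw [h2]
      have h3 : (3 - g) * wt M b = ∑ i : Fin (m + 2), ((3 - g) * M ^ (i : ℕ)) * b i := by
        unfold wt
        rw [Finset.mul_sum]
        exact Finset.sum_congr rfl fun i _ => by ring
      rw [h3, ← Finset.prod_pow_eq_pow_sum, map_prod, ← Finset.prod_mul_distrib]
      refine Finset.prod_congr rfl fun i _ => ?_
      rw [mul_pow, ← C_pow, ← pow_mul, ← pow_mul]
    rw [h1, ← mul_assoc, ← C_mul, C_mul_monomial, mul_one]
  have hinjg : ∀ b b' : Fin (m + 2) →₀ ℕ, g • b = g • b' → b = b' := by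
    intro b b' h
    ext i
    have h1 := DFunLike.congr_fun h i
    simp only [Finsupp.smul_apply, smul_eq_mul] at h1
    exact Nat.eq_of_mul_eq_mul_left (by omega) h1
  have hco : ∀ b ∈ Pd.support, coeff (g • b) Ξl = Polynomial.C (coeff b Pd) *
      Polynomial.X ^ ((3 - g) * wt M b) := by
    intro b hb
    rw [hsum, coeff_sum, Finset.sum_eq_single b]
    · rw [coeff_monomial, if_pos rfl]
    · intro b' _ hne
      rw [coeff_monomial, if_neg]
      intro h
      exact hne (hinjg _ _ h)
    · intro h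
      exact absurd hb h
  have hsup : ∀ β ∈ Ξl.support, ∃ b ∈ Pd.support, β = g • b := by
    intro β hβ
    by_contra hcon
    push Not at hcon
    rw [MvPolynomial.mem_support_iff, hsum, coeff_sum] at hβ
    apply hβ
    refine Finset.sum_eq_zero fun b hb => ?_
    rw [coeff_monomial, if_neg]
    intro h
    exact hcon b hb h.symm
  have hCX : ∀ b ∈ Pd.support, (Polynomial.C (coeff b Pd) *
      (Polynomial.X : Polynomial κ) ^ ((3 - g) * wt M b)).natTrailingDegree =
      (3 - g) * wt M b := by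
    intro b hb
    rw [Polynomial.C_mul_X_pow_eq_monomial]
    exact Polynomial.natTrailingDegree_monomial (MvPolynomial.mem_support_iff.1 hb)
  have hΞl0 : Ξl ≠ 0 := by
    obtain ⟨b, hb⟩ := ne_zero_iff.1 hPd0
    rw [ne_zero_iff]
    refine ⟨g • b, ?_⟩
    rw [hco b (MvPolynomial.mem_support_iff.2 hb)]
    exact mul_ne_zero (Polynomial.C_ne_zero.2 hb) (pow_ne_zero _ Polynomial.X_ne_zero)
  have hbd : ∀ b ∈ Pd.support, b.degree = d := by
    intro b hb
    have := hPdh (MvPolynomial.mem_support_iff.1 hb)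
    rwa [Finsupp.degree_eq_weight_one]
  have hble : ∀ b ∈ Pd.support, ∀ i, b i ≤ d := by
    intro b hb i
    have h1 : b i ≤ ∑ j, b j := Finset.single_le_sum (f := fun j => b j)
      (fun _ _ => Nat.zero_le _) (Finset.mem_univ i)
    rwa [deg_sum, hbd b hb] at h1
  obtain ⟨r, Ξ', β0, l, hl, hβ0, hfac, hsupp, hlead⟩ := leading Ξl hΞl0 (by
    intro β hβ β' hβ' heq
    obtain ⟨b, hb, rfl⟩ := hsup β hβ
    obtain ⟨b', hb', rfl⟩ := hsup β' hβ'
    rw [hco b hb, hco b' hb', hCX b hb, hCX b' hb'] at heq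
    have heq2 : wt M b = wt M b' := Nat.eq_of_mul_eq_mul_left (by omega) heq
    have hz := digits M (fun j => (b j : ℤ) - b' j) (fun j => by
      have h2 := hble b hb j
      have h3 := hble b' hb' j
      rw [abs_lt]
      constructor <;> omega) (by
      unfold wt at heq2
      have h4 : (∑ j, (b j : ℤ) * (M : ℤ) ^ (j : ℕ)) = ∑ j, (b' j : ℤ) * (M : ℤ) ^ (j : ℕ) := by
        exact_mod_cast heq2
      simp only [sub_mul, Finset.sum_sub_distrib]
      rw [h4, sub_self])
    congr 1
    ext j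
    have h2 := congrFun hz j
    simp only [Pi.zero_apply] at h2
    omega)
  have hr : r < L := by
    obtain ⟨b, hb, hbe⟩ := hsup β0 hβ0
    have h1 : (3 - g) * wt M b ≤ 2 * (d * M ^ (m + 1)) := by
      have h2 := wt_le (M := M) (by omega) b
      rw [hbd b hb] at h2
      exact Nat.mul_le_mul (by omega) h2
    have h3 : r ≤ (3 - g) * wt M b := by
      have h4 : coeff β0 Ξl = Polynomial.X ^ r * coeff β0 Ξ' := by
        rw [hfac, coeff_C_mul]
      rw [hbe, hco b hb] at h4
      by_contra hcon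
      push Not at hcon
      have h5 := congrArg (fun p => Polynomial.coeff p ((3 - g) * wt M b)) h4
      rw [Polynomial.coeff_C_mul, Polynomial.coeff_X_pow, if_pos rfl, mul_one,
        Polynomial.coeff_X_pow_mul', if_neg (not_le.2 hcon)] at h5
      exact (MvPolynomial.mem_support_iff.1 hb) h5
    omega
  refine ⟨r, Ξ' + C (Polynomial.X ^ (L - r)) * Ξr, β0, l, hl, ?_, ?_⟩
  · have h1 : (C (Polynomial.X ^ L) : MvPolynomial (Fin (m + 2)) (Polynomial κ)) =
        C (Polynomial.X ^ r) * C (Polynomial.X ^ (L - r)) := by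
      rw [← C_mul, ← pow_add, Nat.add_sub_cancel' hr.le]
    rw [h1] at hΞr
    rw [mul_add, ← hfac, ← mul_assoc, ← hΞr]
    ring
  · rw [map_add, hlead, map_mul, map_C]
    have h1 : Polynomial.constantCoeff ((Polynomial.X : Polynomial κ) ^ (L - r)) = 0 := by
      rw [map_pow, Polynomial.constantCoeff_apply, Polynomial.coeff_X_zero, zero_pow (by omega)]
    rw [h1, C_0, zero_mul, add_zero]

end

end Pool.Agent.T9h1
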