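import Pool.Agent.T9h1.Lead

/-! # A generic cubic does not divide covariants with a leading monomial -/

set_option autoImplicit false

namespace Pool.Agent.T9h1

open MvPolynomial Module IntermediateField FF Pool.Agent.R845.E3 Pool.Agent.R845.E3.Trans
open Pool.Agent.TH314.PD Pool.Agent.N122 Pool.Agent.R845.VG

noncomputable section

/-- the restriction to a line -/
def ylin (R : Type) [CommRing R] (m : ℕ) : MvPolynomial (Fin (m + 2)) R →+* Polynomial R :=
  eval₂Hom Polynomial.C (fun i => if i = 0 then Polynomial.X else 1)

theorem ylin_map {R S : Type} [CommRing R] [CommRing S] (m : ℕ) (f : R →+* S)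
    (p : MvPolynomial (Fin (m + 2)) R) :
    ylin S m (map f p) = Polynomial.map f (ylin R m p) := by
  have h : (ylin S m).comp (map f) = (Polynomial.mapRingHom f).comp (ylin R m) := by
    apply MvPolynomial.ringHom_ext
    · intro x
      simp [ylin]
    · intro i
      simp only [ylin, RingHom.comp_apply, map_X, coe_eval₂Hom, eval₂_X, Polynomial.coe_mapRingHom]
      split_ifs <;> simp
  exact RingHom.congr_fun h p

theorem descend {R L : Type} [CommRing R] [IsDomain R] [Field L] (f : R →+* L)
    (hf : Function.Injective f) (p q : Polynomial R)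
    (h : Polynomial.map f p ∣ Polynomial.map f q) :
    Polynomial.map (algebraMap R (FractionRing R)) p ∣
      Polynomial.map (algebraMap R (FractionRing R)) q := by
  have hφ : (IsFractionRing.lift hf : FractionRing R →+* L).comp
      (algebraMap R (FractionRing R)) = f := by
    refine RingHom.ext fun x => ?_
    exact IsFractionRing.lift_algebraMap hf x
  rw [← hφ, ← Polynomial.map_map, ← Polynomial.map_map, Polynomial.map_dvd_map'] at h
  exact h

theorem nd_lead {m : ℕ} {κ : Type} [Field κ] [Algebra κ ℂ] (s : ℂ) (hs : Transcendental κ s)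
    (Fb Xb : MvPolynomial (Fin (m + 2)) (Polynomial κ))
    (hFb : map Polynomial.constantCoeff Fb = ∑ i, X i ^ 3) (β0 : Fin (m + 2) →₀ ℕ) (l : κ)
    (hl : l ≠ 0) (hXb : map Polynomial.constantCoeff Xb = monomial β0 l) :
    ¬ (map (evs κ s) Fb ∣ map (evs κ s) Xb) := by
  classical
  intro hdvd
  have hchar : CharZero κ := by
    have := (algebraMap κ ℂ).charZero
    exact this
  set p : Polynomial (Polynomial κ) := ylin _ m Fb with hp
  set q : Polynomial (Polynomial κ) := ylin _ m Xb with hq
  have hp0 : Polynomial.map Polynomial.constantCoeff p = Polynomial.X ^ 3 +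
      Polynomial.C ((m : κ) + 1) := by
    rw [hp, ← ylin_map, hFb, map_sum, Fin.sum_univ_succ]
    congr 1
    · simp [ylin]
    · rw [Finset.sum_congr rfl (g := fun _ => (1 : Polynomial κ))]
      · simp
      · intro i _
        simp [ylin, Fin.succ_ne_zero]
  have hq0 : Polynomial.map Polynomial.constantCoeff q = Polynomial.C l *
      Polynomial.X ^ (β0 0) := by
    rw [hq, ← ylin_map, hXb]
    unfold ylin
    rw [coe_eval₂Hom, eval₂_monomial, Finsupp.prod_pow, Fin.prod_univ_succ]
    congr 1
    rw [if_pos rfl]
    rw [Finset.prod_eq_one, mul_one]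
    intro i _
    rw [if_neg (Fin.succ_ne_zero i), one_pow]
  have hev : Function.Injective (evs κ s) := by
    have h1 := transcendental_iff_injective.1 hs
    exact h1
  have h1 : Polynomial.map (evs κ s) p ∣ Polynomial.map (evs κ s) q := by
    rw [hp, hq, ← ylin_map, ← ylin_map]
    exact map_dvd _ hdvd
  -- descent to the field of fractions
  have h1 := descend (evs κ s) hev p q h1
  let Q := FractionRing (Polynomial κ)
  have hpne : p ≠ 0 := by
    intro h
    rw [h, Polynomial.map_zero] at hp0
    have := congrArg (fun u => Polynomial.coeff u 3) hp0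
    simp only [Polynomial.coeff_zero, Polynomial.coeff_add, Polynomial.coeff_X_pow,
      Polynomial.coeff_C, if_true] at this
    norm_num at this
  have hqne : q ≠ 0 := by
    intro h
    rw [h, Polynomial.map_zero] at hq0
    exact mul_ne_zero (Polynomial.C_ne_zero.2 hl) (pow_ne_zero _ Polynomial.X_ne_zero) hq0.symm
  have hpc : p = Polynomial.C p.content * p.primPart := p.eq_C_content_mul_primPart
  have h2 : Polynomial.map (algebraMap (Polynomial κ) Q) p.primPart ∣
      Polynomial.map (algebraMap (Polynomial κ) Q) q := by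
    refine dvd_trans ?_ h1
    conv_rhs => rw [hpc]
    rw [Polynomial.map_mul]
    exact Dvd.intro_left _ rfl
  have h3 : p.primPart ∣ q :=
    Polynomial.IsPrimitive.dvd_of_fraction_map_dvd_fraction_map (K := Q)
      p.isPrimitive_primPart h2
  have h4 : Polynomial.map Polynomial.constantCoeff p.primPart ∣
      Polynomial.map Polynomial.constantCoeff q := Polynomial.map_dvd _ h3
  have h5 : Polynomial.map Polynomial.constantCoeff p.primPart ∣
      (Polynomial.X : Polynomial κ) ^ (β0 0) := by
    rw [hq0] at h4
    have u : IsUnit (Polynomial.C l) := Polynomial.isUnit_C.2 (isUnit_iff_ne_zero.2 hl)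
    rwa [u.dvd_mul_left] at h4
  rw [dvd_prime_pow Polynomial.prime_X] at h5
  obtain ⟨j, -, hj⟩ := h5
  have h6 : Polynomial.X ^ 3 + Polynomial.C ((m : κ) + 1) = Polynomial.C
      (Polynomial.constantCoeff p.content) *
        Polynomial.map Polynomial.constantCoeff p.primPart := by
    rw [← hp0]
    conv_lhs => rw [hpc]
    rw [Polynomial.map_mul, Polynomial.map_C]
  obtain ⟨u, hu⟩ := hj
  obtain ⟨c, hc, hcu⟩ := Polynomial.isUnit_iff.1 u⁻¹.isUnit
  have h7 : Polynomial.map Polynomial.constantCoeff p.primPart =
      Polynomial.C c * Polynomial.X ^ j := by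
    rw [hcu, ← hu, mul_comm, mul_assoc, Units.mul_inv, mul_one]
  rw [h7, ← mul_assoc, ← Polynomial.C_mul] at h6
  have hm : (m : κ) + 1 ≠ 0 := by exact_mod_cast Nat.succ_ne_zero m
  have h8 := congrArg (fun u => Polynomial.coeff u 0) h6
  have h9 := congrArg (fun u => Polynomial.coeff u 3) h6
  simp only [Polynomial.coeff_add, Polynomial.coeff_X_pow, Polynomial.coeff_C,
    Polynomial.coeff_C_mul] at h8 h9
  by_cases hj0 : j = 0
  · rw [hj0] at h9
    simp at h9
  · rw [if_neg (Ne.symm hj0)] at h8
    simp at h8
    exact hm h8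

end

end Pool.Agent.T9h1
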