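import Pool.Agent.T9h1.Assem

/-! # No generic point of odd degree on a chord through a point of a fixed hypersurface -/

set_option autoImplicit false

namespace Pool.Agent.T9h1

open MvPolynomial Module IntermediateField FF Pool.Agent.R845.E3 Pool.Agent.R845.E3.Trans
open Pool.Agent.TH314.PD Pool.Agent.N122 Pool.Agent.R845.VG

noncomputable section

theorem exists_eta {k : Type} [Field k] [CharZero k] {m : ℕ} (H : MvPolynomial (Fin (m + 2)) k)
    (d : ℕ) (hH : H.IsHomogeneous d) (hH0 : H ≠ 0) :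
    ∃ η : Fin (m + 2) → k, η 1 = 1 ∧ eval η H ≠ 0 := by
  have h1 : X 1 * H ≠ 0 := mul_ne_zero (X_ne_zero _) hH0
  obtain ⟨ξ, hξ⟩ : ∃ ξ : Fin (m + 2) → k, eval ξ (X 1 * H) ≠ 0 := by
    by_contra hcon
    push Not at hcon
    exact h1 (MvPolynomial.funext fun x => by rw [hcon x, map_zero])
  rw [map_mul, eval_X] at hξ
  have hξ1 : ξ 1 ≠ 0 := left_ne_zero_of_mul hξ
  have hξH : eval ξ H ≠ 0 := right_ne_zero_of_mul hξ
  refine ⟨fun i => (ξ 1)⁻¹ * ξ i, inv_mul_cancel₀ hξ1, ?_⟩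
  have h2 := eval₂_smul (RingHom.id k) ξ (ξ 1)⁻¹ hH
  have h3 : eval (fun i => (ξ 1)⁻¹ * ξ i) H = (ξ 1)⁻¹ ^ d * eval ξ H := h2
  rw [h3]
  exact mul_ne_zero (pow_ne_zero _ (inv_ne_zero hξ1)) hξH

theorem no_special {m : ℕ} (k : Subfield ℂ) [Countable k] (F : MvPolynomial (Fin (m + 2)) ℂ)
    (hF : F.IsHomogeneous 3) (hind : AlgebraicIndependent k (cf 3 F))
    (H : MvPolynomial (Fin (m + 2)) k) (d : ℕ) (hH : H.IsHomogeneous d) (hH0 : H ≠ 0)
    {E : Type} [Field E] [Algebra ℂ E] (z : Fin (m + 2) → E)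
    (hz : ∀ (e : ℕ) (G : MvPolynomial (Fin (m + 2)) ℂ), G.IsHomogeneous e → aeval z G = 0 → G = 0)
    (hodd : Odd (finrank (ratioField z) E)) (c : Fin (m + 2) → E) (hc : c ≠ 0)
    (hcF : aeval c F = 0) (hcH : aeval c (map k.subtype H) = 0) (τ : E)
    (hx : aeval (fun i => z i + τ * c i) F = 0) : False := by
  classical
  obtain ⟨η, hη1, hηH⟩ := exists_eta H d hH hH0
  obtain ⟨κ, iF, iA, s, A, θ, hθ, hA, hs, hdec⟩ := decomp k F hF hind η
  have hcharκ : CharZero κ := by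
    have h1 : Function.Injective (algebraMap κ ℂ) := (algebraMap κ ℂ).injective
    exact ⟨fun a b hab => by
      have h2 := congrArg (algebraMap κ ℂ) hab
      rw [map_natCast, map_natCast] at h2
      exact_mod_cast h2⟩
  have hs0 : s ≠ 0 := by
    have h1 : Transcendental κ s := by
      have := hs.1
      rwa [algebraicIndependent_unique_type_iff] at this
    rintro rfl
    exact h1 isAlgebraic_zero
  let ηC : Fin (m + 2) → ℂ := fun i => (η i : ℂ)
  have hηC1 : ηC 1 = 1 := by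
    change ((η 1 : k) : ℂ) = 1
    rw [hη1]
    rfl
  set sE : E := algebraMap ℂ E s with hsE
  set ηE : Fin (m + 2) → E := fun i => algebraMap ℂ E (η i : ℂ) with hηE
  have hηE1 : ηE 1 = 1 := by
    change algebraMap ℂ E (ηC 1) = 1
    rw [hηC1, map_one]
  have hsE0 : sE ≠ 0 := (map_ne_zero _).2 hs0
  -- the new coordinates
  set z' : Fin (m + 2) → E := tr sE ηE z with hz'
  have hz'nc : z' = nc (Gm s ηC) z := (nc_eq s ηC z).symm
  have hgen' : ∀ (e : ℕ) (G : MvPolynomial (Fin (m + 2)) ℂ), G.IsHomogeneous e →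
      aeval z' G = 0 → G = 0 := by
    intro e G hG h0
    rw [hz'nc] at h0
    exact gen_nc (Gw s hs0 ηC hηC1) z hz e G hG h0
  obtain ⟨hz'0, hyind⟩ := Pool.Agent.R845.T2.Fd.indep_of_generic (r := m + 1) z' hgen'
  have hz0 : z 0 ≠ 0 := by
    intro h
    exact X_ne_zero (0 : Fin (m + 2)) (hz 1 (X 0) (isHomogeneous_X _ _) (by rw [aeval_X, h]))
  have hratio : ratioField z' = ratioField z := by
    rw [hz'nc]
    exact ratio_nc (wG s hs0 ηC hηC1) z ⟨0, hz0⟩ ⟨0, by rw [← hz'nc]; exact hz'0⟩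
  rw [← hratio, Pool.Agent.R845.T2.Fd.ratioField_eq (r := m + 1) z' hz'0] at hodd
  set y : Fin (m + 1) → E := fun l => z' ((0 : Fin (m + 2)).succAbove l) / z' 0 with hy
  set b : Fin (m + 2) → E := tr sE ηE c with hb
  have hb0 : b ≠ 0 := tr_ne hsE0 ηE hηE1 hc
  -- the descent
  obtain ⟨K, E', iK, iE', a1, a2, a3, a4, hFF, σ, y', v', ι, hσ, hy'ind, hodd', hιy, hιv, hισ, hικ⟩ :=
    descent s hs y hyind hodd (Fin.cons (τ / z' 0) b : Fin (m + 2 + 1) → E)
  let b' : Fin (m + 2) → E' := fun i => v' i.succ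
  have hιb : ∀ i, ι (b' i) = b i := by
    intro i
    rw [hιv, Fin.cons_succ]
  have hιτ : ι (v' 0) = τ / z' 0 := by rw [hιv, Fin.cons_zero]
  have hικ' : ι.comp (algebraMap κ E') = (algebraMap ℂ E).comp (algebraMap κ ℂ) := RingHom.ext hικ
  have hιη : ∀ i, ι (algebraMap κ E' (θ (η i))) = ηE i := by
    intro i
    rw [hικ, hθ]
  -- evaluation
  have hιeval : ∀ (G : MvPolynomial (Fin (m + 2)) κ) (u : Fin (m + 2) → E'),
      ι (aeval (bs (algebraMap K E' σ) (fun i => algebraMap κ E' (θ (η i))) u) G) =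
      eval₂ ((algebraMap ℂ E).comp (algebraMap κ ℂ)) (bs sE ηE (fun i => ι (u i))) G := by
    intro G u
    rw [aeval_def, hom_eval₂, hικ']
    congr 1
    have h1 := bs_map ι (algebraMap K E' σ) (fun i => algebraMap κ E' (θ (η i))) u
    rw [hισ] at h1
    have h2 : (fun i => ι (algebraMap κ E' (θ (η i)))) = ηE := funext hιη
    rw [h2] at h1
    exact h1
  have hAhom : ∀ (a : E) (u : Fin (m + 2) → E),
      eval₂ ((algebraMap ℂ E).comp (algebraMap κ ℂ)) (fun i => a * u i) A =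
      a ^ 3 * eval₂ ((algebraMap ℂ E).comp (algebraMap κ ℂ)) u A := fun a u =>
    eval₂_smul _ _ _ hA
  -- the equation of a point in the new coordinates
  have hpt : ∀ u : Fin (m + 2) → E, aeval u F = ∑ i, tr sE ηE u i ^ 3 +
      sE * eval₂ ((algebraMap ℂ E).comp (algebraMap κ ℂ)) (bs sE ηE (tr sE ηE u)) A := by
    intro u
    rw [hdec E u, bs_tr sE ηE u hηE1, hAhom]
    ring
  refine main_lemma (m := m) σ hσ y' hy'ind hodd' (fun i => θ (η i)) A (map θ H) hA d (hH.map _)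
    ?_ b' ?_ (v' 0) ?_ ?_ ?_
  · rw [eval_map]
    have h1 : eval₂ θ (fun i => θ (η i)) H = θ (eval η H) := by
      have h2 := hom_eval₂ H (RingHom.id k) θ η
      rw [RingHom.comp_id] at h2
      exact h2.symm
    rw [h1]
    exact (map_ne_zero _).2 hηH
  · intro h
    apply hb0
    funext i
    rw [← hιb, h, Pi.zero_apply, map_zero]
    rfl
  · apply ι.injective
    rw [map_zero, map_add, map_mul, hισ, hιeval]
    have h1 : (fun i => ι (b' i)) = b := funext hιb
    rw [h1, map_sum]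
    have h2 : ∑ i, ι (b' i ^ 3) = ∑ i, b i ^ 3 :=
      Finset.sum_congr rfl fun i _ => by rw [map_pow, hιb]
    rw [h2]
    have h3 := hpt c
    rw [hcF] at h3
    exact h3.symm
  · apply ι.injective
    rw [map_zero, hιeval]
    have h1 : (fun i => ι (b' i)) = b := funext hιb
    rw [h1, hb, bs_tr sE ηE c hηE1, eval₂_smul _ _ _ (hH.map θ), eval₂_map]
    have h2 : ((algebraMap ℂ E).comp (algebraMap κ ℂ)).comp θ = (algebraMap ℂ E).comp k.subtype := by
      ext x
      simp only [RingHom.comp_apply, hθ]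
      rfl
    rw [h2, ← eval₂_map]
    have h3 : eval₂ (algebraMap ℂ E) c (map k.subtype H) = 0 := hcH
    rw [h3, mul_zero]
  · apply ι.injective
    rw [map_zero, map_add, map_mul, hισ, hιeval]
    have h1 : ∀ i, ι ((Fin.cons 1 y' : Fin (m + 2) → E') i + v' 0 * b' i) =
        (z' 0)⁻¹ * (z' i + τ * b i) := by
      intro i
      rw [map_add, map_mul, hιτ, hιb]
      have h2 : ι ((Fin.cons 1 y' : Fin (m + 2) → E') i) = z' i / z' 0 := by
        refine Fin.cases ?_ (fun j => ?_) i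
        · rw [Fin.cons_zero, map_one, div_self hz'0]
        · rw [Fin.cons_succ, hιy]
          rw [hy]
          simp only [Fin.zero_succAbove]
      rw [h2]
      field_simp
    rw [map_sum]
    have h3 : (fun i => ι ((Fin.cons 1 y' : Fin (m + 2) → E') i + v' 0 * b' i)) =
        fun i => (z' 0)⁻¹ * (z' i + τ * b i) := funext h1
    rw [h3, bs_smul, hAhom]
    have h4 : ∑ i, ι (((Fin.cons 1 y' : Fin (m + 2) → E') i + v' 0 * b' i) ^ 3) =
        (z' 0)⁻¹ ^ 3 * ∑ i, (z' i + τ * b i) ^ 3 := by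
      rw [Finset.mul_sum]
      refine Finset.sum_congr rfl fun i _ => ?_
      rw [map_pow, h1]
      ring
    rw [h4]
    have h5 := hpt (fun i => z i + τ * c i)
    rw [hx, tr_lin] at h5
    have h6 : (z' 0)⁻¹ ^ 3 * (∑ i, (z' i + τ * b i) ^ 3 +
        sE * eval₂ ((algebraMap ℂ E).comp (algebraMap κ ℂ)) (bs sE ηE (fun i => z' i + τ * b i)) A) =
        0 := by
      rw [← h5, mul_zero]
    rw [← h6]
    ring

end

end Pool.Agent.T9h1
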