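import Pool.Agent.T9h1.Resid
import Pool.Agent.T9h1.Digit
import Pool.Agent.T9h1.Second3

/-! # Points on hyperplanes and quadrics over the field of definition -/

set_option autoImplicit false

namespace Pool.Agent.T9h1

open MvPolynomial Module IntermediateField FF Pool.Agent.R845.E3 Pool.Agent.R845.E3.Trans
open Pool.Agent.TH314.PD Pool.Agent.N122 Pool.Agent.R845.VG

noncomputable section

/-- the substitution of sparse powers -/
def spw (κ : Type) [Field κ] (m M : ℕ) : MvPolynomial (Fin (m + 3)) κ →+* Polynomial κ :=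
  eval₂Hom Polynomial.C fun j : Fin (m + 3) => (Polynomial.X : Polynomial κ) ^ (3 * M ^ (j : ℕ))

/-- the coefficients as polynomials in the parameters -/
def gco {κ : Type} [Field κ] {m : ℕ} (A : MvPolynomial (Fin (m + 2)) κ) (γ : Mon (m + 2) 3) :
    MvPolynomial (Fin (m + 3)) κ :=
  (∑ i : Fin (m + 2), if γ.1 = Finsupp.single i 3 then X i.castSucc else 0) +
    C (coeff γ.1 A) * X (Fin.last (m + 2))

theorem gco_deg {κ : Type} [Field κ] {m : ℕ} (A : MvPolynomial (Fin (m + 2)) κ)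
    (γ : Mon (m + 2) 3) : (gco A γ).totalDegree ≤ 1 := by
  unfold gco
  refine (totalDegree_add _ _).trans (max_le ?_ ?_)
  · refine totalDegree_finsetSum_le fun i _ => ?_
    split_ifs
    · rw [totalDegree_X]
    · rw [totalDegree_zero]
      exact Nat.zero_le _
  · refine (totalDegree_mul _ _).trans ?_
    rw [totalDegree_C, totalDegree_X]

/-- the coefficient polynomials after the substitution -/
def rho {k : Subfield ℂ} {κ : Type} [Field κ] {m : ℕ} (M : ℕ) (θ : k →+* κ)
    (A : MvPolynomial (Fin (m + 2)) κ) : MvPolynomial (Mon (m + 2) 3) k →+* Polynomial κ :=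
  (spw κ m M).comp (eval₂Hom (C.comp θ) (gco A))

theorem rho_eval {k : Subfield ℂ} {κ : Type} [Field κ] [Algebra κ ℂ] {m : ℕ} (M : ℕ) (θ : k →+* κ)
    (hθ : ∀ x : k, algebraMap κ ℂ (θ x) = x) (A : MvPolynomial (Fin (m + 2)) κ) (s : ℂ)
    (F : MvPolynomial (Fin (m + 2)) ℂ)
    (hcf : ∀ β : Mon (m + 2) 3, cf 3 F β = Polynomial.aeval s (Uw (k := k)
      (fun i : Fin (m + 2) => M ^ (i : ℕ)) β.1) +
        algebraMap κ ℂ (coeff β.1 A) * s ^ (3 * M ^ (m + 2))) :
    (evs κ s).comp (rho M θ A) = eval₂Hom k.subtype (cf 3 F) := by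
  apply MvPolynomial.ringHom_ext
  · intro x
    simp only [rho, spw, RingHom.comp_apply, coe_eval₂Hom, eval₂_C]
    rw [evs_C, hθ]
    rfl
  · intro γ
    simp only [rho, spw, RingHom.comp_apply, coe_eval₂Hom, eval₂_X]
    rw [hcf]
    unfold gco Uw
    rw [eval₂_add, eval₂_mul, eval₂_C, eval₂_X, map_add, map_mul, evs_C, map_pow, evs_X,
      Fin.val_last]
    congr 1
    rw [← coe_eval₂Hom, map_sum, map_sum, map_sum]
    refine Finset.sum_congr rfl fun i _ => ?_
    split_ifs
    · rw [coe_eval₂Hom, eval₂_X, map_pow, evs_X, map_pow, Polynomial.aeval_X, Fin.val_castSucc]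
    · rw [map_zero, map_zero, map_zero]

theorem rho_trailing {k : Subfield ℂ} {κ : Type} [Field κ] {m : ℕ} (M : ℕ) (θ : k →+* κ)
    (A : MvPolynomial (Fin (m + 2)) κ) (h : MvPolynomial (Mon (m + 2) 3) k)
    (h0 : rho M θ A h ≠ 0) (hM : h.totalDegree < M) :
    ∃ n : Fin (m + 3) →₀ ℕ, (∀ j, n j ≤ h.totalDegree) ∧
      (rho M θ A h).natTrailingDegree = 3 * wt M n := by
  set p : MvPolynomial (Fin (m + 3)) κ := eval₂ (C.comp θ) (gco A) h with hp
  have hpd : p.totalDegree ≤ h.totalDegree := deg_subst θ (gco A) (gco_deg A) h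
  have hp0 : p ≠ 0 := by
    intro h1
    apply h0
    change spw κ m M p = 0
    rw [h1, map_zero]
  obtain ⟨n, hn, -, hn2⟩ := trailing M p hp0 (lt_of_le_of_lt hpd hM)
  refine ⟨n, fun j => (exp_le p n hn j).trans hpd, ?_⟩
  exact hn2

theorem wtt_eq {m M : ℕ} (β : Fin (m + 2) →₀ ℕ) :
    wtt (fun i : Fin (m + 2) => M ^ (i : ℕ)) β = wt M β := by
  unfold wtt wt
  exact Finset.sum_congr rfl fun i _ => mul_comm _ _

theorem deg_sum {N : ℕ} (β : Fin N →₀ ℕ) : ∑ i, β i = β.degree := by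
  rw [Finsupp.degree_eq_sum]

theorem wt_le {m M : ℕ} (hM : 1 ≤ M) (β : Fin (m + 2) →₀ ℕ) : wt M β ≤ β.degree * M ^ (m + 1) := by
  unfold wt
  rw [← deg_sum, Finset.sum_mul]
  refine Finset.sum_le_sum fun i _ => Nat.mul_le_mul_left _ ?_
  exact Nat.pow_le_pow_right hM (by omega)

/-- **no generic point of odd degree on a chord through a point of a hyperplane or quadric over the
field of definition** -/
theorem no_quadric {m : ℕ} (k : Subfield ℂ) [Countable k] (F : MvPolynomial (Fin (m + 2)) ℂ)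
    (hF : F.IsHomogeneous 3) (hind : AlgebraicIndependent k (cf 3 F))
    (Φ : MvPolynomial (Fin (m + 2)) (MvPolynomial (Mon (m + 2) 3) k)) (e : ℕ) (he : e ≤ 2)
    (hΦ : Φ.IsHomogeneous e) (hΦ0 : Φ ≠ 0)
    {E : Type} [Field E] [Algebra ℂ E] (z : Fin (m + 2) → E)
    (hz : ∀ (e : ℕ) (G : MvPolynomial (Fin (m + 2)) ℂ), G.IsHomogeneous e → aeval z G = 0 → G = 0)
    (hodd : Odd (finrank (ratioField z) E)) (c : Fin (m + 2) → E) (hc : c ≠ 0)
    (hcF : aeval c F = 0)
    (hcΦ : aeval c (map (eval₂Hom k.subtype (cf 3 F)) Φ) = 0) (τ : E)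
    (hx : aeval (fun i => z i + τ * c i) F = 0) : False := by
  classical
  set D : ℕ := Φ.support.sup (fun β => (coeff β Φ).totalDegree) with hD
  set M : ℕ := 3 * D + 4 with hMdef
  have hM1 : 1 ≤ M := by omega
  have hDle : ∀ β ∈ Φ.support, (coeff β Φ).totalDegree ≤ D := fun β hβ =>
    Finset.le_sup (f := fun β => (coeff β Φ).totalDegree) hβ
  let w : Fin (m + 2) → ℕ := fun i => M ^ (i : ℕ)
  have hN : ∀ β : Fin (m + 2) →₀ ℕ, β.degree = 3 → wtt w β < 3 * M ^ (m + 2) := by
    intro β hβ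
    rw [wtt_eq]
    have h1 := wt_le hM1 β
    rw [hβ] at h1
    have h2 : M ^ (m + 1) < M ^ (m + 2) := Nat.pow_lt_pow_right (by omega) (by omega)
    omega
  obtain ⟨κ, iF, iA, s, A, θ, hθ, hs0, hcf, R, iR, iκR, A0, y', v, e', hA0, hy', hodd', hv0, hv3,
    hev, hrel, -⟩ := residue k F hF hind w (3 * M ^ (m + 2)) hN z hz hodd c hc hcF τ hx
      (T := Empty) (fun t => t.elim) (fun t => t.elim) (fun t => t.elim) (fun t => t.elim)
      (fun t => t.elim)
  -- the relation
  let Ξ0 : MvPolynomial (Fin (m + 2)) (Polynomial κ) := map (rho M θ A) Φ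
  have hΞ0h : Ξ0.IsHomogeneous e := hΦ.map _
  let Ξ : MvPolynomial (Fin (m + 2)) (Polynomial κ) := shiftX w (2 * M ^ (m + 1)) Ξ0
  have hΞh : Ξ.IsHomogeneous e := shiftX_hom _ _ _ _ hΞ0h
  have hrhoev := rho_eval M θ hθ A s F hcf
  -- the coefficients do not vanish
  have hinj : Function.Injective (eval₂Hom k.subtype (cf 3 F)) := by
    intro a b hab
    apply hind
    rw [aeval_def, aeval_def]
    exact hab
  have hrho0 : ∀ h : MvPolynomial (Mon (m + 2) 3) k, h ≠ 0 → rho M θ A h ≠ 0 := by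
    intro h h0 h1
    apply h0
    apply hinj
    rw [map_zero, ← hrhoev, RingHom.comp_apply, h1, map_zero]
  have hsE0 : algebraMap ℂ E s ≠ 0 := (map_ne_zero _).2 hs0
  have hdeg : ∀ β ∈ Φ.support, β.degree = e := by
    intro β hβ
    have := hΦ (MvPolynomial.mem_support_iff.1 hβ)
    rwa [Finsupp.degree_eq_weight_one]
  have hwle : ∀ β : Fin (m + 2) →₀ ℕ, β.degree = e → wtt w β ≤ 2 * M ^ (m + 1) := by
    intro β hβ
    rw [wtt_eq]
    refine (wt_le hM1 β).trans ?_
    rw [hβ]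
    exact Nat.mul_le_mul_right _ he
  have hsub0 : ∀ β ∈ Ξ.support, β ∈ Φ.support := by
    intro β hβ
    rw [MvPolynomial.mem_support_iff, shiftX_coeff, coeff_map] at hβ
    rw [MvPolynomial.mem_support_iff]
    intro h
    rw [h, map_zero, zero_mul] at hβ
    exact hβ rfl
  have hΞ0 : Ξ ≠ 0 := by
    obtain ⟨β, hβ⟩ := ne_zero_iff.1 hΦ0
    rw [ne_zero_iff]
    refine ⟨β, ?_⟩
    rw [shiftX_coeff, coeff_map]
    exact mul_ne_zero (hrho0 _ hβ) (pow_ne_zero _ Polynomial.X_ne_zero)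
  have hΞev : eval₂ ((algebraMap ℂ E).comp (evs κ s)) (fun i => algebraMap ℂ E s ^ w i * c i) Ξ =
      0 := by
    have h1 := shiftX_eval w (2 * M ^ (m + 1)) Ξ0 (by
      intro β hβ
      apply hwle
      have := hΞ0h (MvPolynomial.mem_support_iff.1 hβ)
      rwa [Finsupp.degree_eq_weight_one]) ((algebraMap ℂ E).comp (evs κ s)) c
    have h2 : ((algebraMap ℂ E).comp (evs κ s)) Polynomial.X = algebraMap ℂ E s := by
      rw [RingHom.comp_apply, evs_X]
    rw [h2] at h1
    rw [h1]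
    have h3 : eval₂ ((algebraMap ℂ E).comp (evs κ s)) c Ξ0 = 0 := by
      change eval₂ ((algebraMap ℂ E).comp (evs κ s)) c (map (rho M θ A) Φ) = 0
      rw [eval₂_map, RingHom.comp_assoc, hrhoev, ← eval₂_map]
      exact hcΦ
    rw [h3, mul_zero]
  -- different trailing degrees
  have hdist : ∀ β ∈ Ξ.support, ∀ β' ∈ Ξ.support,
      (coeff β Ξ).natTrailingDegree = (coeff β' Ξ).natTrailingDegree → β = β' := by
    intro β hβ β' hβ' heq
    have hb := hsub0 β hβ
    have hb' := hsub0 β' hβ'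
    have n0 := hrho0 _ (MvPolynomial.mem_support_iff.1 hb)
    have n0' := hrho0 _ (MvPolynomial.mem_support_iff.1 hb')
    obtain ⟨n, hn1, hn2⟩ := rho_trailing M θ A (coeff β Φ) n0 (by
      have := hDle β hb
      omega)
    obtain ⟨n', hn1', hn2'⟩ := rho_trailing M θ A (coeff β' Φ) n0' (by
      have := hDle β' hb'
      omega)
    rw [shiftX_coeff, shiftX_coeff, coeff_map, coeff_map,
      Polynomial.natTrailingDegree_mul_X_pow n0, Polynomial.natTrailingDegree_mul_X_pow n0',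
      hn2, hn2'] at heq
    have w1 := hwle β (hdeg β hb)
    have w2 := hwle β' (hdeg β' hb')
    rw [wtt_eq] at w1 w2
    rw [wtt_eq, wtt_eq] at heq
    have hb2 : ∀ i, β i ≤ 2 := by
      intro i
      have h1 : β i ≤ ∑ j, β j := Finset.single_le_sum (f := fun j => β j)
        (fun _ _ => Nat.zero_le _) (Finset.mem_univ i)
      rw [deg_sum, hdeg β hb] at h1
      exact h1.trans he
    have hb2' : ∀ i, β' i ≤ 2 := by
      intro i
      have h1 : β' i ≤ ∑ j, β' j := Finset.single_le_sum (f := fun j => β' j)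
        (fun _ _ => Nat.zero_le _) (Finset.mem_univ i)
      rw [deg_sum, hdeg β' hb'] at h1
      exact h1.trans he
    let dd : Fin (m + 3) → ℤ := Fin.snoc (α := fun _ => ℤ)
      (fun i : Fin (m + 2) => 3 * ((n i.castSucc : ℤ) - n' i.castSucc) - (β i - β' i))
      (3 * ((n (Fin.last (m + 2)) : ℤ) - n' (Fin.last (m + 2))))
    have hdc : ∀ i : Fin (m + 2), dd i.castSucc =
        3 * ((n i.castSucc : ℤ) - n' i.castSucc) - (β i - β' i) := fun i => by
      simp [dd]
    have hdl : dd (Fin.last (m + 2)) =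
        3 * ((n (Fin.last (m + 2)) : ℤ) - n' (Fin.last (m + 2))) := by
      simp [dd]
    have hz := digits M dd (by
      intro j
      refine Fin.lastCases ?_ (fun i => ?_) j
      · rw [hdl]
        have g1 := (hn1 (Fin.last (m + 2))).trans (hDle β hb)
        have g2 := (hn1' (Fin.last (m + 2))).trans (hDle β' hb')
        rw [abs_lt]
        constructor <;> omega
      · rw [hdc]
        have g1 := (hn1 i.castSucc).trans (hDle β hb)
        have g2 := (hn1' i.castSucc).trans (hDle β' hb')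
        have g3 := hb2 i
        have g4 := hb2' i
        rw [abs_lt]
        constructor <;> omega) (by
      rw [Fin.sum_univ_castSucc, hdl]
      simp only [hdc, Fin.val_castSucc, Fin.val_last]
      have e1 : (wt M n : ℤ) = ∑ i : Fin (m + 2), (n i.castSucc : ℤ) * (M : ℤ) ^ (i : ℕ) +
          n (Fin.last (m + 2)) * (M : ℤ) ^ (m + 2) := by
        unfold wt
        rw [Fin.sum_univ_castSucc]
        push_cast
        simp only [Fin.val_castSucc, Fin.val_last]
      have e2 : (wt M n' : ℤ) = ∑ i : Fin (m + 2), (n' i.castSucc : ℤ) * (M : ℤ) ^ (i : ℕ) +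
          n' (Fin.last (m + 2)) * (M : ℤ) ^ (m + 2) := by
        unfold wt
        rw [Fin.sum_univ_castSucc]
        push_cast
        simp only [Fin.val_castSucc, Fin.val_last]
      have e3 : (wt M β : ℤ) = ∑ i : Fin (m + 2), (β i : ℤ) * (M : ℤ) ^ (i : ℕ) := by
        unfold wt
        push_cast
        rfl
      have e4 : (wt M β' : ℤ) = ∑ i : Fin (m + 2), (β' i : ℤ) * (M : ℤ) ^ (i : ℕ) := by
        unfold wt
        push_cast
        rfl
      have e5 : (3 * (wt M n : ℤ) - wt M β) = 3 * (wt M n' : ℤ) - wt M β' := by omega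
      have e6 : ∑ i : Fin (m + 2), (3 * ((n i.castSucc : ℤ) - n' i.castSucc) -
          ((β i : ℤ) - β' i)) * (M : ℤ) ^ (i : ℕ) =
          3 * (∑ i : Fin (m + 2), (n i.castSucc : ℤ) * (M : ℤ) ^ (i : ℕ)) -
          3 * (∑ i : Fin (m + 2), (n' i.castSucc : ℤ) * (M : ℤ) ^ (i : ℕ)) -
          (∑ i : Fin (m + 2), (β i : ℤ) * (M : ℤ) ^ (i : ℕ) -
            ∑ i : Fin (m + 2), (β' i : ℤ) * (M : ℤ) ^ (i : ℕ)) := by
        rw [Finset.mul_sum, Finset.mul_sum, ← Finset.sum_sub_distrib, ← Finset.sum_sub_distrib,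
          ← Finset.sum_sub_distrib]
        refine Finset.sum_congr rfl fun i _ => ?_
        ring
      rw [e6]
      rw [e1, e2, e3, e4] at e5
      linear_combination e5)
    ext i
    have h5 := congrFun hz i.castSucc
    rw [hdc, Pi.zero_apply] at h5
    have g3 := hb2 i
    have g4 := hb2' i
    omega
  obtain ⟨r, Ξ', β0, l, hl, hβ0, hfac, hsupp, hlead⟩ := leading Ξ hΞ0 hdist
  have hΞ'h : Ξ'.IsHomogeneous e := by
    intro β hβ
    exact hΞh (MvPolynomial.mem_support_iff.1 (hsupp (MvPolynomial.mem_support_iff.2 hβ)))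
  have hΞ'ev : eval₂ ((algebraMap ℂ E).comp (evs κ s)) (fun i => algebraMap ℂ E s ^ w i * c i) Ξ' =
      0 := by
    rw [hfac, eval₂_mul, eval₂_C, RingHom.comp_apply, map_pow, evs_X, map_pow] at hΞev
    exact (mul_eq_zero.1 hΞev).resolve_left (pow_ne_zero _ hsE0)
  have h1 := hrel e Ξ' hΞ'h hΞ'ev
  rw [← eval₂_map, hlead, eval₂_monomial, Finsupp.prod_pow] at h1
  have h2 := (mul_eq_zero.1 h1).resolve_left ((map_ne_zero _).2 hl)
  obtain ⟨i, -, hi⟩ := Finset.prod_eq_zero_iff.1 h2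
  have hvi : v i = 0 := by
    by_contra h
    exact pow_ne_zero _ h hi
  exact hv0 (second_any y' hy' hodd' v e' i hvi hev)

end

end Pool.Agent.T9h1
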