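import Pool.Agent.T9h1.Main1

/-! # Specialization to the sum of cubes: the residue data -/

set_option autoImplicit false

namespace Pool.Agent.T9h1

open MvPolynomial Module IntermediateField FF Pool.Agent.R845.E3 Pool.Agent.R845.E3.Trans

noncomputable section

/-- evaluation of polynomials in the parameter `s` -/
def evs (κ : Type) {E : Type} [Field κ] [Field E] [Algebra κ E] (s : E) : Polynomial κ →+* E :=
  Polynomial.eval₂RingHom (algebraMap κ E) s

theorem evs_C {κ E : Type} [Field κ] [Field E] [Algebra κ E] (s : E) (a : κ) :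
    evs κ s (Polynomial.C a) = algebraMap κ E a := Polynomial.eval₂_C _ _

theorem evs_X {κ E : Type} [Field κ] [Field E] [Algebra κ E] (s : E) :
    evs κ s Polynomial.X = s := Polynomial.eval₂_X _ _

section

variable {κ K E : Type} [Field κ] [CharZero κ] [Field K] [Field E] [Algebra κ K] [Algebra K E]
  [Algebra κ E] [IsScalarTower κ K E]

/-- evaluation of polynomials in the parameter in the valuation ring -/
def kX (w : Place κ E) (s : w.O) : Polynomial κ →+* w.O := Polynomial.eval₂RingHom (kO w) s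

omit [CharZero κ] in
theorem coe_kX (w : Place κ E) (s : w.O) : w.O.subtype.comp (kX w s) = evs κ (s : E) := by
  apply Polynomial.ringHom_ext
  · intro a
    rw [RingHom.comp_apply, evs_C]
    change ((Polynomial.eval₂ (kO w) s (Polynomial.C a) : w.O) : E) = _
    rw [Polynomial.eval₂_C]
    rfl
  · rw [RingHom.comp_apply, evs_X]
    change ((Polynomial.eval₂ (kO w) s Polynomial.X : w.O) : E) = _
    rw [Polynomial.eval₂_X]

omit [CharZero κ] in
theorem res_kX (w : Place κ E) (s : w.O) (hs : w.resHom s = 0) :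
    w.resHom.comp (kX w s) = (algebraMap κ w.RF).comp Polynomial.constantCoeff := by
  apply Polynomial.ringHom_ext
  · intro a
    rw [RingHom.comp_apply, RingHom.comp_apply]
    change w.resHom (Polynomial.eval₂ (kO w) s (Polynomial.C a)) = _
    rw [Polynomial.eval₂_C]
    have h1 := RingHom.congr_fun (res_kO w) a
    rw [RingHom.comp_apply] at h1
    rw [h1]
    simp
  · rw [RingHom.comp_apply, RingHom.comp_apply]
    change w.resHom (Polynomial.eval₂ (kO w) s Polynomial.X) = _
    rw [Polynomial.eval₂_X, hs]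
    simp

omit [CharZero κ] in
/-- the equation in the valuation ring -/
theorem eq_kX {w : Place κ E} {m : ℕ} (s : w.O) (A : MvPolynomial (Fin m) (Polynomial κ))
    (c : Fin m → w.O) :
    ((eval₂ (kX w s) c A : w.O) : E) = eval₂ (evs κ (s : E)) (fun i => (c i : E)) A := by
  change w.O.subtype (eval₂ (kX w s) c A) = _
  rw [hom_eval₂, coe_kX]
  rfl

omit [CharZero κ] in
theorem red_kX {w : Place κ E} {m : ℕ} (s : w.O) (hs : w.resHom s = 0)
    (A : MvPolynomial (Fin m) (Polynomial κ)) (c : Fin m → w.O) :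
    w.resHom (eval₂ (kX w s) c A) =
      eval₂ ((algebraMap κ w.RF).comp Polynomial.constantCoeff) (fun i => w.resHom (c i)) A := by
  rw [hom_eval₂, res_kX w s hs]

/-- **specialization of a point on a chord to the sum of cubes** -/
theorem spec2 [IsFF κ K] {m : ℕ} (σ : K) (hσ : Transcendental κ σ)
    (y : Fin (m + 1) → E) (hy : AlgebraicIndependent K y)
    (hodd : Odd (finrank (adjoin K (Set.range y)) E))
    (B : MvPolynomial (Fin (m + 2)) (Polynomial κ)) (hB : B.IsHomogeneous 3)
    (c : Fin (m + 2) → E) (hc : c ≠ 0) (τ : E)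
    (h1 : ∑ i, c i ^ 3 + algebraMap K E σ * eval₂ (evs κ (algebraMap K E σ)) c B = 0)
    (h3 : ∑ i, ((Fin.cons 1 y : Fin (m + 2) → E) i + τ * c i) ^ 3 + algebraMap K E σ *
      eval₂ (evs κ (algebraMap K E σ)) (fun i => (Fin.cons 1 y : Fin (m + 2) → E) i + τ * c i) B =
        0) :
    ∃ (R : Type) (_ : Field R) (_ : Algebra κ R) (A : Subfield R) (y' : Fin (m + 1) → R)
      (v : Fin (m + 2) → R) (e : R), CharZero A ∧ AlgebraicIndependent A y' ∧
      Odd (finrank (adjoin A (Set.range y')) R) ∧ v ≠ 0 ∧ ∑ i, v i ^ 3 = 0 ∧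
      e ^ 2 = 9 * (∑ i, (Fin.cons 1 y' : Fin (m + 2) → R) i ^ 2 * v i) ^ 2 -
        12 * (∑ i, (Fin.cons 1 y' : Fin (m + 2) → R) i ^ 3) *
          ∑ i, (Fin.cons 1 y' : Fin (m + 2) → R) i * v i ^ 2 ∧
      (∀ (d : ℕ) (Ξ : MvPolynomial (Fin (m + 2)) (Polynomial κ)), Ξ.IsHomogeneous d →
        eval₂ (evs κ (algebraMap K E σ)) c Ξ = 0 →
        eval₂ ((algebraMap κ R).comp Polynomial.constantCoeff) v Ξ = 0) ∧
      (∀ (d : ℕ) (Ψ : MvPolynomial (Fin (m + 2)) K), Ψ.IsHomogeneous d → Ψ ≠ 0 →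
        aeval c Ψ = 0 → ∃ Ψ' : MvPolynomial (Fin (m + 2)) A, Ψ'.IsHomogeneous d ∧ Ψ' ≠ 0 ∧
          Ψ'.support ⊆ Ψ.support ∧ aeval v Ψ' = 0) := by
  classical
  -- the place
  obtain ⟨S0, hS0, -, hsum0⟩ := zeros hσ
  have hfin0 := IsFF.finite hσ
  have hpos0 : 0 < finrank κ⟮σ⟯ K := finrank_pos
  obtain ⟨P, hP⟩ : ∃ P : Place κ K, 0 < P.ord σ := by
    by_contra hcon
    push Not at hcon
    have : S0 = ∅ := by
      rw [Finset.eq_empty_iff_forall_notMem]
      intro w hw
      exact absurd ((hS0 w).1 hw) (not_lt.2 (hcon w))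
    rw [this, Finset.sum_empty] at hsum0
    omega
  obtain ⟨ϖ, hϖ0, hϖ1⟩ := P.surj
  have hfin : FiniteDimensional (adjoin K (Set.range y)) E := FiniteDimensional.of_finrank_pos hodd.pos
  obtain ⟨S, hS, hsum⟩ := gfi κ K E (m + 1) P ϖ y hϖ0 hϖ1 hy hfin
  rw [← hsum] at hodd
  obtain ⟨w, hwS, hwodd⟩ := exists_odd S _ _ hodd
  obtain ⟨hO, hϖ, hyr, hyp⟩ := (hS w).1 hwS
  have hO' : Ov P w := hO
  have hind := (prim_iff hO' hϖ0 hϖ1 hϖ hyr).1 hyp
  rw [finrank_closure] at hwodd
  change Odd (finrank (adjoin (Subfield.closure (As (K := K) P w))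
    (Set.range fun j => w.red (y j))) w.RF) at hwodd
  have hcharR : CharZero w.RF := charZero_of_injective_algebraMap (algebraMap κ w.RF).injective
  have hcharA : CharZero (Subfield.closure (As (K := K) P w)) := inferInstance
  -- the scalar
  obtain ⟨hsr, hs0⟩ := red_pos hO' hϖ0 hϖ1 hϖ (a := σ) (Or.inr hP)
  set s : E := algebraMap K E σ with hs
  set z : Fin (m + 2) → E := Fin.cons 1 y with hz
  have hzr : ∀ i, w.Reg (z i) := by
    intro i
    refine Fin.cases ?_ (fun j => ?_) i
    · exact w.reg_one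
    · exact hyr j
  have hzred : (fun i => w.red (z i)) =
      (Fin.cons 1 (fun j => w.red (y j)) : Fin (m + 2) → w.RF) := by
    funext i
    refine Fin.cases ?_ (fun j => ?_) i
    · exact w.red_one
    · rfl
  -- scaling
  have hne : (Finset.univ.filter fun i => c i ≠ 0).Nonempty := by
    by_contra h0
    rw [Finset.not_nonempty_iff_eq_empty, Finset.filter_eq_empty_iff] at h0
    exact hc (funext fun i => not_not.1 (h0 (Finset.mem_univ i)))
  obtain ⟨i0, hi0, hmin⟩ := Finset.exists_min_image _ (fun i => w.ord (c i)) hne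
  have hci0 : c i0 ≠ 0 := (Finset.mem_filter.1 hi0).2
  let v : Fin (m + 2) → E := fun i => (c i0)⁻¹ * c i
  have hvr : ∀ i, w.Reg (v i) := by
    intro i
    by_cases h : c i = 0
    · left
      change (c i0)⁻¹ * c i = 0
      rw [h, mul_zero]
    · right
      change 0 ≤ w.ord ((c i0)⁻¹ * c i)
      rw [w.ord_mul (inv_ne_zero hci0) h, w.ord_inv]
      have := hmin i (Finset.mem_filter.2 ⟨Finset.mem_univ i, h⟩)
      omega
  have hv1 : v i0 = 1 := inv_mul_cancel₀ hci0
  have hvne : (fun i => w.red (v i)) ≠ 0 := by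
    intro h
    have h4 := congrFun h i0
    simp only [hv1, w.red_one, Pi.zero_apply] at h4
    exact one_ne_zero h4
  have hcv : c = fun i => c i0 * v i := by
    funext i
    change c i = c i0 * ((c i0)⁻¹ * c i)
    rw [mul_inv_cancel_left₀ hci0]
  have hBhom : ∀ (a : E) (u : Fin (m + 2) → E), eval₂ (evs κ s) (fun i => a * u i) B =
      a ^ 3 * eval₂ (evs κ s) u B := fun a u => eval₂_smul _ _ _ hB
  have h1' : ∑ i, v i ^ 3 + s * eval₂ (evs κ s) v B = 0 := by
    have h4 : ∑ i, c i ^ 3 + s * eval₂ (evs κ s) c B =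
        c i0 ^ 3 * (∑ i, v i ^ 3 + s * eval₂ (evs κ s) v B) := by
      have h5 : eval₂ (evs κ s) c B = c i0 ^ 3 * eval₂ (evs κ s) v B := by
        rw [← hBhom, ← hcv]
      have h6 : ∑ i, c i ^ 3 = c i0 ^ 3 * ∑ i, v i ^ 3 := by
        rw [Finset.mul_sum]
        refine Finset.sum_congr rfl fun i _ => ?_
        conv_lhs => rw [hcv]
        ring
      rw [h5, h6]
      ring
    rw [h4] at h1
    exact (mul_eq_zero.1 h1).resolve_left (pow_ne_zero 3 hci0)
  set τ' : E := τ * c i0 with hτ'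
  have hzv : (fun i => z i + τ * c i) = fun i => z i + τ' * v i := by
    funext i
    have h4 : c i = c i0 * v i := congrFun hcv i
    rw [h4, hτ']
    ring
  rw [hzv] at h3
  have h3' : ∑ i, (z i + τ' * v i) ^ 3 + s * eval₂ (evs κ s) (fun i => z i + τ' * v i) B = 0 := by
    rw [← h3]
    congr 1
    refine Finset.sum_congr rfl fun i _ => ?_
    have h4 : z i + τ * c i = z i + τ' * v i := congrFun hzv i
    rw [h4]
  clear h3
  -- the valuation ring
  let sO : w.O := ⟨s, hsr⟩
  let vO : Fin (m + 2) → w.O := fun i => ⟨v i, hvr i⟩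
  let zO : Fin (m + 2) → w.O := fun i => ⟨z i, hzr i⟩
  have hsO : w.resHom sO = 0 := by
    rw [← w.red_of_reg hsr]
    exact hs0
  have hrv : ∀ i, w.resHom (vO i) = w.red (v i) := fun i => (w.red_of_reg (hvr i)).symm
  have hrz : ∀ i, w.resHom (zO i) = w.red (z i) := fun i => (w.red_of_reg (hzr i)).symm
  have hinj : Function.Injective (fun a : w.O => (a : E)) := Subtype.val_injective
  have hcoesum : ∀ u : Fin (m + 2) → w.O, ((∑ i, u i ^ 3 : w.O) : E) = ∑ i, (u i : E) ^ 3 := by
    intro u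
    change w.O.subtype (∑ i, u i ^ 3) = _
    rw [map_sum]
    refine Finset.sum_congr rfl fun i _ => ?_
    rw [map_pow]
    rfl
  have g1 : ∑ i, vO i ^ 3 + sO * eval₂ (kX w sO) vO B = 0 := by
    apply hinj
    change ((∑ i, vO i ^ 3 : w.O) : E) + s * ((eval₂ (kX w sO) vO B : w.O) : E) = 0
    rw [hcoesum, eq_kX]
    exact h1'
  have hrs : ∀ u : Fin (m + 2) → w.O, w.resHom (∑ i, u i ^ 3) = ∑ i, w.resHom (u i) ^ 3 := by
    intro u
    rw [map_sum]
    exact Finset.sum_congr rfl fun i _ => map_pow _ _ _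
  have g1' : ∑ i, w.red (v i) ^ 3 = 0 := by
    have h4 := congrArg w.resHom g1
    rw [map_add, map_mul, hsO, zero_mul, add_zero, map_zero, hrs] at h4
    rw [← h4]
    exact Finset.sum_congr rfl fun i _ => by rw [hrv]
  -- the relations
  have hrel1 : ∀ (d : ℕ) (Ξ : MvPolynomial (Fin (m + 2)) (Polynomial κ)), Ξ.IsHomogeneous d →
        eval₂ (evs κ s) c Ξ = 0 →
        eval₂ ((algebraMap κ w.RF).comp Polynomial.constantCoeff) (fun i => w.red (v i)) Ξ = 0 := by
    intro d Ξ hΞ h0
    rw [hcv, eval₂_smul _ _ _ hΞ] at h0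
    have h4 := (mul_eq_zero.1 h0).resolve_left (pow_ne_zero d hci0)
    have h5 : eval₂ (kX w sO) vO Ξ = 0 := by
      apply hinj
      change ((eval₂ (kX w sO) vO Ξ : w.O) : E) = 0
      rw [eq_kX]
      exact h4
    have h6 := congrArg w.resHom h5
    rw [red_kX sO hsO, map_zero] at h6
    have h7 : (fun i => w.resHom (vO i)) = fun i => w.red (v i) := funext hrv
    rwa [h7] at h6
  have hrel2 : ∀ (d : ℕ) (Ψ : MvPolynomial (Fin (m + 2)) K), Ψ.IsHomogeneous d → Ψ ≠ 0 →
        aeval c Ψ = 0 → ∃ Ψ' : MvPolynomial (Fin (m + 2)) (Subfield.closure (As (K := K) P w)),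
          Ψ'.IsHomogeneous d ∧ Ψ' ≠ 0 ∧
          Ψ'.support ⊆ Ψ.support ∧ aeval (fun i => w.red (v i)) Ψ' = 0 := by
    intro d Ψ hΨ hΨ0 h0
    rw [hcv, aeval_def, eval₂_smul _ _ _ hΨ] at h0
    have h4 := (mul_eq_zero.1 h0).resolve_left (pow_ne_zero d hci0)
    obtain ⟨β0, hβ0, hβmin⟩ := Finset.exists_min_image Ψ.support (fun β => P.ord (coeff β Ψ))
      (by
        rw [Finset.nonempty_iff_ne_empty]
        intro h
        exact hΨ0 (MvPolynomial.support_eq_empty.1 h))
    have hcβ0 : coeff β0 Ψ ≠ 0 := MvPolynomial.mem_support_iff.1 hβ0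
    let g : (Fin (m + 2) →₀ ℕ) → K := fun β => coeff β Ψ / coeff β0 Ψ
    have hgr : ∀ β ∈ Ψ.support, P.Reg (g β) := by
      intro β hβ
      right
      change 0 ≤ P.ord (coeff β Ψ / coeff β0 Ψ)
      rw [P.ord_div (MvPolynomial.mem_support_iff.1 hβ) hcβ0]
      have := hβmin β hβ
      omega
    have hmem : ∀ β ∈ Ψ.support, w.red (algebraMap K E (g β)) ∈
        Subfield.closure (As (K := K) P w) := fun β hβ =>
      Subfield.subset_closure ⟨g β, hgr β hβ, rfl⟩
    let q : (Fin (m + 2) →₀ ℕ) → Subfield.closure (As (K := K) P w) := fun β =>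
      if h : β ∈ Ψ.support then ⟨w.red (algebraMap K E (g β)), hmem β h⟩ else 0
    let Ψ' : MvPolynomial (Fin (m + 2)) (Subfield.closure (As (K := K) P w)) :=
      ∑ β ∈ Ψ.support, monomial β (q β)
    have hco : ∀ β, coeff β Ψ' = if β ∈ Ψ.support then q β else 0 := by
      intro β
      change coeff β (∑ β ∈ Ψ.support, monomial β (q β)) = _
      rw [coeff_sum]
      simp only [coeff_monomial]
      rw [Finset.sum_ite_eq']
    have hsub : Ψ'.support ⊆ Ψ.support := by
      intro β hβ
      rw [MvPolynomial.mem_support_iff, hco] at hβ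
      by_contra h
      exact hβ (if_neg h)
    refine ⟨Ψ', ?_, ?_, hsub, ?_⟩
    · intro β hβ
      exact hΨ (MvPolynomial.mem_support_iff.1 (hsub (MvPolynomial.mem_support_iff.2 hβ)))
    · intro h
      have h5 := hco β0
      rw [h, coeff_zero, if_pos hβ0] at h5
      have h6 : q β0 = 1 := by
        change (if h : β0 ∈ Ψ.support then (⟨w.red (algebraMap K E (g β0)), hmem β0 h⟩ :
          Subfield.closure (As (K := K) P w)) else 0) = 1
        rw [dif_pos hβ0]
        apply Subtype.ext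
        change w.red (algebraMap K E (coeff β0 Ψ / coeff β0 Ψ)) = 1
        rw [div_self hcβ0, map_one, w.red_one]
      rw [h6] at h5
      exact zero_ne_one h5
    · -- the value
      have h5 : ∑ β ∈ Ψ.support, algebraMap K E (g β) * ∏ i, v i ^ β i = 0 := by
        rw [eval₂_eq'] at h4
        have h6 : ∑ β ∈ Ψ.support, algebraMap K E (g β) * ∏ i, v i ^ β i =
            (algebraMap K E (coeff β0 Ψ))⁻¹ *
              ∑ β ∈ Ψ.support, algebraMap K E (coeff β Ψ) * ∏ i, v i ^ β i := by
          rw [Finset.mul_sum]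
          refine Finset.sum_congr rfl fun β _ => ?_
          change algebraMap K E (coeff β Ψ / coeff β0 Ψ) * _ = _
          rw [map_div₀]
          ring
        rw [h6, h4, mul_zero]
      have hgO : ∀ β ∈ Ψ.support, w.Reg (algebraMap K E (g β)) := fun β hβ => hO _ (hgr β hβ)
      let gO : (Fin (m + 2) →₀ ℕ) → w.O := fun β =>
        if h : β ∈ Ψ.support then ⟨algebraMap K E (g β), hgO β h⟩ else 0
      have hgOc : ∀ β ∈ Ψ.support, ((gO β : w.O) : E) = algebraMap K E (g β) := by
        intro β hβ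
        change ((if h : β ∈ Ψ.support then (⟨algebraMap K E (g β), hgO β h⟩ : w.O) else 0 : w.O) : E)
          = _
        rw [dif_pos hβ]
      have h6 : ∑ β ∈ Ψ.support, gO β * ∏ i, vO i ^ β i = 0 := by
        apply hinj
        change w.O.subtype (∑ β ∈ Ψ.support, gO β * ∏ i, vO i ^ β i) = 0
        rw [map_sum, ← h5]
        refine Finset.sum_congr rfl fun β hβ => ?_
        rw [map_mul, map_prod]
        congr 1
        exact hgOc β hβ
      have h7 := congrArg w.resHom h6
      rw [map_sum, map_zero] at h7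
      rw [map_sum, ← h7]
      refine Finset.sum_congr rfl fun β hβ => ?_
      rw [aeval_monomial, map_mul, map_prod, Finsupp.prod_pow]
      congr 1
      · change ((if h : β ∈ Ψ.support then (⟨w.red (algebraMap K E (g β)), hmem β h⟩ :
          Subfield.closure (As (K := K) P w)) else 0 : Subfield.closure (As (K := K) P w)) : w.RF) = _
        rw [dif_pos hβ]
        change w.red (algebraMap K E (g β)) = _
        rw [w.red_of_reg (hgO β hβ)]
        congr 1
        exact (Subtype.ext (hgOc β hβ)).symm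
      · refine Finset.prod_congr rfl fun i _ => ?_
        rw [map_pow, hrv]
  by_cases hτr : w.Reg τ'
  · -- the point specializes to a point of the chord
    let τO : w.O := ⟨τ', hτr⟩
    have g3 : ∑ i, (zO i + τO * vO i) ^ 3 + sO * eval₂ (kX w sO)
        (fun i => zO i + τO * vO i) B = 0 := by
      apply hinj
      change ((∑ i, (zO i + τO * vO i) ^ 3 : w.O) : E) +
        s * ((eval₂ (kX w sO) (fun i => zO i + τO * vO i) B : w.O) : E) = 0
      rw [hcoesum, eq_kX]
      exact h3'
    have g3' : ∑ i, (w.red (z i) + w.red τ' * w.red (v i)) ^ 3 = 0 := by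
      have h4 := congrArg w.resHom g3
      rw [map_add, map_mul, hsO, zero_mul, add_zero, map_zero, hrs] at h4
      rw [← h4]
      refine Finset.sum_congr rfl fun i _ => ?_
      rw [map_add, map_mul, hrv, hrz]
      have h5 : w.resHom τO = w.red τ' := (w.red_of_reg hτr).symm
      rw [h5]
    have h5 : ∑ i, (w.red (z i) + w.red τ' * w.red (v i)) ^ 3 =
        ∑ i, w.red (z i) ^ 3 + 3 * w.red τ' * ∑ i, w.red (z i) ^ 2 * w.red (v i) +
        3 * w.red τ' ^ 2 * ∑ i, w.red (z i) * w.red (v i) ^ 2 +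
        w.red τ' ^ 3 * ∑ i, w.red (v i) ^ 3 := by
      rw [Finset.mul_sum, Finset.mul_sum, Finset.mul_sum, ← Finset.sum_add_distrib,
        ← Finset.sum_add_distrib, ← Finset.sum_add_distrib]
      refine Finset.sum_congr rfl fun i _ => ?_
      ring
    rw [h5, g1', mul_zero, add_zero] at g3'
    refine ⟨w.RF, inferInstance, inferInstance, Subfield.closure (As (K := K) P w),
      fun j => w.red (y j), fun i => w.red (v i),
      3 * (∑ i, w.red (z i) ^ 2 * w.red (v i)) +
        6 * w.red τ' * ∑ i, w.red (z i) * w.red (v i) ^ 2,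
      hcharA, hind, hwodd, hvne, g1', ?_, hrel1, hrel2⟩
    rw [← hzred]
    linear_combination (-12) * (∑ i, w.red (z i) * w.red (v i) ^ 2) * (-g3')
  · -- the chord specializes to a tangent
    exfalso
    have hτ0 : τ' ≠ 0 := fun h => hτr (Or.inl h)
    have hτneg : w.ord τ' < 0 := by
      by_contra h
      push Not at h
      exact hτr (Or.inr h)
    have hεpos : 0 < w.ord τ'⁻¹ := by
      rw [w.ord_inv]
      omega
    let ε : w.O := ⟨τ'⁻¹, Or.inr hεpos.le⟩
    have hε0 : ε ≠ 0 := fun h => inv_ne_zero hτ0 (congrArg Subtype.val h)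
    have hεr : w.resHom ε = 0 := by
      have h4 : w.red τ'⁻¹ = w.resHom ε := w.red_of_reg (Or.inr hεpos.le)
      rw [← h4]
      exact (w.red_eq_zero_iff (Or.inr hεpos.le)).2 (Or.inr hεpos)
    have h4 : ∑ i, (v i + τ'⁻¹ * z i) ^ 3 + s * eval₂ (evs κ s) (fun i => v i + τ'⁻¹ * z i) B = 0 := by
      have h5 : (fun i => z i + τ' * v i) = fun i => τ' * (v i + τ'⁻¹ * z i) := by
        funext i
        field_simp
        ring
      have h6 : ∑ i, (z i + τ' * v i) ^ 3 = τ' ^ 3 * ∑ i, (v i + τ'⁻¹ * z i) ^ 3 := by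
        rw [Finset.mul_sum]
        refine Finset.sum_congr rfl fun i _ => ?_
        have h7 : z i + τ' * v i = τ' * (v i + τ'⁻¹ * z i) := congrFun h5 i
        rw [h7]
        ring
      rw [h5, hBhom, h6] at h3'
      have h8 : τ' ^ 3 * (∑ i, (v i + τ'⁻¹ * z i) ^ 3 + s * eval₂ (evs κ s) (fun i =>
          v i + τ'⁻¹ * z i) B) = 0 := by
        rw [← h3']
        ring
      exact (mul_eq_zero.1 h8).resolve_left (pow_ne_zero 3 hτ0)
    have g3 : ∑ i, (vO i + ε * zO i) ^ 3 + sO * eval₂ (kX w sO) (fun i => vO i + ε * zO i) B = 0 := by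
      apply hinj
      change ((∑ i, (vO i + ε * zO i) ^ 3 : w.O) : E) +
        s * ((eval₂ (kX w sO) (fun i => vO i + ε * zO i) B : w.O) : E) = 0
      rw [hcoesum, eq_kX]
      exact h4
    obtain ⟨R, hR⟩ := Trans.taylor2 (kX w sO) vO zO ε B
    rw [hR] at g3
    have h5 : ∑ i, (vO i + ε * zO i) ^ 3 = ∑ i, vO i ^ 3 +
        ε * (3 * ∑ i, zO i * vO i ^ 2 + ε * (3 * ∑ i, zO i ^ 2 * vO i + ε * ∑ i, zO i ^ 3)) := by
      simp only [Finset.mul_sum, ← Finset.sum_add_distrib]
      refine Finset.sum_congr rfl fun i _ => ?_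
      ring
    rw [h5] at g3
    set q1 := ∑ i, zO i * eval₂ (kX w sO) vO (pderiv i B) with hq1
    have h6 : ε * (3 * ∑ i, zO i * vO i ^ 2 + ε * (3 * ∑ i, zO i ^ 2 * vO i + ε * ∑ i, zO i ^ 3) +
        sO * (q1 + ε * R)) = 0 := by
      linear_combination g3 - g1
    have h7 := (mul_eq_zero.1 h6).resolve_left hε0
    have h8 := congrArg w.resHom h7
    rw [map_add, map_add, map_mul, map_mul, map_mul, hεr, hsO, zero_mul, zero_mul, add_zero,
      add_zero, map_zero, map_ofNat] at h8
    have h9 : ∑ i, (Fin.cons 1 (fun j => w.red (y j)) : Fin (m + 2) → w.RF) i * w.red (v i) ^ 2 = 0 := by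
      rw [← hzred]
      have h10 : w.resHom (∑ i, zO i * vO i ^ 2) = ∑ i, w.red (z i) * w.red (v i) ^ 2 := by
        rw [map_sum]
        refine Finset.sum_congr rfl fun i _ => ?_
        rw [map_mul, map_pow, hrv, hrz]
      rw [h10] at h8
      exact (mul_eq_zero.1 h8).resolve_left (by norm_num)
    exact hvne (diagE (fun j => w.red (y j)) hind hwodd _ h9)

end

end

end Pool.Agent.T9h1
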