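import Pool.Agent.N122.Change
import Pool.Agent.R845.VG
import Pool.Agent.R845.T2.Fd
import Pool.Agent.T9h1.Spec2
import Pool.Agent.T9h1.Kappa2
import Pool.Agent.T9h1.Descent2
import Pool.Agent.T9h1.Chord2

/-! # Specialization of a chord of a generic cubic to a chord of the sum of cubes -/

set_option autoImplicit false

namespace Pool.Agent.T9h1

open MvPolynomial Module IntermediateField FF Pool.Agent.R845.E3 Pool.Agent.R845.E3.Trans
open Pool.Agent.TH314.PD Pool.Agent.N122 Pool.Agent.R845.VG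

noncomputable section

/-- the coefficients of the form `∑ X ^ (3 w_i) x_i ^ 3` -/
def Uw {k : Type} [Field k] {m : ℕ} (w : Fin (m + 2) → ℕ) (β : Fin (m + 2) →₀ ℕ) : Polynomial k :=
  ∑ i, if β = Finsupp.single i 3 then Polynomial.X ^ (3 * w i) else 0

theorem decomp2 {m : ℕ} (k : Subfield ℂ) [Countable k] (F : MvPolynomial (Fin (m + 2)) ℂ)
    (hF : F.IsHomogeneous 3) (hind : AlgebraicIndependent k (cf 3 F)) (w : Fin (m + 2) → ℕ)
    (N : ℕ) :
    ∃ (κ : Type) (_ : Field κ) (_ : Algebra κ ℂ) (s : ℂ) (A : MvPolynomial (Fin (m + 2)) κ)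
      (θ : k →+* κ), (∀ x : k, algebraMap κ ℂ (θ x) = x) ∧ A.IsHomogeneous 3 ∧
      IsTranscendenceBasis κ (fun _ : Unit => s) ∧
      (∀ β : Mon (m + 2) 3, cf 3 F β = Polynomial.aeval s (Uw (k := k) w β.1) +
        algebraMap κ ℂ (coeff β.1 A) * s ^ N) ∧
      ∀ (R : Type) [CommRing R] [Algebra ℂ R] (x : Fin (m + 2) → R),
        aeval x F = ∑ i, (algebraMap ℂ R s ^ w i * x i) ^ 3 +
          algebraMap ℂ R s ^ N * eval₂ ((algebraMap ℂ R).comp (algebraMap κ ℂ)) x A := by
  classical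
  have hfinM : Finite (Mon (m + 2) 3) := finite_mon _ _
  let _ := Fintype.ofFinite (Mon (m + 2) 3)
  obtain ⟨κ, iF, iA, s, a, θ, h1, h2, h3⟩ := exists_kappa2 k (cf 3 F) hind
    (fun β => Uw (k := k) w β.1) N
  let A : MvPolynomial (Fin (m + 2)) κ := ∑ β : Mon (m + 2) 3, monomial β.1 (a β)
  have hA : A.IsHomogeneous 3 := by
    refine IsHomogeneous.sum _ _ _ fun β _ => ?_
    exact isHomogeneous_monomial _ β.2
  have hAc : ∀ β : Mon (m + 2) 3, coeff β.1 A = a β := by
    intro β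
    change coeff β.1 (∑ β : Mon (m + 2) 3, monomial β.1 (a β)) = _
    rw [coeff_sum, Finset.sum_eq_single β]
    · rw [coeff_monomial, if_pos rfl]
    · intro γ _ hγ
      rw [coeff_monomial, if_neg]
      intro h
      exact hγ (Subtype.ext h)
    · intro h
      exact absurd (Finset.mem_univ _) h
  refine ⟨κ, iF, iA, s, A, θ, h1, hA, h3, fun β => by rw [h2, hAc], ?_⟩
  have hcube : ∀ (i : Fin (m + 2)) (a : ℂ), (C a * X i ^ 3 : MvPolynomial (Fin (m + 2)) ℂ) =
      monomial (Finsupp.single i 3) a := by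
    intro i a
    rw [X_pow_eq_monomial, C_mul_monomial, mul_one]
  have key : F = (∑ i, C (s ^ (3 * w i)) * X i ^ 3) + C (s ^ N) * map (algebraMap κ ℂ) A := by
    ext β
    rw [coeff_add, coeff_sum, coeff_C_mul, coeff_map]
    have e1 : ∀ i, coeff β (C (s ^ (3 * w i)) * X i ^ 3 : MvPolynomial (Fin (m + 2)) ℂ) =
        if β = Finsupp.single i 3 then s ^ (3 * w i) else 0 := by
      intro i
      rw [hcube, coeff_monomial]
      simp only [eq_comm]
    by_cases hβ : β.degree = 3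
    · have h4 := h2 ⟨β, hβ⟩
      rw [hAc ⟨β, hβ⟩]
      change coeff β F = _ at h4
      rw [h4]
      congr 1
      · unfold Uw
        rw [map_sum]
        refine Finset.sum_congr rfl fun i _ => ?_
        rw [e1]
        split_ifs
        · rw [map_pow, Polynomial.aeval_X]
        · rw [map_zero]
      · ring
    · rw [hF.coeff_eq_zero hβ, hA.coeff_eq_zero hβ, map_zero, mul_zero, add_zero]
      rw [Finset.sum_eq_zero]
      intro i _
      rw [e1, if_neg]
      intro h
      apply hβ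
      rw [h, Finsupp.degree_single]
  intro R _ _ x
  conv_lhs => rw [key]
  rw [map_add, map_mul, aeval_C, map_sum]
  congr 1
  · refine Finset.sum_congr rfl fun i _ => ?_
    rw [map_mul, aeval_C, map_pow, map_pow, aeval_X]
    ring
  · rw [aeval_def, eval₂_map, map_pow]

/-- the weight of an exponent -/
def wtt {m : ℕ} (w : Fin (m + 2) → ℕ) (β : Fin (m + 2) →₀ ℕ) : ℕ := ∑ i, w i * β i

theorem prod_wtt {R : Type} [CommRing R] {m : ℕ} (s : R) (w : Fin (m + 2) → ℕ) (x : Fin (m + 2) → R)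
    (β : Fin (m + 2) →₀ ℕ) :
    ∏ i, (s ^ w i * x i) ^ β i = s ^ wtt w β * ∏ i, x i ^ β i := by
  unfold wtt
  rw [← Finset.prod_pow_eq_pow_sum, ← Finset.prod_mul_distrib]
  exact Finset.prod_congr rfl fun i _ => by rw [mul_pow, pow_mul]

/-- the form `X ^ D p (X ^ (-w) x)` -/
def shiftX {κ : Type} [Field κ] {m : ℕ} (w : Fin (m + 2) → ℕ) (D : ℕ)
    (p : MvPolynomial (Fin (m + 2)) (Polynomial κ)) : MvPolynomial (Fin (m + 2)) (Polynomial κ) :=
  ∑ β ∈ p.support, monomial β (coeff β p * Polynomial.X ^ (D - wtt w β))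

theorem shiftX_coeff {κ : Type} [Field κ] {m : ℕ} (w : Fin (m + 2) → ℕ) (D : ℕ)
    (p : MvPolynomial (Fin (m + 2)) (Polynomial κ)) (β : Fin (m + 2) →₀ ℕ) :
    coeff β (shiftX w D p) = coeff β p * Polynomial.X ^ (D - wtt w β) := by
  classical
  unfold shiftX
  rw [coeff_sum]
  simp only [coeff_monomial]
  rw [Finset.sum_ite_eq']
  split_ifs with h
  · rfl
  · rw [notMem_support_iff.1 h, zero_mul]

theorem shiftX_hom {κ : Type} [Field κ] {m : ℕ} (w : Fin (m + 2) → ℕ) (D : ℕ)
    (p : MvPolynomial (Fin (m + 2)) (Polynomial κ)) (d : ℕ) (hp : p.IsHomogeneous d) :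
    (shiftX w D p).IsHomogeneous d := by
  intro β hβ
  rw [shiftX_coeff] at hβ
  exact hp (left_ne_zero_of_mul hβ)

theorem shiftX_eval {κ R : Type} [Field κ] [CommRing R] {m : ℕ} (w : Fin (m + 2) → ℕ) (D : ℕ)
    (p : MvPolynomial (Fin (m + 2)) (Polynomial κ)) (hD : ∀ β ∈ p.support, wtt w β ≤ D)
    (f : Polynomial κ →+* R) (x : Fin (m + 2) → R) :
    eval₂ f (fun i => f Polynomial.X ^ w i * x i) (shiftX w D p) =
      f Polynomial.X ^ D * eval₂ f x p := by
  classical
  unfold shiftX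
  rw [← coe_eval₂Hom, map_sum, coe_eval₂Hom, eval₂_eq', Finset.mul_sum]
  refine Finset.sum_congr rfl fun β hβ => ?_
  rw [eval₂_monomial, Finsupp.prod_pow, prod_wtt, map_mul, map_pow]
  have h1 : f Polynomial.X ^ D = f Polynomial.X ^ (D - wtt w β) * f Polynomial.X ^ wtt w β := by
    rw [← pow_add, Nat.sub_add_cancel (hD β hβ)]
  rw [h1]
  ring

theorem Gw2 {m : ℕ} (g : Fin (m + 2) → ℂ) (hg : ∀ i, g i ≠ 0) (a b : Fin (m + 2)) :
    ∑ i, (if a = i then g a else 0) * (if b = i then (g b)⁻¹ else 0) = if a = b then 1 else 0 := by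
  rw [Finset.sum_eq_single a]
  · rw [if_pos rfl]
    by_cases h : a = b
    · rw [if_pos h, if_pos h.symm, h, mul_inv_cancel₀ (hg b)]
    · rw [if_neg h, if_neg (Ne.symm h), mul_zero]
  · intro i _ hi
    rw [if_neg (Ne.symm hi), zero_mul]
  · intro h
    exact absurd (Finset.mem_univ _) h

theorem wG2 {m : ℕ} (g : Fin (m + 2) → ℂ) (hg : ∀ i, g i ≠ 0) (i j : Fin (m + 2)) :
    ∑ a, (if a = i then (g a)⁻¹ else 0) * (if a = j then g a else 0) = if i = j then 1 else 0 := by
  rw [Finset.sum_eq_single i]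
  · rw [if_pos rfl]
    by_cases h : i = j
    · rw [if_pos h, if_pos h, inv_mul_cancel₀ (hg i)]
    · rw [if_neg h, if_neg h, mul_zero]
  · intro a _ ha
    rw [if_neg ha, zero_mul]
  · intro h
    exact absurd (Finset.mem_univ _) h

theorem nc_diag {m : ℕ} (g : Fin (m + 2) → ℂ) {R : Type} [CommRing R] [Algebra ℂ R]
    (v : Fin (m + 2) → R) :
    nc (fun a i => if a = i then g a else 0) v = fun a => algebraMap ℂ R (g a) * v a := by
  funext a
  unfold nc
  rw [Finset.sum_eq_single a]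
  · simp only [if_true]
  · intro i _ hi
    simp only [if_neg (Ne.symm hi), map_zero, zero_mul]
  · intro h
    exact absurd (Finset.mem_univ _) h

/-- **specialization of a chord of a generic cubic to a chord of the sum of cubes** -/
theorem residue {m : ℕ} (k : Subfield ℂ) [Countable k] (F : MvPolynomial (Fin (m + 2)) ℂ)
    (hF : F.IsHomogeneous 3) (hind : AlgebraicIndependent k (cf 3 F)) (w : Fin (m + 2) → ℕ) (N : ℕ)
    (hN : ∀ β : Fin (m + 2) →₀ ℕ, β.degree = 3 → wtt w β < N)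
    {E : Type} [Field E] [Algebra ℂ E] (z : Fin (m + 2) → E)
    (hz : ∀ (e : ℕ) (G : MvPolynomial (Fin (m + 2)) ℂ), G.IsHomogeneous e → aeval z G = 0 → G = 0)
    (hodd : Odd (finrank (ratioField z) E)) (c : Fin (m + 2) → E) (hc : c ≠ 0)
    (hcF : aeval c F = 0) (τ : E) (hx : aeval (fun i => z i + τ * c i) F = 0)
    {T : Type} [Fintype T] (d : T → ℕ) (Ψ : T → MvPolynomial (Fin (m + 2)) ℂ)
    (hΨ : ∀ t, (Ψ t).IsHomogeneous (d t)) (hΨ0 : ∀ t, Ψ t ≠ 0) (hΨc : ∀ t, aeval c (Ψ t) = 0) :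
    ∃ (κ : Type) (_ : Field κ) (_ : Algebra κ ℂ) (s : ℂ) (A : MvPolynomial (Fin (m + 2)) κ)
      (θ : k →+* κ), (∀ x : k, algebraMap κ ℂ (θ x) = x) ∧ s ≠ 0 ∧
      (∀ β : Mon (m + 2) 3, cf 3 F β = Polynomial.aeval s (Uw (k := k) w β.1) +
        algebraMap κ ℂ (coeff β.1 A) * s ^ N) ∧
    ∃ (R : Type) (_ : Field R) (_ : Algebra κ R) (A0 : Subfield R) (y' : Fin (m + 1) → R)
      (v : Fin (m + 2) → R) (e : R), CharZero A0 ∧ AlgebraicIndependent A0 y' ∧
      Odd (finrank (adjoin A0 (Set.range y')) R) ∧ v ≠ 0 ∧ ∑ i, v i ^ 3 = 0 ∧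
      e ^ 2 = 9 * (∑ i, (Fin.cons 1 y' : Fin (m + 2) → R) i ^ 2 * v i) ^ 2 -
        12 * (∑ i, (Fin.cons 1 y' : Fin (m + 2) → R) i ^ 3) *
          ∑ i, (Fin.cons 1 y' : Fin (m + 2) → R) i * v i ^ 2 ∧
      (∀ (d : ℕ) (Ξ : MvPolynomial (Fin (m + 2)) (Polynomial κ)), Ξ.IsHomogeneous d →
        eval₂ ((algebraMap ℂ E).comp (evs κ s)) (fun i => algebraMap ℂ E s ^ w i * c i) Ξ = 0 →
        eval₂ ((algebraMap κ R).comp Polynomial.constantCoeff) v Ξ = 0) ∧
      (w = 0 → ∀ t, ∃ Ψ' : MvPolynomial (Fin (m + 2)) A0, Ψ'.IsHomogeneous (d t) ∧ Ψ' ≠ 0 ∧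
          Ψ'.support ⊆ (Ψ t).support ∧ aeval v Ψ' = 0) := by
  classical
  obtain ⟨κ, iF, iA, s, A, θ, hθ, hA, hs, hcf, hdec⟩ := decomp2 k F hF hind w N
  have hcharκ : CharZero κ := by
    have h1 : Function.Injective (algebraMap κ ℂ) := (algebraMap κ ℂ).injective
    exact ⟨fun a b hab => by
      have h2 := congrArg (algebraMap κ ℂ) hab
      rw [map_natCast, map_natCast] at h2
      exact_mod_cast h2⟩
  have hs0 : s ≠ 0 := by
    have h1 : Transcendental κ s := by
      have := hs.1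
      rwa [algebraicIndependent_unique_type_iff] at this
    rintro rfl
    exact h1 isAlgebraic_zero
  refine ⟨κ, iF, iA, s, A, θ, hθ, hs0, hcf, ?_⟩
  set sE : E := algebraMap ℂ E s with hsE
  have hsE0 : sE ≠ 0 := (map_ne_zero _).2 hs0
  let g : Fin (m + 2) → ℂ := fun i => s ^ w i
  have hg : ∀ i, g i ≠ 0 := fun i => pow_ne_zero _ hs0
  let G : Fin (m + 2) → Fin (m + 2) → ℂ := fun a i => if a = i then g a else 0
  let G' : Fin (m + 2) → Fin (m + 2) → ℂ := fun a i => if a = i then (g a)⁻¹ else 0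
  let tr2 : (Fin (m + 2) → E) → (Fin (m + 2) → E) := fun x i => sE ^ w i * x i
  have htr : ∀ x, tr2 x = nc G x := by
    intro x
    rw [nc_diag]
    funext i
    change sE ^ w i * x i = algebraMap ℂ E (s ^ w i) * x i
    rw [map_pow]
  -- the equation of a point in the new coordinates
  let B : MvPolynomial (Fin (m + 2)) (Polynomial κ) := shiftX w (N - 1) (map Polynomial.C A)
  have hB : B.IsHomogeneous 3 := shiftX_hom _ _ _ _ (hA.map _)
  let fE : Polynomial κ →+* E := (algebraMap ℂ E).comp (evs κ s)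
  have hfX : fE Polynomial.X = sE := by
    change algebraMap ℂ E (evs κ s Polynomial.X) = _
    rw [evs_X]
  have hfC : fE.comp Polynomial.C = (algebraMap ℂ E).comp (algebraMap κ ℂ) := by
    ext a
    change algebraMap ℂ E (evs κ s (Polynomial.C a)) = _
    rw [evs_C]
    rfl
  have hN1 : N - 1 + 1 = N := by
    have h1 := hN (Finsupp.single 0 3) (Finsupp.degree_single _ _)
    omega
  have hBev : ∀ u : Fin (m + 2) → E, sE * eval₂ fE (tr2 u) B =
      sE ^ N * eval₂ ((algebraMap ℂ E).comp (algebraMap κ ℂ)) u A := by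
    intro u
    have h1 := shiftX_eval w (N - 1) (map Polynomial.C A) (by
      intro β hβ
      have h2 := MvPolynomial.mem_support_iff.1 hβ
      have h3 : β.degree = 3 := by
        by_contra hcon
        exact h2 ((hA.map _).coeff_eq_zero hcon)
      have := hN β h3
      omega) fE u
    rw [hfX] at h1
    have h2 : eval₂ fE u (map Polynomial.C A) =
        eval₂ ((algebraMap ℂ E).comp (algebraMap κ ℂ)) u A := by
      rw [eval₂_map, hfC]
    rw [h2] at h1
    change sE * eval₂ fE (fun i => sE ^ w i * u i) B = _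
    rw [h1, ← mul_assoc, ← pow_succ', hN1]
  have hpt : ∀ u : Fin (m + 2) → E, aeval u F = ∑ i, tr2 u i ^ 3 + sE * eval₂ fE (tr2 u) B := by
    intro u
    rw [hdec E u, hBev]
  -- the new coordinates
  set z' : Fin (m + 2) → E := tr2 z with hz'
  have hz'nc : z' = nc G z := htr z
  have hgen' : ∀ (e : ℕ) (H : MvPolynomial (Fin (m + 2)) ℂ), H.IsHomogeneous e →
      aeval z' H = 0 → H = 0 := by
    intro e H hH h0
    rw [hz'nc] at h0
    exact gen_nc (w := G') (Gw2 g hg) z hz e H hH h0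
  obtain ⟨hz'0, hyind⟩ := Pool.Agent.R845.T2.Fd.indep_of_generic (r := m + 1) z' hgen'
  have hz0 : z 0 ≠ 0 := by
    intro h
    exact X_ne_zero (0 : Fin (m + 2)) (hz 1 (X 0) (isHomogeneous_X _ _) (by rw [aeval_X, h]))
  have hratio : ratioField z' = ratioField z := by
    rw [hz'nc]
    exact ratio_nc (w := G') (wG2 g hg) z ⟨0, hz0⟩ ⟨0, by rw [← hz'nc]; exact hz'0⟩
  rw [← hratio, Pool.Agent.R845.T2.Fd.ratioField_eq (r := m + 1) z' hz'0] at hodd
  set y : Fin (m + 1) → E := fun l => z' ((0 : Fin (m + 2)).succAbove l) / z' 0 with hy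
  set b : Fin (m + 2) → E := tr2 c with hb
  have hb0 : b ≠ 0 := by
    intro h
    apply hc
    funext i
    have h1 := congrFun h i
    exact (mul_eq_zero.1 h1).resolve_left (pow_ne_zero _ hsE0)
  -- the descent
  obtain ⟨K, E', iK, iE', a1, a2, a3, a4, hFF, σ, y', v', ι, hσ, hy'ind, hodd', hιy, hιv, hισ, hικ,
    φ, hφ, hφC⟩ :=
    descent2 s hs y hyind hodd (Fin.cons (τ / z' 0) b : Fin (m + 2 + 1) → E)
      (Finset.univ.biUnion fun t => (Ψ t).support.image fun β => coeff β (Ψ t))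
  let b' : Fin (m + 2) → E' := fun i => v' i.succ
  have hιb : ∀ i, ι (b' i) = b i := by
    intro i
    rw [hιv, Fin.cons_succ]
  have hιτ : ι (v' 0) = τ / z' 0 := by rw [hιv, Fin.cons_zero]
  have hιf : ι.comp (evs κ (algebraMap K E' σ)) = fE := by
    apply Polynomial.ringHom_ext
    · intro a
      rw [RingHom.comp_apply, evs_C, hικ]
      exact (RingHom.congr_fun hfC a).symm
    · rw [RingHom.comp_apply, evs_X, hισ, hfX]
  have hιeval : ∀ (H : MvPolynomial (Fin (m + 2)) (Polynomial κ)) (u : Fin (m + 2) → E'),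
      ι (eval₂ (evs κ (algebraMap K E' σ)) u H) = eval₂ fE (fun i => ι (u i)) H := by
    intro H u
    rw [hom_eval₂, hιf]
  have hBhom : ∀ (a : E) (u : Fin (m + 2) → E),
      eval₂ fE (fun i => a * u i) B = a ^ 3 * eval₂ fE u B := fun a u => eval₂_smul _ _ _ hB
  obtain ⟨R, iR, iκR, A0, y0, v, e, hA0, hy0, hodd0, hv0, hv3, he, hrel1, hrel2⟩ :=
    spec2 (m := m) σ hσ y' hy'ind hodd' B hB b' (by
      intro h
      apply hb0
      funext i
      rw [← hιb, h, Pi.zero_apply, map_zero]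
      rfl) (v' 0) (by
      apply ι.injective
      rw [map_zero, map_add, map_mul, hισ, hιeval]
      have h1 : (fun i => ι (b' i)) = b := funext hιb
      rw [h1, map_sum]
      have h2 : ∑ i, ι (b' i ^ 3) = ∑ i, b i ^ 3 :=
        Finset.sum_congr rfl fun i _ => by rw [map_pow, hιb]
      rw [h2]
      have h3 := hpt c
      rw [hcF] at h3
      exact h3.symm) (by
      apply ι.injective
      rw [map_zero, map_add, map_mul, hισ, hιeval]
      have h1 : ∀ i, ι ((Fin.cons 1 y' : Fin (m + 2) → E') i + v' 0 * b' i) =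
          (z' 0)⁻¹ * (z' i + τ * b i) := by
        intro i
        rw [map_add, map_mul, hιτ, hιb]
        have h2 : ι ((Fin.cons 1 y' : Fin (m + 2) → E') i) = z' i / z' 0 := by
          refine Fin.cases ?_ (fun j => ?_) i
          · rw [Fin.cons_zero, map_one, div_self hz'0]
          · rw [Fin.cons_succ, hιy]
            rw [hy]
            simp only [Fin.zero_succAbove]
        rw [h2]
        field_simp
      rw [map_sum]
      have h3 : (fun i => ι ((Fin.cons 1 y' : Fin (m + 2) → E') i + v' 0 * b' i)) =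
          fun i => (z' 0)⁻¹ * (z' i + τ * b i) := funext h1
      rw [h3, hBhom]
      have h4 : ∑ i, ι (((Fin.cons 1 y' : Fin (m + 2) → E') i + v' 0 * b' i) ^ 3) =
          (z' 0)⁻¹ ^ 3 * ∑ i, (z' i + τ * b i) ^ 3 := by
        rw [Finset.mul_sum]
        refine Finset.sum_congr rfl fun i _ => ?_
        rw [map_pow, h1]
        ring
      rw [h4]
      have h5 := hpt (fun i => z i + τ * c i)
      have h7 : tr2 (fun i => z i + τ * c i) = fun i => z' i + τ * b i := by
        funext i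
        change sE ^ w i * (z i + τ * c i) = sE ^ w i * z i + τ * (sE ^ w i * c i)
        ring
      rw [hx, h7] at h5
      have h6 : (z' 0)⁻¹ ^ 3 * (∑ i, (z' i + τ * b i) ^ 3 +
          sE * eval₂ fE (fun i => z' i + τ * b i) B) = 0 := by
        rw [← h5, mul_zero]
      rw [← h6]
      ring)
  refine ⟨R, iR, iκR, A0, y0, v, e, hA0, hy0, hodd0, hv0, hv3, he, ?_, ?_⟩
  · intro d' Ξ hΞ h0
    refine hrel1 d' Ξ hΞ ?_
    apply ι.injective
    rw [map_zero, hιeval]
    have h1 : (fun i => ι (b' i)) = b := funext hιb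
    rw [h1]
    exact h0
  · intro hw t
    have hbc : b = c := by
      funext i
      change sE ^ w i * c i = c i
      rw [hw, Pi.zero_apply, pow_zero, one_mul]
    have hlift : ∃ ΨK : MvPolynomial (Fin (m + 2)) K, map φ ΨK = Ψ t := by
      have h1 : Ψ t ∈ Set.range (MvPolynomial.map (σ := Fin (m + 2)) φ) := by
        rw [mem_range_map_iff_coeffs_subset]
        intro a ha
        rw [Finset.mem_coe, mem_coeffs_iff] at ha
        obtain ⟨β, hβ, rfl⟩ := ha
        obtain ⟨a', ha'⟩ := hφC (coeff β (Ψ t)) (Finset.mem_biUnion.2 ⟨t, Finset.mem_univ _,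
          Finset.mem_image.2 ⟨β, hβ, rfl⟩⟩)
        exact ⟨a', ha'⟩
      exact h1
    obtain ⟨ΨK, hΨK⟩ := hlift
    have hsupp : ΨK.support = (Ψ t).support := by
      rw [← hΨK, support_map_of_injective _ φ.injective]
    obtain ⟨Ψ', k1, k2, k3, k4⟩ := hrel2 (d t) ΨK (by
      have := hΨ t
      rw [← hΨK] at this
      exact IsHomogeneous.of_map φ.injective this) (by
      intro h
      apply hΨ0 t
      rw [← hΨK, h, map_zero]) (by
      apply ι.injective
      rw [map_zero, aeval_def, hom_eval₂]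
      have h1 : ι.comp (algebraMap K E') = (algebraMap ℂ E).comp φ := RingHom.ext hφ
      have h2 : (fun i => ι (b' i)) = c := by
        funext i
        rw [hιb, hbc]
      rw [h1, h2, ← eval₂_map, hΨK]
      exact hΨc t)
    exact ⟨Ψ', k1, k2, by rw [← hsupp]; exact k3, k4⟩

end

end Pool.Agent.T9h1
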